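import Mathlib
import Pool.Agent.Lib.MP_ca1492_al.D5.Tst
import Pool.Agent.Lib.MP_ca1492_al.P.LevT

/-!
# MP_ca1492_al, comparison, module DatTr: transport of induced representations along bijections

`c : κ → ι`, `c' : κ' → ι'`, bijections `e : κ ≃ κ'`, `ε : ι ≃ ι'` with `c' (e i) = ε (c i)`; `β`, `β'` with
corresponding classes, `τ`, `τ'` corresponding orders on these classes.

* `tr_vl`: the submatrices on the classes correspond (`Matrix.det_submatrix_equiv_self`, as in `vl_T`).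
* `tr_dh`: `ex c' β' τ' (glT F e m) = ex c β τ m` (reindex the sums by `ε`, `nb c' (ε x) = nb c x`).
* `tr_uni`, `tr_upp`: entries (`glT_apply`), for `τ (c i) = τ (c j)` use injectivity of `τ`, `τ'`.
* `trI_exists`: `(Θ f)(g') = B (f (e⁻¹ g'))`, conditions of `mem_ISp`: `tr_uni`, `tr_dh`, `hB`; the open subgroup is
  the image under the homeomorphism `levT`.
* `trI_equi`: `B (f (e⁻¹ (g' h)))`. `trI_one`: `levT` of `1` is `1`.
* `tr_Cr`: `npair` is a cardinality, use the bijection `e × e`.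
* `tr_KS`: `glT F e` maps `Kc F κ r` onto `Kc F κ' r` (entries of `g - 1` and `g⁻¹ - 1`) and `upp` onto `upp`.
-/

set_option autoImplicit false

namespace Pool.Agent.Lib.MP_ca1492_al.P

open Topology Matrix ValuativeRel TensorProduct

noncomputable section

variable {F : Type} [Field F] [ValuativeRel F] [TopologicalSpace F]
  [IsNonarchimedeanLocalField F]
variable {κ κ' : Type} [Fintype κ] [DecidableEq κ] [Fintype κ'] [DecidableEq κ']
variable {ι ι' : Type} [Fintype ι] [DecidableEq ι] [Fintype ι'] [DecidableEq ι']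
variable {ι₁ ι₁' : Type}
variable {V V' E E' : Type} [AddCommGroup V] [Module ℂ V] [AddCommGroup V'] [Module ℂ V']
  [AddCommGroup E] [Module ℂ E] [AddCommGroup E'] [Module ℂ E']

omit [Fintype κ] [DecidableEq κ] [Fintype κ'] [DecidableEq κ'] [Fintype ι] [DecidableEq ι]
  [Fintype ι'] [DecidableEq ι'] in
theorem SIso_cls {c : κ → ι} {c' : κ' → ι'} (e : κ ≃ κ') (ε : ι ≃ ι')
    (he : ∀ i, c' (e i) = ε (c i)) (i j : κ) : c' (e i) = c' (e j) ↔ c i = c j := by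
  rw [he, he, ε.apply_eq_iff_eq]

omit [Fintype κ] [DecidableEq κ] [Fintype κ'] [DecidableEq κ'] [Fintype ι] [DecidableEq ι]
  [Fintype ι'] [DecidableEq ι'] in
theorem SIso_clsβ {c : κ → ι} {c' : κ' → ι'} {e : κ ≃ κ'} {ε : ι ≃ ι'}
    (he : ∀ i, c' (e i) = ε (c i)) {β : ι → ι₁} {β' : ι' → ι₁'}
    (hβ : ∀ x y, β' (ε x) = β' (ε y) ↔ β x = β y) (i j : κ) :
    (fun i => β' (c' i)) (e i) = (fun i => β' (c' i)) (e j) ↔
      (fun i => β (c i)) i = (fun i => β (c i)) j := by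
  show β' (c' (e i)) = β' (c' (e j)) ↔ β (c i) = β (c j)
  rw [he, he, hβ]

/-! ### modulus, test functions -/

section

variable (c : κ → ι) (c' : κ' → ι') (e : κ ≃ κ') (ε : ι ≃ ι') (he : ∀ i, c' (e i) = ε (c i))
  (β : ι → ι₁) (β' : ι' → ι₁') (hβ : ∀ x y, β' (ε x) = β' (ε y) ↔ β x = β y)

include he in
theorem tr_vl (g : GL κ F) (x : ι) : vl c' (glT F e g) (ε x) = vl c g x := by
  unfold vl bdet
  congr 1
  have h0 : ∀ i, c i = x ↔ c' (e i) = ε x := fun i => by rw [he, ε.apply_eq_iff_eq]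
  let E : {i // c i = x} ≃ {a // c' a = ε x} := e.subtypeEquiv h0
  have h1 : (g : Matrix κ κ F).submatrix (Subtype.val : {i // c i = x} → κ) Subtype.val =
      (((glT F e g : GL κ' F) : Matrix κ' κ' F).submatrix
        (Subtype.val : {a // c' a = ε x} → κ') Subtype.val).submatrix
        E E := by
    ext i j
    exact (glT_apply e g i.1 j.1).symm
  rw [h1, Matrix.det_submatrix_equiv_self]

include he in
theorem DatTr_nb (x : ι) : nb c' (ε x) = nb c x := by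
  unfold nb
  congr 1
  refine (Finset.card_bij (fun i _ => e i) ?_ ?_ ?_).symm
  · intro i hi
    simp only [Finset.mem_filter, Finset.mem_univ, true_and] at hi ⊢
    rw [he, hi]
  · intro i _ j _ h
    exact e.injective h
  · intro i' hi
    obtain ⟨i, rfl⟩ := e.surjective i'
    simp only [Finset.mem_filter, Finset.mem_univ, true_and] at hi
    refine ⟨i, ?_, rfl⟩
    simp only [Finset.mem_filter, Finset.mem_univ, true_and]
    rw [he, ε.apply_eq_iff_eq] at hi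
    exact hi

include he hβ in
theorem DatTr_ex (τ : ι → ℤ) (τ' : ι' → ℤ)
    (hττ : ∀ x y, β x = β y → (τ x < τ y ↔ τ' (ε x) < τ' (ε y))) (g : GL κ F) :
    ex c' β' τ' (glT F e g) = ex c β τ g := by
  unfold ex
  refine (Fintype.sum_equiv ε _ _ fun x => Fintype.sum_equiv ε _ _ fun y => ?_).symm
  rw [tr_vl c c' e ε he, tr_vl c c' e ε he, DatTr_nb c c' e ε he, DatTr_nb c c' e ε he]
  by_cases hxy : β x = β y
  · have h1 := hττ x y hxy
    by_cases h2 : τ x < τ y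
    · rw [if_pos ⟨hxy, h2⟩, if_pos ⟨(hβ x y).2 hxy, h1.1 h2⟩]
    · rw [if_neg (fun h3 => h2 h3.2), if_neg (fun h3 => h2 (h1.2 h3.2))]
  · rw [if_neg (fun h3 => hxy h3.1), if_neg (fun h3 => hxy ((hβ x y).1 h3.1))]

omit [Fintype ι] [DecidableEq ι] [Fintype ι'] [DecidableEq ι'] in
include hβ in
theorem DatTr_cmp (τ : ι → ℤ) (τ' : ι' → ℤ)
    (hττ : ∀ x y, β x = β y → (τ x < τ y ↔ τ' (ε x) < τ' (ε y))) (τ₂ : ι' → ℤ)
    (hτ₂ : ∀ y, τ₂ y = τ (ε.symm y)) (x y : ι') (h : β' x = β' y) :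
    τ' x < τ' y ↔ τ₂ x < τ₂ y := by
  obtain ⟨x, rfl⟩ := ε.surjective x
  obtain ⟨y, rfl⟩ := ε.surjective y
  rw [hτ₂, hτ₂, ε.symm_apply_apply, ε.symm_apply_apply]
  exact (hττ x y ((hβ x y).1 h)).symm

include hβ in
theorem tr_dh (τ : ι → ℤ) (τ' : ι' → ℤ)
    (hττ : ∀ x y, β x = β y → (τ x < τ y ↔ τ' (ε x) < τ' (ε y))) (m : lev F c) :
    dh c' β' τ' (levT F e (SIso_cls e ε he) m) = dh c β τ m := by
  rw [dh_apply, dh_apply, levT_val, DatTr_ex c c' e ε he β β' hβ τ τ' hττ]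

include he hβ in
theorem tr_uni (τ : ι → ℤ) (hτ : Function.Injective τ) (τ' : ι' → ℤ)
    (hτ' : Function.Injective τ')
    (hττ : ∀ x y, β x = β y → (τ x < τ y ↔ τ' (ε x) < τ' (ε y))) (g : GL κ F) :
    glT F e g ∈ uni F (fun i => β' (c' i)) (fun i => τ' (c' i)) ↔
      g ∈ uni F (fun i => β (c i)) (fun i => τ (c i)) := by
  obtain ⟨τ₂, hτ₂⟩ : ∃ τ₂ : ι' → ℤ, ∀ y, τ₂ y = τ (ε.symm y) := ⟨_, fun _ => rfl⟩
  have hinj : Function.Injective τ₂ := fun a b h => by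
    rw [hτ₂, hτ₂] at h
    exact ε.symm.injective (hτ h)
  have hcmp := DatTr_cmp ε β β' hβ τ τ' hττ τ₂ hτ₂
  rw [uni_congr c' β' τ' τ₂ hτ' hinj hcmp]
  refine uni_T e (fun i => β (c i)) (fun i => β' (c' i)) (SIso_clsβ he hβ) (fun i => τ (c i))
    (fun i => τ₂ (c' i)) (fun i => ?_) g
  show τ₂ (c' (e i)) = τ (c i)
  rw [hτ₂, he, ε.symm_apply_apply]

include he hβ in
theorem tr_upp (τ : ι → ℤ) (hτ : Function.Injective τ) (τ' : ι' → ℤ)
    (hτ' : Function.Injective τ')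
    (hττ : ∀ x y, β x = β y → (τ x < τ y ↔ τ' (ε x) < τ' (ε y))) (g : GL κ F) :
    glT F e g ∈ upp F (fun i => β' (c' i)) (fun i => τ' (c' i)) ↔
      g ∈ upp F (fun i => β (c i)) (fun i => τ (c i)) := by
  obtain ⟨τ₂, hτ₂⟩ : ∃ τ₂ : ι' → ℤ, ∀ y, τ₂ y = τ (ε.symm y) := ⟨_, fun _ => rfl⟩
  have hinj : Function.Injective τ₂ := fun a b h => by
    rw [hτ₂, hτ₂] at h
    exact ε.symm.injective (hτ h)
  have hcmp := DatTr_cmp ε β β' hβ τ τ' hττ τ₂ hτ₂
  rw [upp_congr c' β' τ' τ₂ hτ' hinj hcmp]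
  refine upp_T e (fun i => β (c i)) (fun i => β' (c' i)) (SIso_clsβ he hβ) (fun i => τ (c i))
    (fun i => τ₂ (c' i)) (fun i => ?_) g
  show τ₂ (c' (e i)) = τ (c i)
  rw [hτ₂, he, ε.symm_apply_apply]

theorem tr_Kc (r : ℕ) (g : GL κ F) : glT F e g ∈ Kc F κ' r ↔ g ∈ Kc F κ r := by
  have h1 : ∀ (x : GL κ F) (i j : κ), (((glT F e x : GL κ' F) : Matrix κ' κ' F) - 1) (e i) (e j) =
      ((x : Matrix κ κ F) - 1) i j := by
    intro x i j
    rw [Matrix.sub_apply, Matrix.sub_apply, glT_apply, LevT_one]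
  have h2 : (glT F e g)⁻¹ = glT F e g⁻¹ := (map_inv (glT F e) g).symm
  constructor
  · rintro ⟨a, b⟩
    refine ⟨fun i j => ?_, fun i j => ?_⟩
    · rw [← h1]
      exact a (e i) (e j)
    · rw [← h1, ← h2]
      exact b (e i) (e j)
  · rintro ⟨a, b⟩
    refine ⟨fun i' j' => ?_, fun i' j' => ?_⟩
    · obtain ⟨i, rfl⟩ := e.surjective i'
      obtain ⟨j, rfl⟩ := e.surjective j'
      rw [h1]
      exact a i j
    · obtain ⟨i, rfl⟩ := e.surjective i'
      obtain ⟨j, rfl⟩ := e.surjective j'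
      rw [h2, h1]
      exact b i j

include he hβ in
theorem tr_Cr (τ₁ τ₂ : ι → ℤ) (τ₁' τ₂' : ι' → ℤ)
    (h₁ : ∀ x y, β x = β y → (τ₁ x < τ₁ y ↔ τ₁' (ε x) < τ₁' (ε y)))
    (h₂ : ∀ x y, β x = β y → (τ₂ x < τ₂ y ↔ τ₂' (ε x) < τ₂' (ε y))) (r : ℕ) :
    Cr F c' β' τ₁' τ₂' r = Cr F c β τ₁ τ₂ r := by
  have h0 : npair c' β' τ₁' τ₂' = npair c β τ₁ τ₂ := by
    classical
    unfold npair
    refine (Finset.card_bij (fun p _ => (e p.1, e p.2)) ?_ ?_ ?_).symm
    · rintro ⟨i, j⟩ hp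
      simp only [Finset.mem_filter, Finset.mem_univ, true_and] at hp ⊢
      obtain ⟨a1, a2, a3⟩ := hp
      refine ⟨?_, ?_, ?_⟩
      · rw [he, he, hβ]
        exact a1
      · rw [he, he]
        exact (h₂ _ _ a1).1 a2
      · rw [he, he]
        exact (h₁ _ _ a1.symm).1 a3
    · rintro ⟨i, j⟩ _ ⟨i', j'⟩ _ h
      simp only [Prod.mk.injEq, e.apply_eq_iff_eq] at h
      exact Prod.ext h.1 h.2
    · rintro ⟨i', j'⟩ hp
      obtain ⟨i, rfl⟩ := e.surjective i'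
      obtain ⟨j, rfl⟩ := e.surjective j'
      simp only [Finset.mem_filter, Finset.mem_univ, true_and] at hp
      obtain ⟨a1, a2, a3⟩ := hp
      rw [he, he] at a1 a2 a3
      rw [hβ] at a1
      refine ⟨(i, j), ?_, rfl⟩
      simp only [Finset.mem_filter, Finset.mem_univ, true_and]
      exact ⟨a1, (h₂ _ _ a1).2 a2, (h₁ _ _ a1.symm).2 a3⟩
  unfold Cr
  rw [h0]

/-- test functions correspond; `B` injective -/
theorem tr_KS (τ : ι → ℤ) (hτ : Function.Injective τ) (τ' : ι' → ℤ)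
    (hτ' : Function.Injective τ')
    (hττ : ∀ x y, β x = β y → (τ x < τ y ↔ τ' (ε x) < τ' (ε y))) (r : ℕ)
    (f : lev F (fun i => β (c i)) → E) (f' : lev F (fun i => β' (c' i)) → E') (B : E ≃ₗ[ℂ] E')
    (hf : ∀ g, f' (levT F e (SIso_clsβ he hβ) g) = B (f g)) :
    KS c' β' τ' r f' ↔ KS c β τ r f := by
  constructor
  · rintro ⟨h1, h2⟩
    refine ⟨fun g k hk => ?_, fun g hg => ?_⟩
    · have h3 := h1 (levT F e (SIso_clsβ he hβ) g) (levT F e (SIso_clsβ he hβ) k)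
        ((tr_Kc e r k.1).2 hk)
      rw [← map_mul, hf, hf] at h3
      exact B.injective h3
    · have h3 : f' (levT F e (SIso_clsβ he hβ) g) ≠ 0 := by
        rw [hf]
        exact fun h => hg (B.map_eq_zero_iff.1 h)
      obtain ⟨p, hp, k, hk, h4⟩ := h2 _ h3
      obtain ⟨p, rfl⟩ := (glT F e).surjective p
      obtain ⟨k, rfl⟩ := (glT F e).surjective k
      refine ⟨p, (tr_upp c c' e ε he β β' hβ τ hτ τ' hτ' hττ p).1 hp, k, (tr_Kc e r k).1 hk, ?_⟩
      rw [levT_val, ← map_mul] at h4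
      exact (glT F e).injective h4
  · rintro ⟨h1, h2⟩
    refine ⟨fun g' k' hk => ?_, fun g' hg => ?_⟩
    · obtain ⟨g, rfl⟩ := (levT F e (SIso_clsβ he hβ)).surjective g'
      obtain ⟨k, rfl⟩ := (levT F e (SIso_clsβ he hβ)).surjective k'
      rw [← map_mul, hf, hf, h1 g k ((tr_Kc e r k.1).1 hk)]
    · obtain ⟨g, rfl⟩ := (levT F e (SIso_clsβ he hβ)).surjective g'
      rw [hf] at hg
      obtain ⟨p, hp, k, hk, h4⟩ := h2 g (fun h => hg (by rw [h, map_zero]))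
      refine ⟨glT F e p, (tr_upp c c' e ε he β β' hβ τ hτ τ' hτ' hττ p).2 hp, glT F e k,
        (tr_Kc e r k).2 hk, ?_⟩
      rw [levT_val, h4, map_mul]

end

/-! ### general representations -/

section

variable (c : κ → ι) (c' : κ' → ι') (e : κ ≃ κ') (ε : ι ≃ ι') (he : ∀ i, c' (e i) = ε (c i))
  (β : ι → ι₁) (β' : ι' → ι₁') (hβ : ∀ x y, β' (ε x) = β' (ε y) ↔ β x = β y)
  (τ : ι → ℤ) (hτ : Function.Injective τ) (τ' : ι' → ℤ) (hτ' : Function.Injective τ')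
  (hττ : ∀ x y, β x = β y → (τ x < τ y ↔ τ' (ε x) < τ' (ε y)))
  (σ : Representation ℂ (lev F c) E) (σ' : Representation ℂ (lev F c') E') (B : E ≃ₗ[ℂ] E')
  (hB : ∀ (m : lev F c) (x : E), B (σ m x) = σ' (levT F e (SIso_cls e ε he) m) (B x))

include hττ hB in
theorem DatTr_mem (f : lev F (fun i => β (c i)) → E) (f' : lev F (fun i => β' (c' i)) → E')
    (hf : ∀ g, f' (levT F e (SIso_clsβ he hβ) g) = B (f g)) :
    f ∈ ISp c β τ hτ σ ↔ f' ∈ ISp c' β' τ' hτ' σ' := by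
  obtain ⟨L, hL⟩ : ∃ L : lev F (fun i => β (c i)) ≃ₜ* lev F (fun i => β' (c' i)),
      L = levT F e (SIso_clsβ he hβ) := ⟨_, rfl⟩
  rw [← hL] at hf
  have hu := tr_uni (F := F) c c' e ε he β β' hβ τ hτ τ' hτ' hττ
  have key : ∀ (m : GL κ F) (hm : m ∈ lev F c) (n : GL κ F)
      (hn : n ∈ uni F (fun i => β (c i)) (fun i => τ (c i)))
      (hm' : glT F e m ∈ lev F c')
      (hn' : glT F e n ∈ uni F (fun i => β' (c' i)) (fun i => τ' (c' i)))
      (g : lev F (fun i => β (c i))),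
      L (⟨m, (ordD (F := F) c β τ hτ).hM hm⟩ *
        ⟨n, (ordD (F := F) c β τ hτ).hN hn⟩ * g) =
        ⟨glT F e m, (ordD (F := F) c' β' τ' hτ').hM hm'⟩ *
          ⟨glT F e n, (ordD (F := F) c' β' τ' hτ').hN hn'⟩ *
            L g := by
    intro m hm n hn hm' hn' g
    rw [map_mul, map_mul, hL]
    rfl
  rw [mem_ISp, mem_ISp]
  constructor
  · rintro ⟨h1, U, hU, h2⟩
    refine ⟨fun m' hm' n' hn' g' => ?_, U.comap L.symm.toMulEquiv.toMonoidHom,
      hU.preimage L.symm.continuous_toFun, fun g' u' hu' => ?_⟩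
    · obtain ⟨m, rfl⟩ := (glT F e).surjective m'
      obtain ⟨n, rfl⟩ := (glT F e).surjective n'
      obtain ⟨g, rfl⟩ := L.surjective g'
      have hm : m ∈ lev F c := (lev_T e c c' (SIso_cls e ε he) m).1 hm'
      have hn := (hu n).1 hn'
      rw [← key m hm n hn hm' hn' g, hf, hf, h1 m hm n hn g, map_smul, hB]
      have h3 := tr_dh c c' e ε he β β' hβ τ τ' hττ (⟨m, hm⟩ : lev F c)
      have h4 : levT F e (SIso_cls e ε he) (⟨m, hm⟩ : lev F c) = ⟨glT F e m, hm'⟩ := rfl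
      rw [h4] at h3 ⊢
      rw [h3]
    · obtain ⟨g, rfl⟩ := L.surjective g'
      obtain ⟨u, rfl⟩ := L.surjective u'
      have hu1 : L.symm (L u) ∈ U := hu'
      rw [L.symm_apply_apply] at hu1
      rw [← map_mul, hf, hf, h2 g u hu1]
  · rintro ⟨h1, U, hU, h2⟩
    refine ⟨fun m hm n hn g => ?_, U.comap L.toMulEquiv.toMonoidHom,
      hU.preimage L.continuous_toFun, fun g u hu' => ?_⟩
    · have hm' : glT F e m ∈ lev F c' := (lev_T e c c' (SIso_cls e ε he) m).2 hm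
      have hn' := (hu n).2 hn
      have h5 := h1 _ hm' _ hn' (L g)
      rw [← key m hm n hn hm' hn' g, hf, hf] at h5
      have h3 := tr_dh c c' e ε he β β' hβ τ τ' hττ (⟨m, hm⟩ : lev F c)
      have h4 : levT F e (SIso_cls e ε he) (⟨m, hm⟩ : lev F c) = ⟨glT F e m, hm'⟩ := rfl
      rw [h4] at h3
      have h6 := hB ⟨m, hm⟩ (f g)
      rw [h4] at h6
      rw [h3, ← h6, ← map_smul] at h5
      exact B.injective h5
    · have hu1 : L u ∈ U := hu'
      have h5 := h2 (L g) (L u) hu1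
      rw [← map_mul, hf, hf] at h5
      exact B.injective h5

include hττ hB in
theorem trI_exists : ∃ Θ : ISp c β τ hτ σ ≃ₗ[ℂ] ISp c' β' τ' hτ' σ',
    ∀ f (g : lev F (fun i => β (c i))),
      (Θ f).1 (levT F e (SIso_clsβ he hβ) g) = B (f.1 g) := by
  have hmem : ∀ (f : lev F (fun i => β (c i)) → E) (f' : lev F (fun i => β' (c' i)) → E'),
      (∀ g, f' (levT F e (SIso_clsβ he hβ) g) = B (f g)) →
      (f ∈ ISp c β τ hτ σ ↔ f' ∈ ISp c' β' τ' hτ' σ') := fun f f' hf =>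
    DatTr_mem c c' e ε he β β' hβ τ hτ τ' hτ' hττ σ σ' B hB f f' hf
  refine ⟨{
    toFun := fun f => ⟨fun g' => B (f.1 ((levT F e (SIso_clsβ he hβ)).symm g')), ?_⟩
    map_add' := fun a b => Subtype.ext (funext fun g' => map_add B _ _)
    map_smul' := fun a b => Subtype.ext (funext fun g' => map_smul B _ _)
    invFun := fun f => ⟨fun g => B.symm (f.1 (levT F e (SIso_clsβ he hβ) g)), ?_⟩
    left_inv := fun f => Subtype.ext (funext fun g => ?_)
    right_inv := fun f => Subtype.ext (funext fun g' => ?_) }, fun f g => ?_⟩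
  · refine (hmem f.1 _ fun g => ?_).1 f.2
    show B (f.1 ((levT F e (SIso_clsβ he hβ)).symm (levT F e (SIso_clsβ he hβ) g))) = B (f.1 g)
    rw [(levT F e (SIso_clsβ he hβ)).symm_apply_apply]
  · refine (hmem _ f.1 fun g => ?_).2 f.2
    rw [B.apply_symm_apply]
  · show B.symm (B (f.1 ((levT F e (SIso_clsβ he hβ)).symm (levT F e (SIso_clsβ he hβ) g)))) =
      f.1 g
    rw [(levT F e (SIso_clsβ he hβ)).symm_apply_apply, B.symm_apply_apply]
  · show B (B.symm (f.1 (levT F e (SIso_clsβ he hβ) ((levT F e (SIso_clsβ he hβ)).symm g')))) =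
      f.1 g'
    rw [(levT F e (SIso_clsβ he hβ)).apply_symm_apply, B.apply_symm_apply]
  · show B (f.1 ((levT F e (SIso_clsβ he hβ)).symm (levT F e (SIso_clsβ he hβ) g))) = B (f.1 g)
    rw [(levT F e (SIso_clsβ he hβ)).symm_apply_apply]

/-- transport of induced representations -/
def trI : ISp c β τ hτ σ ≃ₗ[ℂ] ISp c' β' τ' hτ' σ' :=
  Classical.choose (trI_exists c c' e ε he β β' hβ τ hτ τ' hτ' hττ σ σ' B hB)

theorem trI_apply (f : ISp c β τ hτ σ) (g : lev F (fun i => β (c i))) :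
    (trI c c' e ε he β β' hβ τ hτ τ' hτ' hττ σ σ' B hB f).1 (levT F e (SIso_clsβ he hβ) g) =
      B (f.1 g) :=
  Classical.choose_spec (trI_exists c c' e ε he β β' hβ τ hτ τ' hτ' hττ σ σ' B hB) f g

theorem trI_equi (g : lev F (fun i => β (c i))) (f : ISp c β τ hτ σ) :
    trI c c' e ε he β β' hβ τ hτ τ' hτ' hττ σ σ' B hB (IRp c β τ hτ σ g f) =
      IRp c' β' τ' hτ' σ' (levT F e (SIso_clsβ he hβ) g)
        (trI c c' e ε he β β' hβ τ hτ τ' hτ' hττ σ σ' B hB f) := by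
  refine Subtype.ext (funext fun x' => ?_)
  obtain ⟨x, rfl⟩ := (levT F e (SIso_clsβ he hβ)).surjective x'
  rw [trI_apply]
  have h1 : (IRp c' β' τ' hτ' σ' (levT F e (SIso_clsβ he hβ) g)
      (trI c c' e ε he β β' hβ τ hτ τ' hτ' hττ σ σ' B hB f)).1 (levT F e (SIso_clsβ he hβ) x) =
      (trI c c' e ε he β β' hβ τ hτ τ' hτ' hττ σ σ' B hB f).1
        (levT F e (SIso_clsβ he hβ) x * levT F e (SIso_clsβ he hβ) g) := rfl
  rw [h1, ← map_mul, trI_apply]
  rfl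

theorem trI_one (f : ISp c β τ hτ σ) :
    (trI c c' e ε he β β' hβ τ hτ τ' hτ' hττ σ σ' B hB f).1 1 = B (f.1 1) := by
  have h := trI_apply c c' e ε he β β' hβ τ hτ τ' hτ' hττ σ σ' B hB f 1
  rwa [map_one] at h

end

end

end Pool.Agent.Lib.MP_ca1492_al.P
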