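import Mathlib
import Pool.Agent.Lib.MP_ca1492_al.Cmp.DatTr
import Pool.Agent.Lib.MP_ca1492_al.D5.Lead

/-!
# MP_ca1492_al, comparison, module DatIso: isomorphisms of strand data

Strand data: `c : κ → ι` (colouring of the index set), `ρ` a representation of `lev F c` on `V`.
`SIso c ρ c' ρ'`: bijections `e : κ ≃ κ'`, `ε : ι ≃ ι'` with `c' (e i) = ε (c i)` and a linear isomorphism
`A : V ≃ V'` with `A (ρ m v) = ρ' (e m) (A v)`. Transport of `I_τ(hat ρ)`, of intertwining functionals and of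
leading coefficients. `s.B = A ⊗ rename ε`, `s.I` = transport of functions (`trI`), `s.Fn L = s.B ∘ L ∘ s.I⁻¹`.

* `SIso.hB`: on pure tensors, `tr_vl`, `rename ε (shiftP v p) = shiftP (v ∘ ε.symm) (rename ε p)` (on the
  variables).
* `SIso.B_op`: on pure tensors; `rename ε (psEnd y p) = psEnd (rename ε y) (rename ε p)` (`psEnd_mono`).
* `SIso.I_op`: `B_op` pointwise; every `g'` is `s.T g`.
* `SIso.mem_X1`: `FS`: `tr_uni`, `tr_dh`, `s.I_equi`, `s.hB`; commutation with `y'`: `y' = rename ε (rename ε.symm y')`.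
* `SIso.isLead`: `tr_KS`, `tr_Cr`, `s.B_op`, `trI_one`.
* `SIso.comp`: `g' = s.T g`, `s.I_apply`, `s.I_equi`, `s.Fn_apply`.
-/

set_option autoImplicit false

namespace Pool.Agent.Lib.MP_ca1492_al.P

open Topology Matrix ValuativeRel TensorProduct

noncomputable section

variable {F : Type} [Field F] [ValuativeRel F] [TopologicalSpace F]
  [IsNonarchimedeanLocalField F]
variable {κ κ' : Type} [Fintype κ] [DecidableEq κ] [Fintype κ'] [DecidableEq κ']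
variable {ι ι' : Type} [Fintype ι] [DecidableEq ι] [Fintype ι'] [DecidableEq ι']
variable {ι₁ ι₁' : Type}
variable {V V' E E' : Type} [AddCommGroup V] [Module ℂ V] [AddCommGroup V'] [Module ℂ V']
  [AddCommGroup E] [Module ℂ E] [AddCommGroup E'] [Module ℂ E']

/-! ### polynomials and power series under renaming -/

theorem DatIso_shift {ι ι' : Type} (ε : ι ≃ ι') (v : ι → ℤ) (v' : ι' → ℤ)
    (h : ∀ x, v' (ε x) = v x) (p : MvPolynomial ι ℂ) :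
    MvPolynomial.rename ε (shiftP v p) = shiftP v' (MvPolynomial.rename ε p) := by
  have h1 : (MvPolynomial.rename ε).comp
        (MvPolynomial.aeval (fun i => (MvPolynomial.X i + MvPolynomial.C (v i : ℂ) :
          MvPolynomial ι ℂ))) =
      (MvPolynomial.aeval (fun i => (MvPolynomial.X i + MvPolynomial.C (v' i : ℂ) :
          MvPolynomial ι' ℂ))).comp (MvPolynomial.rename ε) := by
    refine MvPolynomial.algHom_ext fun i => ?_
    rw [AlgHom.comp_apply, AlgHom.comp_apply, MvPolynomial.aeval_X, MvPolynomial.rename_X,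
      MvPolynomial.aeval_X, map_add, MvPolynomial.rename_X, MvPolynomial.rename_C, h]
  exact DFunLike.congr_fun h1 p

theorem DatIso_coeff {ι ι' : Type} (ε : ι ≃ ι') (y : MvPowerSeries ι ℂ) (γ : ι →₀ ℕ) :
    MvPowerSeries.coeff (γ.mapDomain ε) (MvPowerSeries.rename ε y) =
      MvPowerSeries.coeff γ y := by
  have h := MvPowerSeries.coeff_embDomain_rename ε.toEmbedding y γ
  rw [Finsupp.embDomain_eq_mapDomain] at h
  exact h

theorem DatIso_e {ι ι' : Type} (ε : ι ≃ ι') (γ : ι →₀ ℕ) :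
    MvPolynomial.rename ε (IsoPs_e γ) = IsoPs_e (γ.mapDomain ε) := by
  unfold IsoPs_e
  rw [MvPolynomial.rename_monomial]
  congr 2
  unfold fac
  rw [Finsupp.prod_mapDomain_index_inj ε.injective]

theorem DatIso_psEnd {ι ι' : Type} (ε : ι ≃ ι') (y : MvPowerSeries ι ℂ)
    (p : MvPolynomial ι ℂ) :
    MvPolynomial.rename ε (psEnd y p) =
      psEnd (MvPowerSeries.rename ε y) (MvPolynomial.rename ε p) := by
  classical
  have h : (MvPolynomial.rename ε).toLinearMap ∘ₗ psEnd y =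
      psEnd (MvPowerSeries.rename ε y) ∘ₗ (MvPolynomial.rename ε).toLinearMap := by
    apply (MvPolynomial.basisMonomials ι ℂ).ext
    intro β
    rw [MvPolynomial.coe_basisMonomials]
    show MvPolynomial.rename ε (psEnd y (MvPolynomial.monomial β 1)) =
      psEnd (MvPowerSeries.rename ε y) (MvPolynomial.rename ε (MvPolynomial.monomial β 1))
    rw [IsoPs_mono, map_smul, map_smul, map_smul, map_smul]
    refine congrArg (fun q => fac β • q) ?_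
    rw [IsoPs_psEnd, DatIso_e, IsoPs_psEnd, map_sum]
    have h2 : ∀ γ : ι' →₀ ℕ, (γ.mapDomain ε.symm).mapDomain ε = γ := fun γ => by
      rw [← Finsupp.mapDomain_comp, Equiv.self_comp_symm, Finsupp.mapDomain_id]
    have h3 : ∀ γ : ι →₀ ℕ, (γ.mapDomain ε).mapDomain ε.symm = γ := fun γ => by
      rw [← Finsupp.mapDomain_comp, Equiv.symm_comp_self, Finsupp.mapDomain_id]
    refine Finset.sum_nbij' (fun p => (p.1.mapDomain ε, p.2.mapDomain ε))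
      (fun p => (p.1.mapDomain ε.symm, p.2.mapDomain ε.symm)) ?_ ?_ ?_ ?_ ?_
    · intro p hp
      have hp' := Finset.HasAntidiagonal.mem_antidiagonal.1 hp
      refine Finset.HasAntidiagonal.mem_antidiagonal.2 ?_
      show p.1.mapDomain ε + p.2.mapDomain ε = _
      rw [← Finsupp.mapDomain_add, hp']
    · intro p hp
      have hp' := Finset.HasAntidiagonal.mem_antidiagonal.1 hp
      refine Finset.HasAntidiagonal.mem_antidiagonal.2 ?_
      show p.1.mapDomain ε.symm + p.2.mapDomain ε.symm = _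
      rw [← Finsupp.mapDomain_add, hp', h3]
    · intro p _
      simp only [h3]
    · intro p _
      simp only [h2]
    · intro p _
      rw [map_smul, DatIso_e, DatIso_coeff]
  exact DFunLike.congr_fun h p

theorem DatIso_symm {ι ι' : Type} (ε : ι ≃ ι') (y : MvPowerSeries ι' ℂ) :
    MvPowerSeries.rename ε (MvPowerSeries.rename ε.symm y) = y := by
  rw [MvPowerSeries.rename_rename]
  have h : (⇑ε ∘ ⇑ε.symm) = id := Equiv.self_comp_symm ε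
  simp only [h, MvPowerSeries.rename_id, AlgHom.id_apply]

/-- the transport of `uni` (no injectivity needed) -/
theorem DatIso_uni (c : κ → ι) (c' : κ' → ι') (e : κ ≃ κ') (ε : ι ≃ ι')
    (he : ∀ i, c' (e i) = ε (c i)) (β : ι → ι₁) (β' : ι' → ι₁')
    (hβ : ∀ x y, β' (ε x) = β' (ε y) ↔ β x = β y) (τ : ι → ℤ) (τ' : ι' → ℤ)
    (hττ : ∀ x y, β x = β y → (τ x < τ y ↔ τ' (ε x) < τ' (ε y))) (g : GL κ F)
    (hg : glT F e g ∈ uni F (fun i => β' (c' i)) (fun i => τ' (c' i))) :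
    g ∈ uni F (fun i => β (c i)) (fun i => τ (c i)) := by
  obtain ⟨⟨h1, h2⟩, h3⟩ := hg
  have h1' : g ∈ lev F (fun i => β (c i)) :=
    (lev_T e (fun i => β (c i)) (fun i => β' (c' i)) (SIso_clsβ he hβ) g).1 h1
  refine ⟨⟨h1', fun i j hij => ?_⟩, fun i j hij => ?_⟩
  · by_cases hb : β (c i) = β (c j)
    · have h4 := h2 (e i) (e j) (by
        show τ' (c' (e j)) < τ' (c' (e i))
        rw [he, he]
        exact (hττ (c j) (c i) hb.symm).1 hij)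
      rwa [glT_apply] at h4
    · exact h1' i j hb
  · by_cases hb : β (c i) = β (c j)
    · have h4 := h3 (e i) (e j) (by
        show τ' (c' (e i)) = τ' (c' (e j))
        rw [he, he]
        have hij' : τ (c i) = τ (c j) := hij
        have h5 := hττ (c i) (c j) hb
        have h6 := hττ (c j) (c i) hb.symm
        rcases lt_trichotomy (τ' (ε (c i))) (τ' (ε (c j))) with h | h | h
        · exact absurd (h5.2 h) (by rw [hij']; exact lt_irrefl _)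
        · exact h
        · exact absurd (h6.2 h) (by rw [hij']; exact lt_irrefl _))
      rwa [glT_apply, LevT_one] at h4
    · rw [h1' i j hb, Matrix.one_apply_ne]
      rintro rfl
      exact hb rfl

/-- an isomorphism of strand data -/
structure SIso (c : κ → ι) (ρ : Representation ℂ (lev F c) V) (c' : κ' → ι')
    (ρ' : Representation ℂ (lev F c') V') where
  e : κ ≃ κ'
  ε : ι ≃ ι'
  he : ∀ i, c' (e i) = ε (c i)
  A : V ≃ₗ[ℂ] V'
  hA : ∀ (m : lev F c) (v : V), A (ρ m v) = ρ' (levT F e (SIso_cls e ε he) m) (A v)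

/-! ### the representations `hat` -/

namespace SIso

variable {c : κ → ι} {ρ : Representation ℂ (lev F c) V} {c' : κ' → ι'}
  {ρ' : Representation ℂ (lev F c') V'} (s : SIso c ρ c' ρ')

/-- the map on `V ⊗ ℂ[u]` -/
def B : (V ⊗[ℂ] MvPolynomial ι ℂ) ≃ₗ[ℂ] (V' ⊗[ℂ] MvPolynomial ι' ℂ) :=
  TensorProduct.congr s.A (MvPolynomial.renameEquiv ℂ s.ε).toLinearEquiv

theorem B_tmul (v : V) (p : MvPolynomial ι ℂ) :
    s.B (v ⊗ₜ[ℂ] p) = s.A v ⊗ₜ[ℂ] MvPolynomial.rename s.ε p := rfl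

theorem hB (m : lev F c) (x : V ⊗[ℂ] MvPolynomial ι ℂ) :
    s.B (hat c ρ m x) = hat c' ρ' (levT F s.e (SIso_cls s.e s.ε s.he) m) (s.B x) := by
  induction x using TensorProduct.induction_on with
  | zero => rw [map_zero, map_zero, map_zero]
  | add x y hx hy => rw [map_add, map_add, hx, hy, map_add, map_add]
  | tmul v p =>
    rw [hat_apply, hat_apply, TensorProduct.map_tmul, B_tmul, B_tmul, TensorProduct.map_tmul,
      s.hA]
    refine congrArg (fun q => ρ' (levT F s.e (SIso_cls s.e s.ε s.he) m) (s.A v) ⊗ₜ[ℂ] q) ?_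
    exact DatIso_shift s.ε _ _ (fun x => tr_vl c c' s.e s.ε s.he m.1 x) p

theorem B_op (y : MvPowerSeries ι ℂ) (x : V ⊗[ℂ] MvPolynomial ι ℂ) :
    s.B (opE V y x) = opE V' (MvPowerSeries.rename s.ε y) (s.B x) := by
  induction x using TensorProduct.induction_on with
  | zero => rw [map_zero, map_zero, map_zero]
  | add x y hx hy => rw [map_add, map_add, hx, hy, map_add, map_add]
  | tmul v p =>
    unfold opE
    rw [TensorProduct.map_tmul, B_tmul, B_tmul, TensorProduct.map_tmul, LinearMap.id_apply,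
      LinearMap.id_apply, DatIso_psEnd]

section

variable {β : ι → ι₁} {β' : ι' → ι₁'} (hβ : ∀ x y, β' (s.ε x) = β' (s.ε y) ↔ β x = β y)
  {τ : ι → ℤ} (hτ : Function.Injective τ) {τ' : ι' → ℤ} (hτ' : Function.Injective τ')
  (hττ : ∀ x y, β x = β y → (τ x < τ y ↔ τ' (s.ε x) < τ' (s.ε y)))

/-- transport of `I_τ(hat ρ)` -/
def I : ISp c β τ hτ (hat c ρ) ≃ₗ[ℂ] ISp c' β' τ' hτ' (hat c' ρ') :=
  trI c c' s.e s.ε s.he β β' hβ τ hτ τ' hτ' hττ (hat c ρ) (hat c' ρ') s.B s.hB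

/-- transport of `I_τ(ρ)` -/
def I0 : ISp c β τ hτ ρ ≃ₗ[ℂ] ISp c' β' τ' hτ' ρ' :=
  trI c c' s.e s.ε s.he β β' hβ τ hτ τ' hτ' hττ ρ ρ' s.A s.hA

/-- the isomorphism of the ambient groups -/
def T : lev F (fun i => β (c i)) ≃ₜ* lev F (fun i => β' (c' i)) :=
  levT F s.e (SIso_clsβ s.he hβ)

theorem T_val (g : lev F (fun i => β (c i))) : (s.T hβ g).1 = glT F s.e g.1 := rfl

theorem I_apply (f : ISp c β τ hτ (hat c ρ)) (g : lev F (fun i => β (c i))) :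
    (s.I hβ hτ hτ' hττ f).1 (s.T hβ g) = s.B (f.1 g) :=
  trI_apply _ _ _ _ _ _ _ _ _ _ _ _ _ _ _ _ _ f g

theorem I0_apply (f : ISp c β τ hτ ρ) (g : lev F (fun i => β (c i))) :
    (s.I0 hβ hτ hτ' hττ f).1 (s.T hβ g) = s.A (f.1 g) :=
  trI_apply _ _ _ _ _ _ _ _ _ _ _ _ _ _ _ _ _ f g

theorem I_equi (g : lev F (fun i => β (c i))) (f : ISp c β τ hτ (hat c ρ)) :
    s.I hβ hτ hτ' hττ (IRp c β τ hτ (hat c ρ) g f) =
      IRp c' β' τ' hτ' (hat c' ρ') (s.T hβ g) (s.I hβ hτ hτ' hττ f) :=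
  trI_equi _ _ _ _ _ _ _ _ _ _ _ _ _ _ _ _ _ g f

theorem I_op (y : MvPowerSeries ι ℂ) (f : ISp c β τ hτ (hat c ρ)) :
    s.I hβ hτ hτ' hττ (opI c β τ hτ ρ y f) =
      opI c' β' τ' hτ' ρ' (MvPowerSeries.rename s.ε y) (s.I hβ hτ hτ' hττ f) := by
  refine Subtype.ext (funext fun g' => ?_)
  obtain ⟨g, rfl⟩ := (s.T hβ).surjective g'
  rw [I_apply]
  show s.B (opE V y (f.1 g)) =
    opE V' (MvPowerSeries.rename s.ε y) ((s.I hβ hτ hτ' hττ f).1 (s.T hβ g))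
  rw [I_apply, B_op]

theorem I_KS (r : ℕ) (f : ISp c β τ hτ (hat c ρ)) :
    KS c' β' τ' r (s.I hβ hτ hτ' hττ f).1 ↔ KS c β τ r f.1 :=
  tr_KS c c' s.e s.ε s.he β β' hβ τ hτ τ' hτ' hττ r f.1 (s.I hβ hτ hτ' hττ f).1 s.B
    (fun g => s.I_apply hβ hτ hτ' hττ f g)

end

section

variable {β : ι → ι₁} {β' : ι' → ι₁'} (hβ : ∀ x y, β' (s.ε x) = β' (s.ε y) ↔ β x = β y)
  {τ₁ τ₂ : ι → ℤ} (hτ₁ : Function.Injective τ₁) (hτ₂ : Function.Injective τ₂)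
  {τ₁' τ₂' : ι' → ℤ} (hτ₁' : Function.Injective τ₁') (hτ₂' : Function.Injective τ₂')
  (h₁ : ∀ x y, β x = β y → (τ₁ x < τ₁ y ↔ τ₁' (s.ε x) < τ₁' (s.ε y)))
  (h₂ : ∀ x y, β x = β y → (τ₂ x < τ₂ y ↔ τ₂' (s.ε x) < τ₂' (s.ε y)))

/-- transport of functionals -/
def Fn (L : ISp c β τ₁ hτ₁ (hat c ρ) →ₗ[ℂ] V ⊗[ℂ] MvPolynomial ι ℂ) :
    ISp c' β' τ₁' hτ₁' (hat c' ρ') →ₗ[ℂ] V' ⊗[ℂ] MvPolynomial ι' ℂ :=
  (s.B : _ →ₗ[ℂ] _) ∘ₗ L ∘ₗ ((s.I hβ hτ₁ hτ₁' h₁).symm : _ →ₗ[ℂ] _)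

theorem Fn_apply (L : ISp c β τ₁ hτ₁ (hat c ρ) →ₗ[ℂ] V ⊗[ℂ] MvPolynomial ι ℂ)
    (f : ISp c β τ₁ hτ₁ (hat c ρ)) :
    s.Fn hβ hτ₁ hτ₁' h₁ L (s.I hβ hτ₁ hτ₁' h₁ f) = s.B (L f) := by
  show s.B (L ((s.I hβ hτ₁ hτ₁' h₁).symm (s.I hβ hτ₁ hτ₁' h₁ f))) = _
  rw [LinearEquiv.symm_apply_apply]

include h₂ in
theorem mem_X1 (L : ISp c β τ₁ hτ₁ (hat c ρ) →ₗ[ℂ] V ⊗[ℂ] MvPolynomial ι ℂ)
    (hL : L ∈ X1 c β τ₁ hτ₁ τ₂ ρ) :
    s.Fn hβ hτ₁ hτ₁' h₁ L ∈ X1 c' β' τ₁' hτ₁' τ₂' ρ' := by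
  obtain ⟨⟨hu, hm⟩, hy⟩ := hL
  refine ⟨⟨?_, ?_⟩, ?_⟩
  · intro n' hn' f'
    obtain ⟨n, rfl⟩ := (s.T hβ).surjective n'
    obtain ⟨f, rfl⟩ := (s.I hβ hτ₁ hτ₁' h₁).surjective f'
    rw [← I_equi, Fn_apply, Fn_apply, hu n ?_ f]
    rw [T_val] at hn'
    exact DatIso_uni c c' s.e s.ε s.he β β' hβ τ₂ τ₂' h₂ n.1 hn'
  · intro m' hm' hm'' f'
    obtain ⟨f, rfl⟩ := (s.I hβ hτ₁ hτ₁' h₁).surjective f'
    obtain ⟨m, hmm⟩ := (levT F s.e (SIso_cls s.e s.ε s.he)).surjective ⟨m', hm'⟩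
    have hv : glT F s.e m.1 = m' := congrArg Subtype.val hmm
    have hmβ : m.1 ∈ lev F (fun i => β (c i)) := by
      refine (lev_T s.e (fun i => β (c i)) (fun i => β' (c' i)) (SIso_clsβ s.he hβ) m.1).1 ?_
      rw [hv]
      exact hm''
    have hT : s.T hβ ⟨m.1, hmβ⟩ = ⟨m', hm''⟩ := Subtype.ext hv
    rw [← hT, ← I_equi, Fn_apply, Fn_apply, hm m.1 m.2 hmβ f, map_smul, hB, ← hmm]
    rw [show dh c' β' τ₂' (levT F s.e (SIso_cls s.e s.ε s.he) m) = dh c β τ₂ m from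
      tr_dh c c' s.e s.ε s.he β β' hβ τ₂ τ₂' h₂ m]
  · intro y' f'
    obtain ⟨f, rfl⟩ := (s.I hβ hτ₁ hτ₁' h₁).surjective f'
    rw [← DatIso_symm s.ε y', ← I_op, Fn_apply, Fn_apply, hy, B_op]

include h₂ in
theorem isLead (L : ISp c β τ₁ hτ₁ (hat c ρ) →ₗ[ℂ] V ⊗[ℂ] MvPolynomial ι ℂ)
    (ℓ : MvPowerSeries ι ℂ) (hL : IsLead c β τ₁ hτ₁ τ₂ ρ L ℓ) :
    IsLead c' β' τ₁' hτ₁' τ₂' ρ' (s.Fn hβ hτ₁ hτ₁' h₁ L) (MvPowerSeries.rename s.ε ℓ) := by
  obtain ⟨r₀, hr⟩ := hL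
  refine ⟨r₀, fun r hr0 f' hf' => ?_⟩
  obtain ⟨f, rfl⟩ := (s.I hβ hτ₁ hτ₁' h₁).surjective f'
  have hf := (s.I_KS hβ hτ₁ hτ₁' h₁ r f).1 hf'
  have h1 : (s.I hβ hτ₁ hτ₁' h₁ f).1 1 = s.B (f.1 1) :=
    trI_one _ _ _ _ _ _ _ _ _ _ _ _ _ _ _ _ _ f
  rw [Fn_apply, hr r hr0 f hf, h1, map_smul, B_op,
    tr_Cr c c' s.e s.ε s.he β β' hβ τ₁ τ₂ τ₁' τ₂' h₁ h₂ r]

/-- transport of the homomorphism given by a functional -/
theorem comp (L : ISp c β τ₁ hτ₁ (hat c ρ) →ₗ[ℂ] V ⊗[ℂ] MvPolynomial ι ℂ)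
    (f : ISp c β τ₁ hτ₁ (hat c ρ)) (f₂ : ISp c β τ₂ hτ₂ (hat c ρ))
    (h : ∀ g, f₂.1 g = L (IRp c β τ₁ hτ₁ (hat c ρ) g f)) (g' : lev F (fun i => β' (c' i))) :
    (s.I hβ hτ₂ hτ₂' h₂ f₂).1 g' = s.Fn hβ hτ₁ hτ₁' h₁ L
      (IRp c' β' τ₁' hτ₁' (hat c' ρ') g' (s.I hβ hτ₁ hτ₁' h₁ f)) := by
  obtain ⟨g, rfl⟩ := (s.T hβ).surjective g'
  rw [← I_equi, Fn_apply, I_apply, h]

end

end SIso

end

end Pool.Agent.Lib.MP_ca1492_al.P
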