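import Mathlib
import Pool.Agent.Lib.MP_ca1492_al.D5.Ord
import Pool.Agent.Lib.MP_ca1492_al.P.IndEx
import Pool.Agent.Lib.MP_ca1492_al.P.TrMul

/-!
# MP_ca1492_al, comparison, module ProdM: normalised induction as `GLRep`, functoriality of products

`indG c τ σ : GLRep F` = `I_τ(σ)`, as a representation of `GL κ F`. `prMap`: `f ↦ (Φ₁ ⊗ Φ₂) ∘ f`.

* `prMap_inj`: `TensorProduct.map` of injective maps over a field is injective.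
* `prMap_surj`: let `P` be the subgroup of block upper triangular matrices `blk g₁ g₂ u` of `GL (κ₁ ⊕ κ₂) F`,
  `A = P` acting on `V₁ ⊗ V₂` by `a (blk g₁ g₂ u) = sqmod g₁ g₂ • (π₁ g₁ ⊗ π₂ g₂)`. `GL = P K`, `K = Kc 0`
  compact (Iwasawa decomposition), so for an open subgroup `U` there are finitely many double cosets
  `P w U` (`Fdc`; `dc_fin` for the constant colouring). Let `f ∈ indSp` with values in `W₁ ⊗ W₂`, `U ≤ K` open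
  with `f (g u) = f g`. The value `f w`, `w` in a set of representatives of the distinct double cosets, is
  fixed by `p ∈ P`, `w⁻¹ p w ∈ U` (a compact open subgroup of `P`); lift it to `x ∈ V₁ ⊗ V₂` and average
  over this compact group (`avg` in `SmBasic`/`Avg`: `Representation` of `P` on `V₁ ⊗ V₂` is smooth); then `is_bump`
  (ISProd) for `P`, `a` gives a function with value `x` at `w` supported on `P w U`.
-/

set_option autoImplicit false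

namespace Pool.Agent.Lib.MP_ca1492_al.P

open Topology Matrix ValuativeRel TensorProduct
open Pool.Agent.Lib.MP_ca1492_al.Q (GLRep)

noncomputable section

variable {F : Type} [Field F] [ValuativeRel F] [TopologicalSpace F]
  [IsNonarchimedeanLocalField F]

/-- `I_τ(σ)` as a representation of `GL κ F` -/
abbrev indG {κ ι E : Type} [Fintype κ] [DecidableEq κ] [Fintype ι] [DecidableEq ι]
    [AddCommGroup E] [Module ℂ E] (c : κ → ι) (τ : ι → ℤ) (hτ : Function.Injective τ)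
    (σ : Representation ℂ (lev F c) E) : GLRep F where
  κ := κ
  V := ISp c (fun _ => ()) τ hτ σ
  π := pull (levC F κ) (IRp c (fun _ => ()) τ hτ σ)

section

variable {κ₁ κ₂ V₁ V₂ W₁ W₂ : Type} [Fintype κ₁] [DecidableEq κ₁] [Fintype κ₂] [DecidableEq κ₂]
  [AddCommGroup V₁] [Module ℂ V₁] [AddCommGroup V₂] [Module ℂ V₂]
  [AddCommGroup W₁] [Module ℂ W₁] [AddCommGroup W₂] [Module ℂ W₂]
  (π₁ : Representation ℂ (GL κ₁ F) V₁) (π₂ : Representation ℂ (GL κ₂ F) V₂)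
  (σ₁ : Representation ℂ (GL κ₁ F) W₁) (σ₂ : Representation ℂ (GL κ₂ F) W₂)

/-- functoriality of the product: `f ↦ (Φ₁ ⊗ Φ₂) ∘ f` -/
def prMap (Φ₁ : V₁ →ₗ[ℂ] W₁) (Φ₂ : V₂ →ₗ[ℂ] W₂) (h₁ : Equi π₁ σ₁ Φ₁) (h₂ : Equi π₂ σ₂ Φ₂) :
    Q.GLRep.indSp (F := F) ⟨κ₁, V₁, π₁⟩ ⟨κ₂, V₂, π₂⟩ →ₗ[ℂ]
      Q.GLRep.indSp (F := F) ⟨κ₁, W₁, σ₁⟩ ⟨κ₂, W₂, σ₂⟩ where
  toFun f := ⟨fun g => TensorProduct.map Φ₁ Φ₂ (f.1 g), by
    obtain ⟨h3, U, hU, h4⟩ := f.2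
    refine ⟨fun g₁ g₂ u g => ?_, U, hU, fun g u hu => ?_⟩
    · show TensorProduct.map Φ₁ Φ₂ (f.1 (Q.blk F g₁ g₂ u * g)) = _
      rw [h3, map_smul]
      congr 1
      show TensorProduct.map Φ₁ Φ₂ (TensorProduct.map (π₁ g₁) (π₂ g₂) (f.1 g)) =
        TensorProduct.map (σ₁ g₁) (σ₂ g₂) (TensorProduct.map Φ₁ Φ₂ (f.1 g))
      generalize (f.1 g : V₁ ⊗[ℂ] V₂) = t
      induction t using TensorProduct.induction_on with
      | zero => simp only [map_zero]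
      | add a b ha hb => simp only [map_add, ha, hb]
      | tmul a b =>
        rw [TensorProduct.map_tmul, TensorProduct.map_tmul, TensorProduct.map_tmul,
          TensorProduct.map_tmul, h₁, h₂]
    · show TensorProduct.map Φ₁ Φ₂ (f.1 (g * u)) = TensorProduct.map Φ₁ Φ₂ (f.1 g)
      rw [h4 g u hu]⟩
  map_add' f f' := Subtype.ext (funext fun g => map_add (TensorProduct.map Φ₁ Φ₂) _ _)
  map_smul' z f := Subtype.ext (funext fun g => map_smul (TensorProduct.map Φ₁ Φ₂) z _)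

theorem prMap_equi (Φ₁ : V₁ →ₗ[ℂ] W₁) (Φ₂ : V₂ →ₗ[ℂ] W₂) (h₁ : Equi π₁ σ₁ Φ₁)
    (h₂ : Equi π₂ σ₂ Φ₂) :
    Equi (Q.GLRep.indRep (F := F) ⟨κ₁, V₁, π₁⟩ ⟨κ₂, V₂, π₂⟩)
      (Q.GLRep.indRep (F := F) ⟨κ₁, W₁, σ₁⟩ ⟨κ₂, W₂, σ₂⟩) (prMap π₁ π₂ σ₁ σ₂ Φ₁ Φ₂ h₁ h₂) :=
  fun _ _ => rfl

theorem prMap_inj (Φ₁ : V₁ →ₗ[ℂ] W₁) (Φ₂ : V₂ →ₗ[ℂ] W₂) (h₁ : Equi π₁ σ₁ Φ₁)
    (h₂ : Equi π₂ σ₂ Φ₂) (hi₁ : Function.Injective Φ₁) (hi₂ : Function.Injective Φ₂) :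
    Function.Injective (prMap (F := F) π₁ π₂ σ₁ σ₂ Φ₁ Φ₂ h₁ h₂) := by
  intro f f' hff
  have hmap : Function.Injective (TensorProduct.map Φ₁ Φ₂) :=
    TensorProduct.map_injective_of_flat_flat Φ₁ Φ₂ hi₁ hi₂
  refine Subtype.ext (funext fun g => hmap ?_)
  exact congrFun (congrArg Subtype.val hff) g

/-- exactness of the product (values of a function in `indSp` on finitely many double cosets) -/
theorem prMap_surj (Φ₁ : V₁ →ₗ[ℂ] W₁) (Φ₂ : V₂ →ₗ[ℂ] W₂) (h₁ : Equi π₁ σ₁ Φ₁)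
    (h₂ : Equi π₂ σ₂ Φ₂) (hi₁ : Function.Surjective Φ₁) (hi₂ : Function.Surjective Φ₂)
    (hs₁ : IsSm π₁) (hs₂ : IsSm π₂) :
    Function.Surjective (prMap (F := F) π₁ π₂ σ₁ σ₂ Φ₁ Φ₂ h₁ h₂) := by
  intro f'
  have hs₁' : IsSm σ₁ := smooth_of_surj π₁ σ₁ hs₁ Φ₁ h₁ hi₁
  have hs₂' : IsSm σ₂ := smooth_of_surj π₂ σ₂ hs₂ Φ₂ h₂ hi₂
  have hsm : ∀ (A B : GLRep F), IsSm A.π → IsSm B.π →
      IsSm (twist (dlh (F := F) (c2 A.κ B.κ) (fun _ => ()) (o2 A.κ B.κ) (c2_cond A.κ B.κ))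
        (ext (GLRep.lev A) (GLRep.lev B))) := by
    intro A B hA hB
    exact smooth_twist _ (ext_smooth _ _ ((pull_sm _ _).2 hA) ((pull_sm _ _).2 hB)) _
      (dlh_open _ _ _ _)
  have hT : Equi (twist (dlh (F := F) (c2 κ₁ κ₂) (fun _ => ()) (o2 κ₁ κ₂) (c2_cond κ₁ κ₂))
        (ext (GLRep.lev ⟨κ₁, V₁, π₁⟩) (GLRep.lev ⟨κ₂, V₂, π₂⟩)))
      (twist (dlh (F := F) (c2 κ₁ κ₂) (fun _ => ()) (o2 κ₁ κ₂) (c2_cond κ₁ κ₂))
        (ext (GLRep.lev ⟨κ₁, W₁, σ₁⟩) (GLRep.lev ⟨κ₂, W₂, σ₂⟩))) (TensorProduct.map Φ₁ Φ₂) := by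
    intro m v
    show TensorProduct.map Φ₁ Φ₂ ((dlh (F := F) (c2 κ₁ κ₂) (fun _ => ()) (o2 κ₁ κ₂)
        (c2_cond κ₁ κ₂) m : ℂ) • TensorProduct.map (π₁ (pr₁ F (fun _ => ()) (fun _ => ()) m).1)
          (π₂ (pr₂ F (fun _ => ()) (fun _ => ()) m).1) v) =
      (dlh (F := F) (c2 κ₁ κ₂) (fun _ => ()) (o2 κ₁ κ₂)
        (c2_cond κ₁ κ₂) m : ℂ) • TensorProduct.map (σ₁ (pr₁ F (fun _ => ()) (fun _ => ()) m).1)
          (σ₂ (pr₂ F (fun _ => ()) (fun _ => ()) m).1) (TensorProduct.map Φ₁ Φ₂ v)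
    rw [map_smul]
    congr 1
    induction v using TensorProduct.induction_on with
    | zero => simp only [map_zero]
    | add a b ha hb => simp only [map_add, ha, hb]
    | tmul a b =>
      rw [TensorProduct.map_tmul, TensorProduct.map_tmul, TensorProduct.map_tmul,
        TensorProduct.map_tmul, h₁, h₂]
  have hTs : Function.Surjective (TensorProduct.map Φ₁ Φ₂) :=
    TensorProduct.map_surjective hi₁ hi₂
  obtain ⟨f, hf⟩ := ind_surj (F := F) (c2 κ₁ κ₂) (fun _ => ()) (o2 κ₁ κ₂) (c2_cond κ₁ κ₂) _ _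
    (hsm ⟨κ₁, V₁, π₁⟩ ⟨κ₂, V₂, π₂⟩ hs₁ hs₂) (hsm ⟨κ₁, W₁, σ₁⟩ ⟨κ₂, W₂, σ₂⟩ hs₁' hs₂')
    (TensorProduct.map Φ₁ Φ₂) hT hTs
    ⟨_, TrMul_fwd ⟨κ₁, W₁, σ₁⟩ ⟨κ₂, W₂, σ₂⟩ f'.1 f'.2⟩
  refine ⟨⟨_, TrMul_bwd ⟨κ₁, V₁, π₁⟩ ⟨κ₂, V₂, π₂⟩ f.1 f.2⟩, ?_⟩
  refine Subtype.ext (funext fun g => ?_)
  exact congrFun (congrArg Subtype.val hf) (levC F (κ₁ ⊕ κ₂) g)

end

end

end Pool.Agent.Lib.MP_ca1492_al.P
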