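import Mathlib
import Pool.Agent.Lib.MP_ca1492_al.D5.Mhom
import Pool.Agent.Lib.MP_ca1492_al.P.ExtHat

/-!
# MP_ca1492_al, comparison, module PsSum: power series on tensor products of polynomial rings

`polS : ℂ[u] ⊗ ℂ[u'] ≃ ℂ[u, u']`, `hE : (V₁ ⊗ ℂ[u]) ⊗ (V₂ ⊗ ℂ[u']) ≃ (V₁ ⊗ V₂) ⊗ ℂ[u, u']`.

* `psEnd_inl`: `psEnd (rename inl y) (rename inl p * rename inr q) = rename inl (psEnd y p) * rename inr q`: for
  monomials `p = u^β`, `q = u'^γ` by `psEnd_mono`: the coefficient of `rename inl y` at `δ` is zero unless `δ` is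
  supported on `inl` (`MvPowerSeries.coeff_rename`, `coeff_embDomain_rename`), and then the factors agree
  (factorials of `mapDomain inl β + mapDomain inr γ`). Alternative: `q` fixed, the map
  `y ↦ (p ↦ psEnd (rename inl y) (rename inl p * rename inr q))` and `psEnd_X`, `psEnd_mul`, for polynomials `y`; both
  sides only depend on the terms of `y` of degree `≤ deg p`.
* `hE_op`: on pure tensors, `opE_mul`, `psEnd_inl`, `psEnd_inr`.
-/

set_option autoImplicit false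

namespace Pool.Agent.Lib.MP_ca1492_al.P

open Topology Matrix ValuativeRel TensorProduct

noncomputable section

/-- `p ⊗ q ↦ p(u) q(u')` -/
def polS (ι₁ ι₂ : Type) : (MvPolynomial ι₁ ℂ ⊗[ℂ] MvPolynomial ι₂ ℂ) ≃ₗ[ℂ]
    MvPolynomial (ι₁ ⊕ ι₂) ℂ := Classical.choose (polSum ι₁ ι₂)

theorem polS_tmul {ι₁ ι₂ : Type} (p : MvPolynomial ι₁ ℂ) (q : MvPolynomial ι₂ ℂ) :
    polS ι₁ ι₂ (p ⊗ₜ[ℂ] q) = MvPolynomial.rename Sum.inl p * MvPolynomial.rename Sum.inr q :=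
  Classical.choose_spec (polSum ι₁ ι₂) p q

/-- rearrangement of the factors -/
def hE (V₁ V₂ : Type) [AddCommGroup V₁] [Module ℂ V₁] [AddCommGroup V₂] [Module ℂ V₂]
    (ι₁ ι₂ : Type) : ((V₁ ⊗[ℂ] MvPolynomial ι₁ ℂ) ⊗[ℂ] (V₂ ⊗[ℂ] MvPolynomial ι₂ ℂ)) ≃ₗ[ℂ]
      ((V₁ ⊗[ℂ] V₂) ⊗[ℂ] MvPolynomial (ι₁ ⊕ ι₂) ℂ) :=
  (TensorProduct.tensorTensorTensorComm ℂ V₁ (MvPolynomial ι₁ ℂ) V₂ (MvPolynomial ι₂ ℂ)).trans
    (TensorProduct.congr (LinearEquiv.refl ℂ (V₁ ⊗[ℂ] V₂)) (polS ι₁ ι₂))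

variable {V₁ V₂ : Type} [AddCommGroup V₁] [Module ℂ V₁] [AddCommGroup V₂] [Module ℂ V₂]

theorem hE_tmul {ι₁ ι₂ : Type} (v₁ : V₁) (p : MvPolynomial ι₁ ℂ) (v₂ : V₂)
    (q : MvPolynomial ι₂ ℂ) :
    hE V₁ V₂ ι₁ ι₂ ((v₁ ⊗ₜ[ℂ] p) ⊗ₜ[ℂ] (v₂ ⊗ₜ[ℂ] q)) = (v₁ ⊗ₜ[ℂ] v₂) ⊗ₜ[ℂ]
      (MvPolynomial.rename Sum.inl p * MvPolynomial.rename Sum.inr q) := by
  rw [← polS_tmul]
  unfold hE
  rw [LinearEquiv.trans_apply, TensorProduct.tensorTensorTensorComm_tmul,
    TensorProduct.congr_tmul, LinearEquiv.refl_apply]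

section general

variable {ι₁ ι₂ ι : Type} (f : ι₁ → ι) (g : ι₂ → ι)

/-- the exponent of a product -/
def PsSum_m (β : ι₁ →₀ ℕ) (γ : ι₂ →₀ ℕ) : ι →₀ ℕ := β.mapDomain f + γ.mapDomain g

theorem PsSum_fac (hf : Function.Injective f) (hg : Function.Injective g)
    (hfg : ∀ a b, f a ≠ g b) (β : ι₁ →₀ ℕ) (γ : ι₂ →₀ ℕ) :
    fac (PsSum_m f g β γ) = fac β * fac γ := by
  classical
  unfold fac PsSum_m
  rw [Finsupp.prod_add_index_of_disjoint, Finsupp.prod_mapDomain_index_inj hf,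
    Finsupp.prod_mapDomain_index_inj hg]
  rw [Finset.disjoint_left]
  intro x h1 h2
  have h3 := Finsupp.mapDomain_support h1
  have h4 := Finsupp.mapDomain_support h2
  obtain ⟨a, -, rfl⟩ := Finset.mem_image.1 h3
  obtain ⟨b, -, hb⟩ := Finset.mem_image.1 h4
  exact hfg a b hb.symm

theorem PsSum_e (hf : Function.Injective f) (hg : Function.Injective g)
    (hfg : ∀ a b, f a ≠ g b) (β : ι₁ →₀ ℕ) (γ : ι₂ →₀ ℕ) :
    MvPolynomial.rename f (IsoPs_e β) * MvPolynomial.rename g (IsoPs_e γ) =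
      IsoPs_e (PsSum_m f g β γ) := by
  unfold IsoPs_e
  rw [MvPolynomial.rename_monomial, MvPolynomial.rename_monomial, MvPolynomial.monomial_mul,
    PsSum_fac f g hf hg hfg, mul_inv]
  rfl

theorem PsSum_psEnd_e [Filter.TendstoCofinite f] (hf : Function.Injective f)
    (hg : Function.Injective g) (hfg : ∀ a b, f a ≠ g b) (y : MvPowerSeries ι₁ ℂ)
    (β : ι₁ →₀ ℕ) (γ : ι₂ →₀ ℕ) :
    psEnd (MvPowerSeries.rename f y) (IsoPs_e (PsSum_m f g β γ)) =
      MvPolynomial.rename f (psEnd y (IsoPs_e β)) * MvPolynomial.rename g (IsoPs_e γ) := by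
  classical
  rw [IsoPs_psEnd, IsoPs_psEnd, map_sum, Finset.sum_mul]
  symm
  have hz : ∀ (δ : ι₂ →₀ ℕ) (a : ι₁), (δ.mapDomain g) (f a) = 0 := by
    intro δ a
    apply Finsupp.mapDomain_notin_range
    rintro ⟨b, hb⟩
    exact hfg a b hb.symm
  refine Finset.sum_of_injOn
    (fun d : (ι₁ →₀ ℕ) × (ι₁ →₀ ℕ) => (d.1.mapDomain f, PsSum_m f g d.2 γ)) ?_ ?_ ?_ ?_
  · rintro ⟨δ, ε⟩ _ ⟨δ', ε'⟩ _ h
    have h1 : δ.mapDomain f = δ'.mapDomain f := congrArg Prod.fst h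
    have h2 : PsSum_m f g ε γ = PsSum_m f g ε' γ := congrArg Prod.snd h
    have h3 := Finsupp.mapDomain_injective hf h1
    unfold PsSum_m at h2
    have h4 := Finsupp.mapDomain_injective hf (add_right_cancel h2)
    rw [h3, h4]
  · rintro ⟨δ, ε⟩ h
    rw [Finset.mem_coe, Finset.HasAntidiagonal.mem_antidiagonal] at h ⊢
    have h' : δ + ε = β := h
    show δ.mapDomain f + PsSum_m f g ε γ = PsSum_m f g β γ
    unfold PsSum_m
    rw [← h', Finsupp.mapDomain_add, add_assoc]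
  · rintro ⟨p, q⟩ h hn
    rw [Finset.HasAntidiagonal.mem_antidiagonal] at h
    have h' : p + q = PsSum_m f g β γ := h
    by_cases hp : p ∈ Set.range (Finsupp.mapDomain f : (ι₁ →₀ ℕ) → (ι →₀ ℕ))
    · exfalso
      obtain ⟨δ, rfl⟩ := hp
      apply hn
      have hle : δ ≤ β := by
        intro a
        have h1 := DFunLike.congr_fun h' (f a)
        unfold PsSum_m at h1
        rw [Finsupp.add_apply, Finsupp.add_apply, hz, Finsupp.mapDomain_apply hf,
          Finsupp.mapDomain_apply hf] at h1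
        omega
      obtain ⟨ε, rfl⟩ := exists_add_of_le hle
      refine ⟨(δ, ε), ?_, ?_⟩
      · rw [Finset.mem_coe, Finset.HasAntidiagonal.mem_antidiagonal]
      · unfold PsSum_m at h'
        rw [Finsupp.mapDomain_add, add_assoc] at h'
        have h2 := add_left_cancel h'
        show (δ.mapDomain f, ε.mapDomain f + γ.mapDomain g) = (δ.mapDomain f, q)
        rw [h2]
    · show MvPowerSeries.coeff p (MvPowerSeries.rename f y) • IsoPs_e q = 0
      rw [MvPowerSeries.coeff_rename_eq_zero f y hp, zero_smul]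
  · rintro ⟨δ, ε⟩ _
    show MvPolynomial.rename f (MvPowerSeries.coeff δ y • IsoPs_e ε) *
      MvPolynomial.rename g (IsoPs_e γ) =
        MvPowerSeries.coeff (δ.mapDomain f) (MvPowerSeries.rename f y) •
          IsoPs_e (PsSum_m f g ε γ)
    have hc : MvPowerSeries.coeff (δ.mapDomain f) (MvPowerSeries.rename f y) =
        MvPowerSeries.coeff δ y := by
      have h1 := MvPowerSeries.coeff_embDomain_rename (⟨f, hf⟩ : ι₁ ↪ ι) y δ
      rw [Finsupp.embDomain_eq_mapDomain] at h1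
      exact h1
    rw [hc, map_smul, smul_mul_assoc, PsSum_e f g hf hg hfg]

theorem PsSum_main [Filter.TendstoCofinite f] (hf : Function.Injective f)
    (hg : Function.Injective g) (hfg : ∀ a b, f a ≠ g b) (y : MvPowerSeries ι₁ ℂ)
    (p : MvPolynomial ι₁ ℂ) (q : MvPolynomial ι₂ ℂ) :
    psEnd (MvPowerSeries.rename f y) (MvPolynomial.rename f p * MvPolynomial.rename g q) =
      MvPolynomial.rename f (psEnd y p) * MvPolynomial.rename g q := by
  induction p using MvPolynomial.induction_on' with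
  | monomial β a =>
    induction q using MvPolynomial.induction_on' with
    | monomial γ b =>
      have h1 : ∀ {ι : Type} (β : ι →₀ ℕ) (a : ℂ),
          (MvPolynomial.monomial β a : MvPolynomial ι ℂ) = (a * fac β) • IsoPs_e β := by
        intro ι β a
        rw [mul_smul, ← IsoPs_mono, MvPolynomial.smul_monomial, smul_eq_mul, mul_one]
      rw [h1 β a, h1 γ b]
      simp only [map_smul, smul_mul_assoc, mul_smul_comm]
      rw [PsSum_e f g hf hg hfg, PsSum_psEnd_e f g hf hg hfg]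
    | add q q' h h' => rw [map_add, mul_add, mul_add, map_add, h, h']
  | add p p' h h' => rw [map_add, add_mul, map_add, h, h', map_add, map_add, add_mul]

end general

theorem psEnd_inl {ι₁ ι₂ : Type} [Finite ι₁] (y : MvPowerSeries ι₁ ℂ) (p : MvPolynomial ι₁ ℂ)
    (q : MvPolynomial ι₂ ℂ) :
    psEnd (MvPowerSeries.rename (Sum.inl : ι₁ → ι₁ ⊕ ι₂) y)
        (MvPolynomial.rename Sum.inl p * MvPolynomial.rename Sum.inr q) =
      MvPolynomial.rename Sum.inl (psEnd y p) * MvPolynomial.rename Sum.inr q :=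
  PsSum_main Sum.inl Sum.inr Sum.inl_injective Sum.inr_injective (fun _ _ => Sum.inl_ne_inr) y p q

theorem psEnd_inr {ι₁ ι₂ : Type} [Finite ι₂] (y : MvPowerSeries ι₂ ℂ) (p : MvPolynomial ι₁ ℂ)
    (q : MvPolynomial ι₂ ℂ) :
    psEnd (MvPowerSeries.rename (Sum.inr : ι₂ → ι₁ ⊕ ι₂) y)
        (MvPolynomial.rename Sum.inl p * MvPolynomial.rename Sum.inr q) =
      MvPolynomial.rename Sum.inl p * MvPolynomial.rename Sum.inr (psEnd y q) := by
  rw [mul_comm, PsSum_main Sum.inr Sum.inl Sum.inr_injective Sum.inl_injective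
    (fun _ _ => Sum.inr_ne_inl) y q p, mul_comm]

theorem hE_op {ι₁ ι₂ : Type} [Finite ι₁] [Finite ι₂] (y₁ : MvPowerSeries ι₁ ℂ)
    (y₂ : MvPowerSeries ι₂ ℂ)
    (x : (V₁ ⊗[ℂ] MvPolynomial ι₁ ℂ) ⊗[ℂ] (V₂ ⊗[ℂ] MvPolynomial ι₂ ℂ)) :
    hE V₁ V₂ ι₁ ι₂ (TensorProduct.map (opE V₁ y₁) (opE V₂ y₂) x) =
      opE (V₁ ⊗[ℂ] V₂) (MvPowerSeries.rename Sum.inl y₁ * MvPowerSeries.rename Sum.inr y₂)
        (hE V₁ V₂ ι₁ ι₂ x) := by
  induction x using TensorProduct.induction_on with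
  | zero => simp only [map_zero]
  | add x x' h h' => simp only [map_add, h, h']
  | tmul a b =>
    induction a using TensorProduct.induction_on with
    | zero => simp only [TensorProduct.zero_tmul, map_zero]
    | add a a' h h' => simp only [TensorProduct.add_tmul, map_add, h, h']
    | tmul v₁ p =>
      induction b using TensorProduct.induction_on with
      | zero => simp only [TensorProduct.tmul_zero, map_zero]
      | add b b' h h' => simp only [TensorProduct.tmul_add, map_add, h, h']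
      | tmul v₂ q =>
        have h1 : TensorProduct.map (opE V₁ y₁) (opE V₂ y₂) ((v₁ ⊗ₜ[ℂ] p) ⊗ₜ[ℂ] (v₂ ⊗ₜ[ℂ] q)) =
            (v₁ ⊗ₜ[ℂ] psEnd y₁ p) ⊗ₜ[ℂ] (v₂ ⊗ₜ[ℂ] psEnd y₂ q) := rfl
        rw [h1, hE_tmul, hE_tmul]
        show _ = (v₁ ⊗ₜ[ℂ] v₂) ⊗ₜ[ℂ] psEnd (MvPowerSeries.rename Sum.inl y₁ *
          MvPowerSeries.rename Sum.inr y₂)
            (MvPolynomial.rename Sum.inl p * MvPolynomial.rename Sum.inr q)
        rw [psEnd_mul, LinearMap.comp_apply, psEnd_inr, psEnd_inl]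

end

end Pool.Agent.Lib.MP_ca1492_al.P
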