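import Mathlib
import Pool.Agent.Lib.MP_ca1492_al.D5.Func
import Pool.Agent.Lib.MP_ca1492_al.P.ExtInd
import Pool.Agent.Lib.MP_ca1492_al.P.IndTw

/-!
# MP_ca1492_al, comparison, module SumI: induced representations of block diagonal groups

`c₁ : κ₁ → ι₁`, `c₂ : κ₂ → ι₂`, `β₁`, `β₂`; the sum has the colouring `Sum.map c₁ c₂` and the merging
`Sum.map β₁ β₂`; ambient group `HS = lev F (Sum.map β₁ β₂ ∘ Sum.map c₁ c₂)`, which consists of the block diagonal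
matrices with blocks in `H₁ = lev F (β₁ ∘ c₁)` and `H₂ = lev F (β₂ ∘ c₂)`. `p₁`, `p₂` = blocks, `jS` = block
diagonal element. `τ : ι₁ ⊕ ι₂ → ℤ` any injective order which agrees with `τ₁`, `τ₂` on the classes of `β₁`,
`β₂` (the order between `ι₁` and `ι₂` plays no role).

* `levI`: the two conditions are the same.
* `ex_sum`: the sum over `x, y : ι₁ ⊕ ι₂` splits (`Fintype.sum_sum_type`), the mixed terms vanish, `vl_inl`,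
  `vl_inr`, `nb (Sum.map c₁ c₂) (inl x) = nb c₁ x`.
* `sumI_exists`: `ext_ind` for `cb_i = β_i ∘ c_i`, `o_i = τ_i ∘ c_i` and the representations
  `twist (dh c_i β_i τ_i) σ_i`; `ext_twist` and `dh_sumI`. The target of `ext_ind` are functions on
  `lev F (Sum.map cb₁ cb₂)`, which is `HS` (`levI`); the unipotent groups of the orders
  `Sum.elim o₁ o₂` and `τ ∘ Sum.map c₁ c₂` inside `HS` agree.
* `sumI_equi`: on pure tensors.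
-/

set_option autoImplicit false

namespace Pool.Agent.Lib.MP_ca1492_al.P

open Topology Matrix ValuativeRel TensorProduct

noncomputable section

variable {F : Type} [Field F] [ValuativeRel F] [TopologicalSpace F]
  [IsNonarchimedeanLocalField F]

/-- colourings with the same classes have the same block group -/
def levI {κ : Type} [Fintype κ] [DecidableEq κ] {ι ι' : Type} {c : κ → ι} {c' : κ → ι'}
    (h : ∀ i j, c i = c j ↔ c' i = c' j) : lev F c ≃ₜ* lev F c' where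
  toFun g := ⟨g.1, fun i j hij => g.2 i j fun h' => hij ((h i j).1 h')⟩
  invFun g := ⟨g.1, fun i j hij => g.2 i j fun h' => hij ((h i j).2 h')⟩
  left_inv _ := rfl
  right_inv _ := rfl
  map_mul' _ _ := rfl
  continuous_toFun := continuous_subtype_val.subtype_mk _
  continuous_invFun := continuous_subtype_val.subtype_mk _

variable {κ₁ κ₂ : Type} [Fintype κ₁] [DecidableEq κ₁] [Fintype κ₂] [DecidableEq κ₂]
variable {ι₁ ι₂ ι₁' ι₂' : Type} [Fintype ι₁] [DecidableEq ι₁] [Fintype ι₂] [DecidableEq ι₂]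
variable (c₁ : κ₁ → ι₁) (c₂ : κ₂ → ι₂) (β₁ : ι₁ → ι₁') (β₂ : ι₂ → ι₂')

theorem sumβ_cls (i j : κ₁ ⊕ κ₂) :
    (fun i => Sum.map β₁ β₂ (Sum.map c₁ c₂ i)) i = (fun i => Sum.map β₁ β₂ (Sum.map c₁ c₂ i)) j ↔
      Sum.map (fun i => β₁ (c₁ i)) (fun i => β₂ (c₂ i)) i =
        Sum.map (fun i => β₁ (c₁ i)) (fun i => β₂ (c₂ i)) j := by
  rcases i with i | i <;> rcases j with j | j <;> simp

variable (F) in
/-- the first block -/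
def p₁ : lev F (fun i => Sum.map β₁ β₂ (Sum.map c₁ c₂ i)) →* lev F (fun i => β₁ (c₁ i)) :=
  (pr₁ F (fun i => β₁ (c₁ i)) (fun i => β₂ (c₂ i))).comp
    (levI (F := F) (sumβ_cls c₁ c₂ β₁ β₂)).toMulEquiv.toMonoidHom

variable (F) in
/-- the second block -/
def p₂ : lev F (fun i => Sum.map β₁ β₂ (Sum.map c₁ c₂ i)) →* lev F (fun i => β₂ (c₂ i)) :=
  (pr₂ F (fun i => β₁ (c₁ i)) (fun i => β₂ (c₂ i))).comp
    (levI (F := F) (sumβ_cls c₁ c₂ β₁ β₂)).toMulEquiv.toMonoidHom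

/-- block diagonal elements -/
def jS (g₁ : lev F (fun i => β₁ (c₁ i))) (g₂ : lev F (fun i => β₂ (c₂ i))) :
    lev F (fun i => Sum.map β₁ β₂ (Sum.map c₁ c₂ i)) :=
  (levI (F := F) (sumβ_cls c₁ c₂ β₁ β₂)).symm
    (lsum (fun i => β₁ (c₁ i)) (fun i => β₂ (c₂ i)) g₁ g₂)

theorem p₁_jS (g₁ : lev F (fun i => β₁ (c₁ i))) (g₂ : lev F (fun i => β₂ (c₂ i))) :
    p₁ F c₁ c₂ β₁ β₂ (jS c₁ c₂ β₁ β₂ g₁ g₂) = g₁ := pr₁_lsum _ _ g₁ g₂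

theorem p₂_jS (g₁ : lev F (fun i => β₁ (c₁ i))) (g₂ : lev F (fun i => β₂ (c₂ i))) :
    p₂ F c₁ c₂ β₁ β₂ (jS c₁ c₂ β₁ β₂ g₁ g₂) = g₂ := pr₂_lsum _ _ g₁ g₂

theorem jS_p (g : lev F (fun i => Sum.map β₁ β₂ (Sum.map c₁ c₂ i))) :
    jS c₁ c₂ β₁ β₂ (p₁ F c₁ c₂ β₁ β₂ g) (p₂ F c₁ c₂ β₁ β₂ g) = g := by
  have h := lsum_pr (fun i => β₁ (c₁ i)) (fun i => β₂ (c₂ i))
    (levI (F := F) (sumβ_cls c₁ c₂ β₁ β₂) g)
  have h1 := congrArg Subtype.val h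
  exact Subtype.ext h1

theorem jS_mul (g₁ h₁ : lev F (fun i => β₁ (c₁ i))) (g₂ h₂ : lev F (fun i => β₂ (c₂ i))) :
    jS c₁ c₂ β₁ β₂ (g₁ * h₁) (g₂ * h₂) = jS c₁ c₂ β₁ β₂ g₁ g₂ * jS c₁ c₂ β₁ β₂ h₁ h₂ := by
  have h := ExtInd_lsum_mul (F := F) (fun i => β₁ (c₁ i)) (fun i => β₂ (c₂ i)) g₁ h₁ g₂ h₂
  have h1 := congrArg Subtype.val h
  exact Subtype.ext h1

/-- the order `τ` of the blocks of the sum agrees with `τ₁`, `τ₂` on the classes of `β₁`, `β₂` -/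
def SOrd (τ₁ : ι₁ → ℤ) (τ₂ : ι₂ → ℤ) (τ : ι₁ ⊕ ι₂ → ℤ) : Prop :=
  (∀ x y, β₁ x = β₁ y → (τ₁ x < τ₁ y ↔ τ (Sum.inl x) < τ (Sum.inl y))) ∧
  ∀ x y, β₂ x = β₂ y → (τ₂ x < τ₂ y ↔ τ (Sum.inr x) < τ (Sum.inr y))

theorem SumI_nb_inl (x : ι₁) : nb (Sum.map c₁ c₂) (Sum.inl x) = nb c₁ x := by
  unfold nb
  congr 1
  rw [Finset.card_filter, Finset.card_filter, Fintype.sum_sum_type]
  simp

theorem SumI_nb_inr (x : ι₂) : nb (Sum.map c₁ c₂) (Sum.inr x) = nb c₂ x := by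
  unfold nb
  congr 1
  rw [Finset.card_filter, Finset.card_filter, Fintype.sum_sum_type]
  simp

variable {β₁ β₂} in
theorem ex_sum {τ₁ : ι₁ → ℤ} {τ₂ : ι₂ → ℤ} {τ : ι₁ ⊕ ι₂ → ℤ} (h : SOrd β₁ β₂ τ₁ τ₂ τ)
    (m : lev F (Sum.map c₁ c₂)) :
    ex (Sum.map c₁ c₂) (Sum.map β₁ β₂) τ m.1 =
      ex c₁ β₁ τ₁ (pr₁ F c₁ c₂ m).1 + ex c₂ β₂ τ₂ (pr₂ F c₁ c₂ m).1 := by
  unfold ex
  rw [Fintype.sum_sum_type]
  congr 1
  · refine Finset.sum_congr rfl fun x _ => ?_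
    rw [Fintype.sum_sum_type, Finset.sum_eq_zero (s := (Finset.univ : Finset ι₂))
      (fun y _ => if_neg fun h3 => by simp at h3), add_zero]
    refine Finset.sum_congr rfl fun y _ => ?_
    rw [SumI_nb_inl, SumI_nb_inl, vl_inl, vl_inl]
    by_cases hxy : β₁ x = β₁ y ∧ τ₁ x < τ₁ y
    · rw [if_pos hxy, if_pos ⟨congrArg Sum.inl hxy.1, (h.1 x y hxy.1).1 hxy.2⟩]
    · rw [if_neg hxy, if_neg fun h3 => hxy ⟨Sum.inl_injective h3.1,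
        (h.1 x y (Sum.inl_injective h3.1)).2 h3.2⟩]
  · refine Finset.sum_congr rfl fun x _ => ?_
    rw [Fintype.sum_sum_type, Finset.sum_eq_zero (s := (Finset.univ : Finset ι₁))
      (fun y _ => if_neg fun h3 => by simp at h3), zero_add]
    refine Finset.sum_congr rfl fun y _ => ?_
    rw [SumI_nb_inr, SumI_nb_inr, vl_inr, vl_inr]
    by_cases hxy : β₂ x = β₂ y ∧ τ₂ x < τ₂ y
    · rw [if_pos hxy, if_pos ⟨congrArg Sum.inr hxy.1, (h.2 x y hxy.1).1 hxy.2⟩]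
    · rw [if_neg hxy, if_neg fun h3 => hxy ⟨Sum.inr_injective h3.1,
        (h.2 x y (Sum.inr_injective h3.1)).2 h3.2⟩]

variable {β₁ β₂} in
theorem dh_sumI {τ₁ : ι₁ → ℤ} {τ₂ : ι₂ → ℤ} {τ : ι₁ ⊕ ι₂ → ℤ} (h : SOrd β₁ β₂ τ₁ τ₂ τ)
    (m : lev F (Sum.map c₁ c₂)) :
    dh (Sum.map c₁ c₂) (Sum.map β₁ β₂) τ m =
      dh c₁ β₁ τ₁ (pr₁ F c₁ c₂ m) * dh c₂ β₂ τ₂ (pr₂ F c₁ c₂ m) := by
  rw [dh_apply, dh_apply, dh_apply, ex_sum c₁ c₂ h, neg_add, _root_.zpow_add]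

theorem SumI_uni_le {κ : Type} [Fintype κ] [DecidableEq κ] {J J' : Type} {cb : κ → J}
    {cb' : κ → J'} {o o' : κ → ℤ} (hcb : ∀ i j, cb i = cb j ↔ cb' i = cb' j)
    (ho : ∀ i j, cb i = cb j → (o i < o j ↔ o' i < o' j)) : uni F cb o ≤ uni F cb' o' := by
  intro g hg
  have hl : ∀ i j, cb' i ≠ cb' j → (g : Matrix κ κ F) i j = 0 := fun i j hij =>
    hg.1.1 i j fun h' => hij ((hcb i j).1 h')
  refine ⟨⟨hl, fun i j hij => ?_⟩, fun i j hij => ?_⟩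
  · by_cases hb : cb i = cb j
    · exact hg.1.2 i j ((ho j i hb.symm).2 hij)
    · exact hl i j fun h' => hb ((hcb i j).2 h')
  · by_cases hb : cb i = cb j
    · have h1 := ho i j hb
      have h2 := ho j i hb.symm
      exact hg.2 i j (by omega)
    · rw [hl i j fun h' => hb ((hcb i j).2 h'), Matrix.one_apply_ne]
      rintro rfl
      exact hb rfl

variable {β₁ β₂} in
theorem SumI_uni {τ₁ : ι₁ → ℤ} {τ₂ : ι₂ → ℤ} {τ : ι₁ ⊕ ι₂ → ℤ} (h : SOrd β₁ β₂ τ₁ τ₂ τ) :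
    uni F (fun i => Sum.map β₁ β₂ (Sum.map c₁ c₂ i)) (fun i => τ (Sum.map c₁ c₂ i)) =
      uni F (Sum.map (fun i => β₁ (c₁ i)) (fun i => β₂ (c₂ i)))
        (Sum.elim (fun i => τ₁ (c₁ i)) (fun i => τ₂ (c₂ i))) := by
  have ho : ∀ i j : κ₁ ⊕ κ₂, Sum.map (fun i => β₁ (c₁ i)) (fun i => β₂ (c₂ i)) i =
      Sum.map (fun i => β₁ (c₁ i)) (fun i => β₂ (c₂ i)) j →
      (Sum.elim (fun i => τ₁ (c₁ i)) (fun i => τ₂ (c₂ i)) i <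
        Sum.elim (fun i => τ₁ (c₁ i)) (fun i => τ₂ (c₂ i)) j ↔
        τ (Sum.map c₁ c₂ i) < τ (Sum.map c₁ c₂ j)) := by
    rintro (i | i) (j | j) hij
    · exact h.1 _ _ (Sum.inl_injective hij)
    · simp at hij
    · simp at hij
    · exact h.2 _ _ (Sum.inr_injective hij)
  refine le_antisymm (SumI_uni_le (sumβ_cls c₁ c₂ β₁ β₂) fun i j hij => ?_)
    (SumI_uni_le (fun i j => (sumβ_cls c₁ c₂ β₁ β₂ i j).symm) ho)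
  exact (ho i j ((sumβ_cls c₁ c₂ β₁ β₂ i j).1 hij)).symm

/-- induced representations for two descriptions of the ambient group -/
theorem SumI_mem {κ : Type} [Fintype κ] [DecidableEq κ] {ι J J' : Type} {c : κ → ι}
    {cb : κ → J} {cb' : κ → J'} {o o' : κ → ℤ}
    (h : ∀ i j, c i = c j ↔ cb i = cb j ∧ o i = o j)
    (h' : ∀ i j, c i = c j ↔ cb' i = cb' j ∧ o' i = o' j)
    (hcb : ∀ i j, cb i = cb j ↔ cb' i = cb' j) (hu : uni F cb o = uni F cb' o')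
    {E : Type} [AddCommGroup E] [Module ℂ E]
    (σ : Representation ℂ (lev F c) E) (f : lev F cb' → E)
    (hf : f ∈ (parD c cb' o' h').IndSp σ) :
    (fun g => f (levI hcb g)) ∈ (parD c cb o h).IndSp σ := by
  obtain ⟨h1, U, hU, h2⟩ := hf
  refine ⟨fun m hm n hn g => ?_, U.comap (levI (F := F) hcb).toMulEquiv.toMonoidHom,
    hU.preimage (levI (F := F) hcb).continuous_toFun, fun g u hu => ?_⟩
  · have hn' : n ∈ uni F cb' o' := by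
      rw [← hu]
      exact hn
    exact h1 m hm n hn' (levI hcb g)
  · show f (levI hcb (g * u)) = f (levI hcb g)
    rw [map_mul]
    exact h2 _ _ hu

/-- induced representations for two descriptions of the ambient group -/
def SumI_eqv {κ : Type} [Fintype κ] [DecidableEq κ] {ι J J' : Type} {c : κ → ι}
    {cb : κ → J} {cb' : κ → J'} {o o' : κ → ℤ}
    (h : ∀ i j, c i = c j ↔ cb i = cb j ∧ o i = o j)
    (h' : ∀ i j, c i = c j ↔ cb' i = cb' j ∧ o' i = o' j)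
    (hcb : ∀ i j, cb i = cb j ↔ cb' i = cb' j) (hu : uni F cb o = uni F cb' o')
    {E : Type} [AddCommGroup E] [Module ℂ E] (σ : Representation ℂ (lev F c) E) :
    (parD c cb' o' h').IndSp σ ≃ₗ[ℂ] (parD c cb o h).IndSp σ where
  toFun f := ⟨fun g => f.1 (levI hcb g), SumI_mem h h' hcb hu σ f.1 f.2⟩
  invFun f := ⟨fun g => f.1 (levI (fun i j => (hcb i j).symm) g),
    SumI_mem h' h (fun i j => (hcb i j).symm) hu.symm σ f.1 f.2⟩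
  left_inv _ := rfl
  right_inv _ := rfl
  map_add' _ _ := rfl
  map_smul' _ _ := rfl

variable {E₁ E₂ : Type} [AddCommGroup E₁] [Module ℂ E₁] [AddCommGroup E₂] [Module ℂ E₂]

section

variable {c₁ c₂ β₁ β₂}
variable {τ₁ : ι₁ → ℤ} (hτ₁ : Function.Injective τ₁) {τ₂ : ι₂ → ℤ} (hτ₂ : Function.Injective τ₂)
  {τ : ι₁ ⊕ ι₂ → ℤ} (hτ : Function.Injective τ) (h : SOrd β₁ β₂ τ₁ τ₂ τ)
  (σ₁ : Representation ℂ (lev F c₁) E₁) (σ₂ : Representation ℂ (lev F c₂) E₂)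

include h in
theorem sumI_exists : ∃ Θ : (ISp c₁ β₁ τ₁ hτ₁ σ₁ ⊗[ℂ] ISp c₂ β₂ τ₂ hτ₂ σ₂) ≃ₗ[ℂ]
      ISp (Sum.map c₁ c₂) (Sum.map β₁ β₂) τ hτ (ext σ₁ σ₂),
    ∀ f₁ f₂ g, (Θ (f₁ ⊗ₜ[ℂ] f₂)).1 g =
      f₁.1 (p₁ F c₁ c₂ β₁ β₂ g) ⊗ₜ[ℂ] f₂.1 (p₂ F c₁ c₂ β₁ β₂ g) := by
  have H := ext_ind c₁ c₂ (fun i => β₁ (c₁ i)) (fun i => β₂ (c₂ i))
    (fun i => τ₁ (c₁ i)) (fun i => τ₂ (c₂ i)) (ordD_cond c₁ β₁ τ₁ hτ₁) (ordD_cond c₂ β₂ τ₂ hτ₂)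
    (twist (dh c₁ β₁ τ₁) σ₁) (twist (dh c₂ β₂ τ₂) σ₂)
  have hσ : ext (twist (dh c₁ β₁ τ₁) σ₁) (twist (dh c₂ β₂ τ₂) σ₂) =
      twist (dh (Sum.map c₁ c₂) (Sum.map β₁ β₂) τ) (ext σ₁ σ₂) := by
    rw [ext_twist]
    congr 1
    ext m
    rw [dh_sumI c₁ c₂ h]
    rfl
  rw [hσ] at H
  obtain ⟨e, -, he⟩ := H
  let Ψ := SumI_eqv (ordD_cond (Sum.map c₁ c₂) (Sum.map β₁ β₂) τ hτ)
    (sum_cond c₁ c₂ (fun i => β₁ (c₁ i)) (fun i => β₂ (c₂ i)) (fun i => τ₁ (c₁ i))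
      (fun i => τ₂ (c₂ i)) (ordD_cond c₁ β₁ τ₁ hτ₁) (ordD_cond c₂ β₂ τ₂ hτ₂))
    (sumβ_cls c₁ c₂ β₁ β₂) (SumI_uni (F := F) c₁ c₂ h)
    (twist (dh (Sum.map c₁ c₂) (Sum.map β₁ β₂) τ) (ext σ₁ σ₂))
  exact ⟨e.trans Ψ, fun f₁ f₂ g => he f₁ f₂ (levI (F := F) (sumβ_cls c₁ c₂ β₁ β₂) g)⟩

/-- the induced representation of the sum is the tensor product -/
def sumI : (ISp c₁ β₁ τ₁ hτ₁ σ₁ ⊗[ℂ] ISp c₂ β₂ τ₂ hτ₂ σ₂) ≃ₗ[ℂ]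
    ISp (Sum.map c₁ c₂) (Sum.map β₁ β₂) τ hτ (ext σ₁ σ₂) :=
  Classical.choose (sumI_exists hτ₁ hτ₂ hτ h σ₁ σ₂)

theorem sumI_tmul (f₁ : ISp c₁ β₁ τ₁ hτ₁ σ₁) (f₂ : ISp c₂ β₂ τ₂ hτ₂ σ₂)
    (g : lev F (fun i => Sum.map β₁ β₂ (Sum.map c₁ c₂ i))) :
    (sumI hτ₁ hτ₂ hτ h σ₁ σ₂ (f₁ ⊗ₜ[ℂ] f₂)).1 g =
      f₁.1 (p₁ F c₁ c₂ β₁ β₂ g) ⊗ₜ[ℂ] f₂.1 (p₂ F c₁ c₂ β₁ β₂ g) :=
  Classical.choose_spec (sumI_exists hτ₁ hτ₂ hτ h σ₁ σ₂) f₁ f₂ g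

theorem sumI_equi (g : lev F (fun i => Sum.map β₁ β₂ (Sum.map c₁ c₂ i)))
    (t : ISp c₁ β₁ τ₁ hτ₁ σ₁ ⊗[ℂ] ISp c₂ β₂ τ₂ hτ₂ σ₂) :
    sumI hτ₁ hτ₂ hτ h σ₁ σ₂ (TensorProduct.map (IRp c₁ β₁ τ₁ hτ₁ σ₁ (p₁ F c₁ c₂ β₁ β₂ g))
        (IRp c₂ β₂ τ₂ hτ₂ σ₂ (p₂ F c₁ c₂ β₁ β₂ g)) t) =
      IRp (Sum.map c₁ c₂) (Sum.map β₁ β₂) τ hτ (ext σ₁ σ₂) g
        (sumI hτ₁ hτ₂ hτ h σ₁ σ₂ t) := by
  induction t with
  | zero => rw [map_zero, map_zero, map_zero]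
  | tmul f₁ f₂ =>
    refine Subtype.ext (funext fun x => ?_)
    rw [TensorProduct.map_tmul, sumI_tmul]
    show f₁.1 (p₁ F c₁ c₂ β₁ β₂ x * p₁ F c₁ c₂ β₁ β₂ g) ⊗ₜ[ℂ]
      f₂.1 (p₂ F c₁ c₂ β₁ β₂ x * p₂ F c₁ c₂ β₁ β₂ g) =
        (sumI hτ₁ hτ₂ hτ h σ₁ σ₂ (f₁ ⊗ₜ[ℂ] f₂)).1 (x * g)
    rw [sumI_tmul, map_mul, map_mul]
  | add a b ha hb => rw [map_add, map_add, map_add, map_add, ha, hb]

theorem sumI_one (t : ISp c₁ β₁ τ₁ hτ₁ σ₁ ⊗[ℂ] ISp c₂ β₂ τ₂ hτ₂ σ₂) :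
    (sumI hτ₁ hτ₂ hτ h σ₁ σ₂ t).1 1 =
      TensorProduct.map (ev1 c₁ β₁ τ₁ hτ₁ σ₁) (ev1 c₂ β₂ τ₂ hτ₂ σ₂) t := by
  induction t with
  | zero =>
    rw [map_zero, map_zero]
    rfl
  | tmul f₁ f₂ =>
    rw [TensorProduct.map_tmul, sumI_tmul, map_one, map_one]
    rfl
  | add a b ha hb =>
    rw [map_add, map_add, ← ha, ← hb]
    rfl

end

end

end Pool.Agent.Lib.MP_ca1492_al.P
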