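import Mathlib
import Pool.Agent.Lib.MP_ca1492_al.Cmp.PsSum
import Pool.Agent.Lib.MP_ca1492_al.Cmp.SumI
import Pool.Agent.Lib.MP_ca1492_al.D5.Lead

/-!
# MP_ca1492_al, comparison, module SumH: tensor products of functionals on `I(hat ρ)`

`sumH : I(hat ρ₁) ⊗ I(hat ρ₂) ≃ I(hat (ρ₁ ⊠ ρ₂))`, `bx L₁ L₂` = `L₁ ⊗ L₂`.

* `hE_equi`: on pure tensors (`hE_tmul`, `shiftP_sum`, `vl_inl`, `vl_inr`; compare `hat_ext`).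
* `sumH_exists`: `sumI` for `hat c₁ ρ₁`, `hat c₂ ρ₂`, followed by `f ↦ hE ∘ f` (`ISp_map`, both directions).
* `sumH_equi`, `sumH_op`: on pure tensors.
-/

set_option autoImplicit false

namespace Pool.Agent.Lib.MP_ca1492_al.P

open Topology Matrix ValuativeRel TensorProduct

noncomputable section

variable {V₁ V₂ : Type} [AddCommGroup V₁] [Module ℂ V₁] [AddCommGroup V₂] [Module ℂ V₂]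

variable {F : Type} [Field F] [ValuativeRel F] [TopologicalSpace F]
  [IsNonarchimedeanLocalField F]
variable {κ₁ κ₂ : Type} [Fintype κ₁] [DecidableEq κ₁] [Fintype κ₂] [DecidableEq κ₂]
variable {ι₁ ι₂ ι₁' ι₂' : Type} [Fintype ι₁] [DecidableEq ι₁] [Fintype ι₂] [DecidableEq ι₂]
variable {c₁ : κ₁ → ι₁} {c₂ : κ₂ → ι₂} {β₁ : ι₁ → ι₁'} {β₂ : ι₂ → ι₂'}

theorem hE_equi (ρ₁ : Representation ℂ (lev F c₁) V₁) (ρ₂ : Representation ℂ (lev F c₂) V₂) :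
    Equi (ext (hat c₁ ρ₁) (hat c₂ ρ₂)) (hat (Sum.map c₁ c₂) (ext ρ₁ ρ₂))
      (hE V₁ V₂ ι₁ ι₂ : _ →ₗ[ℂ] _) := by
  intro g t
  have hcomp : (hE V₁ V₂ ι₁ ι₂ : _ →ₗ[ℂ] _) ∘ₗ (ext (hat c₁ ρ₁) (hat c₂ ρ₂) g) =
      (hat (Sum.map c₁ c₂) (ext ρ₁ ρ₂) g) ∘ₗ
        (hE V₁ V₂ ι₁ ι₂ : _ →ₗ[ℂ] ((V₁ ⊗[ℂ] V₂) ⊗[ℂ] MvPolynomial (ι₁ ⊕ ι₂) ℂ)) := by
    apply TensorProduct.ext_fourfold'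
    intro v₁ p v₂ q
    rw [LinearMap.comp_apply, LinearMap.comp_apply, LinearEquiv.coe_coe, extT_tmul, hat_apply,
      hat_apply, TensorProduct.map_tmul, TensorProduct.map_tmul, hE_tmul, hE_tmul, hat_apply,
      TensorProduct.map_tmul, extT_tmul, shiftP_sum]
    have h1 : (fun a => vl (Sum.map c₁ c₂) g.1 (Sum.inl a)) = vl c₁ (pr₁ F c₁ c₂ g).1 := by
      funext a
      exact vl_inl g a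
    have h2 : (fun b => vl (Sum.map c₁ c₂) g.1 (Sum.inr b)) = vl c₂ (pr₂ F c₁ c₂ g).1 := by
      funext b
      exact vl_inr g b
    rw [h1, h2]
  exact LinearMap.congr_fun hcomp t

/-- isomorphic representations have isomorphic induced representations -/
theorem SumH_cong {κ ι ι' : Type} [Fintype κ] [DecidableEq κ] [Fintype ι] [DecidableEq ι]
    {E E' : Type} [AddCommGroup E] [Module ℂ E] [AddCommGroup E'] [Module ℂ E'] (c : κ → ι)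
    (β : ι → ι') (τ : ι → ℤ) (hτ : Function.Injective τ) (σ : Representation ℂ (lev F c) E)
    (σ' : Representation ℂ (lev F c) E') (e : E ≃ₗ[ℂ] E') (he : Equi σ σ' (e : E →ₗ[ℂ] E')) :
    ∃ Θ : ISp c β τ hτ σ ≃ₗ[ℂ] ISp c β τ hτ σ', ∀ f g, (Θ f).1 g = e (f.1 g) := by
  have he' : Equi σ' σ (e.symm : E' →ₗ[ℂ] E) := by
    intro g v
    show e.symm (σ' g v) = σ g (e.symm v)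
    apply e.injective
    rw [LinearEquiv.apply_symm_apply]
    have h1 : e (σ g (e.symm v)) = σ' g (e (e.symm v)) := he g (e.symm v)
    rw [h1, LinearEquiv.apply_symm_apply]
  exact ⟨{ toFun := fun f => ⟨fun g => e (f.1 g), ISp_map c β τ hτ σ σ' (e : E →ₗ[ℂ] E') he f.1 f.2⟩
           map_add' := fun f f' => Subtype.ext (funext fun g => map_add e (f.1 g) (f'.1 g))
           map_smul' := fun z f => Subtype.ext (funext fun g => map_smul e z (f.1 g))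
           invFun := fun f => ⟨fun g => e.symm (f.1 g),
             ISp_map c β τ hτ σ' σ (e.symm : E' →ₗ[ℂ] E) he' f.1 f.2⟩
           left_inv := fun f => Subtype.ext (funext fun g => e.symm_apply_apply (f.1 g))
           right_inv := fun f => Subtype.ext (funext fun g => e.apply_symm_apply (f.1 g)) },
    fun f g => rfl⟩

variable {τ₁ : ι₁ → ℤ} (hτ₁ : Function.Injective τ₁) {τ₂ : ι₂ → ℤ} (hτ₂ : Function.Injective τ₂)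
  {τ : ι₁ ⊕ ι₂ → ℤ} (hτ : Function.Injective τ) (h : SOrd β₁ β₂ τ₁ τ₂ τ)
  (ρ₁ : Representation ℂ (lev F c₁) V₁) (ρ₂ : Representation ℂ (lev F c₂) V₂)

include h in
theorem sumH_exists : ∃ Θ : (ISp c₁ β₁ τ₁ hτ₁ (hat c₁ ρ₁) ⊗[ℂ] ISp c₂ β₂ τ₂ hτ₂ (hat c₂ ρ₂)) ≃ₗ[ℂ]
      ISp (Sum.map c₁ c₂) (Sum.map β₁ β₂) τ hτ (hat (Sum.map c₁ c₂) (ext ρ₁ ρ₂)),
    ∀ f₁ f₂ g, (Θ (f₁ ⊗ₜ[ℂ] f₂)).1 g = hE V₁ V₂ ι₁ ι₂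
      (f₁.1 (p₁ F c₁ c₂ β₁ β₂ g) ⊗ₜ[ℂ] f₂.1 (p₂ F c₁ c₂ β₁ β₂ g)) := by
  obtain ⟨Θ, hΘ⟩ := SumH_cong (Sum.map c₁ c₂) (Sum.map β₁ β₂) τ hτ
    (ext (hat c₁ ρ₁) (hat c₂ ρ₂)) (hat (Sum.map c₁ c₂) (ext ρ₁ ρ₂)) (hE V₁ V₂ ι₁ ι₂)
    (hE_equi ρ₁ ρ₂)
  refine ⟨(sumI hτ₁ hτ₂ hτ h (hat c₁ ρ₁) (hat c₂ ρ₂)).trans Θ, fun f₁ f₂ g => ?_⟩
  rw [LinearEquiv.trans_apply, hΘ, sumI_tmul]

/-- `I(hat ρ₁) ⊗ I(hat ρ₂) ≃ I(hat (ρ₁ ⊠ ρ₂))` -/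
def sumH : (ISp c₁ β₁ τ₁ hτ₁ (hat c₁ ρ₁) ⊗[ℂ] ISp c₂ β₂ τ₂ hτ₂ (hat c₂ ρ₂)) ≃ₗ[ℂ]
    ISp (Sum.map c₁ c₂) (Sum.map β₁ β₂) τ hτ (hat (Sum.map c₁ c₂) (ext ρ₁ ρ₂)) :=
  Classical.choose (sumH_exists hτ₁ hτ₂ hτ h ρ₁ ρ₂)

theorem sumH_tmul (f₁ : ISp c₁ β₁ τ₁ hτ₁ (hat c₁ ρ₁)) (f₂ : ISp c₂ β₂ τ₂ hτ₂ (hat c₂ ρ₂))
    (g : lev F (fun i => Sum.map β₁ β₂ (Sum.map c₁ c₂ i))) :
    (sumH hτ₁ hτ₂ hτ h ρ₁ ρ₂ (f₁ ⊗ₜ[ℂ] f₂)).1 g = hE V₁ V₂ ι₁ ι₂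
      (f₁.1 (p₁ F c₁ c₂ β₁ β₂ g) ⊗ₜ[ℂ] f₂.1 (p₂ F c₁ c₂ β₁ β₂ g)) :=
  Classical.choose_spec (sumH_exists hτ₁ hτ₂ hτ h ρ₁ ρ₂) f₁ f₂ g

theorem sumH_equi (g : lev F (fun i => Sum.map β₁ β₂ (Sum.map c₁ c₂ i)))
    (t : ISp c₁ β₁ τ₁ hτ₁ (hat c₁ ρ₁) ⊗[ℂ] ISp c₂ β₂ τ₂ hτ₂ (hat c₂ ρ₂)) :
    sumH hτ₁ hτ₂ hτ h ρ₁ ρ₂ (TensorProduct.map (IRp c₁ β₁ τ₁ hτ₁ (hat c₁ ρ₁)
        (p₁ F c₁ c₂ β₁ β₂ g)) (IRp c₂ β₂ τ₂ hτ₂ (hat c₂ ρ₂) (p₂ F c₁ c₂ β₁ β₂ g)) t) =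
      IRp (Sum.map c₁ c₂) (Sum.map β₁ β₂) τ hτ (hat (Sum.map c₁ c₂) (ext ρ₁ ρ₂)) g
        (sumH hτ₁ hτ₂ hτ h ρ₁ ρ₂ t) := by
  induction t using TensorProduct.induction_on with
  | zero => simp only [map_zero]
  | add a b ha hb => simp only [map_add, ha, hb]
  | tmul f₁ f₂ =>
    refine Subtype.ext (funext fun x => ?_)
    rw [TensorProduct.map_tmul, sumH_tmul]
    have h1 : (IRp (Sum.map c₁ c₂) (Sum.map β₁ β₂) τ hτ (hat (Sum.map c₁ c₂) (ext ρ₁ ρ₂)) g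
        (sumH hτ₁ hτ₂ hτ h ρ₁ ρ₂ (f₁ ⊗ₜ[ℂ] f₂))).1 x =
          (sumH hτ₁ hτ₂ hτ h ρ₁ ρ₂ (f₁ ⊗ₜ[ℂ] f₂)).1 (x * g) := rfl
    rw [h1, sumH_tmul, map_mul, map_mul]
    rfl

theorem sumH_op (y₁ : MvPowerSeries ι₁ ℂ) (y₂ : MvPowerSeries ι₂ ℂ)
    (t : ISp c₁ β₁ τ₁ hτ₁ (hat c₁ ρ₁) ⊗[ℂ] ISp c₂ β₂ τ₂ hτ₂ (hat c₂ ρ₂)) :
    sumH hτ₁ hτ₂ hτ h ρ₁ ρ₂ (TensorProduct.map (opI c₁ β₁ τ₁ hτ₁ ρ₁ y₁)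
        (opI c₂ β₂ τ₂ hτ₂ ρ₂ y₂) t) =
      opI (Sum.map c₁ c₂) (Sum.map β₁ β₂) τ hτ (ext ρ₁ ρ₂)
        (MvPowerSeries.rename Sum.inl y₁ * MvPowerSeries.rename Sum.inr y₂)
        (sumH hτ₁ hτ₂ hτ h ρ₁ ρ₂ t) := by
  induction t using TensorProduct.induction_on with
  | zero => simp only [map_zero]
  | add a b ha hb => simp only [map_add, ha, hb]
  | tmul f₁ f₂ =>
    refine Subtype.ext (funext fun x => ?_)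
    rw [TensorProduct.map_tmul, sumH_tmul]
    have h1 : (opI (Sum.map c₁ c₂) (Sum.map β₁ β₂) τ hτ (ext ρ₁ ρ₂)
        (MvPowerSeries.rename Sum.inl y₁ * MvPowerSeries.rename Sum.inr y₂)
        (sumH hτ₁ hτ₂ hτ h ρ₁ ρ₂ (f₁ ⊗ₜ[ℂ] f₂))).1 x =
          opE (V₁ ⊗[ℂ] V₂) (MvPowerSeries.rename Sum.inl y₁ * MvPowerSeries.rename Sum.inr y₂)
            ((sumH hτ₁ hτ₂ hτ h ρ₁ ρ₂ (f₁ ⊗ₜ[ℂ] f₂)).1 x) := rfl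
    rw [h1, sumH_tmul, ← hE_op, TensorProduct.map_tmul]
    rfl

/-- the tensor product of two functionals -/
def bx (L₁ : ISp c₁ β₁ τ₁ hτ₁ (hat c₁ ρ₁) →ₗ[ℂ] V₁ ⊗[ℂ] MvPolynomial ι₁ ℂ)
    (L₂ : ISp c₂ β₂ τ₂ hτ₂ (hat c₂ ρ₂) →ₗ[ℂ] V₂ ⊗[ℂ] MvPolynomial ι₂ ℂ) :
    ISp (Sum.map c₁ c₂) (Sum.map β₁ β₂) τ hτ (hat (Sum.map c₁ c₂) (ext ρ₁ ρ₂)) →ₗ[ℂ]
      (V₁ ⊗[ℂ] V₂) ⊗[ℂ] MvPolynomial (ι₁ ⊕ ι₂) ℂ :=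
  (hE V₁ V₂ ι₁ ι₂ : _ →ₗ[ℂ] _) ∘ₗ TensorProduct.map L₁ L₂ ∘ₗ
    ((sumH hτ₁ hτ₂ hτ h ρ₁ ρ₂).symm : _ →ₗ[ℂ] _)

theorem bx_tmul (L₁ : ISp c₁ β₁ τ₁ hτ₁ (hat c₁ ρ₁) →ₗ[ℂ] V₁ ⊗[ℂ] MvPolynomial ι₁ ℂ)
    (L₂ : ISp c₂ β₂ τ₂ hτ₂ (hat c₂ ρ₂) →ₗ[ℂ] V₂ ⊗[ℂ] MvPolynomial ι₂ ℂ)
    (f₁ : ISp c₁ β₁ τ₁ hτ₁ (hat c₁ ρ₁)) (f₂ : ISp c₂ β₂ τ₂ hτ₂ (hat c₂ ρ₂)) :
    bx hτ₁ hτ₂ hτ h ρ₁ ρ₂ L₁ L₂ (sumH hτ₁ hτ₂ hτ h ρ₁ ρ₂ (f₁ ⊗ₜ[ℂ] f₂)) =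
      hE V₁ V₂ ι₁ ι₂ (L₁ f₁ ⊗ₜ[ℂ] L₂ f₂) := by
  show hE V₁ V₂ ι₁ ι₂ (TensorProduct.map L₁ L₂ ((sumH hτ₁ hτ₂ hτ h ρ₁ ρ₂).symm
    (sumH hτ₁ hτ₂ hτ h ρ₁ ρ₂ (f₁ ⊗ₜ[ℂ] f₂)))) = _
  rw [LinearEquiv.symm_apply_apply, TensorProduct.map_tmul]

end

end Pool.Agent.Lib.MP_ca1492_al.P
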