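import Mathlib
import Pool.Agent.Lib.MP_ca1492_al.Cmp.ProdM
import Pool.Agent.Lib.MP_ca1492_al.Cmp.SumH
import Pool.Agent.Lib.MP_ca1492_al.D5.Nop

/-!
# MP_ca1492_al, comparison, module ProdI: products of normalised induced representations

The product `(indG c₁ τ₁ σ₁).mul (indG c₂ τ₂ σ₂)` of `Statement.lean` is `indG (Sum.map c₁ c₂) τ (ext σ₁ σ₂)` for orders
`τ` of `ι₁ ⊕ ι₂` which agree with `τ₁`, `τ₂` and put `ι₁` before `ι₂` (`BOrd`).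

* `dh_prod`: exponents: `ex` of the sum for the constant `β` is `ex₁ + ex₂ + |κ₂| vl(det g₁) - |κ₁| vl(det g₂)`
  (mixed terms `x ∈ ι₁`, `y ∈ ι₂`: `Σ_y nb y = |κ₂|`, `Σ_x vl c₁ m x = ordF (det)`), `absF_eq`, `sqmod`.
* `prodI_exists`: `(Θ f)(g) = (ev1 ⊗ ev1)(f g)`. In `ISp`: for `m ∈ lev (Sum.map c₁ c₂)` and `n ∈ uni` for the order
  `τ`, `m n = blk g₁ g₂ u` with `g_i = m_i n_i`; use the condition of `indSp`, `dh_prod`. Inverse: for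
  `F ∈ ISp` and `g ∈ GL` the function `h ↦ sqmod(h₁, h₂)⁻¹ F(h g)` on the block diagonal group
  `lev F (Sum.map (fun _ => ()) (fun _ => ()) ∘ Sum.map c₁ c₂)` is in `ISp` of the sum with constant `β₁`, `β₂`, so it
  is `sumI t` for a unique `t =: f(g)` (`sumI`). `f (blk g₁ g₂ u * g) = sqmod • (R ⊗ R) f(g)`: compare the
  functions (`sumI_equi`; `F(h blk(1, 1, u) g) = F(blk(1, 1, u') h g) = F(h g)`).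
* `prodH_exists`: the same followed by `hE` (`hE_equi`, `ISp_map`).
-/

set_option autoImplicit false

namespace Pool.Agent.Lib.MP_ca1492_al.P

open Topology Matrix ValuativeRel TensorProduct
open Pool.Agent.Lib.MP_ca1492_al.Q (GLRep)

noncomputable section

variable {F : Type} [Field F] [ValuativeRel F] [TopologicalSpace F]
  [IsNonarchimedeanLocalField F]

section Aux

variable {κ₁ κ₂ ι₁ ι₂ : Type} [Fintype κ₁] [DecidableEq κ₁] [Fintype κ₂] [DecidableEq κ₂]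
  [Fintype ι₁] [DecidableEq ι₁] [Fintype ι₂] [DecidableEq ι₂]

theorem ProdI_vdet {κ : Type} [Fintype κ] [DecidableEq κ] (g : GL κ F) :
    vdet g = ordF F (g : Matrix κ κ F).det := by
  unfold vdet vl bdet
  congr 1
  exact Matrix.det_submatrix_equiv_self
    (Equiv.subtypeUnivEquiv (p := fun i : κ => (fun _ : κ => ()) i = ()) (fun _ => rfl))
    (g : Matrix κ κ F)

/-- the exponent of `sqmod` -/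
def ProdI_e (g₁ : GL κ₁ F) (g₂ : GL κ₂ F) : ℤ :=
  (Fintype.card κ₂ : ℤ) * vdet g₁ - (Fintype.card κ₁ : ℤ) * vdet g₂

theorem ProdI_sqmod (g₁ : GL κ₁ F) (g₂ : GL κ₂ F) :
    ((Q.GLRep.sqmod g₁ g₂ : ℝ) : ℂ) = ((sqF F ^ (- ProdI_e g₁ g₂) : ℂˣ) : ℂ) := by
  have hd₁ : (g₁ : Matrix κ₁ κ₁ F).det ≠ 0 := (Matrix.isUnits_det_units g₁).ne_zero
  have hd₂ : (g₂ : Matrix κ₂ κ₂ F).det ≠ 0 := (Matrix.isUnits_det_units g₂).ne_zero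
  have hq : (0 : ℝ) < (qF F : ℝ) := by
    have := one_lt_qF (F := F)
    exact_mod_cast (by omega : 0 < qF F)
  have h1 : ((sqF F ^ (- ProdI_e g₁ g₂) : ℂˣ) : ℂ) =
      ((Real.sqrt (qF F) ^ (- ProdI_e g₁ g₂) : ℝ) : ℂ) := by
    rw [Units.val_zpow_eq_zpow_val, Complex.ofReal_zpow]
    rfl
  rw [h1]
  congr 1
  unfold Q.GLRep.sqmod ProdI_e
  rw [absF_eq _ hd₁, absF_eq _ hd₂, ProdI_vdet, ProdI_vdet, Real.sqrt_eq_rpow,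
    ← Real.rpow_intCast, ← Real.rpow_intCast, ← Real.rpow_intCast,
    ← Real.rpow_mul hq.le, ← Real.rpow_mul hq.le, ← Real.rpow_mul hq.le, ← Real.rpow_add hq]
  congr 1
  push_cast
  ring

theorem ProdI_e_mul (g₁ h₁ : GL κ₁ F) (g₂ h₂ : GL κ₂ F) :
    ProdI_e (g₁ * h₁) (g₂ * h₂) = ProdI_e g₁ g₂ + ProdI_e h₁ h₂ := by
  unfold ProdI_e
  rw [vdet_mul, vdet_mul]
  ring

theorem ProdI_e_one : ProdI_e (1 : GL κ₁ F) (1 : GL κ₂ F) = 0 := by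
  unfold ProdI_e
  rw [vdet_one, vdet_one]
  ring

/-- the square root of the modulus character as a unit -/
def ProdI_s (g₁ : GL κ₁ F) (g₂ : GL κ₂ F) : ℂˣ := sqF F ^ (- ProdI_e g₁ g₂)

theorem ProdI_s_mul (g₁ h₁ : GL κ₁ F) (g₂ h₂ : GL κ₂ F) :
    ProdI_s (g₁ * h₁) (g₂ * h₂) = ProdI_s g₁ g₂ * ProdI_s h₁ h₂ := by
  unfold ProdI_s
  rw [ProdI_e_mul, neg_add, _root_.zpow_add]

theorem ProdI_s_one : ProdI_s (1 : GL κ₁ F) (1 : GL κ₂ F) = 1 := by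
  unfold ProdI_s
  rw [ProdI_e_one, neg_zero, zpow_zero]

theorem ProdI_s_of (g₁ : GL κ₁ F) (g₂ : GL κ₂ F) (h₁ : vdet g₁ = 0) (h₂ : vdet g₂ = 0) :
    ProdI_s g₁ g₂ = 1 := by
  unfold ProdI_s ProdI_e
  rw [h₁, h₂]
  simp

theorem ProdI_nb_inl (c₁ : κ₁ → ι₁) (c₂ : κ₂ → ι₂) (x : ι₁) :
    nb (Sum.map c₁ c₂) (Sum.inl x) = nb c₁ x := by
  unfold nb
  rw [Finset.card_filter, Finset.card_filter, Fintype.sum_sum_type]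
  simp

theorem ProdI_nb_inr (c₁ : κ₁ → ι₁) (c₂ : κ₂ → ι₂) (x : ι₂) :
    nb (Sum.map c₁ c₂) (Sum.inr x) = nb c₂ x := by
  unfold nb
  rw [Finset.card_filter, Finset.card_filter, Fintype.sum_sum_type]
  simp

theorem ProdI_nb_sum {κ ι : Type} [Fintype κ] [DecidableEq κ] [Fintype ι] [DecidableEq ι]
    (c : κ → ι) : ∑ x, nb c x = (Fintype.card κ : ℤ) := by
  unfold nb
  rw [← Nat.cast_sum]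
  congr 1
  have h := Finset.card_eq_sum_card_fiberwise (s := (Finset.univ : Finset κ))
    (t := (Finset.univ : Finset ι)) (f := c) (fun x _ => Finset.mem_coe.2 (Finset.mem_univ _))
  rw [Finset.card_univ] at h
  exact h.symm

end Aux

section

variable {κ₁ κ₂ ι₁ ι₂ E₁ E₂ : Type} [Fintype κ₁] [DecidableEq κ₁] [Fintype κ₂] [DecidableEq κ₂]
  [Fintype ι₁] [DecidableEq ι₁] [Fintype ι₂] [DecidableEq ι₂]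
  [AddCommGroup E₁] [Module ℂ E₁] [AddCommGroup E₂] [Module ℂ E₂]
  (c₁ : κ₁ → ι₁) (c₂ : κ₂ → ι₂)

/-- orders of `ι₁ ⊕ ι₂` which agree with `τ₁`, `τ₂` and put `ι₁` before `ι₂` -/
def BOrd (τ₁ : ι₁ → ℤ) (τ₂ : ι₂ → ℤ) (τ : ι₁ ⊕ ι₂ → ℤ) : Prop :=
  (∀ x y, τ₁ x < τ₁ y ↔ τ (Sum.inl x) < τ (Sum.inl y)) ∧
  (∀ x y, τ₂ x < τ₂ y ↔ τ (Sum.inr x) < τ (Sum.inr y)) ∧
  ∀ x y, τ (Sum.inl x) < τ (Sum.inr y)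

theorem BOrd.sord {τ₁ : ι₁ → ℤ} {τ₂ : ι₂ → ℤ} {τ : ι₁ ⊕ ι₂ → ℤ} (h : BOrd τ₁ τ₂ τ) :
    SOrd (fun _ => ()) (fun _ => ()) τ₁ τ₂ τ := ⟨fun x y _ => h.1 x y, fun x y _ => h.2.1 x y⟩

theorem dh_prod {τ₁ : ι₁ → ℤ} {τ₂ : ι₂ → ℤ} {τ : ι₁ ⊕ ι₂ → ℤ} (h : BOrd τ₁ τ₂ τ)
    (m : lev F (Sum.map c₁ c₂)) :
    (dh (Sum.map c₁ c₂) (fun _ => ()) τ m : ℂ) =
      (Q.GLRep.sqmod (pr₁ F c₁ c₂ m).1 (pr₂ F c₁ c₂ m).1 : ℂ) *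
        (dh c₁ (fun _ => ()) τ₁ (pr₁ F c₁ c₂ m) * dh c₂ (fun _ => ()) τ₂ (pr₂ F c₁ c₂ m)) := by
  classical
  obtain ⟨h1, h2, h3⟩ := h
  have hex : ex (Sum.map c₁ c₂) (fun _ => ()) τ m.1 =
      ex c₁ (fun _ => ()) τ₁ (pr₁ F c₁ c₂ m).1 + ex c₂ (fun _ => ()) τ₂ (pr₂ F c₁ c₂ m).1 +
        ProdI_e (pr₁ F c₁ c₂ m).1 (pr₂ F c₁ c₂ m).1 := by
    unfold ex ProdI_e
    rw [vdet_lev c₁ (pr₁ F c₁ c₂ m).1 (pr₁ F c₁ c₂ m).2,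
      vdet_lev c₂ (pr₂ F c₁ c₂ m).1 (pr₂ F c₁ c₂ m).2, ← ProdI_nb_sum c₁, ← ProdI_nb_sum c₂]
    simp only [Fintype.sum_sum_type, vl_inl, vl_inr, ProdI_nb_inl, ProdI_nb_inr, true_and,
      ← h1, ← h2, h3, if_true]
    have h4 : ∀ x y, ¬ τ (Sum.inr x) < τ (Sum.inl y) := fun x y => not_lt.2 (h3 y x).le
    simp only [h4, if_false, Finset.sum_const_zero, Finset.sum_add_distrib,
      Finset.sum_sub_distrib, zero_add]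
    have h5 : ∑ x, ∑ y, nb c₂ y * vl c₁ (pr₁ F c₁ c₂ m).1 x =
        (∑ y, nb c₂ y) * ∑ x, vl c₁ (pr₁ F c₁ c₂ m).1 x := by
      rw [Finset.sum_mul_sum, Finset.sum_comm]
    have h6 : ∑ x, ∑ y, nb c₁ x * vl c₂ (pr₂ F c₁ c₂ m).1 y =
        (∑ x, nb c₁ x) * ∑ y, vl c₂ (pr₂ F c₁ c₂ m).1 y := by
      rw [Finset.sum_mul_sum]
    rw [h5, h6]
    ring
  rw [dh_apply, dh_apply, dh_apply, hex, ProdI_sqmod, neg_add, neg_add, _root_.zpow_add,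
    _root_.zpow_add, Units.val_mul, Units.val_mul]
  ring

variable {c₁ c₂}

theorem ProdI_m (m : lev F (Sum.map c₁ c₂)) :
    (m : GL (κ₁ ⊕ κ₂) F) = Q.blk F (pr₁ F c₁ c₂ m).1 (pr₂ F c₁ c₂ m).1 0 := by
  apply Units.ext
  rw [blk_val]
  ext (i | i) (j | j)
  · rfl
  · exact m.2 (Sum.inl i) (Sum.inr j) (by simp)
  · exact m.2 (Sum.inr i) (Sum.inl j) (by simp)
  · rfl

theorem ProdI_tri (g : GL (κ₁ ⊕ κ₂) F)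
    (h0 : ∀ i j, (g : Matrix (κ₁ ⊕ κ₂) (κ₁ ⊕ κ₂) F) (Sum.inr i) (Sum.inl j) = 0)
    (h0' : ∀ i j, ((g⁻¹ : GL (κ₁ ⊕ κ₂) F) : Matrix (κ₁ ⊕ κ₂) (κ₁ ⊕ κ₂) F)
      (Sum.inr i) (Sum.inl j) = 0) :
    ∃ (g₁ : GL κ₁ F) (g₂ : GL κ₂ F), g = Q.blk F g₁ g₂
      (g : Matrix (κ₁ ⊕ κ₂) (κ₁ ⊕ κ₂) F).toBlocks₁₂ := by
  have key : ∀ a b : GL (κ₁ ⊕ κ₂) F,
      (∀ i j, (a : Matrix (κ₁ ⊕ κ₂) (κ₁ ⊕ κ₂) F) (Sum.inr i) (Sum.inl j) = 0) →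
      (∀ i j, (b : Matrix (κ₁ ⊕ κ₂) (κ₁ ⊕ κ₂) F) (Sum.inr i) (Sum.inl j) = 0) →
      (a : Matrix (κ₁ ⊕ κ₂) (κ₁ ⊕ κ₂) F) * (b : Matrix (κ₁ ⊕ κ₂) (κ₁ ⊕ κ₂) F) = 1 →
      (a : Matrix (κ₁ ⊕ κ₂) (κ₁ ⊕ κ₂) F).toBlocks₁₁ *
          (b : Matrix (κ₁ ⊕ κ₂) (κ₁ ⊕ κ₂) F).toBlocks₁₁ = 1 ∧
      (a : Matrix (κ₁ ⊕ κ₂) (κ₁ ⊕ κ₂) F).toBlocks₂₂ *
          (b : Matrix (κ₁ ⊕ κ₂) (κ₁ ⊕ κ₂) F).toBlocks₂₂ = 1 := by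
    intro a b ha hb hab
    have ha' : (a : Matrix (κ₁ ⊕ κ₂) (κ₁ ⊕ κ₂) F).toBlocks₂₁ = 0 := by
      ext i j
      exact ha i j
    have hb' : (b : Matrix (κ₁ ⊕ κ₂) (κ₁ ⊕ κ₂) F).toBlocks₂₁ = 0 := by
      ext i j
      exact hb i j
    rw [← Matrix.fromBlocks_toBlocks (a : Matrix (κ₁ ⊕ κ₂) (κ₁ ⊕ κ₂) F),
      ← Matrix.fromBlocks_toBlocks (b : Matrix (κ₁ ⊕ κ₂) (κ₁ ⊕ κ₂) F),
      Matrix.fromBlocks_multiply, ← Matrix.fromBlocks_one, Matrix.fromBlocks_inj, ha', hb'] at hab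
    obtain ⟨e1, -, -, e2⟩ := hab
    rw [Matrix.mul_zero, add_zero] at e1
    rw [Matrix.zero_mul, zero_add] at e2
    exact ⟨e1, e2⟩
  obtain ⟨e1, e2⟩ := key g g⁻¹ h0 h0' (by rw [← Units.val_mul, mul_inv_cancel, Units.val_one])
  obtain ⟨e3, e4⟩ := key g⁻¹ g h0' h0 (by rw [← Units.val_mul, inv_mul_cancel, Units.val_one])
  refine ⟨⟨_, _, e1, e3⟩, ⟨_, _, e2, e4⟩, Units.ext ?_⟩
  rw [blk_val]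
  ext (i | i) (j | j)
  · rfl
  · rfl
  · exact h0 i j
  · rfl

theorem ProdI_uni {τ₁ : ι₁ → ℤ} (hτ₁ : Function.Injective τ₁) {τ₂ : ι₂ → ℤ}
    (hτ₂ : Function.Injective τ₂) {τ : ι₁ ⊕ ι₂ → ℤ} (h : BOrd τ₁ τ₂ τ)
    (n : GL (κ₁ ⊕ κ₂) F)
    (hn : n ∈ uni F (fun _ : κ₁ ⊕ κ₂ => ()) (fun i => τ (Sum.map c₁ c₂ i))) :
    ∃ (n₁ : GL κ₁ F) (n₂ : GL κ₂ F), n = Q.blk F n₁ n₂
        (n : Matrix (κ₁ ⊕ κ₂) (κ₁ ⊕ κ₂) F).toBlocks₁₂ ∧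
      n₁ ∈ uni F (fun _ => ()) (fun i => τ₁ (c₁ i)) ∧
      n₂ ∈ uni F (fun _ => ()) (fun i => τ₂ (c₂ i)) := by
  obtain ⟨h1, h2, h3⟩ := h
  have hn' := (uni F (fun _ : κ₁ ⊕ κ₂ => ()) (fun i => τ (Sum.map c₁ c₂ i))).inv_mem hn
  obtain ⟨n₁, n₂, e⟩ := ProdI_tri n (fun i j => hn.1.2 (Sum.inr i) (Sum.inl j) (h3 _ _))
    (fun i j => hn'.1.2 (Sum.inr i) (Sum.inl j) (h3 _ _))
  have e₁ : ∀ i j, (n₁ : Matrix κ₁ κ₁ F) i j =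
      (n : Matrix (κ₁ ⊕ κ₂) (κ₁ ⊕ κ₂) F) (Sum.inl i) (Sum.inl j) := by
    intro i j
    rw [e, blk_val]
    rfl
  have e₂ : ∀ i j, (n₂ : Matrix κ₂ κ₂ F) i j =
      (n : Matrix (κ₁ ⊕ κ₂) (κ₁ ⊕ κ₂) F) (Sum.inr i) (Sum.inr j) := by
    intro i j
    rw [e, blk_val]
    rfl
  refine ⟨n₁, n₂, e, ⟨⟨fun i j hij => absurd rfl hij, fun i j hij => ?_⟩, fun i j hij => ?_⟩,
    ⟨⟨fun i j hij => absurd rfl hij, fun i j hij => ?_⟩, fun i j hij => ?_⟩⟩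
  · rw [e₁]
    exact hn.1.2 (Sum.inl i) (Sum.inl j) ((h1 _ _).1 hij)
  · have h4 : c₁ i = c₁ j := hτ₁ hij
    have h5 := hn.2 (Sum.inl i) (Sum.inl j) (by
      show τ (Sum.inl (c₁ i)) = τ (Sum.inl (c₁ j))
      rw [h4])
    rw [e₁, h5, Matrix.one_apply, Matrix.one_apply]
    simp only [Sum.inl.injEq]
  · rw [e₂]
    exact hn.1.2 (Sum.inr i) (Sum.inr j) ((h2 _ _).1 hij)
  · have h4 : c₂ i = c₂ j := hτ₂ hij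
    have h5 := hn.2 (Sum.inr i) (Sum.inr j) (by
      show τ (Sum.inr (c₂ i)) = τ (Sum.inr (c₂ j))
      rw [h4])
    rw [e₂, h5, Matrix.one_apply, Matrix.one_apply]
    simp only [Sum.inr.injEq]

theorem ProdI_blk_mul (a₁ b₁ : GL κ₁ F) (a₂ b₂ : GL κ₂ F) (u v : Matrix κ₁ κ₂ F) :
    Q.blk F a₁ a₂ u * Q.blk F b₁ b₂ v = Q.blk F (a₁ * b₁) (a₂ * b₂)
      ((a₁ : Matrix κ₁ κ₁ F) * v + u * (b₂ : Matrix κ₂ κ₂ F)) := by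
  apply Units.ext
  rw [Units.val_mul, blk_val, blk_val, blk_val, Matrix.fromBlocks_multiply]
  simp

theorem ProdI_blk_uni {τ₁ : ι₁ → ℤ} {τ₂ : ι₂ → ℤ} {τ : ι₁ ⊕ ι₂ → ℤ} (h : BOrd τ₁ τ₂ τ)
    (u : Matrix κ₁ κ₂ F) :
    Q.blk F 1 1 u ∈ uni F (fun _ : κ₁ ⊕ κ₂ => ()) (fun i => τ (Sum.map c₁ c₂ i)) := by
  obtain ⟨h1, h2, h3⟩ := h
  have e1 : ∀ i j, ((Q.blk F 1 1 u : GL (κ₁ ⊕ κ₂) F) : Matrix (κ₁ ⊕ κ₂) (κ₁ ⊕ κ₂) F)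
      (Sum.inl i) (Sum.inl j) = (1 : Matrix κ₁ κ₁ F) i j := fun i j => rfl
  have e2 : ∀ i j, ((Q.blk F 1 1 u : GL (κ₁ ⊕ κ₂) F) : Matrix (κ₁ ⊕ κ₂) (κ₁ ⊕ κ₂) F)
      (Sum.inr i) (Sum.inr j) = (1 : Matrix κ₂ κ₂ F) i j := fun i j => rfl
  have e3 : ∀ i j, ((Q.blk F 1 1 u : GL (κ₁ ⊕ κ₂) F) : Matrix (κ₁ ⊕ κ₂) (κ₁ ⊕ κ₂) F)
      (Sum.inr i) (Sum.inl j) = 0 := fun i j => rfl
  refine ⟨⟨fun i j hij => absurd rfl hij, ?_⟩, ?_⟩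
  · rintro (i | i) (j | j) hij
    · rw [e1, Matrix.one_apply_ne]
      rintro rfl
      exact lt_irrefl _ hij
    · exact absurd hij (not_lt.2 (h3 _ _).le)
    · exact e3 i j
    · rw [e2, Matrix.one_apply_ne]
      rintro rfl
      exact lt_irrefl _ hij
  · rintro (i | i) (j | j) hij
    · rw [e1, Matrix.one_apply, Matrix.one_apply]
      simp only [Sum.inl.injEq]
    · exact absurd hij (h3 _ _).ne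
    · exact absurd hij (h3 _ _).ne'
    · rw [e2, Matrix.one_apply, Matrix.one_apply]
      simp only [Sum.inr.injEq]

variable {τ₁ : ι₁ → ℤ} (hτ₁ : Function.Injective τ₁) {τ₂ : ι₂ → ℤ} (hτ₂ : Function.Injective τ₂)
  {τ : ι₁ ⊕ ι₂ → ℤ} (hτ : Function.Injective τ) (h : BOrd τ₁ τ₂ τ)
  (σ₁ : Representation ℂ (lev F c₁) E₁) (σ₂ : Representation ℂ (lev F c₂) E₂)

theorem ProdI_ev {κ ι E : Type} [Fintype κ] [DecidableEq κ] [Fintype ι] [DecidableEq ι]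
    [AddCommGroup E] [Module ℂ E] {c : κ → ι} {τ : ι → ℤ} (hτ : Function.Injective τ)
    (σ : Representation ℂ (lev F c) E) (m : lev F c) (n : GL κ F)
    (hn : n ∈ uni F (fun _ => ()) (fun i => τ (c i))) (φ : ISp c (fun _ => ()) τ hτ σ) :
    ev1 c (fun _ => ()) τ hτ σ (IRp c (fun _ => ()) τ hτ σ (levC F κ (m.1 * n)) φ) =
      (dh c (fun _ => ()) τ m : ℂ) • σ m (ev1 c (fun _ => ()) τ hτ σ φ) := by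
  have h1 := ((mem_ISp c (fun _ => ()) τ hτ σ φ.1).1 φ.2).1 m.1 m.2 n hn 1
  refine Eq.trans ?_ h1
  refine congrArg φ.1 (Subtype.ext ?_)
  show 1 * (m.1 * n) = m.1 * n * 1
  rw [one_mul, mul_one]

theorem ProdI_ev2 (m : lev F (Sum.map c₁ c₂)) (n₁ : GL κ₁ F) (n₂ : GL κ₂ F)
    (hn₁ : n₁ ∈ uni F (fun _ => ()) (fun i => τ₁ (c₁ i)))
    (hn₂ : n₂ ∈ uni F (fun _ => ()) (fun i => τ₂ (c₂ i)))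
    (t : ISp c₁ (fun _ => ()) τ₁ hτ₁ σ₁ ⊗[ℂ] ISp c₂ (fun _ => ()) τ₂ hτ₂ σ₂) :
    TensorProduct.map (ev1 c₁ (fun _ => ()) τ₁ hτ₁ σ₁) (ev1 c₂ (fun _ => ()) τ₂ hτ₂ σ₂)
      (TensorProduct.map
        (IRp c₁ (fun _ => ()) τ₁ hτ₁ σ₁ (levC F κ₁ ((pr₁ F c₁ c₂ m).1 * n₁)))
        (IRp c₂ (fun _ => ()) τ₂ hτ₂ σ₂ (levC F κ₂ ((pr₂ F c₁ c₂ m).1 * n₂))) t) =
      ((dh c₁ (fun _ => ()) τ₁ (pr₁ F c₁ c₂ m) : ℂ) *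
        (dh c₂ (fun _ => ()) τ₂ (pr₂ F c₁ c₂ m) : ℂ)) • ext σ₁ σ₂ m
        (TensorProduct.map (ev1 c₁ (fun _ => ()) τ₁ hτ₁ σ₁) (ev1 c₂ (fun _ => ()) τ₂ hτ₂ σ₂)
          t) := by
  induction t using TensorProduct.induction_on with
  | zero => simp only [map_zero, smul_zero]
  | add a b ha hb => simp only [map_add, smul_add, ha, hb]
  | tmul a b =>
    rw [TensorProduct.map_tmul, TensorProduct.map_tmul, TensorProduct.map_tmul,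
      ProdI_ev hτ₁ σ₁ _ _ hn₁, ProdI_ev hτ₂ σ₂ _ _ hn₂, TensorProduct.smul_tmul_smul]
    rfl

include h in
theorem ProdI_fwd (f : GL (κ₁ ⊕ κ₂) F → ISp c₁ (fun _ => ()) τ₁ hτ₁ σ₁ ⊗[ℂ]
      ISp c₂ (fun _ => ()) τ₂ hτ₂ σ₂)
    (hf : f ∈ Q.GLRep.indSp (indG c₁ τ₁ hτ₁ σ₁) (indG c₂ τ₂ hτ₂ σ₂)) :
    (fun g : lev F (fun _ : κ₁ ⊕ κ₂ => ()) => TensorProduct.map
      (ev1 c₁ (fun _ => ()) τ₁ hτ₁ σ₁) (ev1 c₂ (fun _ => ()) τ₂ hτ₂ σ₂) (f g.1)) ∈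
      ISp (Sum.map c₁ c₂) (fun _ => ()) τ hτ (ext σ₁ σ₂) := by
  obtain ⟨h1, U, hU, h2⟩ := hf
  rw [mem_ISp]
  refine ⟨fun m hm n hn g => ?_, U.subgroupOf _, hU.preimage continuous_subtype_val,
    fun g u hu => ?_⟩
  · obtain ⟨n₁, n₂, e, hn₁, hn₂⟩ := ProdI_uni hτ₁ hτ₂ h n hn
    have e2 := ProdI_m (F := F) (c₁ := c₁) (c₂ := c₂) ⟨m, hm⟩
    have e3 : m * n = Q.blk F ((pr₁ F c₁ c₂ ⟨m, hm⟩).1 * n₁) ((pr₂ F c₁ c₂ ⟨m, hm⟩).1 * n₂)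
        (((pr₁ F c₁ c₂ ⟨m, hm⟩).1 : Matrix κ₁ κ₁ F) *
          (n : Matrix (κ₁ ⊕ κ₂) (κ₁ ⊕ κ₂) F).toBlocks₁₂ + (0 : Matrix κ₁ κ₂ F) * (n₂ : Matrix κ₂ κ₂ F)) := by
      rw [← ProdI_blk_mul, ← e, ← e2]
    show TensorProduct.map _ _ (f (m * n * g.1)) = _
    rw [e3]
    have h3 := h1 ((pr₁ F c₁ c₂ ⟨m, hm⟩).1 * n₁) ((pr₂ F c₁ c₂ ⟨m, hm⟩).1 * n₂)
      (((pr₁ F c₁ c₂ ⟨m, hm⟩).1 : Matrix κ₁ κ₁ F) *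
          (n : Matrix (κ₁ ⊕ κ₂) (κ₁ ⊕ κ₂) F).toBlocks₁₂ + (0 : Matrix κ₁ κ₂ F) * (n₂ : Matrix κ₂ κ₂ F)) g.1
    have h4 := ProdI_ev2 hτ₁ hτ₂ σ₁ σ₂ ⟨m, hm⟩ n₁ n₂ hn₁ hn₂ (f g.1)
    have h5 : ((Q.GLRep.sqmod ((pr₁ F c₁ c₂ ⟨m, hm⟩).1 * n₁)
        ((pr₂ F c₁ c₂ ⟨m, hm⟩).1 * n₂) : ℝ) : ℂ) =
        ((Q.GLRep.sqmod (pr₁ F c₁ c₂ ⟨m, hm⟩).1 (pr₂ F c₁ c₂ ⟨m, hm⟩).1 : ℝ) : ℂ) := by
      rw [ProdI_sqmod, ProdI_sqmod]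
      show ((ProdI_s _ _ : ℂˣ) : ℂ) = ((ProdI_s _ _ : ℂˣ) : ℂ)
      rw [ProdI_s_mul, ProdI_s_of n₁ n₂ (vdet_uni _ _ n₁ hn₁) (vdet_uni _ _ n₂ hn₂), mul_one]
    have h6 := dh_prod (F := F) c₁ c₂ h ⟨m, hm⟩
    have h7 : ∀ (T₁ : Module.End ℂ (ISp c₁ (fun _ => ()) τ₁ hτ₁ σ₁))
        (T₂ : Module.End ℂ (ISp c₂ (fun _ => ()) τ₂ hτ₂ σ₂)) (z : ℂ)
        (x y : ISp c₁ (fun _ => ()) τ₁ hτ₁ σ₁ ⊗[ℂ] ISp c₂ (fun _ => ()) τ₂ hτ₂ σ₂),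
        y = z • TensorProduct.map T₁ T₂ x → TensorProduct.map
          (ev1 c₁ (fun _ => ()) τ₁ hτ₁ σ₁) (ev1 c₂ (fun _ => ()) τ₂ hτ₂ σ₂) y =
          z • TensorProduct.map (ev1 c₁ (fun _ => ()) τ₁ hτ₁ σ₁)
            (ev1 c₂ (fun _ => ()) τ₂ hτ₂ σ₂) (TensorProduct.map T₁ T₂ x) := by
      intro T₁ T₂ z x y hy
      rw [hy, map_smul]
    refine (h7 _ _ _ _ _ h3).trans ?_
    refine (congrArg (fun w => _ • w) h4).trans ?_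
    rw [smul_smul, h5, h6]
  · show TensorProduct.map _ _ (f (g.1 * u.1)) = TensorProduct.map _ _ (f g.1)
    rw [h2 g.1 u.1 hu]

theorem ProdI_uni_mul (Φ : ISp (Sum.map c₁ c₂) (fun _ => ()) τ hτ (ext σ₁ σ₂))
    (n : GL (κ₁ ⊕ κ₂) F)
    (hn : n ∈ uni F (fun _ : κ₁ ⊕ κ₂ => ()) (fun i => τ (Sum.map c₁ c₂ i)))
    (g : GL (κ₁ ⊕ κ₂) F) : Φ.1 (levC F (κ₁ ⊕ κ₂) (n * g)) = Φ.1 (levC F (κ₁ ⊕ κ₂) g) := by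
  have h1 := ((mem_ISp (Sum.map c₁ c₂) (fun _ => ()) τ hτ (ext σ₁ σ₂) Φ.1).1 Φ.2).1 1 ((lev F (Sum.map c₁ c₂)).one_mem) n hn
    (levC F (κ₁ ⊕ κ₂) g)
  have h2 : (⟨1, (lev F (Sum.map c₁ c₂)).one_mem⟩ : lev F (Sum.map c₁ c₂)) = 1 := rfl
  rw [h2, map_one, map_one, Units.val_one, one_smul] at h1
  refine Eq.trans (congrArg Φ.1 (Subtype.ext ?_)) h1
  show n * g = 1 * n * g
  rw [one_mul]

theorem ProdI_Kc (u : lev F (fun i => Sum.map (fun _ : ι₁ => ()) (fun _ : ι₂ => ())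
      (Sum.map c₁ c₂ i))) (hu : u.1 ∈ Kc F (κ₁ ⊕ κ₂) 0) :
    ProdI_s (p₁ F c₁ c₂ (fun _ => ()) (fun _ => ()) u).1
      (p₂ F c₁ c₂ (fun _ => ()) (fun _ => ()) u).1 = 1 := by
  rw [Cong_mem'] at hu
  refine ProdI_s_of _ _ (vdet_Kc _ ?_) (vdet_Kc _ ?_)
  · rw [Cong_mem']
    refine ⟨fun i j => ?_, fun i j => ?_⟩
    · have h1 := hu.1 (Sum.inl i) (Sum.inl j)
      rw [Matrix.one_apply] at h1 ⊢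
      simp only [Sum.inl.injEq] at h1
      exact h1
    · have h1 := hu.2 (Sum.inl i) (Sum.inl j)
      rw [Matrix.one_apply] at h1 ⊢
      simp only [Sum.inl.injEq] at h1
      exact h1
  · rw [Cong_mem']
    refine ⟨fun i j => ?_, fun i j => ?_⟩
    · have h1 := hu.1 (Sum.inr i) (Sum.inr j)
      rw [Matrix.one_apply] at h1 ⊢
      simp only [Sum.inr.injEq] at h1
      exact h1
    · have h1 := hu.2 (Sum.inr i) (Sum.inr j)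
      rw [Matrix.one_apply] at h1 ⊢
      simp only [Sum.inr.injEq] at h1
      exact h1

/-- the function `h ↦ sqmod(h)⁻¹ Φ(h g)` on the block diagonal group -/
def ProdI_S (Φ : lev F (fun _ : κ₁ ⊕ κ₂ => ()) → E₁ ⊗[ℂ] E₂) (g : GL (κ₁ ⊕ κ₂) F)
    (x : lev F (fun i => Sum.map (fun _ : ι₁ => ()) (fun _ : ι₂ => ()) (Sum.map c₁ c₂ i))) :
    E₁ ⊗[ℂ] E₂ :=
  (((ProdI_s (p₁ F c₁ c₂ (fun _ => ()) (fun _ => ()) x).1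
    (p₂ F c₁ c₂ (fun _ => ()) (fun _ => ()) x).1)⁻¹ : ℂˣ) : ℂ) •
      Φ (levC F (κ₁ ⊕ κ₂) (x.1 * g))

include hτ₁ hτ₂ h in
theorem ProdI_S_mem (Φ : ISp (Sum.map c₁ c₂) (fun _ => ()) τ hτ (ext σ₁ σ₂))
    (g : GL (κ₁ ⊕ κ₂) F) :
    ProdI_S (c₁ := c₁) (c₂ := c₂) Φ.1 g ∈ ISp (Sum.map c₁ c₂)
      (Sum.map (fun _ : ι₁ => ()) (fun _ : ι₂ => ())) τ hτ (ext σ₁ σ₂) := by
  obtain ⟨h1, U, hU, h2⟩ := (mem_ISp (Sum.map c₁ c₂) (fun _ => ()) τ hτ (ext σ₁ σ₂) Φ.1).1 Φ.2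
  rw [mem_ISp]
  refine ⟨fun m hm n hn x => ?_, U.comap ((levC F (κ₁ ⊕ κ₂)).toMulEquiv.toMonoidHom.comp
    ((MulAut.conj g⁻¹).toMonoidHom.comp (Subgroup.subtype _))) ⊓ (Kc F (κ₁ ⊕ κ₂) 0).subgroupOf _,
    ?_, fun x u hu => ?_⟩
  · have hn' : n ∈ uni F (fun _ : κ₁ ⊕ κ₂ => ()) (fun i => τ (Sum.map c₁ c₂ i)) :=
      ⟨⟨fun _ _ hij => absurd rfl hij, hn.1.2⟩, hn.2⟩
    obtain ⟨n₁, n₂, e, hn₁, hn₂⟩ := ProdI_uni hτ₁ hτ₂ h n hn'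
    unfold ProdI_S
    have e1 : Φ.1 (levC F (κ₁ ⊕ κ₂) (m * n * x.1 * g)) =
        (dh (Sum.map c₁ c₂) (fun _ => ()) τ ⟨m, hm⟩ : ℂ) • ext σ₁ σ₂ ⟨m, hm⟩
          (Φ.1 (levC F (κ₁ ⊕ κ₂) (x.1 * g))) := by
      refine Eq.trans (congrArg Φ.1 (Subtype.ext ?_)) (h1 m hm n hn' (levC F (κ₁ ⊕ κ₂) (x.1 * g)))
      show m * n * x.1 * g = m * n * (x.1 * g)
      rw [mul_assoc (m * n)]
    refine (congrArg (fun w => _ • w) e1).trans ?_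
    rw [map_mul, map_mul, map_mul, map_mul, Subgroup.coe_mul, Subgroup.coe_mul, Subgroup.coe_mul,
      Subgroup.coe_mul, ProdI_s_mul, ProdI_s_mul]
    have e2 : ProdI_s (p₁ F c₁ c₂ (fun _ => ()) (fun _ => ())
          ⟨n, (ordD (F := F) (Sum.map c₁ c₂) (Sum.map (fun _ : ι₁ => ()) (fun _ : ι₂ => ())) τ
            hτ).hN hn⟩).1
        (p₂ F c₁ c₂ (fun _ => ()) (fun _ => ())
          ⟨n, (ordD (F := F) (Sum.map c₁ c₂) (Sum.map (fun _ : ι₁ => ()) (fun _ : ι₂ => ())) τ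
            hτ).hN hn⟩).1 = 1 := by
      have e3 : (p₁ F c₁ c₂ (fun _ => ()) (fun _ => ())
          ⟨n, (ordD (F := F) (Sum.map c₁ c₂) (Sum.map (fun _ : ι₁ => ()) (fun _ : ι₂ => ())) τ
            hτ).hN hn⟩).1 = n₁ := by
        apply Units.ext
        show (n : Matrix (κ₁ ⊕ κ₂) (κ₁ ⊕ κ₂) F).toBlocks₁₁ = n₁
        rw [e, blk_val, Matrix.toBlocks_fromBlocks₁₁]
      have e4 : (p₂ F c₁ c₂ (fun _ => ()) (fun _ => ())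
          ⟨n, (ordD (F := F) (Sum.map c₁ c₂) (Sum.map (fun _ : ι₁ => ()) (fun _ : ι₂ => ())) τ
            hτ).hN hn⟩).1 = n₂ := by
        apply Units.ext
        show (n : Matrix (κ₁ ⊕ κ₂) (κ₁ ⊕ κ₂) F).toBlocks₂₂ = n₂
        rw [e, blk_val, Matrix.toBlocks_fromBlocks₂₂]
      rw [e3, e4]
      exact ProdI_s_of n₁ n₂ (vdet_uni _ _ n₁ hn₁) (vdet_uni _ _ n₂ hn₂)
    rw [e2, mul_one]
    have e5 := dh_prod (F := F) c₁ c₂ h ⟨m, hm⟩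
    have e6 := dh_sumI (F := F) c₁ c₂ (β₁ := fun _ => ()) (β₂ := fun _ => ()) h.sord ⟨m, hm⟩
    rw [ProdI_sqmod] at e5
    change _ = ((ProdI_s (pr₁ F c₁ c₂ ⟨m, hm⟩).1 (pr₂ F c₁ c₂ ⟨m, hm⟩).1 : ℂˣ) : ℂ) * _ at e5
    have e7 : ProdI_s (p₁ F c₁ c₂ (fun _ => ()) (fun _ => ())
          ⟨m, (ordD (F := F) (Sum.map c₁ c₂) (Sum.map (fun _ : ι₁ => ()) (fun _ : ι₂ => ())) τ
            hτ).hM hm⟩).1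
        (p₂ F c₁ c₂ (fun _ => ()) (fun _ => ())
          ⟨m, (ordD (F := F) (Sum.map c₁ c₂) (Sum.map (fun _ : ι₁ => ()) (fun _ : ι₂ => ())) τ
            hτ).hM hm⟩).1 =
        ProdI_s (pr₁ F c₁ c₂ ⟨m, hm⟩).1 (pr₂ F c₁ c₂ ⟨m, hm⟩).1 := rfl
    rw [e7, e6, e5, map_smul, smul_smul, smul_smul, mul_inv, Units.val_mul, Units.val_mul,
      Units.val_inv_eq_inv_val, Units.val_inv_eq_inv_val]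
    congr 1
    have h0 : ((ProdI_s (pr₁ F c₁ c₂ ⟨m, hm⟩).1 (pr₂ F c₁ c₂ ⟨m, hm⟩).1 : ℂˣ) : ℂ) ≠ 0 :=
      Units.ne_zero _
    field_simp
  · refine IsOpen.inter (hU.preimage ?_) ((Kc_isOpen (F := F) 0).preimage continuous_subtype_val)
    refine (levC F (κ₁ ⊕ κ₂)).continuous.comp ?_
    show Continuous fun x : lev F (fun i => Sum.map (fun _ : ι₁ => ()) (fun _ : ι₂ => ())
      (Sum.map c₁ c₂ i)) => g⁻¹ * x.1 * g⁻¹⁻¹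
    exact (continuous_const.mul continuous_subtype_val).mul continuous_const
  · unfold ProdI_S
    rw [map_mul, map_mul, Subgroup.coe_mul, Subgroup.coe_mul, ProdI_s_mul,
      ProdI_Kc u hu.2, mul_one]
    congr 1
    have e1 := h2 (levC F (κ₁ ⊕ κ₂) (x.1 * g)) _ hu.1
    refine Eq.trans (congrArg Φ.1 (Subtype.ext ?_)) e1
    show x.1 * u.1 * g = x.1 * g * (g⁻¹ * u.1 * g⁻¹⁻¹)
    group

/-- the values of the inverse map -/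
def ProdI_b (Φ : ISp (Sum.map c₁ c₂) (fun _ => ()) τ hτ (ext σ₁ σ₂)) (g : GL (κ₁ ⊕ κ₂) F) :
    ISp c₁ (fun _ => ()) τ₁ hτ₁ σ₁ ⊗[ℂ] ISp c₂ (fun _ => ()) τ₂ hτ₂ σ₂ :=
  (sumI hτ₁ hτ₂ hτ h.sord σ₁ σ₂).symm ⟨ProdI_S (c₁ := c₁) (c₂ := c₂) Φ.1 g,
    ProdI_S_mem hτ₁ hτ₂ hτ h σ₁ σ₂ Φ g⟩

theorem ProdI_b_S (Φ : ISp (Sum.map c₁ c₂) (fun _ => ()) τ hτ (ext σ₁ σ₂))
    (g : GL (κ₁ ⊕ κ₂) F) :
    (sumI hτ₁ hτ₂ hτ h.sord σ₁ σ₂ (ProdI_b hτ₁ hτ₂ hτ h σ₁ σ₂ Φ g)).1 =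
      ProdI_S (c₁ := c₁) (c₂ := c₂) Φ.1 g := by
  unfold ProdI_b
  rw [LinearEquiv.apply_symm_apply]

theorem ProdI_jS (h₁ : lev F (fun i => (fun _ : ι₁ => ()) (c₁ i)))
    (h₂ : lev F (fun i => (fun _ : ι₂ => ()) (c₂ i))) :
    (jS c₁ c₂ (fun _ => ()) (fun _ => ()) h₁ h₂).1 = Q.blk F h₁.1 h₂.1 0 :=
  Units.ext rfl

theorem ProdI_x (x : lev F (fun i => Sum.map (fun _ : ι₁ => ()) (fun _ : ι₂ => ())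
      (Sum.map c₁ c₂ i))) :
    x.1 = Q.blk F (p₁ F c₁ c₂ (fun _ => ()) (fun _ => ()) x).1
      (p₂ F c₁ c₂ (fun _ => ()) (fun _ => ()) x).1 0 := by
  apply Units.ext
  rw [blk_val]
  ext (i | i) (j | j)
  · rfl
  · exact x.2 (Sum.inl i) (Sum.inr j) (by simp)
  · exact x.2 (Sum.inr i) (Sum.inl j) (by simp)
  · rfl

theorem ProdI_b_blk (Φ : ISp (Sum.map c₁ c₂) (fun _ => ()) τ hτ (ext σ₁ σ₂))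
    (g₁ : GL κ₁ F) (g₂ : GL κ₂ F) (u : Matrix κ₁ κ₂ F) (g : GL (κ₁ ⊕ κ₂) F) :
    ProdI_b hτ₁ hτ₂ hτ h σ₁ σ₂ Φ (Q.blk F g₁ g₂ u * g) =
      ((ProdI_s g₁ g₂ : ℂˣ) : ℂ) •
        TensorProduct.map (IRp c₁ (fun _ => ()) τ₁ hτ₁ σ₁ (levC F κ₁ g₁))
          (IRp c₂ (fun _ => ()) τ₂ hτ₂ σ₂ (levC F κ₂ g₂)) (ProdI_b hτ₁ hτ₂ hτ h σ₁ σ₂ Φ g) := by
  apply (sumI hτ₁ hτ₂ hτ h.sord σ₁ σ₂).injective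
  have h1 := sumI_equi hτ₁ hτ₂ hτ h.sord σ₁ σ₂
    (jS c₁ c₂ (fun _ => ()) (fun _ => ()) (levC F κ₁ g₁) (levC F κ₂ g₂))
    (ProdI_b hτ₁ hτ₂ hτ h σ₁ σ₂ Φ g)
  rw [p₁_jS, p₂_jS] at h1
  rw [map_smul, h1]
  apply Subtype.ext
  funext x
  rw [ProdI_b_S]
  show _ = ((ProdI_s g₁ g₂ : ℂˣ) : ℂ) • (sumI hτ₁ hτ₂ hτ h.sord σ₁ σ₂
    (ProdI_b hτ₁ hτ₂ hτ h σ₁ σ₂ Φ g)).1
      (x * jS c₁ c₂ (fun _ => ()) (fun _ => ()) (levC F κ₁ g₁) (levC F κ₂ g₂))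
  rw [ProdI_b_S]
  unfold ProdI_S
  have e1 : ProdI_s (p₁ F c₁ c₂ (fun _ => ()) (fun _ => ()) (x *
        jS c₁ c₂ (fun _ => ()) (fun _ => ()) (levC F κ₁ g₁) (levC F κ₂ g₂))).1
      (p₂ F c₁ c₂ (fun _ => ()) (fun _ => ()) (x *
        jS c₁ c₂ (fun _ => ()) (fun _ => ()) (levC F κ₁ g₁) (levC F κ₂ g₂))).1 =
      ProdI_s (p₁ F c₁ c₂ (fun _ => ()) (fun _ => ()) x).1
        (p₂ F c₁ c₂ (fun _ => ()) (fun _ => ()) x).1 * ProdI_s g₁ g₂ := by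
    rw [MonoidHom.map_mul (p₁ F c₁ c₂ (fun _ => ()) (fun _ => ())),
      MonoidHom.map_mul (p₂ F c₁ c₂ (fun _ => ()) (fun _ => ())), p₁_jS, p₂_jS]
    exact ProdI_s_mul _ _ _ _
  rw [e1]
  set x₁ := (p₁ F c₁ c₂ (fun _ => ()) (fun _ => ()) x).1 with hx₁
  set x₂ := (p₂ F c₁ c₂ (fun _ => ()) (fun _ => ()) x).1 with hx₂
  have e2 : x.1 * Q.blk F g₁ g₂ u = Q.blk F 1 1
      ((x₁ : Matrix κ₁ κ₁ F) * u * (((x₂ * g₂)⁻¹ : GL κ₂ F) : Matrix κ₂ κ₂ F)) *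
      (x * jS c₁ c₂ (fun _ => ()) (fun _ => ()) (levC F κ₁ g₁) (levC F κ₂ g₂)).1 := by
    have e3 : (x * jS c₁ c₂ (fun _ => ()) (fun _ => ()) (levC F κ₁ g₁) (levC F κ₂ g₂)).1 =
        x.1 * Q.blk F g₁ g₂ 0 := by
      rw [Subgroup.coe_mul, ProdI_jS]
      rfl
    rw [e3, ProdI_x x, ← hx₁, ← hx₂, ProdI_blk_mul, ProdI_blk_mul, ProdI_blk_mul, one_mul, one_mul]
    congr 1
    have e4 : (((x₂ * g₂)⁻¹ : GL κ₂ F) : Matrix κ₂ κ₂ F) * ((x₂ * g₂ : GL κ₂ F) : Matrix κ₂ κ₂ F) = 1 := by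
      rw [← Units.val_mul, inv_mul_cancel, Units.val_one]
    rw [Matrix.mul_assoc _ _ ((x₂ * g₂ : GL κ₂ F) : Matrix κ₂ κ₂ F), e4]
    simp
  have e5 : Φ.1 (levC F (κ₁ ⊕ κ₂) (x.1 * (Q.blk F g₁ g₂ u * g))) =
      Φ.1 (levC F (κ₁ ⊕ κ₂) ((x * jS c₁ c₂ (fun _ => ()) (fun _ => ()) (levC F κ₁ g₁)
        (levC F κ₂ g₂)).1 * g)) := by
    rw [← mul_assoc, e2, mul_assoc]
    exact ProdI_uni_mul hτ σ₁ σ₂ Φ _ (ProdI_blk_uni h _) _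
  rw [e5, smul_smul]
  congr 1
  rw [mul_inv, Units.val_mul, mul_comm, mul_assoc, ← Units.val_mul, inv_mul_cancel, Units.val_one,
    mul_one]

theorem ProdI_levC (g : GL (κ₁ ⊕ κ₂) F) :
    (levC F (κ₁ ⊕ κ₂) g : lev F (fun _ : κ₁ ⊕ κ₂ => ())).1 = g := rfl

theorem ProdI_b_mem (Φ : ISp (Sum.map c₁ c₂) (fun _ => ()) τ hτ (ext σ₁ σ₂)) :
    ProdI_b hτ₁ hτ₂ hτ h σ₁ σ₂ Φ ∈
      Q.GLRep.indSp (indG c₁ τ₁ hτ₁ σ₁) (indG c₂ τ₂ hτ₂ σ₂) := by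
  obtain ⟨h1, U, hU, h2⟩ :=
    (mem_ISp (Sum.map c₁ c₂) (fun _ => ()) τ hτ (ext σ₁ σ₂) Φ.1).1 Φ.2
  refine ⟨fun g₁ g₂ u g => ?_, U.comap (levC F (κ₁ ⊕ κ₂)).toMulEquiv.toMonoidHom,
    hU.preimage (levC F (κ₁ ⊕ κ₂)).continuous, fun g u hu => ?_⟩
  · rw [ProdI_b_blk, ProdI_sqmod]
    rfl
  · apply (sumI hτ₁ hτ₂ hτ h.sord σ₁ σ₂).injective
    apply Subtype.ext
    rw [ProdI_b_S, ProdI_b_S]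
    funext x
    unfold ProdI_S
    congr 1
    refine Eq.trans (congrArg Φ.1 (Subtype.ext ?_)) (h2 (levC F (κ₁ ⊕ κ₂) (x.1 * g)) _ hu)
    show x.1 * (g * u) = x.1 * g * u
    rw [mul_assoc]

theorem ProdI_ev_b (Φ : ISp (Sum.map c₁ c₂) (fun _ => ()) τ hτ (ext σ₁ σ₂))
    (g : GL (κ₁ ⊕ κ₂) F) :
    TensorProduct.map (ev1 c₁ (fun _ => ()) τ₁ hτ₁ σ₁) (ev1 c₂ (fun _ => ()) τ₂ hτ₂ σ₂)
      (ProdI_b hτ₁ hτ₂ hτ h σ₁ σ₂ Φ g) = Φ.1 (levC F (κ₁ ⊕ κ₂) g) := by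
  rw [← sumI_one hτ₁ hτ₂ hτ h.sord σ₁ σ₂, ProdI_b_S]
  unfold ProdI_S
  have e1 : ProdI_s (p₁ F c₁ c₂ (fun _ => ()) (fun _ => ()) 1).1
      (p₂ F c₁ c₂ (fun _ => ()) (fun _ => ()) 1).1 = (1 : ℂˣ) := by
    rw [MonoidHom.map_one (p₁ F c₁ c₂ (fun _ => ()) (fun _ => ())),
      MonoidHom.map_one (p₂ F c₁ c₂ (fun _ => ()) (fun _ => ()))]
    exact ProdI_s_one
  rw [e1, inv_one, Units.val_one, one_smul, Subgroup.coe_one, one_mul]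

/-- values of `sumI t` by evaluation at `1` -/
theorem ProdI_sumI_val (t : ISp c₁ (fun _ => ()) τ₁ hτ₁ σ₁ ⊗[ℂ] ISp c₂ (fun _ => ()) τ₂ hτ₂ σ₂)
    (g₁ : GL κ₁ F) (g₂ : GL κ₂ F) :
    (sumI hτ₁ hτ₂ hτ h.sord σ₁ σ₂ t).1
        (jS c₁ c₂ (fun _ => ()) (fun _ => ()) (levC F κ₁ g₁) (levC F κ₂ g₂)) =
      TensorProduct.map (ev1 c₁ (fun _ => ()) τ₁ hτ₁ σ₁) (ev1 c₂ (fun _ => ()) τ₂ hτ₂ σ₂)
        (TensorProduct.map (IRp c₁ (fun _ => ()) τ₁ hτ₁ σ₁ (levC F κ₁ g₁))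
          (IRp c₂ (fun _ => ()) τ₂ hτ₂ σ₂ (levC F κ₂ g₂)) t) := by
  have h1 := sumI_equi hτ₁ hτ₂ hτ h.sord σ₁ σ₂
    (jS c₁ c₂ (fun _ => ()) (fun _ => ()) (levC F κ₁ g₁) (levC F κ₂ g₂)) t
  rw [p₁_jS, p₂_jS] at h1
  rw [← sumI_one hτ₁ hτ₂ hτ h.sord σ₁ σ₂, h1]
  show _ = (sumI hτ₁ hτ₂ hτ h.sord σ₁ σ₂ t).1 (1 * _)
  rw [one_mul]

include hτ h in
/-- a function whose values at `1` vanish is zero -/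
theorem ProdI_inj (f : Q.GLRep.indSp (indG c₁ τ₁ hτ₁ σ₁) (indG c₂ τ₂ hτ₂ σ₂))
    (hf : ∀ g, TensorProduct.map (ev1 c₁ (fun _ => ()) τ₁ hτ₁ σ₁)
      (ev1 c₂ (fun _ => ()) τ₂ hτ₂ σ₂) (f.1 g) = 0) : f = 0 := by
  obtain ⟨f, hf1, hf2⟩ := f
  apply Subtype.ext
  funext g
  apply (sumI hτ₁ hτ₂ hτ h.sord σ₁ σ₂).injective
  have e0 : sumI hτ₁ hτ₂ hτ h.sord σ₁ σ₂
      ((0 : Q.GLRep.indSp (indG c₁ τ₁ hτ₁ σ₁) (indG c₂ τ₂ hτ₂ σ₂)).1 g) = 0 :=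
    LinearEquiv.map_zero _
  rw [e0]
  apply Subtype.ext
  funext x
  have e1 := jS_p c₁ c₂ (fun _ : ι₁ => ()) (fun _ : ι₂ => ()) x
  have e2 := ProdI_sumI_val hτ₁ hτ₂ hτ h σ₁ σ₂ (f g)
    (p₁ F c₁ c₂ (fun _ => ()) (fun _ => ()) x).1 (p₂ F c₁ c₂ (fun _ => ()) (fun _ => ()) x).1
  have e3 : jS c₁ c₂ (fun _ : ι₁ => ()) (fun _ : ι₂ => ())
      (levC F κ₁ (p₁ F c₁ c₂ (fun _ => ()) (fun _ => ()) x).1)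
      (levC F κ₂ (p₂ F c₁ c₂ (fun _ => ()) (fun _ => ()) x).1) = x := by
    conv_rhs => rw [← e1]
    rfl
  rw [e3] at e2
  refine e2.trans ?_
  have e4 := hf1 (p₁ F c₁ c₂ (fun _ => ()) (fun _ => ()) x).1
    (p₂ F c₁ c₂ (fun _ => ()) (fun _ => ()) x).1 0 g
  have e5 := hf (Q.blk F (p₁ F c₁ c₂ (fun _ => ()) (fun _ => ()) x).1
    (p₂ F c₁ c₂ (fun _ => ()) (fun _ => ()) x).1 0 * g)
  have e6 := (congrArg (TensorProduct.map (ev1 c₁ (fun _ => ()) τ₁ hτ₁ σ₁)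
      (ev1 c₂ (fun _ => ()) τ₂ hτ₂ σ₂)) e4).symm.trans e5
  rw [LinearMap.map_smul, ProdI_sqmod] at e6
  exact (smul_eq_zero.1 e6).resolve_left (Units.ne_zero _)

include h in
theorem prodI_exists : ∃ Θ : Q.GLRep.indSp (indG c₁ τ₁ hτ₁ σ₁) (indG c₂ τ₂ hτ₂ σ₂) ≃ₗ[ℂ]
      ISp (Sum.map c₁ c₂) (fun _ => ()) τ hτ (ext σ₁ σ₂),
    ∀ f (g : GL (κ₁ ⊕ κ₂) F), (Θ f).1 (levC F (κ₁ ⊕ κ₂) g) =
      TensorProduct.map (ev1 c₁ (fun _ => ()) τ₁ hτ₁ σ₁) (ev1 c₂ (fun _ => ()) τ₂ hτ₂ σ₂)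
        (f.1 g) := by
  let Θ₀ : Q.GLRep.indSp (indG c₁ τ₁ hτ₁ σ₁) (indG c₂ τ₂ hτ₂ σ₂) →ₗ[ℂ]
      ISp (Sum.map c₁ c₂) (fun _ => ()) τ hτ (ext σ₁ σ₂) :=
    { toFun := fun f => ⟨_, ProdI_fwd hτ₁ hτ₂ hτ h σ₁ σ₂ f.1 f.2⟩
      map_add' := fun f f' => Subtype.ext (funext fun g =>
        LinearMap.map_add (TensorProduct.map (ev1 c₁ (fun _ => ()) τ₁ hτ₁ σ₁)
          (ev1 c₂ (fun _ => ()) τ₂ hτ₂ σ₂)) (f.1 g.1) (f'.1 g.1))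
      map_smul' := fun z f => Subtype.ext (funext fun g =>
        LinearMap.map_smul (TensorProduct.map (ev1 c₁ (fun _ => ()) τ₁ hτ₁ σ₁)
          (ev1 c₂ (fun _ => ()) τ₂ hτ₂ σ₂)) z (f.1 g.1)) }
  have hΘ : ∀ f (g : GL (κ₁ ⊕ κ₂) F), (Θ₀ f).1 (levC F (κ₁ ⊕ κ₂) g) =
      TensorProduct.map (ev1 c₁ (fun _ => ()) τ₁ hτ₁ σ₁) (ev1 c₂ (fun _ => ()) τ₂ hτ₂ σ₂)
        (f.1 g) := fun f g => rfl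
  have hbij : Function.Bijective Θ₀ := by
    refine ⟨?_, fun Φ => ⟨⟨ProdI_b hτ₁ hτ₂ hτ h σ₁ σ₂ Φ, ProdI_b_mem hτ₁ hτ₂ hτ h σ₁ σ₂ Φ⟩, ?_⟩⟩
    · rw [injective_iff_map_eq_zero]
      intro f hf
      refine ProdI_inj hτ₁ hτ₂ hτ h σ₁ σ₂ f fun g => ?_
      rw [← hΘ, hf]
      rfl
    · apply Subtype.ext
      funext g
      exact ProdI_ev_b hτ₁ hτ₂ hτ h σ₁ σ₂ Φ g.1
  exact ⟨LinearEquiv.ofBijective Θ₀ hbij, hΘ⟩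

/-- the product of two induced representations -/
def prodI : Q.GLRep.indSp (indG c₁ τ₁ hτ₁ σ₁) (indG c₂ τ₂ hτ₂ σ₂) ≃ₗ[ℂ]
    ISp (Sum.map c₁ c₂) (fun _ => ()) τ hτ (ext σ₁ σ₂) :=
  Classical.choose (prodI_exists hτ₁ hτ₂ hτ h σ₁ σ₂)

theorem prodI_apply (f : Q.GLRep.indSp (indG c₁ τ₁ hτ₁ σ₁) (indG c₂ τ₂ hτ₂ σ₂))
    (g : GL (κ₁ ⊕ κ₂) F) : (prodI hτ₁ hτ₂ hτ h σ₁ σ₂ f).1 (levC F (κ₁ ⊕ κ₂) g) =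
      TensorProduct.map (ev1 c₁ (fun _ => ()) τ₁ hτ₁ σ₁) (ev1 c₂ (fun _ => ()) τ₂ hτ₂ σ₂)
        (f.1 g) :=
  Classical.choose_spec (prodI_exists hτ₁ hτ₂ hτ h σ₁ σ₂) f g

theorem prodI_equi (g : GL (κ₁ ⊕ κ₂) F)
    (f : Q.GLRep.indSp (indG c₁ τ₁ hτ₁ σ₁) (indG c₂ τ₂ hτ₂ σ₂)) :
    prodI hτ₁ hτ₂ hτ h σ₁ σ₂ (Q.GLRep.indRep (indG c₁ τ₁ hτ₁ σ₁) (indG c₂ τ₂ hτ₂ σ₂) g f) =
      IRp (Sum.map c₁ c₂) (fun _ => ()) τ hτ (ext σ₁ σ₂) (levC F (κ₁ ⊕ κ₂) g)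
        (prodI hτ₁ hτ₂ hτ h σ₁ σ₂ f) := by
  apply Subtype.ext
  funext x
  exact (prodI_apply hτ₁ hτ₂ hτ h σ₁ σ₂ (Q.GLRep.indRep (indG c₁ τ₁ hτ₁ σ₁)
    (indG c₂ τ₂ hτ₂ σ₂) g f) x.1).trans (prodI_apply hτ₁ hτ₂ hτ h σ₁ σ₂ f (x.1 * g)).symm

include h in
theorem mul_indG : ((indG c₁ τ₁ hτ₁ σ₁).mul (indG c₂ τ₂ hτ₂ σ₂)).Isom
    (indG (Sum.map c₁ c₂) τ hτ (ext σ₁ σ₂)) := by
  refine ⟨Equiv.refl _, prodI hτ₁ hτ₂ hτ h σ₁ σ₂, fun g f => ?_⟩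
  have h1 : (Q.GLRep.glRe (Equiv.refl (κ₁ ⊕ κ₂)) g : GL (κ₁ ⊕ κ₂) F) = g :=
    Units.ext (by ext i j; rfl)
  exact (prodI_equi hτ₁ hτ₂ hτ h σ₁ σ₂ g f).trans (congrArg (fun x => IRp (Sum.map c₁ c₂)
    (fun _ => ()) τ hτ (ext σ₁ σ₂) (levC F (κ₁ ⊕ κ₂) x) (prodI hτ₁ hτ₂ hτ h σ₁ σ₂ f)) h1.symm)

end

section

variable {κ₁ κ₂ ι₁ ι₂ V₁ V₂ : Type} [Fintype κ₁] [DecidableEq κ₁] [Fintype κ₂] [DecidableEq κ₂]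
  [Fintype ι₁] [DecidableEq ι₁] [Fintype ι₂] [DecidableEq ι₂]
  [AddCommGroup V₁] [Module ℂ V₁] [AddCommGroup V₂] [Module ℂ V₂]
  {c₁ : κ₁ → ι₁} {c₂ : κ₂ → ι₂}
variable {τ₁ : ι₁ → ℤ} (hτ₁ : Function.Injective τ₁) {τ₂ : ι₂ → ℤ} (hτ₂ : Function.Injective τ₂)
  {τ : ι₁ ⊕ ι₂ → ℤ} (hτ : Function.Injective τ) (h : BOrd τ₁ τ₂ τ)
  (ρ₁ : Representation ℂ (lev F c₁) V₁) (ρ₂ : Representation ℂ (lev F c₂) V₂)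

include h in
theorem prodH_exists : ∃ Θ : Q.GLRep.indSp (indG c₁ τ₁ hτ₁ (hat c₁ ρ₁))
      (indG c₂ τ₂ hτ₂ (hat c₂ ρ₂)) ≃ₗ[ℂ]
      ISp (Sum.map c₁ c₂) (fun _ => ()) τ hτ (hat (Sum.map c₁ c₂) (ext ρ₁ ρ₂)),
    ∀ f (g : GL (κ₁ ⊕ κ₂) F), (Θ f).1 (levC F (κ₁ ⊕ κ₂) g) = hE V₁ V₂ ι₁ ι₂
      (TensorProduct.map (ev1 c₁ (fun _ => ()) τ₁ hτ₁ (hat c₁ ρ₁))
        (ev1 c₂ (fun _ => ()) τ₂ hτ₂ (hat c₂ ρ₂)) (f.1 g)) := by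
  have hL := hE_equi ρ₁ ρ₂
  have hL' : Equi (hat (Sum.map c₁ c₂) (ext ρ₁ ρ₂)) (ext (hat c₁ ρ₁) (hat c₂ ρ₂))
      ((hE V₁ V₂ ι₁ ι₂).symm : _ →ₗ[ℂ] _) := by
    intro g v
    apply (hE V₁ V₂ ι₁ ι₂).injective
    have h1 := hL g ((hE V₁ V₂ ι₁ ι₂).symm v)
    simp only [LinearEquiv.coe_coe, LinearEquiv.apply_symm_apply] at h1 ⊢
    exact h1.symm
  let A : ISp (Sum.map c₁ c₂) (fun _ => ()) τ hτ (ext (hat c₁ ρ₁) (hat c₂ ρ₂)) ≃ₗ[ℂ]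
      ISp (Sum.map c₁ c₂) (fun _ => ()) τ hτ (hat (Sum.map c₁ c₂) (ext ρ₁ ρ₂)) :=
    { toFun := fun f => ⟨_, ISp_map (Sum.map c₁ c₂) (fun _ => ()) τ hτ _ _ _ hL f.1 f.2⟩
      invFun := fun f => ⟨_, ISp_map (Sum.map c₁ c₂) (fun _ => ()) τ hτ _ _ _ hL' f.1 f.2⟩
      map_add' := fun f f' => Subtype.ext (funext fun g =>
        (hE V₁ V₂ ι₁ ι₂).map_add (f.1 g) (f'.1 g))
      map_smul' := fun z f => Subtype.ext (funext fun g =>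
        (hE V₁ V₂ ι₁ ι₂).map_smul z (f.1 g))
      left_inv := fun f => Subtype.ext (funext fun g =>
        (hE V₁ V₂ ι₁ ι₂).symm_apply_apply (f.1 g))
      right_inv := fun f => Subtype.ext (funext fun g =>
        (hE V₁ V₂ ι₁ ι₂).apply_symm_apply (f.1 g)) }
  refine ⟨(prodI hτ₁ hτ₂ hτ h (hat c₁ ρ₁) (hat c₂ ρ₂)).trans A, fun f g => ?_⟩
  exact congrArg (hE V₁ V₂ ι₁ ι₂) (prodI_apply hτ₁ hτ₂ hτ h (hat c₁ ρ₁) (hat c₂ ρ₂) f g)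

/-- the product of two induced representations `I(hat ρ₁)`, `I(hat ρ₂)` -/
def prodH : Q.GLRep.indSp (indG c₁ τ₁ hτ₁ (hat c₁ ρ₁)) (indG c₂ τ₂ hτ₂ (hat c₂ ρ₂)) ≃ₗ[ℂ]
    ISp (Sum.map c₁ c₂) (fun _ => ()) τ hτ (hat (Sum.map c₁ c₂) (ext ρ₁ ρ₂)) :=
  Classical.choose (prodH_exists hτ₁ hτ₂ hτ h ρ₁ ρ₂)

theorem prodH_apply (f : Q.GLRep.indSp (indG c₁ τ₁ hτ₁ (hat c₁ ρ₁)) (indG c₂ τ₂ hτ₂ (hat c₂ ρ₂)))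
    (g : GL (κ₁ ⊕ κ₂) F) : (prodH hτ₁ hτ₂ hτ h ρ₁ ρ₂ f).1 (levC F (κ₁ ⊕ κ₂) g) =
      hE V₁ V₂ ι₁ ι₂ (TensorProduct.map (ev1 c₁ (fun _ => ()) τ₁ hτ₁ (hat c₁ ρ₁))
        (ev1 c₂ (fun _ => ()) τ₂ hτ₂ (hat c₂ ρ₂)) (f.1 g)) :=
  Classical.choose_spec (prodH_exists hτ₁ hτ₂ hτ h ρ₁ ρ₂) f g

theorem prodH_equi (g : GL (κ₁ ⊕ κ₂) F)
    (f : Q.GLRep.indSp (indG c₁ τ₁ hτ₁ (hat c₁ ρ₁)) (indG c₂ τ₂ hτ₂ (hat c₂ ρ₂))) :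
    prodH hτ₁ hτ₂ hτ h ρ₁ ρ₂ (Q.GLRep.indRep (indG c₁ τ₁ hτ₁ (hat c₁ ρ₁))
        (indG c₂ τ₂ hτ₂ (hat c₂ ρ₂)) g f) =
      IRp (Sum.map c₁ c₂) (fun _ => ()) τ hτ (hat (Sum.map c₁ c₂) (ext ρ₁ ρ₂))
        (levC F (κ₁ ⊕ κ₂) g) (prodH hτ₁ hτ₂ hτ h ρ₁ ρ₂ f) := by
  apply Subtype.ext
  funext x
  exact (prodH_apply hτ₁ hτ₂ hτ h ρ₁ ρ₂ (Q.GLRep.indRep (indG c₁ τ₁ hτ₁ (hat c₁ ρ₁))
    (indG c₂ τ₂ hτ₂ (hat c₂ ρ₂)) g f) x.1).trans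
    (prodH_apply hτ₁ hτ₂ hτ h ρ₁ ρ₂ f (x.1 * g)).symm

end

end

end Pool.Agent.Lib.MP_ca1492_al.P
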