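import Mathlib
import Pool.Agent.Lib.MP_ca1492_al.Cmp.DatIso
import Pool.Agent.Lib.MP_ca1492_al.P.TenAw
import Pool.Agent.Lib.MP_ca1492_al.P.TenSum

/-!
# MP_ca1492_al, comparison, module Split: isomorphisms of strand data for families

`R : ι → GLRep F`, data `sc R : sk R → ι`, `tenRep R` on `⨂ a, (R a).V`.

* `split_exists`: `ε : ι₁ ⊕ ι₂ ≃ ι`. Let `R' = fun x => R (ε x)`. `e = (skS R').symm.trans (sk R' ≃ sk R)`, the second
  map is `Equiv.sigmaCongrLeft`-like, `⟨x, i⟩ ↦ ⟨ε x, i⟩` (inverse by `ε.symm` and a cast; or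
  `Equiv.ofBijective`); `A = (ten_sum R').1` followed by `PiTensorProduct.reindex ℂ (fun x => (R (ε x)).V) ε`
  (target `⨂ y, (R (ε (ε.symm y))).V`, identified with `⨂ y, (R y).V` by `PiTensorProduct.congr` of casts; or
  choose the linear equivalence of `PiTensorProduct` in the other direction,
  `tprod v ↦ tprod (fun x => v (ε x))`). `hA`: on pure tensors, block `ε x` of `levT e m` is block `x` of
  the corresponding element.
* `siW_hA`: `levT F (bperm w) m = ẇ m ẇ⁻¹` (entries: `glT_apply`, `permG_conj`), then `Aw_inter`.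
-/

set_option autoImplicit false
set_option linter.unusedSectionVars false

namespace Pool.Agent.Lib.MP_ca1492_al.P

open Topology Matrix ValuativeRel TensorProduct
open Pool.Agent.Lib.MP_ca1492_al.Q (GLRep)

noncomputable section

variable {F : Type} [Field F] [ValuativeRel F] [TopologicalSpace F]
  [IsNonarchimedeanLocalField F]

theorem Split_glT_trans {κ κ' κ'' : Type} [Fintype κ] [DecidableEq κ] [Fintype κ']
    [DecidableEq κ'] [Fintype κ''] [DecidableEq κ''] (e : κ ≃ κ') (e' : κ' ≃ κ'') (g : GL κ F) :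
    glT F (e.trans e') g = glT F e' (glT F e g) := by
  refine Units.ext (Matrix.ext fun i j => ?_)
  obtain ⟨i, rfl⟩ := (e.trans e').surjective i
  obtain ⟨j, rfl⟩ := (e.trans e').surjective j
  rw [glT_apply]
  show _ = ((glT F e' (glT F e g) : GL κ'' F) : Matrix κ'' κ'' F) (e' (e i)) (e' (e j))
  rw [glT_apply, glT_apply]

section

variable {ι ι' : Type} [Fintype ι] [DecidableEq ι] [Fintype ι'] [DecidableEq ι']

/-- reindexing of the index set -/
def Split_e (R : ι → GLRep F) (ε : ι' ≃ ι) : sk (fun x => R (ε x)) ≃ sk R :=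
  Equiv.sigmaCongrLeft (β := fun a => (R a).κ) ε

theorem Split_e_apply (R : ι → GLRep F) (ε : ι' ≃ ι) (x : ι') (i : (R (ε x)).κ) :
    Split_e R ε ⟨x, i⟩ = ⟨ε x, i⟩ := rfl

/-- reindexing of the tensor product -/
def Split_A (R : ι → GLRep F) (ε : ι' ≃ ι) :
    (⨂[ℂ] x, (R (ε x)).V) ≃ₗ[ℂ] (⨂[ℂ] a, (R a).V) :=
  (PiTensorProduct.reindex ℂ (fun a => (R a).V) ε.symm).symm

theorem Split_A_symm (R : ι → GLRep F) (ε : ι' ≃ ι) (v : ∀ a, (R a).V) :
    (Split_A R ε).symm (PiTensorProduct.tprod ℂ v) = PiTensorProduct.tprod ℂ fun x => v (ε x) :=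
  PiTensorProduct.reindex_tprod ε.symm v

theorem Split_A_tprod (R : ι → GLRep F) (ε : ι' ≃ ι) (v : ∀ a, (R a).V) :
    Split_A R ε (PiTensorProduct.tprod ℂ fun x => v (ε x)) = PiTensorProduct.tprod ℂ v := by
  rw [← Split_A_symm, LinearEquiv.apply_symm_apply]

theorem Split_blk (R : ι → GLRep F) (ε : ι' ≃ ι)
    (hc : ∀ i j : sk (fun x => R (ε x)), sc R (Split_e R ε i) = sc R (Split_e R ε j) ↔
      sc (fun x => R (ε x)) i = sc (fun x => R (ε x)) j)
    (m : lev F (sc fun x => R (ε x))) (x : ι') :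
    (blkM F (fun a => (R a).κ) (ε x) (levT F (Split_e R ε) hc m) : GL (R (ε x)).κ F) =
      blkM F (fun x => (R (ε x)).κ) x m := by
  refine Units.ext (Matrix.ext fun i j => ?_)
  rw [blkM_apply, blkM_apply]
  exact glT_apply (Split_e R ε) m.1 ⟨x, i⟩ ⟨x, j⟩

theorem Split_hA (R : ι → GLRep F) (ε : ι' ≃ ι)
    (hc : ∀ i j : sk (fun x => R (ε x)), sc R (Split_e R ε i) = sc R (Split_e R ε j) ↔
      sc (fun x => R (ε x)) i = sc (fun x => R (ε x)) j)
    (m : lev F (sc fun x => R (ε x))) (v : ⨂[ℂ] x, (R (ε x)).V) :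
    Split_A R ε (tenRep (fun x => R (ε x)) m v) =
      tenRep R (levT F (Split_e R ε) hc m) (Split_A R ε v) := by
  obtain ⟨u, rfl⟩ := (Split_A R ε).symm.surjective v
  rw [LinearEquiv.apply_symm_apply, ← LinearEquiv.eq_symm_apply]
  induction u using PiTensorProduct.induction_on with
  | smul_tprod r v =>
    rw [map_smul, map_smul, map_smul, map_smul]
    congr 1
    rw [Split_A_symm, tenRep_tprod, tenRep_tprod, Split_A_symm]
    congr 1
    funext x
    rw [Split_blk]
  | add x y hx hy => rw [map_add, map_add, map_add, map_add, hx, hy]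

end

section

variable {ι ι₁ ι₂ : Type} [Fintype ι] [DecidableEq ι] [Fintype ι₁] [DecidableEq ι₁]
  [Fintype ι₂] [DecidableEq ι₂]

theorem split_exists (R : ι → GLRep F) (ε : ι₁ ⊕ ι₂ ≃ ι) :
    ∃ s : SIso (Sum.map (sc fun x => R (ε (Sum.inl x))) (sc fun y => R (ε (Sum.inr y))))
        (ext (tenRep fun x => R (ε (Sum.inl x))) (tenRep fun y => R (ε (Sum.inr y))))
        (sc R) (tenRep R),
      s.ε = ε ∧ (∀ x i, s.e (Sum.inl ⟨x, i⟩) = ⟨ε (Sum.inl x), i⟩) ∧
      (∀ y i, s.e (Sum.inr ⟨y, i⟩) = ⟨ε (Sum.inr y), i⟩) ∧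
      ∀ v : ∀ a, (R a).V, s.A ((PiTensorProduct.tprod ℂ fun x => v (ε (Sum.inl x))) ⊗ₜ[ℂ]
        (PiTensorProduct.tprod ℂ fun y => v (ε (Sum.inr y)))) = PiTensorProduct.tprod ℂ v := by
  obtain ⟨t, ht, ht'⟩ := ten_sum fun x => R (ε x)
  have he : ∀ i, sc R (((skS fun x => R (ε x)).symm.trans (Split_e R ε)) i) =
      ε (Sum.map (sc fun x => R (ε (Sum.inl x))) (sc fun y => R (ε (Sum.inr y))) i) := by
    rintro (i | i) <;> rfl
  have hcl : ∀ i j : sk (fun x => R (ε x)), sc R (Split_e R ε i) = sc R (Split_e R ε j) ↔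
      sc (fun x => R (ε x)) i = sc (fun x => R (ε x)) j :=
    fun i j => ε.apply_eq_iff_eq
  refine ⟨{ e := (skS fun x => R (ε x)).symm.trans (Split_e R ε), ε := ε, he := he,
            A := t.trans (Split_A R ε), hA := ?_ }, rfl, fun x i => rfl, fun y i => rfl, ?_⟩
  · intro m v
    obtain ⟨m', hm'⟩ := (levT F (skS fun x => R (ε x)) (skS_cls fun x => R (ε x))).surjective m
    subst hm'
    rw [LinearEquiv.trans_apply, LinearEquiv.trans_apply, ← ht' m' v, Split_hA R ε hcl]
    congr 2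
    refine Subtype.ext ?_
    rw [levT_val, levT_val, levT_val, Split_glT_trans]
    congr 1
    refine Units.ext (Matrix.ext fun i j => ?_)
    obtain ⟨i, rfl⟩ := (skS fun x => R (ε x)).symm.surjective i
    obtain ⟨j, rfl⟩ := (skS fun x => R (ε x)).symm.surjective j
    rw [glT_apply]
    have h := glT_apply (F := F) (skS fun x => R (ε x)) m'.1 ((skS fun x => R (ε x)).symm i)
      ((skS fun x => R (ε x)).symm j)
    rw [Equiv.apply_symm_apply, Equiv.apply_symm_apply] at h
    exact h.symm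
  · intro v
    rw [LinearEquiv.trans_apply, ht]
    have h : (fun x => Sum.rec (motive := fun x => (R (ε x)).V) (fun x => v (ε (Sum.inl x)))
        (fun y => v (ε (Sum.inr y))) x) = fun x => v (ε x) := by
      funext x
      rcases x with x | x <;> rfl
    rw [h]
    exact Split_A_tprod R ε v

/-- reindexing of a family -/
theorem reindex_exists {ι' : Type} [Fintype ι'] [DecidableEq ι'] (R : ι → GLRep F)
    (ε : ι' ≃ ι) :
    ∃ s : SIso (sc fun x => R (ε x)) (tenRep fun x => R (ε x)) (sc R) (tenRep R),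
      s.ε = ε ∧ (∀ x i, s.e ⟨x, i⟩ = ⟨ε x, i⟩) ∧
      ∀ v : ∀ a, (R a).V, s.A (PiTensorProduct.tprod ℂ fun x => v (ε x)) =
        PiTensorProduct.tprod ℂ v := by
  refine ⟨{ e := Split_e R ε, ε := ε, he := fun _ => rfl, A := Split_A R ε,
            hA := Split_hA R ε _ }, rfl, fun x i => rfl, fun v => Split_A_tprod R ε v⟩

end

section

variable {J : Type} (RJ : J → GLRep F) {ι : Type} [Fintype ι] [DecidableEq ι] (l : ι → J)

theorem siW_hA (w : Equiv.Perm ι) (hw : ∀ a, l (w a) = l a)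
    (m : lev F (sc fun a => RJ (l a))) (v : ⨂[ℂ] a, (RJ (l a)).V) :
    Aw RJ l w hw (tenRep (fun a => RJ (l a)) m v) =
      tenRep (fun a => RJ (l a))
        (levT F (bperm RJ l w hw) (SIso_cls (bperm RJ l w hw) w (fun _ => rfl)) m)
        (Aw RJ l w hw v) := by
  rw [← Aw_inter]
  show tenRep (fun a => RJ (l a)) ⟨permG F (bperm RJ l w hw) * m.1 *
    (permG F (bperm RJ l w hw))⁻¹, permG_conj_mem _ _ _ (bperm_cls RJ l w hw) m.1 m.2⟩ _ = _
  congr 2
  refine Subtype.ext (Units.ext (Matrix.ext fun i j => ?_))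
  obtain ⟨i, rfl⟩ := (bperm RJ l w hw).surjective i
  obtain ⟨j, rfl⟩ := (bperm RJ l w hw).surjective j
  rw [levT_val, glT_apply]
  exact permG_conj _ _ _ _

/-- the automorphism of the strand data given by a letter preserving permutation -/
def siW (w : Equiv.Perm ι) (hw : ∀ a, l (w a) = l a) :
    SIso (sc fun a => RJ (l a)) (tenRep fun a => RJ (l a)) (sc fun a => RJ (l a))
      (tenRep fun a => RJ (l a)) where
  e := bperm RJ l w hw
  ε := w
  he _ := rfl
  A := Aw RJ l w hw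
  hA := siW_hA RJ l w hw

end

end

end Pool.Agent.Lib.MP_ca1492_al.P
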