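import Mathlib
import Pool.Agent.Lib.MP_ca1492_al.Cmp.ProdI
import Pool.Agent.Lib.MP_ca1492_al.Cmp.Split
import Pool.Agent.Lib.MP_ca1492_al.P.GLRepB
import Pool.Agent.Lib.MP_ca1492_al.P.TenIrr

/-!
# MP_ca1492_al, comparison, module Fam: products of families of representations

`indG (sc R) τ hτ (tenRep R)` = normalised induction of the external tensor product of the family `R : ι → GLRep F`
for the order `τ`.

* `indG_iso`: transport along an isomorphism of strand data. `indG_one`: one strand. `mul_family`: product of two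
  families. `mul_bool`: two strands. `prodL_indG`: the product of a list.
-/

set_option autoImplicit false
set_option linter.unusedSectionVars false

namespace Pool.Agent.Lib.MP_ca1492_al.P

open Topology Matrix ValuativeRel TensorProduct
open Pool.Agent.Lib.MP_ca1492_al.Q (GLRep)

noncomputable section

variable {F : Type} [Field F] [ValuativeRel F] [TopologicalSpace F]
  [IsNonarchimedeanLocalField F]

section

variable {κ κ' : Type} [Fintype κ] [DecidableEq κ] [Fintype κ'] [DecidableEq κ']
variable {ι ι' : Type} [Fintype ι] [DecidableEq ι] [Fintype ι'] [DecidableEq ι']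
variable {V V' : Type} [AddCommGroup V] [Module ℂ V] [AddCommGroup V'] [Module ℂ V']
variable {c : κ → ι} {ρ : Representation ℂ (lev F c) V} {c' : κ' → ι'}
  {ρ' : Representation ℂ (lev F c') V'}

theorem indG_isom {τ : ι → ℤ} (hτ : Function.Injective τ) {τ' : ι' → ℤ}
    (hτ' : Function.Injective τ') (e : κ ≃ κ')
    (f : ISp c (fun _ => ()) τ hτ ρ ≃ₗ[ℂ] ISp c' (fun _ => ()) τ' hτ' ρ')
    (hf : ∀ (g : GL κ F) v, f (IRp c (fun _ => ()) τ hτ ρ (levC F κ g) v) =
      IRp c' (fun _ => ()) τ' hτ' ρ' (levC F κ' (Q.GLRep.glRe (F := F) e g)) (f v)) :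
    (indG c τ hτ ρ).Isom (indG c' τ' hτ' ρ') := ⟨e, f, hf⟩

theorem SIso.I0_equi (s : SIso c ρ c' ρ') {ι₁ ι₁' : Type} {β : ι → ι₁} {β' : ι' → ι₁'}
    (hβ : ∀ x y, β' (s.ε x) = β' (s.ε y) ↔ β x = β y) {τ : ι → ℤ} (hτ : Function.Injective τ)
    {τ' : ι' → ℤ} (hτ' : Function.Injective τ')
    (hττ : ∀ x y, β x = β y → (τ x < τ y ↔ τ' (s.ε x) < τ' (s.ε y)))
    (g : lev F (fun i => β (c i))) (f : ISp c β τ hτ ρ) :
    s.I0 hβ hτ hτ' hττ (IRp c β τ hτ ρ g f) = IRp c' β' τ' hτ' ρ' (s.T hβ g)
      (s.I0 hβ hτ hτ' hττ f) :=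
  trI_equi _ _ _ _ _ _ _ _ _ _ _ _ _ _ _ _ _ g f

/-- transport along an isomorphism of strand data -/
theorem indG_iso (s : SIso c ρ c' ρ') {τ : ι → ℤ} (hτ : Function.Injective τ) {τ' : ι' → ℤ}
    (hτ' : Function.Injective τ') (h : ∀ x y, τ x < τ y ↔ τ' (s.ε x) < τ' (s.ε y)) :
    (indG c τ hτ ρ).Isom (indG c' τ' hτ' ρ') := by
  have hβ : ∀ x y, (fun _ : ι' => ()) (s.ε x) = (fun _ : ι' => ()) (s.ε y) ↔
      (fun _ : ι => ()) x = (fun _ : ι => ()) y := fun _ _ => ⟨fun _ => rfl, fun _ => rfl⟩
  exact indG_isom hτ hτ' s.e (s.I0 (β := fun _ => ()) (β' := fun _ => ()) hβ hτ hτ'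
    (fun x y _ => h x y)) fun g v => s.I0_equi (β := fun _ => ()) (β' := fun _ => ()) hβ hτ hτ'
    (fun x y _ => h x y) (levC F κ g) v

theorem indG_irr (τ : ι → ℤ) (hτ : Function.Injective τ) :
    (indG c τ hτ ρ).Irred ↔ Irr (IRp c (fun _ => ()) τ hτ ρ) :=
  pull_irr _ _

theorem indG_smooth (τ : ι → ℤ) (hτ : Function.Injective τ) : (indG c τ hτ ρ).Smooth :=
  (pull_sm _ _).2 (ISp_smooth c _ τ hτ ρ)

theorem Fam_irr {A B : GLRep F} (h : A.Isom B) (hA : A.Irred) : B.Irred := by
  obtain ⟨e, f, hf⟩ := h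
  obtain ⟨⟨v, hv⟩, hU⟩ := hA
  refine ⟨⟨f v, fun h0 => hv (f.injective (h0.trans f.map_zero.symm))⟩, fun U hs => ?_⟩
  rcases hU (U.comap f.toLinearMap) (fun g x hx => by
    change f (A.π g x) ∈ U
    rw [hf]
    exact hs _ _ hx) with h | h
  · left
    rw [eq_bot_iff]
    intro x hx
    have h1 : f.symm x ∈ U.comap f.toLinearMap := by
      change f (f.symm x) ∈ U
      rwa [f.apply_symm_apply]
    rw [h, Submodule.mem_bot] at h1
    rw [Submodule.mem_bot, ← f.apply_symm_apply x, h1, map_zero]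
  · right
    rw [eq_top_iff]
    intro x _
    have h1 : f.symm x ∈ U.comap f.toLinearMap := by
      rw [h]
      exact Submodule.mem_top
    have h2 : f (f.symm x) ∈ U := h1
    rwa [f.apply_symm_apply] at h2

theorem isom_irr {A B : GLRep F} (h : A.Isom B) : A.Irred ↔ B.Irred :=
  ⟨Fam_irr h, Fam_irr h.symm⟩

end

/-! ### one strand -/

section One

variable {ι : Type} [Fintype ι] [DecidableEq ι] [Unique ι] (R : ι → GLRep F)

/-- the tensor product of one space -/
def ten1 : (R default).V ≃ₗ[ℂ] (⨂[ℂ] a, (R a).V) where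
  toFun := (PiTensorProduct.tprod ℂ (s := fun a => (R a).V)).toLinearMap 0 default
  invFun := PiTensorProduct.lift
    { toFun := fun v => v default
      map_update_add' := by
        intro _ v i x y
        obtain rfl := Unique.eq_default i
        rw [Function.update_self, Function.update_self, Function.update_self]
      map_update_smul' := by
        intro _ v i z x
        obtain rfl := Unique.eq_default i
        rw [Function.update_self, Function.update_self] }
  map_add' := map_add _
  map_smul' := map_smul _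
  left_inv := by
    intro v
    change PiTensorProduct.lift _ (PiTensorProduct.tprod ℂ
      (Function.update (0 : ∀ a, (R a).V) default v)) = v
    rw [PiTensorProduct.lift.tprod]
    exact Function.update_self _ _ _
  right_inv := by
    intro t
    induction t using PiTensorProduct.induction_on with
    | smul_tprod r v =>
      rw [map_smul, PiTensorProduct.lift.tprod, map_smul]
      congr 1
      change PiTensorProduct.tprod ℂ
        (Function.update (0 : ∀ a, (R a).V) default (v default)) = _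
      congr 1
      funext a
      obtain rfl := Unique.eq_default a
      exact Function.update_self _ _ _
    | add x y hx hy => rw [map_add, map_add, hx, hy]

theorem ten1_apply (v : (R default).V) :
    ten1 R v = PiTensorProduct.tprod ℂ (Function.update (0 : ∀ a, (R a).V) default v) := rfl

theorem ten1_rho (m : lev F (sc R)) (v : (R default).V) :
    tenRep R m (ten1 R v) = ten1 R ((R default).π (blkM F (fun a => (R a).κ) default m) v) := by
  rw [ten1_apply, ten1_apply, tenRep_tprod]
  congr 1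
  funext a
  obtain rfl := Unique.eq_default a
  rw [Function.update_self, Function.update_self]

theorem one_lev (g : GL (sk R) F) : g ∈ lev F (sc R) :=
  fun _ _ h => absurd (Subsingleton.elim _ _) h

theorem one_dh (τ : ι → ℤ) (m : lev F (sc R)) : dh (sc R) (fun _ => ()) τ m = 1 := by
  rw [dh_apply]
  have h0 : ex (sc R) (fun _ : ι => ()) τ m.1 = 0 := by
    unfold ex
    refine Finset.sum_eq_zero fun x _ => Finset.sum_eq_zero fun y _ => ?_
    rw [if_neg]
    rintro ⟨-, h⟩
    rw [Subsingleton.elim x y] at h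
    exact lt_irrefl _ h
  rw [h0, neg_zero, zpow_zero]

theorem one_uni (τ : ι → ℤ) (n : GL (sk R) F)
    (hn : n ∈ uni F (fun i => (fun _ : ι => ()) (sc R i)) (fun i => τ (sc R i))) : n = 1 := by
  refine Units.ext (Matrix.ext fun i j => ?_)
  exact hn.2 i j (congrArg τ (Subsingleton.elim (sc R i) (sc R j)))

/-- the functions in the induced representation of one strand -/
def one1 (hR : IsSm (R default).π) (τ : ι → ℤ) (hτ : Function.Injective τ) :
    (R default).V ≃ₗ[ℂ] ISp (sc R) (fun _ => ()) τ hτ (tenRep R) where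
  toFun v := ⟨fun g => tenRep R ⟨g.1, one_lev R g.1⟩ (ten1 R v), by
    rw [mem_ISp]
    refine ⟨fun m hm n hn g => ?_, ?_⟩
    · rw [one_dh, Units.val_one, one_smul]
      have h1 : n = 1 := one_uni R τ n hn
      subst h1
      rw [← Module.End.mul_apply, ← map_mul]
      congr 2
      refine Subtype.ext ?_
      show m * 1 * g.1 = m * g.1
      rw [mul_one]
    · have h1 := ten_smooth R (fun a => by
        obtain rfl := Unique.eq_default a
        exact hR)
      have h2 : IsOpen {g : lev F (sc R) | tenRep R g (ten1 R v) = ten1 R v} := h1 (ten1 R v)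
      let φ : lev F (fun i => (fun _ : ι => ()) (sc R i)) →* lev F (sc R) :=
        { toFun := fun g => ⟨g.1, one_lev R g.1⟩
          map_one' := rfl
          map_mul' := fun _ _ => rfl }
      refine ⟨Subgroup.comap φ (stabV (tenRep R) (ten1 R v)),
        h2.preimage (continuous_subtype_val.subtype_mk _), fun g u hu => ?_⟩
      show tenRep R (⟨g.1, one_lev R g.1⟩ * ⟨u.1, one_lev R u.1⟩) (ten1 R v) =
        tenRep R ⟨g.1, one_lev R g.1⟩ (ten1 R v)
      rw [map_mul, Module.End.mul_apply]
      have h3 : tenRep R ⟨u.1, one_lev R u.1⟩ (ten1 R v) = ten1 R v := hu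
      rw [h3]⟩
  invFun f := (ten1 R).symm (f.1 1)
  map_add' := by
    intro v w
    refine Subtype.ext (funext fun g => ?_)
    show tenRep R _ (ten1 R (v + w)) = tenRep R _ (ten1 R v) + tenRep R _ (ten1 R w)
    rw [map_add, map_add]
  map_smul' := by
    intro z v
    refine Subtype.ext (funext fun g => ?_)
    show tenRep R _ (ten1 R (z • v)) = z • tenRep R _ (ten1 R v)
    rw [map_smul, map_smul]
  left_inv := by
    intro v
    show (ten1 R).symm (tenRep R 1 (ten1 R v)) = v
    rw [map_one, Module.End.one_apply, LinearEquiv.symm_apply_apply]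
  right_inv := by
    intro f
    refine Subtype.ext (funext fun g => ?_)
    show tenRep R ⟨g.1, one_lev R g.1⟩ (ten1 R ((ten1 R).symm (f.1 1))) = f.1 g
    rw [LinearEquiv.apply_symm_apply]
    have h1 := ((mem_ISp _ _ _ _ _ _).1 f.2).1 g.1 (one_lev R g.1) 1 (one_mem _) 1
    rw [one_dh, Units.val_one, one_smul] at h1
    rw [← h1]
    exact congrArg f.1 (Subtype.ext (by
      show g.1 * 1 * 1 = g.1
      rw [mul_one, mul_one]))

theorem indG_one (hR : IsSm (R default).π) (τ : ι → ℤ) (hτ : Function.Injective τ) :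
    (R default).Isom (indG (sc R) τ hτ (tenRep R)) := by
  refine ⟨(Equiv.uniqueSigma fun a => (R a).κ).symm, one1 R hR τ hτ, fun g v => ?_⟩
  refine Subtype.ext (funext fun h => ?_)
  show tenRep R ⟨h.1, one_lev R h.1⟩ (ten1 R ((R default).π g v)) =
    tenRep R ⟨h.1 * Q.GLRep.glRe (F := F) (Equiv.uniqueSigma fun a => (R a).κ).symm g,
      one_lev R _⟩ (ten1 R v)
  have h1 : (⟨h.1 * Q.GLRep.glRe (F := F) (Equiv.uniqueSigma fun a => (R a).κ).symm g,
      one_lev R _⟩ : lev F (sc R)) = ⟨h.1, one_lev R h.1⟩ *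
        ⟨Q.GLRep.glRe (F := F) (Equiv.uniqueSigma fun a => (R a).κ).symm g, one_lev R _⟩ := rfl
  rw [h1, map_mul, Module.End.mul_apply]
  congr 1
  rw [ten1_rho]
  have h2 : blkM F (fun a => (R a).κ) default
      ⟨Q.GLRep.glRe (F := F) (Equiv.uniqueSigma fun a => (R a).κ).symm g, one_lev R _⟩ = g := by
    refine Units.ext (Matrix.ext fun x y => ?_)
    exact glT_apply (Equiv.uniqueSigma fun a => (R a).κ).symm g x y
  rw [h2]

end One

/-! ### families -/

section

variable {ι ι₁ ι₂ : Type} [Fintype ι] [DecidableEq ι] [Fintype ι₁] [DecidableEq ι₁]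
  [Fintype ι₂] [DecidableEq ι₂]

/-- the product of two families -/
theorem mul_family (R : ι → GLRep F) (ε : ι₁ ⊕ ι₂ ≃ ι) {τ₁ : ι₁ → ℤ}
    (hτ₁ : Function.Injective τ₁) {τ₂ : ι₂ → ℤ} (hτ₂ : Function.Injective τ₂) {τ : ι → ℤ}
    (hτ : Function.Injective τ) (h : BOrd τ₁ τ₂ (fun x => τ (ε x))) :
    ((indG (sc fun x => R (ε (Sum.inl x))) τ₁ hτ₁ (tenRep fun x => R (ε (Sum.inl x)))).mul
      (indG (sc fun y => R (ε (Sum.inr y))) τ₂ hτ₂ (tenRep fun y => R (ε (Sum.inr y))))).Isom
      (indG (sc R) τ hτ (tenRep R)) := by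
  obtain ⟨s, hs, -⟩ := split_exists R ε
  have h1 := mul_indG (F := F) hτ₁ hτ₂ (τ := fun x => τ (ε x))
    (fun _ _ h' => ε.injective (hτ h')) h
    (tenRep fun x => R (ε (Sum.inl x))) (tenRep fun y => R (ε (Sum.inr y)))
  refine h1.trans (indG_iso s _ hτ fun x y => ?_)
  rw [hs]

end

/-- two strands -/
theorem mul_fam2 {ι : Type} [Fintype ι] [DecidableEq ι] (R : ι → GLRep F)
    (hR : ∀ a, IsSm (R a).π) {τ : ι → ℤ} (hτ : Function.Injective τ) (ε : Unit ⊕ Unit ≃ ι)
    (hε : τ (ε (Sum.inl ())) < τ (ε (Sum.inr ()))) :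
    ((R (ε (Sum.inl ()))).mul (R (ε (Sum.inr ())))).Isom (indG (sc R) τ hτ (tenRep R)) := by
  have h0 : Function.Injective (fun _ : Unit => (0 : ℤ)) := fun _ _ _ => rfl
  have h1 := mul_family R ε h0 h0 hτ ⟨fun _ _ => by simp, fun _ _ => by simp, fun _ _ => hε⟩
  exact ((indG_one (fun x => R (ε (Sum.inl x))) (hR _) _ h0).mul
    (indG_one (fun y => R (ε (Sum.inr y))) (hR _) _ h0)).trans h1

/-- the product of two representations -/
theorem mul_bool (R : Bool → GLRep F) (hR : ∀ a, IsSm (R a).π) {τ : Bool → ℤ}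
    (hτ : Function.Injective τ) (a b : Bool) (hab : τ a < τ b) :
    ((R a).mul (R b)).Isom (indG (sc R) τ hτ (tenRep R)) := by
  have hne : a ≠ b := fun h => by
    rw [h] at hab
    exact lt_irrefl _ hab
  have hb : Function.Bijective (Sum.elim (fun _ : Unit => a) (fun _ : Unit => b)) := by
    constructor
    · rintro (x | x) (y | y) h
      · rfl
      · exact absurd h hne
      · exact absurd h.symm hne
      · rfl
    · intro x
      by_cases hx : x = a
      · exact ⟨Sum.inl (), hx.symm⟩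
      · refine ⟨Sum.inr (), ?_⟩
        cases a <;> cases b <;> cases x <;> simp_all
  exact mul_fam2 R hR hτ (Equiv.ofBijective _ hb) hab

theorem mul_bool_irr (R : Bool → GLRep F) (hR : ∀ a, IsSm (R a).π) {τ : Bool → ℤ}
    (hτ : Function.Injective τ) (a b : Bool) (hab : τ a < τ b) :
    ((R a).mul (R b)).Irred ↔ Irr (IRp (sc R) (fun _ => ()) τ hτ (tenRep R)) :=
  (isom_irr (mul_bool R hR hτ a b hab)).trans (indG_irr _ _)

/-- the order of `Fin n` -/
def oF (n : ℕ) : Fin n → ℤ := fun i => (i : ℕ)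

theorem oF_inj (n : ℕ) : Function.Injective (oF n) := fun _ _ h => Fin.ext (by
  unfold oF at h
  exact_mod_cast h)

/-- `0` and the successors -/
def eF (n : ℕ) : Unit ⊕ Fin n ≃ Fin (n + 1) where
  toFun := Sum.elim (fun _ => 0) Fin.succ
  invFun := Fin.cases (Sum.inl ()) Sum.inr
  left_inv := by
    rintro (x | x) <;> rfl
  right_inv := by
    intro x
    refine Fin.cases rfl (fun i => rfl) x

/-- the product of a list of representations -/
theorem prodL_indG (n : ℕ) (R : Fin (n + 1) → GLRep F) (hR : ∀ a, IsSm (R a).π) :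
    (Q.GLRep.prodL (List.ofFn R)).Isom (indG (sc R) (oF (n + 1)) (oF_inj (n + 1)) (tenRep R)) := by
  induction n with
  | zero =>
    have h1 : List.ofFn R = [R 0] := by
      rw [List.ofFn_succ]
      rfl
    rw [h1]
    let _ : Unique (Fin (0 + 1)) := inferInstanceAs (Unique (Fin 1))
    exact indG_one R (hR _) _ _
  | succ n ih =>
    have h0 : Function.Injective (fun _ : Unit => (0 : ℤ)) := fun _ _ _ => rfl
    have h1 := ih (fun i => R i.succ) (fun a => hR _)
    have h2 := mul_family R (eF (n + 1)) h0 (oF_inj (n + 1)) (oF_inj (n + 2)) ⟨fun _ _ => by simp,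
      fun x y => by
        show ((x : ℕ) : ℤ) < ((y : ℕ) : ℤ) ↔ (((x.succ : Fin (n + 2)) : ℕ) : ℤ) <
          (((y.succ : Fin (n + 2)) : ℕ) : ℤ)
        rw [Fin.val_succ, Fin.val_succ]
        push_cast
        omega,
      fun _ y => by
        show (((0 : Fin (n + 2)) : ℕ) : ℤ) < (((y.succ : Fin (n + 2)) : ℕ) : ℤ)
        rw [Fin.val_succ, Fin.val_zero]
        push_cast
        omega⟩
    have h3 : Q.GLRep.prodL (List.ofFn R) =
        (R 0).mul (Q.GLRep.prodL (List.ofFn fun i => R i.succ)) := by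
      rw [List.ofFn_succ, List.ofFn_succ]
      rfl
    rw [h3]
    refine Q.GLRep.Isom.trans (Q.GLRep.Isom.mul ?_ h1) h2
    exact indG_one (fun _ : Unit => R 0) (hR _) _ h0

end

end Pool.Agent.Lib.MP_ca1492_al.P
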