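import Mathlib
import Pool.Agent.Lib.MP_ca1492_al.Cmp.Split
import Pool.Agent.Lib.MP_ca1492_al.PA.Deriv

/-!
# MP_ca1492_al, comparison, module PairD: the functionals of pairs of strands, definitions

`RJ : J → GLRep F` the letters, `l : ι → J`, data of the family `RJ (l a)`. For `a ≠ b` and `β : ι → ι'` whose
classes are `{a, b}` and singletons (`PairB β a b`, for example `mrg a b`, `mrg b a`), `τ a < τ b`, `τ' b < τ' a`:

`PS RJ e q l a b β τ τ'`: there are `t ∈ X1 β τ τ'` and `t' ∈ X1 β τ' τ` with leads `e (l a) (l b) (y_a - y_b)`,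
`e (l b) (l a) (y_b - y_a)`, `t' ∘ t = q (l a) (l b) (y_a - y_b)`, and for equal letters `t f = S f` on the kernel of
`y_a - y_b`, where `(S f) = (Aw ⊗ ren)(f (ẇ⁻¹))`, `w = swap a b`.

* `bperm_lev`: entries of a permutation matrix: `permG F w i j ≠ 0` only if `i = w j` (see `permG_mem_lev'`).
* `PS_conj`: `SIso.mem_X1`, `SIso.isLead`, `CA1492.PA.rename_subst`.
-/

set_option autoImplicit false

namespace Pool.Agent.Lib.MP_ca1492_al.P

open Topology Matrix ValuativeRel TensorProduct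
open Pool.Agent.Lib.MP_ca1492_al.Q (GLRep)

noncomputable section

variable {F : Type} [Field F] [ValuativeRel F] [TopologicalSpace F]
  [IsNonarchimedeanLocalField F]

/-- the classes of `β` are `{a, b}` and singletons -/
def PairB {ι ι' : Type} (β : ι → ι') (a b : ι) : Prop :=
  ∀ x y, β x = β y ↔ x = y ∨ (x = a ∧ y = b) ∨ (x = b ∧ y = a)

theorem pairB_mrg {ι : Type} [DecidableEq ι] (a b : ι) :
    PairB (fun x => if x = b then a else x) a b := by
  intro x y
  dsimp only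
  split_ifs with h1 h2 h2
  · subst h1
    simp [h2]
  · subst h1
    constructor
    · rintro rfl
      exact Or.inr (Or.inr ⟨rfl, rfl⟩)
    · rintro (h | ⟨h, h'⟩ | ⟨h, h'⟩)
      · exact absurd h.symm h2
      · exact absurd h' h2
      · exact h'.symm
  · subst h2
    constructor
    · rintro rfl
      exact Or.inr (Or.inl ⟨rfl, rfl⟩)
    · rintro (h | ⟨h, h'⟩ | ⟨h, h'⟩)
      · exact absurd h h1
      · exact h
      · exact absurd h h1
  · constructor
    · rintro rfl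
      exact Or.inl rfl
    · rintro (h | ⟨h, h'⟩ | ⟨h, h'⟩)
      · exact h
      · exact absurd h' h2
      · exact absurd h h1

theorem PairB.symm {ι ι' : Type} {β : ι → ι'} {a b : ι} (h : PairB β a b) : PairB β b a := by
  intro x y
  rw [h x y]
  tauto

variable {J : Type} (RJ : J → GLRep F) {ι ι' : Type} [Fintype ι] [DecidableEq ι] (l : ι → J)

theorem bperm_lev (w : Equiv.Perm ι) (hw : ∀ a, l (w a) = l a) (β : ι → ι')
    (hβ : ∀ x, β (w x) = β x) :
    (permG F (bperm RJ l w hw))⁻¹ ∈ lev F (fun i => β (sc (fun a => RJ (l a)) i)) :=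
  (lev F (fun i => β (sc (fun a => RJ (l a)) i))).inv_mem
    (permG_mem_lev' _ _ fun _ => hβ _)

/-- the functional `f ↦ (Aw ⊗ ren w)(f (ẇ⁻¹))` -/
def SW (w : Equiv.Perm ι) (hw : ∀ a, l (w a) = l a) (β : ι → ι') (hβ : ∀ x, β (w x) = β x)
    (τ : ι → ℤ) (hτ : Function.Injective τ) :
    ISp (sc fun a => RJ (l a)) β τ hτ (hat (sc fun a => RJ (l a)) (tenRep fun a => RJ (l a)))
      →ₗ[ℂ] (⨂[ℂ] a, (RJ (l a)).V) ⊗[ℂ] MvPolynomial ι ℂ where
  toFun f := (siW RJ l w hw).B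
    (f.1 ⟨(permG F (bperm RJ l w hw))⁻¹, bperm_lev RJ l w hw β hβ⟩)
  map_add' f f' := map_add (siW RJ l w hw).B (f.1 _) (f'.1 _)
  map_smul' z f := map_smul (siW RJ l w hw).B z (f.1 _)

theorem swap_letter {a b : ι} (h : l a = l b) (x : ι) : l (Equiv.swap a b x) = l x := by
  rw [Equiv.swap_apply_def]
  split_ifs with h1 h2
  · rw [h1, h]
  · rw [h2, h]
  · rfl

theorem PairB.swap {β : ι → ι'} {a b : ι} (h : PairB β a b) (x : ι) :
    β (Equiv.swap a b x) = β x := by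
  have hab : β a = β b := (h a b).2 (Or.inr (Or.inl ⟨rfl, rfl⟩))
  rw [Equiv.swap_apply_def]
  split_ifs with h1 h2
  · rw [h1, hab]
  · rw [h2, hab]
  · rfl

/-- a system of functionals for the pair `a`, `b` -/
def PS (e q : J → J → PowerSeries ℂ) (a b : ι) (β : ι → ι') (hβ : PairB β a b)
    (τ τ' : ι → ℤ) (hτ : Function.Injective τ) (hτ' : Function.Injective τ') : Prop :=
  ∃ t ∈ X1 (sc fun a => RJ (l a)) β τ hτ τ' (tenRep fun a => RJ (l a)),
  ∃ t' ∈ X1 (sc fun a => RJ (l a)) β τ' hτ' τ (tenRep fun a => RJ (l a)),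
    IsLead (sc fun a => RJ (l a)) β τ hτ τ' (tenRep fun a => RJ (l a)) t
      ((e (l a) (l b)).subst (MvPowerSeries.X a - MvPowerSeries.X b : MvPowerSeries ι ℂ)) ∧
    IsLead (sc fun a => RJ (l a)) β τ' hτ' τ (tenRep fun a => RJ (l a)) t'
      ((e (l b) (l a)).subst (MvPowerSeries.X b - MvPowerSeries.X a : MvPowerSeries ι ℂ)) ∧
    (∀ f f', (∀ g, f'.1 g = t (IRp (sc fun a => RJ (l a)) β τ hτ
        (hat (sc fun a => RJ (l a)) (tenRep fun a => RJ (l a))) g f)) →
      t' f' = opE _ ((q (l a) (l b)).subst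
        (MvPowerSeries.X a - MvPowerSeries.X b : MvPowerSeries ι ℂ)) (f.1 1)) ∧
    (∀ h : l a = l b, ∀ f, opI (sc fun a => RJ (l a)) β τ hτ (tenRep fun a => RJ (l a))
        (MvPowerSeries.X a - MvPowerSeries.X b) f = 0 →
      t f = SW RJ l (Equiv.swap a b) (swap_letter l h) β hβ.swap τ hτ f)

/-- order on two strands: `false` before `true` -/
def oP : Bool → ℤ := fun x => cond x 1 0

/-- order on two strands: `true` before `false` -/
def oM : Bool → ℤ := fun x => cond x 0 1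

theorem oP_inj : Function.Injective oP := by decide

theorem oM_inj : Function.Injective oM := by decide

theorem pairB_bool : PairB (fun _ : Bool => ()) false true := by
  intro x y
  cases x <;> cases y <;> simp

/-- the functionals commute with letter preserving permutations: the transported functional is in `X1` and has the
expected lead (so it is the functional of the pair `w a`, `w b`, by `X1_ext`) -/
theorem PS_conj (e : PowerSeries ℂ) (a b : ι) (w : Equiv.Perm ι)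
    (hw : ∀ a, l (w a) = l a) {ι'' : Type} (β : ι → ι') (β' : ι → ι'')
    (hβ : ∀ x y, β' ((siW RJ l w hw).ε x) = β' ((siW RJ l w hw).ε y) ↔ β x = β y)
    {τ₁ τ₂ τ₁' τ₂' : ι → ℤ} (hτ₁ : Function.Injective τ₁)
    (hτ₁' : Function.Injective τ₁')
    (h₁ : ∀ x y, β x = β y → (τ₁ x < τ₁ y ↔ τ₁' ((siW RJ l w hw).ε x) < τ₁' ((siW RJ l w hw).ε y)))
    (h₂ : ∀ x y, β x = β y → (τ₂ x < τ₂ y ↔ τ₂' ((siW RJ l w hw).ε x) < τ₂' ((siW RJ l w hw).ε y)))
    (t : ISp (sc fun a => RJ (l a)) β τ₁ hτ₁ (hat (sc fun a => RJ (l a)) (tenRep fun a => RJ (l a)))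
      →ₗ[ℂ] (⨂[ℂ] a, (RJ (l a)).V) ⊗[ℂ] MvPolynomial ι ℂ)
    (ht : t ∈ X1 (sc fun a => RJ (l a)) β τ₁ hτ₁ τ₂ (tenRep fun a => RJ (l a)))
    (hl : IsLead (sc fun a => RJ (l a)) β τ₁ hτ₁ τ₂ (tenRep fun a => RJ (l a)) t
      (e.subst (MvPowerSeries.X a - MvPowerSeries.X b : MvPowerSeries ι ℂ))) :
    (siW RJ l w hw).Fn hβ hτ₁ hτ₁' h₁ t ∈
      X1 (sc fun a => RJ (l a)) β' τ₁' hτ₁' τ₂' (tenRep fun a => RJ (l a)) ∧
    IsLead (sc fun a => RJ (l a)) β' τ₁' hτ₁' τ₂' (tenRep fun a => RJ (l a))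
      ((siW RJ l w hw).Fn hβ hτ₁ hτ₁' h₁ t)
      (e.subst (MvPowerSeries.X (w a) - MvPowerSeries.X (w b) : MvPowerSeries ι ℂ)) := by
  refine ⟨(siW RJ l w hw).mem_X1 hβ hτ₁ hτ₁' h₁ h₂ t ht, ?_⟩
  have h3 := (siW RJ l w hw).isLead hβ hτ₁ hτ₁' h₁ h₂ t _ hl
  have h4 : MvPowerSeries.rename (siW RJ l w hw).ε
      (e.subst (MvPowerSeries.X a - MvPowerSeries.X b : MvPowerSeries ι ℂ)) =
      (e.subst (MvPowerSeries.X (w a) - MvPowerSeries.X (w b) : MvPowerSeries ι ℂ)) :=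
    CA1492.PA.rename_subst (w : ι ≃ ι).toEmbedding e
  rw [h4] at h3
  exact h3

end

end Pool.Agent.Lib.MP_ca1492_al.P
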