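import Mathlib
import Pool.Agent.Lib.MP_ca1492_al.Cmp.SumH

/-!
# MP_ca1492_al, comparison, module SumK: test functions and leading coefficients of sums

* `ev1_X1`: `ev1` commutes with power series pointwise; the two conditions of `FS` are the conditions of
  `ISp` at `g = 1` (`uni` and `dh` for `τ'` and `τ` agree: `uni_congr`, `ex_congr`).
* `ev1_lead`: `npair c β τ τ' = 0` under the hypothesis, `Cr = 1`, `opE_one`.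
* `npair_sum`: the pairs `(i, j)` with `i`, `j` in different summands are not counted.
* `KS_sum`: a test function `f` of level `r` for the sum is a sum of `sumH (f₁ ⊗ f₂)` with test functions
  `f₁`, `f₂` of level `r`: `f 1` is fixed by `M ∩ K_r` (`KS_fix`), so by `tensor_fix` (ISProd; the operators
  `hat ρ₁ m₁`, `m₁ ∈ lev c₁ ∩ K_r` and `hat ρ₂ m₂`) `hE⁻¹ (f 1) = Σ x_j ⊗ y_j` with `x_j`, `y_j` fixed;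
  `tst_exists` gives `f₁j`, `f₂j`; the function `sumH (f₁j ⊗ f₂j)` satisfies `KS` (block diagonal elements
  of `Kc r` have blocks in `Kc r` and conversely); conclude by `KS_ext`.
-/

set_option autoImplicit false

namespace Pool.Agent.Lib.MP_ca1492_al.P

open Topology Matrix ValuativeRel TensorProduct

noncomputable section

variable {F : Type} [Field F] [ValuativeRel F] [TopologicalSpace F]
  [IsNonarchimedeanLocalField F]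

section

variable {κ : Type} [Fintype κ] [DecidableEq κ] {ι ι' : Type} [Fintype ι] [DecidableEq ι]
variable {V : Type} [AddCommGroup V] [Module ℂ V]

theorem ev1_X1 (c : κ → ι) (β : ι → ι') (τ τ' : ι → ℤ) (hτ : Function.Injective τ)
    (hτ' : Function.Injective τ')
    (h : ∀ x y, β x = β y → (τ x < τ y ↔ τ' x < τ' y)) (ρ : Representation ℂ (lev F c) V) :
    ev1 c β τ hτ (hat c ρ) ∈ X1 c β τ hτ τ' ρ := by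
  have h1 : ∀ f : ISp c β τ hτ (hat c ρ), _ := fun f => ((mem_ISp c β τ hτ (hat c ρ) f.1).1 f.2).1
  refine ⟨⟨fun n hn f => ?_, fun m hm hm' f => ?_⟩, fun y f => rfl⟩
  · show f.1 (1 * n) = f.1 1
    have hn' : n.1 ∈ uni F (fun i => β (c i)) (fun i => τ (c i)) := by
      rw [uni_congr c β τ τ' hτ hτ' h]
      exact hn
    have h2 := h1 f 1 (lev F c).one_mem n.1 hn' 1
    have h3 : (⟨1, (ordD (F := F) c β τ hτ).hM (lev F c).one_mem⟩ :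
        lev F (fun i => β (c i))) * ⟨n.1, (ordD (F := F) c β τ hτ).hN hn'⟩ * 1 = 1 * n := by
      apply Subtype.ext
      simp
    rw [h3] at h2
    rw [h2]
    have h4 : (⟨1, (lev F c).one_mem⟩ : lev F c) = 1 := rfl
    rw [h4, map_one, map_one, Units.val_one, one_smul, Module.End.one_apply]
  · show f.1 (1 * ⟨m, hm'⟩) = (dh c β τ' ⟨m, hm⟩ : ℂ) • hat c ρ ⟨m, hm⟩ (f.1 1)
    have h2 := h1 f m hm 1 (uni F (fun i => β (c i)) (fun i => τ (c i))).one_mem 1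
    have h3 : (⟨m, (ordD (F := F) c β τ hτ).hM hm⟩ : lev F (fun i => β (c i))) *
        ⟨1, (ordD (F := F) c β τ hτ).hN
          (uni F (fun i => β (c i)) (fun i => τ (c i))).one_mem⟩ * 1 = 1 * ⟨m, hm'⟩ := by
      apply Subtype.ext
      simp
    rw [h3] at h2
    have h4 : dh c β τ ⟨m, hm⟩ = dh c β τ' ⟨m, hm⟩ := by
      rw [dh_apply, dh_apply, ex_congr c β τ τ' h m]
    rw [h2, h4]

theorem ev1_lead (c : κ → ι) (β : ι → ι') (τ τ' : ι → ℤ) (hτ : Function.Injective τ)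
    (h : ∀ x y, β x = β y → (τ x < τ y ↔ τ' x < τ' y)) (ρ : Representation ℂ (lev F c) V) :
    IsLead c β τ hτ τ' ρ (ev1 c β τ hτ (hat c ρ)) 1 := by
  refine ⟨0, fun r _ f _ => ?_⟩
  have h1 : npair c β τ τ' = 0 := by
    classical
    unfold npair
    rw [Finset.card_eq_zero]
    refine Finset.filter_eq_empty_iff.2 ?_
    rintro p - ⟨h2, h3, h4⟩
    exact lt_asymm ((h _ _ h2).2 h3) h4
  unfold Cr
  rw [h1, mul_zero, pow_zero, inv_one, one_smul, opE_one]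
  rfl

end

variable {κ₁ κ₂ : Type} [Fintype κ₁] [DecidableEq κ₁] [Fintype κ₂] [DecidableEq κ₂]
variable {ι₁ ι₂ ι₁' ι₂' : Type} [Fintype ι₁] [DecidableEq ι₁] [Fintype ι₂] [DecidableEq ι₂]
variable {c₁ : κ₁ → ι₁} {c₂ : κ₂ → ι₂} {β₁ : ι₁ → ι₁'} {β₂ : ι₂ → ι₂'}
variable {V₁ V₂ : Type} [AddCommGroup V₁] [Module ℂ V₁] [AddCommGroup V₂] [Module ℂ V₂]

variable {τ₁ : ι₁ → ℤ} (hτ₁ : Function.Injective τ₁) {τ₂ : ι₂ → ℤ} (hτ₂ : Function.Injective τ₂)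
  {τ : ι₁ ⊕ ι₂ → ℤ} (hτ : Function.Injective τ) (h : SOrd β₁ β₂ τ₁ τ₂ τ)
  {τ₁' : ι₁ → ℤ} (hτ₁' : Function.Injective τ₁') {τ₂' : ι₂ → ℤ}
  (hτ₂' : Function.Injective τ₂') {τ' : ι₁ ⊕ ι₂ → ℤ} (hτ' : Function.Injective τ')
  (h' : SOrd β₁ β₂ τ₁' τ₂' τ')
  (ρ₁ : Representation ℂ (lev F c₁) V₁) (ρ₂ : Representation ℂ (lev F c₂) V₂)

include h h' in
theorem npair_sum : npair (Sum.map c₁ c₂) (Sum.map β₁ β₂) τ τ' =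
    npair c₁ β₁ τ₁ τ₁' + npair c₂ β₂ τ₂ τ₂' := by
  classical
  unfold npair
  rw [Finset.card_filter, Finset.card_filter, Finset.card_filter, Fintype.sum_prod_type,
    Fintype.sum_prod_type, Fintype.sum_prod_type, Fintype.sum_sum_type]
  have e1 : ∀ i : κ₁, (∑ j : κ₁ ⊕ κ₂, if
      (Sum.map β₁ β₂ (Sum.map c₁ c₂ (Sum.inl i)) = Sum.map β₁ β₂ (Sum.map c₁ c₂ j) ∧
        τ' (Sum.map c₁ c₂ (Sum.inl i)) < τ' (Sum.map c₁ c₂ j) ∧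
        τ (Sum.map c₁ c₂ j) < τ (Sum.map c₁ c₂ (Sum.inl i))) then 1 else 0) =
      ∑ j : κ₁, if (β₁ (c₁ i) = β₁ (c₁ j) ∧ τ₁' (c₁ i) < τ₁' (c₁ j) ∧ τ₁ (c₁ j) < τ₁ (c₁ i))
        then 1 else 0 := by
    intro i
    rw [Fintype.sum_sum_type]
    have h0 : (∑ j : κ₂, if
      (Sum.map β₁ β₂ (Sum.map c₁ c₂ (Sum.inl i)) = Sum.map β₁ β₂ (Sum.map c₁ c₂ (Sum.inr j)) ∧
        τ' (Sum.map c₁ c₂ (Sum.inl i)) < τ' (Sum.map c₁ c₂ (Sum.inr j)) ∧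
        τ (Sum.map c₁ c₂ (Sum.inr j)) < τ (Sum.map c₁ c₂ (Sum.inl i))) then 1 else 0) = 0 := by
      refine Finset.sum_eq_zero fun j _ => if_neg ?_
      rintro ⟨h1, -⟩
      exact absurd h1 (by simp)
    rw [h0, add_zero]
    refine Finset.sum_congr rfl fun j _ => if_congr ?_ rfl rfl
    constructor
    · rintro ⟨h1, h2, h3⟩
      have h4 : β₁ (c₁ i) = β₁ (c₁ j) := Sum.inl_injective h1
      exact ⟨h4, (h'.1 _ _ h4).2 h2, (h.1 _ _ h4.symm).2 h3⟩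
    · rintro ⟨h4, h2, h3⟩
      exact ⟨congrArg Sum.inl h4, (h'.1 _ _ h4).1 h2, (h.1 _ _ h4.symm).1 h3⟩
  have e2 : ∀ i : κ₂, (∑ j : κ₁ ⊕ κ₂, if
      (Sum.map β₁ β₂ (Sum.map c₁ c₂ (Sum.inr i)) = Sum.map β₁ β₂ (Sum.map c₁ c₂ j) ∧
        τ' (Sum.map c₁ c₂ (Sum.inr i)) < τ' (Sum.map c₁ c₂ j) ∧
        τ (Sum.map c₁ c₂ j) < τ (Sum.map c₁ c₂ (Sum.inr i))) then 1 else 0) =
      ∑ j : κ₂, if (β₂ (c₂ i) = β₂ (c₂ j) ∧ τ₂' (c₂ i) < τ₂' (c₂ j) ∧ τ₂ (c₂ j) < τ₂ (c₂ i))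
        then 1 else 0 := by
    intro i
    rw [Fintype.sum_sum_type]
    have h0 : (∑ j : κ₁, if
      (Sum.map β₁ β₂ (Sum.map c₁ c₂ (Sum.inr i)) = Sum.map β₁ β₂ (Sum.map c₁ c₂ (Sum.inl j)) ∧
        τ' (Sum.map c₁ c₂ (Sum.inr i)) < τ' (Sum.map c₁ c₂ (Sum.inl j)) ∧
        τ (Sum.map c₁ c₂ (Sum.inl j)) < τ (Sum.map c₁ c₂ (Sum.inr i))) then 1 else 0) = 0 := by
      refine Finset.sum_eq_zero fun j _ => if_neg ?_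
      rintro ⟨h1, -⟩
      exact absurd h1 (by simp)
    rw [h0, zero_add]
    refine Finset.sum_congr rfl fun j _ => if_congr ?_ rfl rfl
    constructor
    · rintro ⟨h1, h2, h3⟩
      have h4 : β₂ (c₂ i) = β₂ (c₂ j) := Sum.inr_injective h1
      exact ⟨h4, (h'.2 _ _ h4).2 h2, (h.2 _ _ h4.symm).2 h3⟩
    · rintro ⟨h4, h2, h3⟩
      exact ⟨congrArg Sum.inr h4, (h'.2 _ _ h4).1 h2, (h.2 _ _ h4.symm).1 h3⟩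
  congr 1
  · refine Finset.sum_congr rfl fun i _ => ?_
    convert e1 i
  · refine Finset.sum_congr rfl fun i _ => ?_
    convert e2 i

omit [Fintype ι₁] [DecidableEq ι₁] [Fintype ι₂] [DecidableEq ι₂] in
theorem SumK_lsum_Kc (g₁ : lev F c₁) (g₂ : lev F c₂) (r : ℕ) (h₁ : g₁.1 ∈ Kc F κ₁ r)
    (h₂ : g₂.1 ∈ Kc F κ₂ r) : (lsum c₁ c₂ g₁ g₂).1 ∈ Kc F (κ₁ ⊕ κ₂) r := by
  have key : ∀ (A : Matrix κ₁ κ₁ F) (B : Matrix κ₂ κ₂ F), (∀ i j, (A - 1) i j ∈ lat F r) →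
      (∀ i j, (B - 1) i j ∈ lat F r) → ∀ i j, (Matrix.fromBlocks A 0 0 B - 1) i j ∈ lat F r := by
    intro A B hA hB i j
    have h0 : Matrix.fromBlocks A 0 0 B - 1 = Matrix.fromBlocks (A - 1) 0 0 (B - 1) := by
      ext i j
      rcases i with i | i <;> rcases j with j | j <;>
        simp [Matrix.one_apply, Matrix.sub_apply]
    rw [h0]
    rcases i with i | i <;> rcases j with j | j
    · exact hA i j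
    · exact (lat F r).zero_mem
    · exact (lat F r).zero_mem
    · exact hB i j
  exact ⟨key _ _ h₁.1 h₂.1, key _ _ h₁.2 h₂.2⟩

omit [Fintype ι₁] [DecidableEq ι₁] [Fintype ι₂] [DecidableEq ι₂] in
theorem SumK_pr₁_Kc (g : lev F (Sum.map c₁ c₂)) (r : ℕ) (h : g.1 ∈ Kc F (κ₁ ⊕ κ₂) r) :
    (pr₁ F c₁ c₂ g).1 ∈ Kc F κ₁ r := by
  have key : ∀ (A : Matrix (κ₁ ⊕ κ₂) (κ₁ ⊕ κ₂) F), (∀ i j, (A - 1) i j ∈ lat F r) →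
      ∀ i j, (A.toBlocks₁₁ - 1) i j ∈ lat F r := by
    intro A hA i j
    have h1 := hA (Sum.inl i) (Sum.inl j)
    have h2 : (A.toBlocks₁₁ - 1) i j = (A - 1) (Sum.inl i) (Sum.inl j) := by
      rw [Matrix.sub_apply, Matrix.sub_apply, Matrix.one_apply, Matrix.one_apply]
      simp [Matrix.toBlocks₁₁]
    rw [h2]
    exact h1
  exact ⟨key _ h.1, key _ h.2⟩

omit [Fintype ι₁] [DecidableEq ι₁] [Fintype ι₂] [DecidableEq ι₂] in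
theorem SumK_pr₂_Kc (g : lev F (Sum.map c₁ c₂)) (r : ℕ) (h : g.1 ∈ Kc F (κ₁ ⊕ κ₂) r) :
    (pr₂ F c₁ c₂ g).1 ∈ Kc F κ₂ r := by
  have key : ∀ (A : Matrix (κ₁ ⊕ κ₂) (κ₁ ⊕ κ₂) F), (∀ i j, (A - 1) i j ∈ lat F r) →
      ∀ i j, (A.toBlocks₂₂ - 1) i j ∈ lat F r := by
    intro A hA i j
    have h1 := hA (Sum.inr i) (Sum.inr j)
    have h2 : (A.toBlocks₂₂ - 1) i j = (A - 1) (Sum.inr i) (Sum.inr j) := by
      rw [Matrix.sub_apply, Matrix.sub_apply, Matrix.one_apply, Matrix.one_apply]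
      simp [Matrix.toBlocks₂₂]
    rw [h2]
    exact h1
  exact ⟨key _ h.1, key _ h.2⟩

theorem SumK_KS (r : ℕ) (f₁ : ISp c₁ β₁ τ₁ hτ₁ (hat c₁ ρ₁)) (f₂ : ISp c₂ β₂ τ₂ hτ₂ (hat c₂ ρ₂))
    (h₁ : KS c₁ β₁ τ₁ r f₁.1) (h₂ : KS c₂ β₂ τ₂ r f₂.1) :
    KS (Sum.map c₁ c₂) (Sum.map β₁ β₂) τ r
      (sumH hτ₁ hτ₂ hτ h ρ₁ ρ₂ (f₁ ⊗ₜ[ℂ] f₂)).1 := by
  refine ⟨fun g k hk => ?_, fun g hg => ?_⟩
  · rw [sumH_tmul, sumH_tmul, map_mul, map_mul,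
      h₁.1 (p₁ F c₁ c₂ β₁ β₂ g) (p₁ F c₁ c₂ β₁ β₂ k) (SumK_pr₁_Kc _ r hk),
      h₂.1 (p₂ F c₁ c₂ β₁ β₂ g) (p₂ F c₁ c₂ β₁ β₂ k) (SumK_pr₂_Kc _ r hk)]
  · rw [sumH_tmul] at hg
    have hg₁ : f₁.1 (p₁ F c₁ c₂ β₁ β₂ g) ≠ 0 := by
      intro h0
      apply hg
      rw [h0, TensorProduct.zero_tmul, map_zero]
    have hg₂ : f₂.1 (p₂ F c₁ c₂ β₁ β₂ g) ≠ 0 := by
      intro h0
      apply hg
      rw [h0, TensorProduct.tmul_zero, map_zero]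
    obtain ⟨q₁, hq₁, k₁, hk₁, e₁⟩ := h₁.2 _ hg₁
    obtain ⟨q₂, hq₂, k₂, hk₂, e₂⟩ := h₂.2 _ hg₂
    have hk₁' : k₁ ∈ lev F (fun i => β₁ (c₁ i)) := by
      have h3 : k₁ = q₁⁻¹ * (p₁ F c₁ c₂ β₁ β₂ g).1 := by rw [e₁]; group
      rw [h3]
      exact (lev F _).mul_mem ((lev F _).inv_mem hq₁.1) (p₁ F c₁ c₂ β₁ β₂ g).2
    have hk₂' : k₂ ∈ lev F (fun i => β₂ (c₂ i)) := by
      have h3 : k₂ = q₂⁻¹ * (p₂ F c₁ c₂ β₁ β₂ g).1 := by rw [e₂]; group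
      rw [h3]
      exact (lev F _).mul_mem ((lev F _).inv_mem hq₂.1) (p₂ F c₁ c₂ β₁ β₂ g).2
    refine ⟨(jS c₁ c₂ β₁ β₂ ⟨q₁, hq₁.1⟩ ⟨q₂, hq₂.1⟩).1,
      ⟨(jS c₁ c₂ β₁ β₂ ⟨q₁, hq₁.1⟩ ⟨q₂, hq₂.1⟩).2, ?_⟩,
      (jS c₁ c₂ β₁ β₂ ⟨k₁, hk₁'⟩ ⟨k₂, hk₂'⟩).1, SumK_lsum_Kc _ _ r hk₁ hk₂, ?_⟩
    · rintro (i | i) (j | j) hij
      · show (q₁ : Matrix κ₁ κ₁ F) i j = 0
        by_cases hβ : β₁ (c₁ i) = β₁ (c₁ j)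
        · exact hq₁.2 i j ((h.1 _ _ hβ.symm).2 hij)
        · exact hq₁.1 i j hβ
      · rfl
      · rfl
      · show (q₂ : Matrix κ₂ κ₂ F) i j = 0
        by_cases hβ : β₂ (c₂ i) = β₂ (c₂ j)
        · exact hq₂.2 i j ((h.2 _ _ hβ.symm).2 hij)
        · exact hq₂.1 i j hβ
    · have h3 : jS c₁ c₂ β₁ β₂ ⟨q₁, hq₁.1⟩ ⟨q₂, hq₂.1⟩ * jS c₁ c₂ β₁ β₂ ⟨k₁, hk₁'⟩ ⟨k₂, hk₂'⟩ =
          g := by
        rw [← jS_mul]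
        have h4 : (⟨q₁, hq₁.1⟩ : lev F (fun i => β₁ (c₁ i))) * ⟨k₁, hk₁'⟩ =
            p₁ F c₁ c₂ β₁ β₂ g := Subtype.ext e₁.symm
        have h5 : (⟨q₂, hq₂.1⟩ : lev F (fun i => β₂ (c₂ i))) * ⟨k₂, hk₂'⟩ =
            p₂ F c₁ c₂ β₁ β₂ g := Subtype.ext e₂.symm
        rw [h4, h5, jS_p]
      exact (congrArg Subtype.val h3).symm

theorem KS_sum (r : ℕ)
    (f : ISp (Sum.map c₁ c₂) (Sum.map β₁ β₂) τ hτ (hat (Sum.map c₁ c₂) (ext ρ₁ ρ₂)))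
    (hf : KS (Sum.map c₁ c₂) (Sum.map β₁ β₂) τ r f.1) :
    ∃ (n : ℕ) (x : Fin n → ISp c₁ β₁ τ₁ hτ₁ (hat c₁ ρ₁))
      (y : Fin n → ISp c₂ β₂ τ₂ hτ₂ (hat c₂ ρ₂)), (∀ j, KS c₁ β₁ τ₁ r (x j).1) ∧
      (∀ j, KS c₂ β₂ τ₂ r (y j).1) ∧
      f = ∑ j, sumH hτ₁ hτ₂ hτ h ρ₁ ρ₂ (x j ⊗ₜ[ℂ] y j) := by
  -- the value at `1` as a tensor
  have hfix : ∀ (m : lev F (Sum.map c₁ c₂)), m.1 ∈ Kc F (κ₁ ⊕ κ₂) r →
      ext (hat c₁ ρ₁) (hat c₂ ρ₂) m ((hE V₁ V₂ ι₁ ι₂).symm (f.1 1)) =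
        (hE V₁ V₂ ι₁ ι₂).symm (f.1 1) := by
    intro m hm
    apply (hE V₁ V₂ ι₁ ι₂).injective
    have h1 := hE_equi ρ₁ ρ₂ m ((hE V₁ V₂ ι₁ ι₂).symm (f.1 1))
    have h2 : hE V₁ V₂ ι₁ ι₂ (ext (hat c₁ ρ₁) (hat c₂ ρ₂) m
        ((hE V₁ V₂ ι₁ ι₂).symm (f.1 1))) = hat (Sum.map c₁ c₂) (ext ρ₁ ρ₂) m
          (hE V₁ V₂ ι₁ ι₂ ((hE V₁ V₂ ι₁ ι₂).symm (f.1 1))) := h1
    rw [h2, LinearEquiv.apply_symm_apply]
    exact KS_fix (Sum.map c₁ c₂) (Sum.map β₁ β₂) τ hτ _ r f hf m.1 m.2 hm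
  obtain ⟨n, x, y, hx, hy, ht⟩ := tensor_fix
    {γ | ∃ (m : GL κ₁ F) (hm : m ∈ lev F c₁), m ∈ Kc F κ₁ r ∧ γ = hat c₁ ρ₁ ⟨m, hm⟩}
    {γ | ∃ (m : GL κ₂ F) (hm : m ∈ lev F c₂), m ∈ Kc F κ₂ r ∧ γ = hat c₂ ρ₂ ⟨m, hm⟩}
    ((hE V₁ V₂ ι₁ ι₂).symm (f.1 1)) (by
      rintro _ ⟨m, hm, hr, rfl⟩
      have h1 := hfix (lsum c₁ c₂ ⟨m, hm⟩ 1) (SumK_lsum_Kc _ _ r hr (Kc F κ₂ r).one_mem)
      have h2 : ext (hat c₁ ρ₁) (hat c₂ ρ₂) (lsum c₁ c₂ ⟨m, hm⟩ 1) =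
          TensorProduct.map (hat c₁ ρ₁ ⟨m, hm⟩) LinearMap.id := by
        show TensorProduct.map (hat c₁ ρ₁ (pr₁ F c₁ c₂ (lsum c₁ c₂ ⟨m, hm⟩ 1)))
          (hat c₂ ρ₂ (pr₂ F c₁ c₂ (lsum c₁ c₂ ⟨m, hm⟩ 1))) = _
        rw [pr₁_lsum, pr₂_lsum, map_one]
        rfl
      rw [h2] at h1
      exact h1) (by
      rintro _ ⟨m, hm, hr, rfl⟩
      have h1 := hfix (lsum c₁ c₂ 1 ⟨m, hm⟩) (SumK_lsum_Kc _ _ r (Kc F κ₁ r).one_mem hr)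
      have h2 : ext (hat c₁ ρ₁) (hat c₂ ρ₂) (lsum c₁ c₂ 1 ⟨m, hm⟩) =
          TensorProduct.map LinearMap.id (hat c₂ ρ₂ ⟨m, hm⟩) := by
        show TensorProduct.map (hat c₁ ρ₁ (pr₁ F c₁ c₂ (lsum c₁ c₂ 1 ⟨m, hm⟩)))
          (hat c₂ ρ₂ (pr₂ F c₁ c₂ (lsum c₁ c₂ 1 ⟨m, hm⟩))) = _
        rw [pr₁_lsum, pr₂_lsum, map_one]
        rfl
      rw [h2] at h1
      exact h1)
  choose f₁ hf₁ hf₁' using fun j => tst_exists c₁ β₁ τ₁ hτ₁ (hat c₁ ρ₁) r (x j)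
    (fun m hm hr => hx j _ ⟨m, hm, hr, rfl⟩)
  choose f₂ hf₂ hf₂' using fun j => tst_exists c₂ β₂ τ₂ hτ₂ (hat c₂ ρ₂) r (y j)
    (fun m hm hr => hy j _ ⟨m, hm, hr, rfl⟩)
  refine ⟨n, f₁, f₂, hf₁, hf₂, ?_⟩
  have hval : ∀ g : lev F (fun i => Sum.map β₁ β₂ (Sum.map c₁ c₂ i)),
      (∑ j, sumH hτ₁ hτ₂ hτ h ρ₁ ρ₂ (f₁ j ⊗ₜ[ℂ] f₂ j)).1 g =
        ∑ j, (sumH hτ₁ hτ₂ hτ h ρ₁ ρ₂ (f₁ j ⊗ₜ[ℂ] f₂ j)).1 g := by
    intro g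
    rw [Submodule.coe_sum, Finset.sum_apply]
  refine KS_ext (Sum.map c₁ c₂) (Sum.map β₁ β₂) τ hτ _ r f _ hf ⟨fun g k hk => ?_,
    fun g hg => ?_⟩ ?_
  · rw [hval, hval]
    exact Finset.sum_congr rfl fun j _ =>
      (SumK_KS hτ₁ hτ₂ hτ h ρ₁ ρ₂ r (f₁ j) (f₂ j) (hf₁ j) (hf₂ j)).1 g k hk
  · rw [hval] at hg
    obtain ⟨j, -, hj⟩ := Finset.exists_ne_zero_of_sum_ne_zero hg
    exact (SumK_KS hτ₁ hτ₂ hτ h ρ₁ ρ₂ r (f₁ j) (f₂ j) (hf₁ j) (hf₂ j)).2 g hj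
  · rw [hval]
    have h1 : ∀ j, (sumH hτ₁ hτ₂ hτ h ρ₁ ρ₂ (f₁ j ⊗ₜ[ℂ] f₂ j)).1 1 =
        hE V₁ V₂ ι₁ ι₂ (x j ⊗ₜ[ℂ] y j) := by
      intro j
      rw [sumH_tmul, map_one, map_one, hf₁' j, hf₂' j]
    rw [Finset.sum_congr rfl fun j _ => h1 j, ← map_sum, ← ht, LinearEquiv.apply_symm_apply]

end

end Pool.Agent.Lib.MP_ca1492_al.P
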