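import Mathlib
import Pool.Agent.Lib.MP_ca1492_al.Cmp.SumK

/-!
# MP_ca1492_al, comparison, module SumX: the tensor product of intertwining functionals

* `bx_FS`: for `n ∈ uni` of the sum, `p₁ n`, `p₂ n` are in the two `uni`s (entries; orders compared inside
  the classes); on `sumH (f₁ ⊗ f₂)` by `sumH_equi` and `bx_tmul`; for `m`: `hE_equi`, `dh_sumI`.
* `bx_X1`: power series: `comm_of_X`; `X (inl x) = rename inl (X x) * rename inr 1`: `sumH_op`, `hE_op`.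
* `bx_lead`: `KS_sum`, `npair_sum`, `hE_op`, value of `sumH (x ⊗ y)` at `1`.
* `bx_comp`: `sumH_equi`, `sumH_tmul`, `bx_tmul`.
-/

set_option autoImplicit false

namespace Pool.Agent.Lib.MP_ca1492_al.P

open Topology Matrix ValuativeRel TensorProduct

noncomputable section

variable {F : Type} [Field F] [ValuativeRel F] [TopologicalSpace F]
  [IsNonarchimedeanLocalField F]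

variable {κ₁ κ₂ : Type} [Fintype κ₁] [DecidableEq κ₁] [Fintype κ₂] [DecidableEq κ₂]
variable {ι₁ ι₂ ι₁' ι₂' : Type} [Fintype ι₁] [DecidableEq ι₁] [Fintype ι₂] [DecidableEq ι₂]
variable {c₁ : κ₁ → ι₁} {c₂ : κ₂ → ι₂} {β₁ : ι₁ → ι₁'} {β₂ : ι₂ → ι₂'}
variable {V₁ V₂ : Type} [AddCommGroup V₁] [Module ℂ V₁] [AddCommGroup V₂] [Module ℂ V₂]

variable {τ₁ : ι₁ → ℤ} (hτ₁ : Function.Injective τ₁) {τ₂ : ι₂ → ℤ} (hτ₂ : Function.Injective τ₂)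
  {τ : ι₁ ⊕ ι₂ → ℤ} (hτ : Function.Injective τ) (h : SOrd β₁ β₂ τ₁ τ₂ τ)
  {τ₁' : ι₁ → ℤ} (hτ₁' : Function.Injective τ₁') {τ₂' : ι₂ → ℤ}
  (hτ₂' : Function.Injective τ₂') {τ' : ι₁ ⊕ ι₂ → ℤ} (hτ' : Function.Injective τ')
  (h' : SOrd β₁ β₂ τ₁' τ₂' τ')
  (ρ₁ : Representation ℂ (lev F c₁) V₁) (ρ₂ : Representation ℂ (lev F c₂) V₂)
  (L₁ : ISp c₁ β₁ τ₁ hτ₁ (hat c₁ ρ₁) →ₗ[ℂ] V₁ ⊗[ℂ] MvPolynomial ι₁ ℂ)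
  (L₂ : ISp c₂ β₂ τ₂ hτ₂ (hat c₂ ρ₂) →ₗ[ℂ] V₂ ⊗[ℂ] MvPolynomial ι₂ ℂ)

theorem SumX_ext {X : Type} [AddCommGroup X] [Module ℂ X]
    (A B : ISp (Sum.map c₁ c₂) (Sum.map β₁ β₂) τ hτ (hat (Sum.map c₁ c₂) (ext ρ₁ ρ₂)) →ₗ[ℂ] X)
    (hAB : ∀ f₁ f₂, A (sumH hτ₁ hτ₂ hτ h ρ₁ ρ₂ (f₁ ⊗ₜ[ℂ] f₂)) =
      B (sumH hτ₁ hτ₂ hτ h ρ₁ ρ₂ (f₁ ⊗ₜ[ℂ] f₂))) : A = B := by
  have h1 : A ∘ₗ (sumH hτ₁ hτ₂ hτ h ρ₁ ρ₂ : _ →ₗ[ℂ] _) =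
      B ∘ₗ (sumH hτ₁ hτ₂ hτ h ρ₁ ρ₂ : _ →ₗ[ℂ] _) :=
    TensorProduct.ext' fun f₁ f₂ => hAB f₁ f₂
  refine LinearMap.ext fun f => ?_
  obtain ⟨t, rfl⟩ := (sumH hτ₁ hτ₂ hτ h ρ₁ ρ₂).surjective f
  exact LinearMap.congr_fun h1 t

theorem SumX_tr (g : lev F (fun i => Sum.map β₁ β₂ (Sum.map c₁ c₂ i)))
    (f₁ : ISp c₁ β₁ τ₁ hτ₁ (hat c₁ ρ₁)) (f₂ : ISp c₂ β₂ τ₂ hτ₂ (hat c₂ ρ₂)) :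
    IRp (Sum.map c₁ c₂) (Sum.map β₁ β₂) τ hτ (hat (Sum.map c₁ c₂) (ext ρ₁ ρ₂)) g
        (sumH hτ₁ hτ₂ hτ h ρ₁ ρ₂ (f₁ ⊗ₜ[ℂ] f₂)) =
      sumH hτ₁ hτ₂ hτ h ρ₁ ρ₂ (IRp c₁ β₁ τ₁ hτ₁ (hat c₁ ρ₁) (p₁ F c₁ c₂ β₁ β₂ g) f₁ ⊗ₜ[ℂ]
        IRp c₂ β₂ τ₂ hτ₂ (hat c₂ ρ₂) (p₂ F c₁ c₂ β₁ β₂ g) f₂) := by
  rw [← sumH_equi, TensorProduct.map_tmul]

theorem SumX_op (y₁ : MvPowerSeries ι₁ ℂ) (y₂ : MvPowerSeries ι₂ ℂ)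
    (f₁ : ISp c₁ β₁ τ₁ hτ₁ (hat c₁ ρ₁)) (f₂ : ISp c₂ β₂ τ₂ hτ₂ (hat c₂ ρ₂)) :
    opI (Sum.map c₁ c₂) (Sum.map β₁ β₂) τ hτ (ext ρ₁ ρ₂)
        (MvPowerSeries.rename Sum.inl y₁ * MvPowerSeries.rename Sum.inr y₂)
        (sumH hτ₁ hτ₂ hτ h ρ₁ ρ₂ (f₁ ⊗ₜ[ℂ] f₂)) =
      sumH hτ₁ hτ₂ hτ h ρ₁ ρ₂ (opI c₁ β₁ τ₁ hτ₁ ρ₁ y₁ f₁ ⊗ₜ[ℂ] opI c₂ β₂ τ₂ hτ₂ ρ₂ y₂ f₂) := by
  rw [← sumH_op, TensorProduct.map_tmul]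

theorem SumX_uni (o₁ : ι₁ → ℤ) (o₂ : ι₂ → ℤ) (o : ι₁ ⊕ ι₂ → ℤ) (ho : SOrd β₁ β₂ o₁ o₂ o)
    (n : lev F (fun i => Sum.map β₁ β₂ (Sum.map c₁ c₂ i)))
    (hn : n.1 ∈ uni F (fun i => Sum.map β₁ β₂ (Sum.map c₁ c₂ i)) (fun i => o (Sum.map c₁ c₂ i))) :
    (p₁ F c₁ c₂ β₁ β₂ n).1 ∈ uni F (fun i => β₁ (c₁ i)) (fun i => o₁ (c₁ i)) ∧
    (p₂ F c₁ c₂ β₁ β₂ n).1 ∈ uni F (fun i => β₂ (c₂ i)) (fun i => o₂ (c₂ i)) := by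
  constructor
  · have e : ∀ i j, ((p₁ F c₁ c₂ β₁ β₂ n).1 : Matrix κ₁ κ₁ F) i j =
        (n.1 : Matrix (κ₁ ⊕ κ₂) (κ₁ ⊕ κ₂) F) (Sum.inl i) (Sum.inl j) := fun _ _ => rfl
    refine ⟨⟨(p₁ F c₁ c₂ β₁ β₂ n).2, fun i j hij => ?_⟩, fun i j hij => ?_⟩
    · by_cases hb : β₁ (c₁ j) = β₁ (c₁ i)
      · rw [e]
        exact hn.1.2 (Sum.inl i) (Sum.inl j) ((ho.1 _ _ hb).1 hij)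
      · exact (p₁ F c₁ c₂ β₁ β₂ n).2 i j (fun h => hb h.symm)
    · have e1 : (1 : Matrix (κ₁ ⊕ κ₂) (κ₁ ⊕ κ₂) F) (Sum.inl i) (Sum.inl j) =
          (1 : Matrix κ₁ κ₁ F) i j := by
        rw [Matrix.one_apply, Matrix.one_apply]
        simp
      by_cases hb : β₁ (c₁ i) = β₁ (c₁ j)
      · rw [e, ← e1]
        have hij' : o₁ (c₁ i) = o₁ (c₁ j) := hij
        have a1 := ho.1 _ _ hb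
        have a2 := ho.1 _ _ hb.symm
        refine hn.2 (Sum.inl i) (Sum.inl j) ?_
        show o (Sum.inl (c₁ i)) = o (Sum.inl (c₁ j))
        omega
      · have h3 := (p₁ F c₁ c₂ β₁ β₂ n).2 i j hb
        refine h3.trans ?_
        rw [Matrix.one_apply_ne]
        rintro rfl
        exact hb rfl
  · have e : ∀ i j, ((p₂ F c₁ c₂ β₁ β₂ n).1 : Matrix κ₂ κ₂ F) i j =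
        (n.1 : Matrix (κ₁ ⊕ κ₂) (κ₁ ⊕ κ₂) F) (Sum.inr i) (Sum.inr j) := fun _ _ => rfl
    refine ⟨⟨(p₂ F c₁ c₂ β₁ β₂ n).2, fun i j hij => ?_⟩, fun i j hij => ?_⟩
    · by_cases hb : β₂ (c₂ j) = β₂ (c₂ i)
      · rw [e]
        exact hn.1.2 (Sum.inr i) (Sum.inr j) ((ho.2 _ _ hb).1 hij)
      · exact (p₂ F c₁ c₂ β₁ β₂ n).2 i j (fun h => hb h.symm)
    · have e1 : (1 : Matrix (κ₁ ⊕ κ₂) (κ₁ ⊕ κ₂) F) (Sum.inr i) (Sum.inr j) =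
          (1 : Matrix κ₂ κ₂ F) i j := by
        rw [Matrix.one_apply, Matrix.one_apply]
        simp
      by_cases hb : β₂ (c₂ i) = β₂ (c₂ j)
      · rw [e, ← e1]
        have hij' : o₂ (c₂ i) = o₂ (c₂ j) := hij
        have a1 := ho.2 _ _ hb
        have a2 := ho.2 _ _ hb.symm
        refine hn.2 (Sum.inr i) (Sum.inr j) ?_
        show o (Sum.inr (c₂ i)) = o (Sum.inr (c₂ j))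
        omega
      · have h3 := (p₂ F c₁ c₂ β₁ β₂ n).2 i j hb
        refine h3.trans ?_
        rw [Matrix.one_apply_ne]
        rintro rfl
        exact hb rfl

include h' in
theorem bx_FS (hL₁ : L₁ ∈ FS c₁ β₁ τ₁ hτ₁ τ₁' (hat c₁ ρ₁) (hat c₁ ρ₁))
    (hL₂ : L₂ ∈ FS c₂ β₂ τ₂ hτ₂ τ₂' (hat c₂ ρ₂) (hat c₂ ρ₂)) :
    bx hτ₁ hτ₂ hτ h ρ₁ ρ₂ L₁ L₂ ∈ FS (Sum.map c₁ c₂) (Sum.map β₁ β₂) τ hτ τ'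
      (hat (Sum.map c₁ c₂) (ext ρ₁ ρ₂)) (hat (Sum.map c₁ c₂) (ext ρ₁ ρ₂)) := by
  refine ⟨fun n hn f => ?_, fun m hm hm' f => ?_⟩
  · obtain ⟨u1, u2⟩ := SumX_uni τ₁' τ₂' τ' h' n hn
    have key : bx hτ₁ hτ₂ hτ h ρ₁ ρ₂ L₁ L₂ ∘ₗ
        IRp (Sum.map c₁ c₂) (Sum.map β₁ β₂) τ hτ (hat (Sum.map c₁ c₂) (ext ρ₁ ρ₂)) n =
        bx hτ₁ hτ₂ hτ h ρ₁ ρ₂ L₁ L₂ := by
      refine SumX_ext hτ₁ hτ₂ hτ h ρ₁ ρ₂ _ _ fun f₁ f₂ => ?_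
      rw [LinearMap.comp_apply, SumX_tr, bx_tmul, bx_tmul, hL₁.1 _ u1, hL₂.1 _ u2]
    exact LinearMap.congr_fun key f
  · have key : bx hτ₁ hτ₂ hτ h ρ₁ ρ₂ L₁ L₂ ∘ₗ
        IRp (Sum.map c₁ c₂) (Sum.map β₁ β₂) τ hτ (hat (Sum.map c₁ c₂) (ext ρ₁ ρ₂)) ⟨m, hm'⟩ =
        ((dh (Sum.map c₁ c₂) (Sum.map β₁ β₂) τ' ⟨m, hm⟩ : ℂ) •
          hat (Sum.map c₁ c₂) (ext ρ₁ ρ₂) ⟨m, hm⟩) ∘ₗ bx hτ₁ hτ₂ hτ h ρ₁ ρ₂ L₁ L₂ := by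
      refine SumX_ext hτ₁ hτ₂ hτ h ρ₁ ρ₂ _ _ fun f₁ f₂ => ?_
      rw [LinearMap.comp_apply, SumX_tr, bx_tmul, LinearMap.comp_apply, bx_tmul,
        LinearMap.smul_apply]
      have a1 := hL₁.2 (pr₁ F c₁ c₂ ⟨m, hm⟩).1 (pr₁ F c₁ c₂ ⟨m, hm⟩).2
        (p₁ F c₁ c₂ β₁ β₂ ⟨m, hm'⟩).2 f₁
      have a2 := hL₂.2 (pr₂ F c₁ c₂ ⟨m, hm⟩).1 (pr₂ F c₁ c₂ ⟨m, hm⟩).2
        (p₂ F c₁ c₂ β₁ β₂ ⟨m, hm'⟩).2 f₂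
      have b1 : L₁ (IRp c₁ β₁ τ₁ hτ₁ (hat c₁ ρ₁) (p₁ F c₁ c₂ β₁ β₂ ⟨m, hm'⟩) f₁) =
        (dh c₁ β₁ τ₁' (pr₁ F c₁ c₂ ⟨m, hm⟩) : ℂ) • hat c₁ ρ₁ (pr₁ F c₁ c₂ ⟨m, hm⟩) (L₁ f₁) := a1
      have b2 : L₂ (IRp c₂ β₂ τ₂ hτ₂ (hat c₂ ρ₂) (p₂ F c₁ c₂ β₁ β₂ ⟨m, hm'⟩) f₂) =
        (dh c₂ β₂ τ₂' (pr₂ F c₁ c₂ ⟨m, hm⟩) : ℂ) • hat c₂ ρ₂ (pr₂ F c₁ c₂ ⟨m, hm⟩) (L₂ f₂) := a2
      have b3 := hE_equi ρ₁ ρ₂ ⟨m, hm⟩ (L₁ f₁ ⊗ₜ[ℂ] L₂ f₂)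
      have b4 : hE V₁ V₂ ι₁ ι₂ (hat c₁ ρ₁ (pr₁ F c₁ c₂ ⟨m, hm⟩) (L₁ f₁) ⊗ₜ[ℂ]
          hat c₂ ρ₂ (pr₂ F c₁ c₂ ⟨m, hm⟩) (L₂ f₂)) =
          hat (Sum.map c₁ c₂) (ext ρ₁ ρ₂) ⟨m, hm⟩ (hE V₁ V₂ ι₁ ι₂ (L₁ f₁ ⊗ₜ[ℂ] L₂ f₂)) := b3
      rw [b1, b2, ← b4, TensorProduct.smul_tmul_smul, map_smul, dh_sumI c₁ c₂ h' ⟨m, hm⟩,
        Units.val_mul]
    exact LinearMap.congr_fun key f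

include h' in
theorem bx_X1 (hL₁ : L₁ ∈ X1 c₁ β₁ τ₁ hτ₁ τ₁' ρ₁) (hL₂ : L₂ ∈ X1 c₂ β₂ τ₂ hτ₂ τ₂' ρ₂) :
    bx hτ₁ hτ₂ hτ h ρ₁ ρ₂ L₁ L₂ ∈ X1 (Sum.map c₁ c₂) (Sum.map β₁ β₂) τ hτ τ' (ext ρ₁ ρ₂) := by
  have key : ∀ (y₁ : MvPowerSeries ι₁ ℂ) (y₂ : MvPowerSeries ι₂ ℂ) f,
      bx hτ₁ hτ₂ hτ h ρ₁ ρ₂ L₁ L₂ (opI (Sum.map c₁ c₂) (Sum.map β₁ β₂) τ hτ (ext ρ₁ ρ₂)
        (MvPowerSeries.rename Sum.inl y₁ * MvPowerSeries.rename Sum.inr y₂) f) =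
      opE (V₁ ⊗[ℂ] V₂) (MvPowerSeries.rename Sum.inl y₁ * MvPowerSeries.rename Sum.inr y₂)
        (bx hτ₁ hτ₂ hτ h ρ₁ ρ₂ L₁ L₂ f) := by
    intro y₁ y₂ f
    have k2 : bx hτ₁ hτ₂ hτ h ρ₁ ρ₂ L₁ L₂ ∘ₗ
        opI (Sum.map c₁ c₂) (Sum.map β₁ β₂) τ hτ (ext ρ₁ ρ₂)
          (MvPowerSeries.rename Sum.inl y₁ * MvPowerSeries.rename Sum.inr y₂) =
        opE (V₁ ⊗[ℂ] V₂) (MvPowerSeries.rename Sum.inl y₁ * MvPowerSeries.rename Sum.inr y₂) ∘ₗ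
          bx hτ₁ hτ₂ hτ h ρ₁ ρ₂ L₁ L₂ := by
      refine SumX_ext hτ₁ hτ₂ hτ h ρ₁ ρ₂ _ _ fun f₁ f₂ => ?_
      rw [LinearMap.comp_apply, SumX_op, bx_tmul, LinearMap.comp_apply, bx_tmul, ← hE_op,
        TensorProduct.map_tmul, hL₁.2, hL₂.2]
    exact LinearMap.congr_fun k2 f
  refine comm_of_X _ _ _ _ _ _ _ (bx_FS hτ₁ hτ₂ hτ h h' ρ₁ ρ₂ L₁ L₂ hL₁.1 hL₂.1) fun x f => ?_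
  rcases x with x | x
  · have e : (MvPowerSeries.X (Sum.inl x) : MvPowerSeries (ι₁ ⊕ ι₂) ℂ) =
        MvPowerSeries.rename Sum.inl (MvPowerSeries.X x) * MvPowerSeries.rename Sum.inr 1 := by
      rw [map_one, mul_one, MvPowerSeries.rename_X]
    rw [e]
    exact key _ _ f
  · have e : (MvPowerSeries.X (Sum.inr x) : MvPowerSeries (ι₁ ⊕ ι₂) ℂ) =
        MvPowerSeries.rename Sum.inl 1 * MvPowerSeries.rename Sum.inr (MvPowerSeries.X x) := by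
      rw [map_one, one_mul, MvPowerSeries.rename_X]
    rw [e]
    exact key _ _ f

include h' in
theorem bx_lead (ℓ₁ : MvPowerSeries ι₁ ℂ) (ℓ₂ : MvPowerSeries ι₂ ℂ)
    (hL₁ : IsLead c₁ β₁ τ₁ hτ₁ τ₁' ρ₁ L₁ ℓ₁) (hL₂ : IsLead c₂ β₂ τ₂ hτ₂ τ₂' ρ₂ L₂ ℓ₂) :
    IsLead (Sum.map c₁ c₂) (Sum.map β₁ β₂) τ hτ τ' (ext ρ₁ ρ₂)
      (bx hτ₁ hτ₂ hτ h ρ₁ ρ₂ L₁ L₂)
      (MvPowerSeries.rename Sum.inl ℓ₁ * MvPowerSeries.rename Sum.inr ℓ₂) := by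
  obtain ⟨r₁, hr₁⟩ := hL₁
  obtain ⟨r₂, hr₂⟩ := hL₂
  refine ⟨max r₁ r₂, fun r hr f hf => ?_⟩
  obtain ⟨n, x, y, hx, hy, rfl⟩ := KS_sum hτ₁ hτ₂ hτ h ρ₁ ρ₂ r f hf
  have e1 : ((∑ j, sumH hτ₁ hτ₂ hτ h ρ₁ ρ₂ (x j ⊗ₜ[ℂ] y j) :
      ISp (Sum.map c₁ c₂) (Sum.map β₁ β₂) τ hτ (hat (Sum.map c₁ c₂) (ext ρ₁ ρ₂)))).1 1 =
      ∑ j, hE V₁ V₂ ι₁ ι₂ ((x j).1 1 ⊗ₜ[ℂ] (y j).1 1) := by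
    rw [AddSubmonoidClass.coe_finsetSum, Finset.sum_apply]
    refine Finset.sum_congr rfl fun j _ => ?_
    rw [sumH_tmul, map_one, map_one]
  have e2 : Cr F (Sum.map c₁ c₂) (Sum.map β₁ β₂) τ τ' r =
      Cr F c₁ β₁ τ₁ τ₁' r * Cr F c₂ β₂ τ₂ τ₂' r := by
    unfold Cr
    rw [npair_sum h h', mul_add, pow_add, mul_inv]
  rw [e1, map_sum, map_sum, Finset.smul_sum]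
  refine Finset.sum_congr rfl fun j _ => ?_
  rw [bx_tmul, hr₁ r (le_trans (le_max_left _ _) hr) (x j) (hx j),
    hr₂ r (le_trans (le_max_right _ _) hr) (y j) (hy j), TensorProduct.smul_tmul_smul, map_smul,
    ← e2, ← hE_op, TensorProduct.map_tmul]

theorem bx_comp (f₁ : ISp c₁ β₁ τ₁ hτ₁ (hat c₁ ρ₁)) (f₂ : ISp c₂ β₂ τ₂ hτ₂ (hat c₂ ρ₂))
    (f₁' : ISp c₁ β₁ τ₁' hτ₁' (hat c₁ ρ₁)) (f₂' : ISp c₂ β₂ τ₂' hτ₂' (hat c₂ ρ₂))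
    (hf₁ : ∀ g, f₁'.1 g = L₁ (IRp c₁ β₁ τ₁ hτ₁ (hat c₁ ρ₁) g f₁))
    (hf₂ : ∀ g, f₂'.1 g = L₂ (IRp c₂ β₂ τ₂ hτ₂ (hat c₂ ρ₂) g f₂))
    (g : lev F (fun i => Sum.map β₁ β₂ (Sum.map c₁ c₂ i))) :
    (sumH hτ₁' hτ₂' hτ' h' ρ₁ ρ₂ (f₁' ⊗ₜ[ℂ] f₂')).1 g =
      bx hτ₁ hτ₂ hτ h ρ₁ ρ₂ L₁ L₂
        (IRp (Sum.map c₁ c₂) (Sum.map β₁ β₂) τ hτ (hat (Sum.map c₁ c₂) (ext ρ₁ ρ₂)) g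
          (sumH hτ₁ hτ₂ hτ h ρ₁ ρ₂ (f₁ ⊗ₜ[ℂ] f₂))) := by
  rw [SumX_tr, bx_tmul, sumH_tmul, hf₁, hf₂]

end

end Pool.Agent.Lib.MP_ca1492_al.P
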