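import Mathlib
import Pool.Agent.Lib.MP_ca1492_al.Cmp.DatIso
import Pool.Agent.Lib.MP_ca1492_al.Cmp.SumX

/-!
# MP_ca1492_al, comparison, module PairG: pairs of inverse functionals, products and transport

`PSG c ρ β τ τ' ℓ ℓ' qq z Sf Q`: there are `t ∈ X1 β τ τ'`, `t' ∈ X1 β τ' τ` with leads `ℓ`, `ℓ'`, `t' ∘ t = qq`, and (if the
proposition `Q` holds) `t = Sf` on the kernel of `z`.

* `kerT`: write the tensor in terms of a basis of the second factor.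
* `PSG_bx`: `t = bx t₁ ev1`, `t' = bx t₁' ev1` (`bx_X1`, `ev1_X1`, `bx_lead`, `ev1_lead`). Composition: for
  `f = sumH (f₁ ⊗ f₂)` the function `f'` with `f' g = t (R_g f)` is `sumH (f₁' ⊗ f₂')`, `f₁' g = t₁ (R_g f₁)`
  (exists by `hom_of_FS`), `f₂' = f₂` as a function (in `ISp` for `τ₂'` by `ISp_congr`), by `bx_comp`; both
  sides of the claim are linear in `f` (the map `f ↦ f'` is the linear map of `hom_of_FS`) and every `f` is a sum of such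
  `f` (`sumH` is surjective). Kernel of `rename inl z`: `sumH t₀` is in the kernel iff
  `map (opI z) id t₀ = 0` (`sumH_op` with `y₂ = 1`, injectivity), then `kerT`, `bx_tmul`.
* `PSG_tr`: `t = s.Fn t₀`, `t' = s.Fn t₀'`: `SIso.mem_X1`, `SIso.isLead`, `SIso.comp`, `SIso.I_op`, `s.B_op`; every
  `f'` is `s.I f`.
-/

set_option autoImplicit false

namespace Pool.Agent.Lib.MP_ca1492_al.P

open Topology Matrix ValuativeRel TensorProduct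

noncomputable section

variable {F : Type} [Field F] [ValuativeRel F] [TopologicalSpace F]
  [IsNonarchimedeanLocalField F]

/-- the kernel of `f ⊗ id` -/
theorem kerT {A B C : Type} [AddCommGroup A] [Module ℂ A] [AddCommGroup B] [Module ℂ B]
    [AddCommGroup C] [Module ℂ C] (f : A →ₗ[ℂ] B) (t : A ⊗[ℂ] C)
    (ht : TensorProduct.map f (LinearMap.id : C →ₗ[ℂ] C) t = 0) :
    ∃ (n : ℕ) (x : Fin n → A) (y : Fin n → C), (∀ j, f (x j) = 0) ∧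
      t = ∑ j, x j ⊗ₜ[ℂ] y j := by
  have h1 : Function.Exact (LinearMap.ker f).subtype f := LinearMap.exact_subtype_ker_map f
  have h2 := Module.Flat.rTensor_exact C h1
  obtain ⟨t', ht'⟩ := (h2 t).1 ht
  obtain ⟨n, x, y, hxy⟩ := TensorProduct.exists_sum_tmul_eq t'
  refine ⟨n, fun j => (x j : A), y, fun j => (x j).2, ?_⟩
  rw [← ht', hxy, map_sum]
  rfl

/-- a pair of intertwining functionals -/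
def PSG {κ ι ι' V : Type} [Fintype κ] [DecidableEq κ] [Fintype ι] [DecidableEq ι]
    [AddCommGroup V] [Module ℂ V] (c : κ → ι) (ρ : Representation ℂ (lev F c) V)
    (β : ι → ι') (τ τ' : ι → ℤ) (hτ : Function.Injective τ) (hτ' : Function.Injective τ')
    (ℓ ℓ' qq z : MvPowerSeries ι ℂ)
    (Sf : ISp c β τ hτ (hat c ρ) →ₗ[ℂ] V ⊗[ℂ] MvPolynomial ι ℂ) (Q : Prop) : Prop :=
  ∃ t ∈ X1 c β τ hτ τ' ρ, ∃ t' ∈ X1 c β τ' hτ' τ ρ,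
    IsLead c β τ hτ τ' ρ t ℓ ∧ IsLead c β τ' hτ' τ ρ t' ℓ' ∧
    (∀ (f : ISp c β τ hτ (hat c ρ)) (f' : ISp c β τ' hτ' (hat c ρ)),
      (∀ g, f'.1 g = t (IRp c β τ hτ (hat c ρ) g f)) → t' f' = opE V qq (f.1 1)) ∧
    (Q → ∀ f, opI c β τ hτ ρ z f = 0 → t f = Sf f)

section

variable {κ₁ κ₂ : Type} [Fintype κ₁] [DecidableEq κ₁] [Fintype κ₂] [DecidableEq κ₂]
variable {ι₁ ι₂ ι₁' : Type} [Fintype ι₁] [DecidableEq ι₁] [Fintype ι₂] [DecidableEq ι₂]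
variable {c₁ : κ₁ → ι₁} {c₂ : κ₂ → ι₂} {β₁ : ι₁ → ι₁'}
variable {V₁ V₂ : Type} [AddCommGroup V₁] [Module ℂ V₁] [AddCommGroup V₂] [Module ℂ V₂]

variable {τ₁ : ι₁ → ℤ} (hτ₁ : Function.Injective τ₁) {τ₂ : ι₂ → ℤ} (hτ₂ : Function.Injective τ₂)
  {τ : ι₁ ⊕ ι₂ → ℤ} (hτ : Function.Injective τ) (h : SOrd β₁ id τ₁ τ₂ τ)
  {τ₁' : ι₁ → ℤ} (hτ₁' : Function.Injective τ₁') {τ₂' : ι₂ → ℤ}
  (hτ₂' : Function.Injective τ₂') {τ' : ι₁ ⊕ ι₂ → ℤ} (hτ' : Function.Injective τ')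
  (h' : SOrd β₁ id τ₁' τ₂' τ')
  (ρ₁ : Representation ℂ (lev F c₁) V₁) (ρ₂ : Representation ℂ (lev F c₂) V₂)
  (ℓ ℓ' qq z : MvPowerSeries ι₁ ℂ)
  (Sf : ISp c₁ β₁ τ₁ hτ₁ (hat c₁ ρ₁) →ₗ[ℂ] V₁ ⊗[ℂ] MvPolynomial ι₁ ℂ) (Q : Prop)

include hτ₂' h' in
theorem PSG_bx (hP : PSG c₁ ρ₁ β₁ τ₁ τ₁' hτ₁ hτ₁' ℓ ℓ' qq z Sf Q) :
    PSG (Sum.map c₁ c₂) (ext ρ₁ ρ₂) (Sum.map β₁ id) τ τ' hτ hτ'
      (MvPowerSeries.rename Sum.inl ℓ) (MvPowerSeries.rename Sum.inl ℓ')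
      (MvPowerSeries.rename Sum.inl qq) (MvPowerSeries.rename Sum.inl z)
      (bx hτ₁ hτ₂ hτ h ρ₁ ρ₂ Sf (ev1 c₂ id τ₂ hτ₂ (hat c₂ ρ₂))) Q := by
  obtain ⟨t, ht, t', ht', hl, hl', hcomp, hker⟩ := hP
  have ho : ∀ x y : ι₂, id x = id y → (τ₂ x < τ₂ y ↔ τ₂' x < τ₂' y) := by
    intro x y hxy
    have hxy' : x = y := hxy
    subst hxy'
    exact ⟨fun h => absurd h (lt_irrefl _), fun h => absurd h (lt_irrefl _)⟩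
  have ho' : ∀ x y : ι₂, id x = id y → (τ₂' x < τ₂' y ↔ τ₂ x < τ₂ y) := fun x y hxy =>
    (ho x y hxy).symm
  have he := ev1_X1 (F := F) c₂ id τ₂ τ₂' hτ₂ hτ₂' ho ρ₂
  have he' := ev1_X1 (F := F) c₂ id τ₂' τ₂ hτ₂' hτ₂ ho' ρ₂
  have hT := bx_X1 hτ₁ hτ₂ hτ h h' ρ₁ ρ₂ t (ev1 c₂ id τ₂ hτ₂ (hat c₂ ρ₂)) ht he
  have hT' := bx_X1 hτ₁' hτ₂' hτ' h' h ρ₁ ρ₂ t' (ev1 c₂ id τ₂' hτ₂' (hat c₂ ρ₂)) ht' he'
  have hL := bx_lead hτ₁ hτ₂ hτ h h' ρ₁ ρ₂ t (ev1 c₂ id τ₂ hτ₂ (hat c₂ ρ₂)) ℓ 1 hl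
    (ev1_lead c₂ id τ₂ τ₂' hτ₂ ho ρ₂)
  have hL' := bx_lead hτ₁' hτ₂' hτ' h' h ρ₁ ρ₂ t' (ev1 c₂ id τ₂' hτ₂' (hat c₂ ρ₂)) ℓ' 1 hl'
    (ev1_lead c₂ id τ₂' τ₂ hτ₂' ho' ρ₂)
  rw [map_one, mul_one] at hL hL'
  refine ⟨_, hT, _, hT', hL, hL', ?_, ?_⟩
  · obtain ⟨Φ₁, -, hΦ₁⟩ := hom_of_FS c₁ β₁ τ₁ τ₁' hτ₁ hτ₁' (hat c₁ ρ₁) (hat c₁ ρ₁) t ht.1
    obtain ⟨Φ, -, hΦ⟩ := hom_of_FS (Sum.map c₁ c₂) (Sum.map β₁ id) τ τ' hτ hτ'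
      (hat (Sum.map c₁ c₂) (ext ρ₁ ρ₂)) (hat (Sum.map c₁ c₂) (ext ρ₁ ρ₂)) _ hT.1
    have key : ∀ u : ISp c₁ β₁ τ₁ hτ₁ (hat c₁ ρ₁) ⊗[ℂ] ISp c₂ id τ₂ hτ₂ (hat c₂ ρ₂),
        bx hτ₁' hτ₂' hτ' h' ρ₁ ρ₂ t' (ev1 c₂ id τ₂' hτ₂' (hat c₂ ρ₂))
          (Φ (sumH hτ₁ hτ₂ hτ h ρ₁ ρ₂ u)) = opE _ (MvPowerSeries.rename Sum.inl qq)
            ((sumH hτ₁ hτ₂ hτ h ρ₁ ρ₂ u).1 1) := by
      intro u
      induction u with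
      | zero =>
        rw [map_zero, map_zero, map_zero]
        exact (map_zero _).symm
      | add a b ha hb =>
        rw [map_add, map_add, map_add, ha, hb]
        exact (map_add _ _ _).symm
      | tmul f₁ f₂ =>
        have hc := ISp_congr (F := F) c₂ id τ₂ τ₂' hτ₂ hτ₂' ho (hat c₂ ρ₂)
        obtain ⟨f₂', hf₂'⟩ : ∃ f₂' : ISp c₂ id τ₂' hτ₂' (hat c₂ ρ₂), f₂'.1 = f₂.1 :=
          ⟨⟨f₂.1, hc ▸ f₂.2⟩, rfl⟩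
        have h2 : Φ (sumH hτ₁ hτ₂ hτ h ρ₁ ρ₂ (f₁ ⊗ₜ[ℂ] f₂)) =
            sumH hτ₁' hτ₂' hτ' h' ρ₁ ρ₂ (Φ₁ f₁ ⊗ₜ[ℂ] f₂') := by
          refine Subtype.ext (funext fun g => ?_)
          rw [hΦ]
          refine (bx_comp hτ₁ hτ₂ hτ h hτ₁' hτ₂' hτ' h' ρ₁ ρ₂ t
            (ev1 c₂ id τ₂ hτ₂ (hat c₂ ρ₂)) f₁ f₂ (Φ₁ f₁) f₂' (hΦ₁ f₁) ?_ g).symm
          intro g
          rw [hf₂']
          change f₂.1 g = f₂.1 (1 * g)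
          rw [one_mul]
        rw [h2, bx_tmul, hcomp f₁ (Φ₁ f₁) (hΦ₁ f₁)]
        have h3 := hE_op (V₁ := V₁) (V₂ := V₂) qq (1 : MvPowerSeries ι₂ ℂ) (f₁.1 1 ⊗ₜ[ℂ] f₂.1 1)
        rw [TensorProduct.map_tmul, opE_one, map_one, mul_one] at h3
        have h4 : ev1 c₂ id τ₂' hτ₂' (hat c₂ ρ₂) f₂' = f₂.1 1 := by
          change f₂'.1 1 = _
          rw [hf₂']
        rw [h4, h3, sumH_tmul, map_one, map_one]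
    intro f f' hff
    obtain ⟨u, rfl⟩ := (sumH hτ₁ hτ₂ hτ h ρ₁ ρ₂).surjective f
    have h5 : f' = Φ (sumH hτ₁ hτ₂ hτ h ρ₁ ρ₂ u) := by
      refine Subtype.ext (funext fun g => ?_)
      rw [hff, hΦ]
    rw [h5, key]
  · intro hQ f hf
    obtain ⟨u, rfl⟩ := (sumH hτ₁ hτ₂ hτ h ρ₁ ρ₂).surjective f
    have h1 := sumH_op hτ₁ hτ₂ hτ h ρ₁ ρ₂ z 1 u
    rw [map_one, mul_one, hf] at h1
    have h2 : opI c₂ id τ₂ hτ₂ ρ₂ 1 = LinearMap.id := by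
      refine LinearMap.ext fun f => ?_
      rw [opI_one]
      rfl
    rw [h2] at h1
    have h3 := (sumH hτ₁ hτ₂ hτ h ρ₁ ρ₂).injective (h1.trans (map_zero _).symm)
    obtain ⟨n, x, y, hx, rfl⟩ := kerT _ u h3
    rw [map_sum, map_sum, map_sum]
    refine Finset.sum_congr rfl fun j _ => ?_
    rw [bx_tmul, bx_tmul, hker hQ (x j) (hx j)]

end

section

variable {κ κ' : Type} [Fintype κ] [DecidableEq κ] [Fintype κ'] [DecidableEq κ']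
variable {ι ι' : Type} [Fintype ι] [DecidableEq ι] [Fintype ι'] [DecidableEq ι']
variable {ι₁ ι₁' : Type}
variable {V V' : Type} [AddCommGroup V] [Module ℂ V] [AddCommGroup V'] [Module ℂ V']
variable {c : κ → ι} {ρ : Representation ℂ (lev F c) V} {c' : κ' → ι'}
  {ρ' : Representation ℂ (lev F c') V'} (s : SIso c ρ c' ρ')
variable {β : ι → ι₁} {β' : ι' → ι₁'} (hβ : ∀ x y, β' (s.ε x) = β' (s.ε y) ↔ β x = β y)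
  {τ₁ τ₂ : ι → ℤ} (hτ₁ : Function.Injective τ₁) (hτ₂ : Function.Injective τ₂)
  {τ₁' τ₂' : ι' → ℤ} (hτ₁' : Function.Injective τ₁') (hτ₂' : Function.Injective τ₂')
  (h₁ : ∀ x y, β x = β y → (τ₁ x < τ₁ y ↔ τ₁' (s.ε x) < τ₁' (s.ε y)))
  (h₂ : ∀ x y, β x = β y → (τ₂ x < τ₂ y ↔ τ₂' (s.ε x) < τ₂' (s.ε y)))
  (ℓ ℓ' qq z : MvPowerSeries ι ℂ)
  (Sf : ISp c β τ₁ hτ₁ (hat c ρ) →ₗ[ℂ] V ⊗[ℂ] MvPolynomial ι ℂ) (Q : Prop)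

include h₂ in
theorem PSG_tr (hP : PSG c ρ β τ₁ τ₂ hτ₁ hτ₂ ℓ ℓ' qq z Sf Q) :
    PSG c' ρ' β' τ₁' τ₂' hτ₁' hτ₂' (MvPowerSeries.rename s.ε ℓ) (MvPowerSeries.rename s.ε ℓ')
      (MvPowerSeries.rename s.ε qq) (MvPowerSeries.rename s.ε z)
      (s.Fn hβ hτ₁ hτ₁' h₁ Sf) Q := by
  obtain ⟨t, ht, t', ht', hl, hl', hcomp, hker⟩ := hP
  refine ⟨_, s.mem_X1 hβ hτ₁ hτ₁' h₁ h₂ t ht, _, s.mem_X1 hβ hτ₂ hτ₂' h₂ h₁ t' ht',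
    s.isLead hβ hτ₁ hτ₁' h₁ h₂ t ℓ hl, s.isLead hβ hτ₂ hτ₂' h₂ h₁ t' ℓ' hl', ?_, ?_⟩
  · intro f f' hff
    obtain ⟨f₀, rfl⟩ := (s.I hβ hτ₁ hτ₁' h₁).surjective f
    obtain ⟨Φ, -, hΦ⟩ := hom_of_FS c β τ₁ τ₂ hτ₁ hτ₂ (hat c ρ) (hat c ρ) t ht.1
    have h3 : f' = s.I hβ hτ₂ hτ₂' h₂ (Φ f₀) := by
      refine Subtype.ext (funext fun g => ?_)
      rw [hff]
      exact (s.comp hβ hτ₁ hτ₂ hτ₁' hτ₂' h₁ h₂ t f₀ (Φ f₀) (hΦ f₀) g).symm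
    rw [h3, s.Fn_apply, hcomp f₀ (Φ f₀) (hΦ f₀), s.B_op]
    have h4 := s.I_apply hβ hτ₁ hτ₁' h₁ f₀ 1
    rw [map_one] at h4
    rw [h4]
  · intro hQ f hf
    obtain ⟨f₀, rfl⟩ := (s.I hβ hτ₁ hτ₁' h₁).surjective f
    rw [← s.I_op] at hf
    have h3 := (s.I hβ hτ₁ hτ₁' h₁).injective (hf.trans (map_zero _).symm)
    rw [s.Fn_apply, s.Fn_apply, hker hQ f₀ h3]

end

end

end Pool.Agent.Lib.MP_ca1492_al.P
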