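import Mathlib
import Pool.Agent.Lib.MP_ca1492_al.Cmp.PairD
import Pool.Agent.Lib.MP_ca1492_al.Cmp.PairG

/-!
# MP_ca1492_al, comparison, module PairS: from two strands to the general case

`PS_all`: if `PS` holds for two strands (`ι = Bool`, `a = false`, `b = true`, `β` constant) for all pairs of letters then it
holds in general. Proof: `ε : Bool ⊕ {x // x ≠ a ∧ x ≠ b} ≃ ι` from `exists_split`, `s` from `split_exists`;
`l₂ = fun x => l (ε (inl x))`; `PS` for `l₂` is a `PSG` (with `Sf = SW ...` and `Q = True` if `l a = l b`, `Sf = 0`, `Q = False`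
otherwise); `PSG_bx` with `τ₂ = fun y => τ (ε (inr y))`, `τs = τ ∘ ε`, `τ₁ = oP`, `τ₁' = oM`, `τs' = τ' ∘ ε`; `PSG_tr` with `s`;
`CA1492.PA.rename_subst` for the leads; `SW_tr`.

* `SW_tr`: both sides on `s.I (sumH (f₁ ⊗ f₂))`: the right side is `(siW w).B` of the value at `(permG (bperm w))⁻¹`,
  `w = swap (ε (inl false)) (ε (inl true))`; this element is `s.T` of `jS ẇ₂⁻¹ 1`, because
  `s.e ∘ (bperm swap ⊕ id) = bperm w ∘ s.e` (`he₁`, `he₂`; casts of the letters agree); so the value is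
  `s.B (hE (f₁(ẇ₂⁻¹) ⊗ f₂(1)))`, and `(siW w).B (s.B (hE (x ⊗ y))) = s.B (hE ((siW swap).B x ⊗ y))` on pure
  tensors (`hA`, `Aw_tprod`, variables).
-/

set_option autoImplicit false
set_option linter.unusedSectionVars false
set_option linter.unusedVariables false

namespace Pool.Agent.Lib.MP_ca1492_al.P

open Topology Matrix ValuativeRel TensorProduct
open Pool.Agent.Lib.MP_ca1492_al.Q (GLRep)

noncomputable section

variable {F : Type} [Field F] [ValuativeRel F] [TopologicalSpace F]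
  [IsNonarchimedeanLocalField F]

variable {J : Type} (RJ : J → GLRep F) {ι ι' : Type} [Fintype ι] [DecidableEq ι] (l : ι → J)

/-- the splitting `Bool ⊕ {x // x ≠ a ∧ x ≠ b} ≃ ι` -/
theorem exists_split (a b : ι) (hab : a ≠ b) : ∃ ε : Bool ⊕ {x : ι // x ≠ a ∧ x ≠ b} ≃ ι,
    ε (Sum.inl false) = a ∧ ε (Sum.inl true) = b ∧ ∀ x, ε (Sum.inr x) = x.1 := by
  refine ⟨Equiv.ofBijective (Sum.elim (fun t : Bool => cond t b a)
    (Subtype.val : {x : ι // x ≠ a ∧ x ≠ b} → ι)) ⟨?_, ?_⟩, rfl, rfl, fun x => rfl⟩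
  · rintro (x | x) (y | y) h
    · cases x <;> cases y
      · rfl
      · exact absurd h hab
      · exact absurd h.symm hab
      · rfl
    · exfalso
      have h' : cond x b a = y.1 := h
      cases x
      · exact y.2.1 h'.symm
      · exact y.2.2 h'.symm
    · exfalso
      have h' : x.1 = cond y b a := h
      cases y
      · exact x.2.1 h'
      · exact x.2.2 h'
    · exact congrArg Sum.inr (Subtype.ext h)
  · intro x
    by_cases h1 : x = a
    · exact ⟨Sum.inl false, h1.symm⟩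
    · by_cases h2 : x = b
      · exact ⟨Sum.inl true, h2.symm⟩
      · exact ⟨Sum.inr ⟨x, h1, h2⟩, rfl⟩

/-- the index set of the other strands is arbitrary -/
theorem PairS_split (a b : ι) (hab : a ≠ b) : ∃ (ι₂ : Type) (_ : Fintype ι₂)
    (_ : DecidableEq ι₂) (ε : Bool ⊕ ι₂ ≃ ι), ε (Sum.inl false) = a ∧ ε (Sum.inl true) = b := by
  obtain ⟨ε, h1, h2, -⟩ := exists_split a b hab
  exact ⟨_, inferInstance, inferInstance, ε, h1, h2⟩

theorem PairS_cast {b b' : ι} (h : b = b') {j : J} (e : l b = j) (e' : l b' = j)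
    (v : ∀ a, (RJ (l a)).V) : castV RJ e (v b) = castV RJ e' (v b') := by
  subst h
  rfl

section

variable {ι₂ : Type} [Fintype ι₂] [DecidableEq ι₂] (ε : Bool ⊕ ι₂ ≃ ι)

theorem PairS_swl (x : Bool) :
    Equiv.swap (ε (Sum.inl false)) (ε (Sum.inl true)) (ε (Sum.inl x)) =
      ε (Sum.inl (Equiv.swap false true x)) := by
  cases x
  · rw [Equiv.swap_apply_left, Equiv.swap_apply_left]
  · rw [Equiv.swap_apply_right, Equiv.swap_apply_right]

theorem PairS_swr (y : ι₂) :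
    Equiv.swap (ε (Sum.inl false)) (ε (Sum.inl true)) (ε (Sum.inr y)) = ε (Sum.inr y) := by
  apply Equiv.swap_apply_of_ne_of_ne
  · intro h
    have := ε.injective h
    simp at this
  · intro h
    have := ε.injective h
    simp at this

end

theorem PairS_poly {ι₂ : Type} (ε : Bool ⊕ ι₂ ≃ ι) (w : Equiv.Perm ι) (w₂ : Equiv.Perm Bool)
    (hl : ∀ x, w (ε (Sum.inl x)) = ε (Sum.inl (w₂ x)))
    (hr : ∀ y, w (ε (Sum.inr y)) = ε (Sum.inr y)) (p : MvPolynomial Bool ℂ)
    (q : MvPolynomial ι₂ ℂ) :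
    MvPolynomial.rename w (MvPolynomial.rename ε
        (MvPolynomial.rename Sum.inl p * MvPolynomial.rename Sum.inr q)) =
      MvPolynomial.rename ε (MvPolynomial.rename Sum.inl (MvPolynomial.rename w₂ p) *
        MvPolynomial.rename Sum.inr q) := by
  have e1 : MvPolynomial.rename w (MvPolynomial.rename ε (MvPolynomial.rename Sum.inl p)) =
      MvPolynomial.rename ε (MvPolynomial.rename Sum.inl (MvPolynomial.rename w₂ p)) := by
    rw [MvPolynomial.rename_rename, MvPolynomial.rename_rename, MvPolynomial.rename_rename,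
      MvPolynomial.rename_rename]
    exact congrArg (fun f => MvPolynomial.rename f p) (funext hl)
  have e2 : MvPolynomial.rename w (MvPolynomial.rename ε (MvPolynomial.rename Sum.inr q)) =
      MvPolynomial.rename ε (MvPolynomial.rename Sum.inr q) := by
    rw [MvPolynomial.rename_rename, MvPolynomial.rename_rename, MvPolynomial.rename_rename]
    exact congrArg (fun f => MvPolynomial.rename f q) (funext hr)
  rw [map_mul, map_mul, map_mul, e1, e2]

section

variable {ι₂ : Type} [Fintype ι₂] [DecidableEq ι₂] (ε : Bool ⊕ ι₂ ≃ ι)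
    (s : SIso (Sum.map (sc fun x => RJ (l (ε (Sum.inl x)))) (sc fun y => RJ (l (ε (Sum.inr y)))))
        (ext (tenRep fun x => RJ (l (ε (Sum.inl x)))) (tenRep fun y => RJ (l (ε (Sum.inr y)))))
        (sc fun a => RJ (l a)) (tenRep fun a => RJ (l a)))
    (hε : s.ε = ε) (he₁ : ∀ x i, s.e (Sum.inl ⟨x, i⟩) = ⟨ε (Sum.inl x), i⟩)
    (he₂ : ∀ y i, s.e (Sum.inr ⟨y, i⟩) = ⟨ε (Sum.inr y), i⟩)
    (hA : ∀ v : ∀ a, (RJ (l a)).V, s.A ((PiTensorProduct.tprod ℂ fun x => v (ε (Sum.inl x))) ⊗ₜ[ℂ]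
        (PiTensorProduct.tprod ℂ fun y => v (ε (Sum.inr y)))) = PiTensorProduct.tprod ℂ v)
    (hll : l (ε (Sum.inl false)) = l (ε (Sum.inl true)))

include he₁ he₂ in
/-- the block permutations correspond -/
theorem PairS_bperm (i : sk (fun x => RJ (l (ε (Sum.inl x)))) ⊕
    sk (fun y => RJ (l (ε (Sum.inr y))))) :
    bperm RJ l (Equiv.swap (ε (Sum.inl false)) (ε (Sum.inl true))) (swap_letter l hll) (s.e i) =
      s.e (Sum.map (bperm RJ (fun x => l (ε (Sum.inl x))) (Equiv.swap false true)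
        (swap_letter (fun x => l (ε (Sum.inl x))) hll)) id i) := by
  rcases i with ⟨x, k⟩ | ⟨y, k⟩
  · rw [he₁]
    show _ = s.e (Sum.inl ⟨Equiv.swap false true x, castK RJ _ k⟩)
    rw [he₁]
    exact TenAw_sig RJ l (PairS_swl ε x) _ _ k
  · rw [he₂]
    show _ = s.e (Sum.inr ⟨y, k⟩)
    rw [he₂]
    exact TenAw_sig RJ l (PairS_swr ε y) _ rfl k

theorem PairS_perm_inv {κ : Type} [Fintype κ] [DecidableEq κ] (w : Equiv.Perm κ) (i j : κ) :
    (((permG F w)⁻¹ : GL κ F) : Matrix κ κ F) i j = (1 : Matrix κ κ F) (w i) j :=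
  (Matrix.one_apply).symm

include he₁ he₂ in
/-- the elements correspond -/
theorem PairS_elt (β : ι → ι') (hβ : PairB β (ε (Sum.inl false)) (ε (Sum.inl true)))
    (hβ' : ∀ x y, β (s.ε x) = β (s.ε y) ↔
      Sum.map (fun _ : Bool => ()) (id : ι₂ → ι₂) x = Sum.map (fun _ => ()) id y) :
    (⟨(permG F (bperm RJ l (Equiv.swap (ε (Sum.inl false)) (ε (Sum.inl true)))
        (swap_letter l hll)))⁻¹, bperm_lev RJ l _ _ β hβ.swap⟩ :
          lev F (fun i => β (sc (fun a => RJ (l a)) i))) =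
      s.T hβ' (jS (sc fun x => RJ (l (ε (Sum.inl x)))) (sc fun y => RJ (l (ε (Sum.inr y))))
        (fun _ : Bool => ()) (id : ι₂ → ι₂)
        ⟨(permG F (bperm RJ (fun x => l (ε (Sum.inl x))) (Equiv.swap false true)
          (swap_letter (fun x => l (ε (Sum.inl x))) hll)))⁻¹,
          bperm_lev RJ (fun x => l (ε (Sum.inl x))) _ _ (fun _ => ()) (fun _ => rfl)⟩ 1) := by
  refine Subtype.ext (Units.ext (Matrix.ext fun i j => ?_))
  obtain ⟨i, rfl⟩ := s.e.surjective i
  obtain ⟨j, rfl⟩ := s.e.surjective j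
  rw [SIso.T_val, glT_apply]
  show (((permG F (bperm RJ l (Equiv.swap (ε (Sum.inl false)) (ε (Sum.inl true)))
        (swap_letter l hll)))⁻¹ : GL _ F) : Matrix _ _ F) (s.e i) (s.e j) =
      Matrix.fromBlocks (((permG F (bperm RJ (fun x => l (ε (Sum.inl x))) (Equiv.swap false true)
          (swap_letter (fun x => l (ε (Sum.inl x))) hll)))⁻¹ : GL _ F) : Matrix _ _ F) 0 0
            (1 : Matrix (sk fun y => RJ (l (ε (Sum.inr y)))) (sk fun y => RJ (l (ε (Sum.inr y)))) F)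
            i j
  rw [PairS_perm_inv, PairS_bperm RJ l ε s he₁ he₂ hll, LevT_one]
  rcases i with i | i <;> rcases j with j | j
  · rw [Matrix.fromBlocks_apply₁₁, PairS_perm_inv, Sum.map_inl, Matrix.one_apply,
      Matrix.one_apply]
    simp only [Sum.inl.injEq]
  · rw [Matrix.fromBlocks_apply₁₂, Sum.map_inl, Matrix.one_apply, if_neg (by simp)]
    rfl
  · rw [Matrix.fromBlocks_apply₂₁, Sum.map_inr, Matrix.one_apply, if_neg (by simp)]
    rfl
  · rw [Matrix.fromBlocks_apply₂₂, Sum.map_inr, Matrix.one_apply, Matrix.one_apply]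
    simp only [Sum.inr.injEq, id_eq]

include hε hA in
/-- the spaces correspond -/
theorem PairS_B (x : (⨂[ℂ] x, (RJ (l (ε (Sum.inl x)))).V) ⊗[ℂ] MvPolynomial Bool ℂ)
    (y : (⨂[ℂ] y, (RJ (l (ε (Sum.inr y)))).V) ⊗[ℂ] MvPolynomial ι₂ ℂ) :
    (siW RJ l (Equiv.swap (ε (Sum.inl false)) (ε (Sum.inl true))) (swap_letter l hll)).B
        (s.B (hE _ _ _ _ (x ⊗ₜ[ℂ] y))) =
      s.B (hE _ _ _ _ ((siW RJ (fun x => l (ε (Sum.inl x))) (Equiv.swap false true)
        (swap_letter (fun x => l (ε (Sum.inl x))) hll)).B x ⊗ₜ[ℂ] y)) := by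
  induction x using TensorProduct.induction_on with
  | zero => simp
  | add x x' hx hx' => simp only [TensorProduct.add_tmul, map_add, hx, hx']
  | tmul x p =>
  induction y using TensorProduct.induction_on with
  | zero => simp
  | add y y' hy hy' => simp only [TensorProduct.tmul_add, map_add, hy, hy']
  | tmul y q =>
  induction x using PiTensorProduct.induction_on with
  | add x x' hx hx' => simp only [TensorProduct.add_tmul, map_add, hx, hx']
  | smul_tprod r v₁ =>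
  induction y using PiTensorProduct.induction_on with
  | add y y' hy hy' => simp only [TensorProduct.add_tmul, TensorProduct.tmul_add, map_add, hy, hy']
  | smul_tprod r' v₂ =>
  obtain ⟨v, hv₁, hv₂⟩ : ∃ v : ∀ a, (RJ (l a)).V, (∀ x, v (ε (Sum.inl x)) = v₁ x) ∧
      ∀ y, v (ε (Sum.inr y)) = v₂ y := by
    refine ⟨Equiv.piCongrLeft (fun a => (RJ (l a)).V) ε
      (fun x => Sum.rec (motive := fun x => (RJ (l (ε x))).V) v₁ v₂ x), fun x => ?_, fun y => ?_⟩
    · exact Equiv.piCongrLeft_apply_apply (fun a => (RJ (l a)).V) ε _ (Sum.inl x)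
    · exact Equiv.piCongrLeft_apply_apply (fun a => (RJ (l a)).V) ε _ (Sum.inr y)
  obtain rfl : v₁ = fun x => v (ε (Sum.inl x)) := funext fun x => (hv₁ x).symm
  obtain rfl : v₂ = fun y => v (ε (Sum.inr y)) := funext fun y => (hv₂ y).symm
  rw [SIso.B_tmul, hE_tmul, hE_tmul, SIso.B_tmul, SIso.B_tmul, SIso.B_tmul]
  show Aw RJ l _ (swap_letter l hll) (s.A _) ⊗ₜ[ℂ] _ =
    s.A (Aw RJ (fun x => l (ε (Sum.inl x))) _ (swap_letter (fun x => l (ε (Sum.inl x))) hll) _
      ⊗ₜ[ℂ] _) ⊗ₜ[ℂ] _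
  rw [TensorProduct.smul_tmul_smul, map_smul, map_smul, map_smul, hA, Aw_tprod, Aw_tprod,
    TensorProduct.smul_tmul_smul, map_smul]
  congr 1
  · congr 1
    rw [← hA]
    congr 2
    · congr 1
      funext x
      exact PairS_cast RJ l (by rw [Equiv.symm_swap, Equiv.symm_swap, PairS_swl]) _ _ v
    · congr 1
      funext y
      exact PairS_cast RJ l (by rw [Equiv.symm_swap, PairS_swr]) _ rfl v
  · show MvPolynomial.rename (Equiv.swap (ε (Sum.inl false)) (ε (Sum.inl true)))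
      (MvPolynomial.rename s.ε _) = MvPolynomial.rename s.ε (MvPolynomial.rename Sum.inl
        (MvPolynomial.rename (Equiv.swap false true) p) * _)
    rw [hε]
    exact PairS_poly ε _ _ (PairS_swl ε) (PairS_swr ε) p q

end

/-- the transported swap functional: `s` is an isomorphism as in `split_exists` -/
theorem SW_tr {ι₂ : Type} [Fintype ι₂] [DecidableEq ι₂] (ε : Bool ⊕ ι₂ ≃ ι)
    (s : SIso (Sum.map (sc fun x => RJ (l (ε (Sum.inl x)))) (sc fun y => RJ (l (ε (Sum.inr y)))))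
        (ext (tenRep fun x => RJ (l (ε (Sum.inl x)))) (tenRep fun y => RJ (l (ε (Sum.inr y)))))
        (sc fun a => RJ (l a)) (tenRep fun a => RJ (l a)))
    (hε : s.ε = ε) (he₁ : ∀ x i, s.e (Sum.inl ⟨x, i⟩) = ⟨ε (Sum.inl x), i⟩)
    (he₂ : ∀ y i, s.e (Sum.inr ⟨y, i⟩) = ⟨ε (Sum.inr y), i⟩)
    (hA : ∀ v : ∀ a, (RJ (l a)).V, s.A ((PiTensorProduct.tprod ℂ fun x => v (ε (Sum.inl x))) ⊗ₜ[ℂ]
        (PiTensorProduct.tprod ℂ fun y => v (ε (Sum.inr y)))) = PiTensorProduct.tprod ℂ v)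
    (hll : l (ε (Sum.inl false)) = l (ε (Sum.inl true)))
    (β : ι → ι') (hβ : PairB β (ε (Sum.inl false)) (ε (Sum.inl true)))
    (hβ' : ∀ x y, β (s.ε x) = β (s.ε y) ↔
      Sum.map (fun _ : Bool => ()) (id : ι₂ → ι₂) x = Sum.map (fun _ => ()) id y)
    {τ₁ : Bool → ℤ} (hτ₁ : Function.Injective τ₁) {τ₂ : ι₂ → ℤ} (hτ₂ : Function.Injective τ₂)
    {τs : Bool ⊕ ι₂ → ℤ} (hτs : Function.Injective τs)
    (hs : SOrd (fun _ : Bool => ()) (id : ι₂ → ι₂) τ₁ τ₂ τs)
    (τ : ι → ℤ) (hτ : Function.Injective τ)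
    (h₁ : ∀ x y, Sum.map (fun _ : Bool => ()) (id : ι₂ → ι₂) x = Sum.map (fun _ => ()) id y →
      (τs x < τs y ↔ τ (s.ε x) < τ (s.ε y))) :
    s.Fn hβ' hτs hτ h₁ (bx hτ₁ hτ₂ hτs hs (tenRep fun x => RJ (l (ε (Sum.inl x))))
      (tenRep fun y => RJ (l (ε (Sum.inr y))))
      (SW RJ (fun x => l (ε (Sum.inl x))) (Equiv.swap false true)
        (swap_letter (fun x => l (ε (Sum.inl x))) hll) (fun _ => ()) (fun _ => rfl) τ₁ hτ₁)
      (ev1 _ id τ₂ hτ₂ (hat _ (tenRep fun y => RJ (l (ε (Sum.inr y))))))) =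
    SW RJ l (Equiv.swap (ε (Sum.inl false)) (ε (Sum.inl true))) (swap_letter l hll) β hβ.swap
      τ hτ := by
  have hSX : ∀ (A B : ISp (Sum.map (sc fun x => RJ (l (ε (Sum.inl x))))
      (sc fun y => RJ (l (ε (Sum.inr y))))) (Sum.map (fun _ : Bool => ()) (id : ι₂ → ι₂)) τs hτs
      (hat (Sum.map (sc fun x => RJ (l (ε (Sum.inl x)))) (sc fun y => RJ (l (ε (Sum.inr y)))))
        (ext (tenRep fun x => RJ (l (ε (Sum.inl x)))) (tenRep fun y => RJ (l (ε (Sum.inr y))))))
      →ₗ[ℂ] (⨂[ℂ] a, (RJ (l a)).V) ⊗[ℂ] MvPolynomial ι ℂ), _ → A = B :=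
    fun A B => SumX_ext hτ₁ hτ₂ hτs hs (tenRep fun x => RJ (l (ε (Sum.inl x))))
      (tenRep fun y => RJ (l (ε (Sum.inr y)))) A B
  refine LinearMap.ext fun f => ?_
  obtain ⟨f, rfl⟩ := (s.I hβ' hτs hτ h₁).surjective f
  rw [SIso.Fn_apply]
  refine LinearMap.congr_fun (f := s.B.toLinearMap ∘ₗ _) (g := SW RJ l _ _ β hβ.swap τ hτ ∘ₗ
    (s.I hβ' hτs hτ h₁).toLinearMap) (hSX _ _ fun f₁ f₂ => ?_) f
  show s.B (bx _ _ _ _ _ _ _ _ _) = (siW RJ l _ _).B ((s.I hβ' hτs hτ h₁ _).1 _)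
  rw [bx_tmul, PairS_elt RJ l ε s he₁ he₂ hll β hβ hβ', SIso.I_apply, sumH_tmul, p₁_jS, p₂_jS,
    PairS_B RJ l ε s hε hA hll]
  rfl

/-- the comparison theorem -/
theorem PS_all (e q : J → J → PowerSeries ℂ) (hR : ∀ j, (RJ j).Cusp)
    (h2 : ∀ l₂ : Bool → J, PS RJ l₂ e q false true (fun _ => ()) pairB_bool oP oM oP_inj oM_inj)
    (a b : ι) (hab : a ≠ b) (β : ι → ι') (hβ : PairB β a b) (τ τ' : ι → ℤ)
    (hτ : Function.Injective τ) (hτ' : Function.Injective τ') (h : τ a < τ b)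
    (h' : τ' b < τ' a) : PS RJ l e q a b β hβ τ τ' hτ hτ' := by
  classical
  obtain ⟨ι₂, _, _, ε, ha, hb⟩ := PairS_split a b hab
  subst ha hb
  obtain ⟨s, hε, he₁, he₂, hA⟩ := split_exists (fun a => RJ (l a)) ε
  have hβ' : ∀ x y, β (s.ε x) = β (s.ε y) ↔
      Sum.map (fun _ : Bool => ()) (id : ι₂ → ι₂) x = Sum.map (fun _ => ()) id y := by
    intro x y
    rw [hε, hβ]
    rcases x with x | x <;> rcases y with y | y
    · cases x <;> cases y <;> simp
    · simp
    · simp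
    · simp
  have hSO : ∀ τ : ι → ℤ, (τ (ε (Sum.inl false)) < τ (ε (Sum.inl true))) →
      SOrd (fun _ : Bool => ()) (id : ι₂ → ι₂) oP (fun y => τ (ε (Sum.inr y)))
        (fun x => τ (ε x)) := by
    intro τ h
    refine ⟨fun x y _ => ?_, fun x y _ => Iff.rfl⟩
    cases x <;> cases y
    · simp
    · simp [oP, h]
    · simp [oP, h.le]
    · simp
  have hSO' : ∀ τ : ι → ℤ, (τ (ε (Sum.inl true)) < τ (ε (Sum.inl false))) →
      SOrd (fun _ : Bool => ()) (id : ι₂ → ι₂) oM (fun y => τ (ε (Sum.inr y)))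
        (fun x => τ (ε x)) := by
    intro τ h
    refine ⟨fun x y _ => ?_, fun x y _ => Iff.rfl⟩
    cases x <;> cases y
    · simp
    · simp [oM, h.le]
    · simp [oM, h]
    · simp
  have i₂ : Function.Injective fun y => τ (ε (Sum.inr y)) :=
    hτ.comp (ε.injective.comp Sum.inr_injective)
  have i₂' : Function.Injective fun y => τ' (ε (Sum.inr y)) :=
    hτ'.comp (ε.injective.comp Sum.inr_injective)
  have is : Function.Injective fun x => τ (ε x) := hτ.comp ε.injective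
  have is' : Function.Injective fun x => τ' (ε x) := hτ'.comp ε.injective
  have k₁ : ∀ x y, Sum.map (fun _ : Bool => ()) (id : ι₂ → ι₂) x = Sum.map (fun _ => ()) id y →
      ((fun x => τ (ε x)) x < (fun x => τ (ε x)) y ↔ τ (s.ε x) < τ (s.ε y)) := by
    intro x y _
    rw [hε]
  have k₂ : ∀ x y, Sum.map (fun _ : Bool => ()) (id : ι₂ → ι₂) x = Sum.map (fun _ => ()) id y →
      ((fun x => τ' (ε x)) x < (fun x => τ' (ε x)) y ↔ τ' (s.ε x) < τ' (s.ε y)) := by
    intro x y _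
    rw [hε]
  have hren : ∀ (U : PowerSeries ℂ) (x y : Bool),
      MvPowerSeries.rename s.ε (MvPowerSeries.rename Sum.inl
        (U.subst (MvPowerSeries.X x - MvPowerSeries.X y : MvPowerSeries Bool ℂ))) =
      (U.subst (MvPowerSeries.X (ε (Sum.inl x)) - MvPowerSeries.X (ε (Sum.inl y)) :
        MvPowerSeries ι ℂ)) := by
    intro U x y
    have h1 := CA1492.PA.rename_subst (σ := Bool) (τ := Bool ⊕ ι₂) (a := x) (b := y)
      ⟨Sum.inl, Sum.inl_injective⟩ U
    have h2 := CA1492.PA.rename_subst (σ := Bool ⊕ ι₂) (τ := ι) (a := Sum.inl x) (b := Sum.inl y)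
      s.ε.toEmbedding U
    have h3 : s.ε (Sum.inl x) = ε (Sum.inl x) := by rw [hε]
    have h4 : s.ε (Sum.inl y) = ε (Sum.inl y) := by rw [hε]
    have h1' : MvPowerSeries.rename Sum.inl
        (U.subst (MvPowerSeries.X x - MvPowerSeries.X y : MvPowerSeries Bool ℂ)) =
        U.subst (MvPowerSeries.X (Sum.inl x) - MvPowerSeries.X (Sum.inl y) :
          MvPowerSeries (Bool ⊕ ι₂) ℂ) := h1
    rw [h1', ← h3, ← h4]
    exact h2
  obtain ⟨t, ht, t', ht', hl, hl', hc, hS⟩ := h2 fun x => l (ε (Sum.inl x))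
  by_cases hQ : l (ε (Sum.inl false)) = l (ε (Sum.inl true))
  · have hP : PSG (sc fun x => RJ (l (ε (Sum.inl x)))) (tenRep fun x => RJ (l (ε (Sum.inl x))))
        (fun _ : Bool => ()) oP oM oP_inj oM_inj
        ((e (l (ε (Sum.inl false))) (l (ε (Sum.inl true)))).subst
          (MvPowerSeries.X false - MvPowerSeries.X true : MvPowerSeries Bool ℂ))
        ((e (l (ε (Sum.inl true))) (l (ε (Sum.inl false)))).subst
          (MvPowerSeries.X true - MvPowerSeries.X false : MvPowerSeries Bool ℂ))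
        ((q (l (ε (Sum.inl false))) (l (ε (Sum.inl true)))).subst
          (MvPowerSeries.X false - MvPowerSeries.X true : MvPowerSeries Bool ℂ))
        (MvPowerSeries.X false - MvPowerSeries.X true)
        (SW RJ (fun x => l (ε (Sum.inl x))) (Equiv.swap false true)
          (swap_letter (fun x => l (ε (Sum.inl x))) hQ) (fun _ => ()) (fun _ => rfl) oP oP_inj)
        True :=
      ⟨t, ht, t', ht', hl, hl', hc, fun _ f hf => hS hQ f hf⟩
    have hP2 := PSG_tr s hβ' is is' hτ hτ' k₁ k₂ _ _ _ _ _ _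
      (PSG_bx oP_inj i₂ is (hSO τ h) oM_inj i₂' is' (hSO' τ' h')
        (tenRep fun x => RJ (l (ε (Sum.inl x)))) (tenRep fun y => RJ (l (ε (Sum.inr y))))
        _ _ _ _ _ _ hP)
    rw [SW_tr RJ l ε s hε he₁ he₂ hA hQ β hβ hβ' oP_inj i₂ is (hSO τ h) τ hτ k₁, hren, hren,
      hren] at hP2
    obtain ⟨T, hT, T', hT', hL, hL', hC, hS'⟩ := hP2
    refine ⟨T, hT, T', hT', hL, hL', hC, fun _ f hf => hS' trivial f ?_⟩
    have hz : MvPowerSeries.rename s.ε (MvPowerSeries.rename Sum.inl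
        (MvPowerSeries.X false - MvPowerSeries.X true : MvPowerSeries Bool ℂ)) =
        (MvPowerSeries.X (ε (Sum.inl false)) - MvPowerSeries.X (ε (Sum.inl true)) :
          MvPowerSeries ι ℂ) := by
      rw [map_sub, map_sub, MvPowerSeries.rename_X, MvPowerSeries.rename_X,
        MvPowerSeries.rename_X, MvPowerSeries.rename_X, hε]
    rw [hz]
    exact hf
  · have hP : PSG (sc fun x => RJ (l (ε (Sum.inl x)))) (tenRep fun x => RJ (l (ε (Sum.inl x))))
        (fun _ : Bool => ()) oP oM oP_inj oM_inj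
        ((e (l (ε (Sum.inl false))) (l (ε (Sum.inl true)))).subst
          (MvPowerSeries.X false - MvPowerSeries.X true : MvPowerSeries Bool ℂ))
        ((e (l (ε (Sum.inl true))) (l (ε (Sum.inl false)))).subst
          (MvPowerSeries.X true - MvPowerSeries.X false : MvPowerSeries Bool ℂ))
        ((q (l (ε (Sum.inl false))) (l (ε (Sum.inl true)))).subst
          (MvPowerSeries.X false - MvPowerSeries.X true : MvPowerSeries Bool ℂ))
        (MvPowerSeries.X false - MvPowerSeries.X true) 0 False :=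
      ⟨t, ht, t', ht', hl, hl', hc, fun h => h.elim⟩
    have hP2 := PSG_tr s hβ' is is' hτ hτ' k₁ k₂ _ _ _ _ _ _
      (PSG_bx oP_inj i₂ is (hSO τ h) oM_inj i₂' is' (hSO' τ' h')
        (tenRep fun x => RJ (l (ε (Sum.inl x)))) (tenRep fun y => RJ (l (ε (Sum.inr y))))
        _ _ _ _ _ _ hP)
    rw [hren, hren, hren] at hP2
    obtain ⟨T, hT, T', hT', hL, hL', hC, -⟩ := hP2
    exact ⟨T, hT, T', hT', hL, hL', hC, fun hh => absurd hh hQ⟩

end

end Pool.Agent.Lib.MP_ca1492_al.P
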