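import Mathlib
import Pool.Agent.Lib.MP_ca1492_al.Cmp.PairS
import Pool.Agent.Lib.MP_ca1492_al.D5.Sys
import Pool.Agent.Lib.MP_ca1492_al.P.TenIso

/-!
# MP_ca1492_al, comparison, module StrD: the data `Strands` from the functionals of pairs

`RJ : D.J → GLRep F` cuspidal, pairwise not isomorphic. `TwoD D RJ e`: the functionals for two strands (all pairs of
letters), with the normalised squares `q1 D i j` and leads `e i j`. `strands_exist`: `Strands D ℓ (sc R) (tenRep R)` for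
`R = fun a => RJ (ℓ a)`.
-/

set_option autoImplicit false

namespace Pool.Agent.Lib.MP_ca1492_al.P

open Topology Matrix ValuativeRel TensorProduct
open Pool.Agent.Lib.MP_ca1492_al.Q (GLRep)
open CA1492

noncomputable section

variable {F : Type} [Field F] [ValuativeRel F] [TopologicalSpace F]
  [IsNonarchimedeanLocalField F]

/-- the normalised squares -/
def q1 (D : Dat) (i j : D.J) : PowerSeries ℂ :=
  if i = j then 1 else if D.arr i j = true then PowerSeries.X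
  else if D.arr j i = true then -PowerSeries.X else 1

theorem StrD_hasSubst {ι : Type} (a b : ι) :
    PowerSeries.HasSubst (MvPowerSeries.X a - MvPowerSeries.X b : MvPowerSeries ι ℂ) :=
  PA.Deriv_hasSubst a b

theorem StrD_one {ι : Type} (a b : ι) :
    (1 : PowerSeries ℂ).subst (MvPowerSeries.X a - MvPowerSeries.X b : MvPowerSeries ι ℂ) = 1 := by
  rw [← PowerSeries.coe_substAlgHom (StrD_hasSubst a b), map_one]

theorem StrD_neg {ι : Type} (a b : ι) (f : PowerSeries ℂ) :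
    (-f).subst (MvPowerSeries.X a - MvPowerSeries.X b : MvPowerSeries ι ℂ) =
      -(f.subst (MvPowerSeries.X a - MvPowerSeries.X b : MvPowerSeries ι ℂ)) := by
  rw [← PowerSeries.coe_substAlgHom (StrD_hasSubst a b), map_neg]

theorem StrD_X {ι : Type} (a b : ι) :
    (PowerSeries.X : PowerSeries ℂ).subst
      (MvPowerSeries.X a - MvPowerSeries.X b : MvPowerSeries ι ℂ) =
      MvPowerSeries.X a - MvPowerSeries.X b :=
  PowerSeries.subst_X (StrD_hasSubst a b)

theorem StrD_mul {ι : Type} (a b : ι) (f g : PowerSeries ℂ) :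
    (f * g).subst (MvPowerSeries.X a - MvPowerSeries.X b : MvPowerSeries ι ℂ) =
      f.subst (MvPowerSeries.X a - MvPowerSeries.X b : MvPowerSeries ι ℂ) *
      g.subst (MvPowerSeries.X a - MvPowerSeries.X b : MvPowerSeries ι ℂ) := by
  rw [← PowerSeries.coe_substAlgHom (StrD_hasSubst a b), map_mul]

theorem StrD_unit {ι : Type} (a b : ι) (f : PowerSeries ℂ) (h : IsUnit f) :
    IsUnit (f.subst (MvPowerSeries.X a - MvPowerSeries.X b : MvPowerSeries ι ℂ)) := by
  rw [← PowerSeries.coe_substAlgHom (StrD_hasSubst a b)]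
  exact h.map _

theorem q1_subst (D : Dat) {n : ℕ} (i j : D.J) (a b : Fin n) :
    (q1 D i j).subst (MvPowerSeries.X a - MvPowerSeries.X b : MvPowerSeries (Fin n) ℂ) =
      PA.QQ D i j a b := by
  unfold q1 PA.QQ
  split_ifs
  · exact StrD_one a b
  · exact StrD_X a b
  · rw [StrD_neg, StrD_X, neg_sub]
  · exact StrD_one a b

/-- the functionals for two strands -/
structure TwoD (D : Dat) (RJ : D.J → GLRep F) (e : D.J → D.J → PowerSeries ℂ) : Prop where
  hR : ∀ j, (RJ j).Cusp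
  hne : ∀ i j, i ≠ j → ¬ (RJ i).Isom (RJ j)
  h2 : ∀ l₂ : Bool → D.J, PS RJ l₂ e (q1 D) false true (fun _ => ()) pairB_bool oP oM oP_inj
    oM_inj
  hu : ∀ i j, i ≠ j → IsUnit (e i j)
  hu' : ∀ i, ∃ u : PowerSeries ℂ, IsUnit u ∧ e i i = u * PowerSeries.X

variable {D : Dat} {RJ : D.J → GLRep F} {e : D.J → D.J → PowerSeries ℂ} (P : TwoD D RJ e)
  {n : ℕ} (ℓ : Fin n → D.J)

theorem StrD_pairB {ι : Type} [Fintype ι] [DecidableEq ι] (a b : ι) : PairB (D5.mrg a b) a b :=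
  pairB_mrg a b

theorem StrD_lt {ι : Type} [DecidableEq ι] {τ τ' : ι → ℤ} {a b : ι} (h : τ' = D5.swO τ a b)
    (hab : τ a < τ b) : τ' b < τ' a := by
  rw [h]
  unfold D5.swO
  rw [Equiv.swap_apply_left, Equiv.swap_apply_right]
  exact hab

/-- the rank one functionals -/
def strRk (P : TwoD D RJ e) (ℓ : Fin n → D.J) :
    D5.RkSys (sc fun a => RJ (ℓ a)) (tenRep fun a => RJ (ℓ a)) where
  e a b := (e (ℓ a) (ℓ b)).subst (MvPowerSeries.X a - MvPowerSeries.X b : MvPowerSeries _ ℂ)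
  q a b := (q1 D (ℓ a) (ℓ b)).subst (MvPowerSeries.X a - MvPowerSeries.X b : MvPowerSeries _ ℂ)
  hex a b hab τ τ' hτ hτ' hττ h := by
    obtain ⟨t, ht, t', ht', h1, h2, h3, -⟩ := PS_all RJ ℓ e (q1 D) P.hR P.h2 a b hab
      (D5.mrg a b) (StrD_pairB a b) τ τ' hτ hτ' h (StrD_lt hττ h)
    refine ⟨t, t', ht, ht', h1, h2, fun f => h3 f _ fun g => ?_⟩
    exact D5.homL_apply _ _ _ _ _ _ _ _ t ht.1 f g

/-- the symmetries -/
def strSy (RJ : D.J → GLRep F) (ℓ : Fin n → D.J) :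
    D5.SymD (sc fun a => RJ (ℓ a)) (tenRep fun a => RJ (ℓ a)) (D5.stab ℓ) where
  bp :=
    { toFun := fun w => bperm RJ ℓ w (fun a => congrFun w.2 a)
      map_one' := bperm_one RJ ℓ _
      map_mul' := fun w w' => bperm_mul RJ ℓ w w' _ _ _ }
  A :=
    { toFun := fun w => Aw RJ ℓ w (fun a => congrFun w.2 a)
      map_one' := LinearEquiv.ext fun t => Aw_one RJ ℓ _ t
      map_mul' := fun w w' => LinearEquiv.ext fun t => Aw_mul RJ ℓ w w'
        (fun a => congrFun w.2 a) (fun a => congrFun w'.2 a) (fun a => congrFun (w * w').2 a) t }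
  hbp _ _ := rfl
  hA w m hm hm' v := Aw_inter RJ ℓ w (fun a => congrFun w.2 a) ⟨m, hm⟩ v

theorem StrD_e_ne (P : TwoD D RJ e) (i j : D.J) : e i j ≠ 0 := by
  by_cases h : i = j
  · subst h
    obtain ⟨u, hu, h1⟩ := P.hu' i
    rw [h1]
    exact mul_ne_zero hu.ne_zero PowerSeries.X_ne_zero
  · exact (P.hu i j h).ne_zero

theorem strSame (P : TwoD D RJ e) (ℓ : Fin n → D.J) (a b : Fin n) (hab : a ≠ b)
    (hl : ℓ a = ℓ b) (t : D5.stab ℓ) (ht : (t : Equiv.Perm (Fin n)) = Equiv.swap a b) :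
    D5.SameP (strRk P ℓ) (strSy RJ ℓ) t a b := by
  intro τ τ' hτ hττ h L hL hLe f hf x hx
  have hτ' : Function.Injective τ' := by
    rw [hττ]
    exact D5.swO_inj τ hτ a b
  obtain ⟨t₀, ht₀, t', ht', h1, h2, h3, h4⟩ := PS_all RJ ℓ e (q1 D) P.hR P.h2 a b hab
    (D5.mrg a b) (StrD_pairB a b) τ τ' hτ hτ' h (StrD_lt hττ h)
  have hR : ∀ a, (RJ (ℓ a)).Cusp := fun a => P.hR _
  have e1 : L = t₀ := X1_ext _ (sc_surj _ hR) _ τ τ' hτ hτ' _ (ten_smooth _ fun a => (hR a).1)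
    (ten_irr _ hR) (ten_cusp _ hR) L t₀ hL ht₀ _ hLe h1
  rw [e1, h4 hl f hf]
  have key : ∀ (w : Equiv.Perm (Fin n)) (hw : ∀ a, ℓ (w a) = ℓ a) (_ : w = Equiv.swap a b)
      (y : lev F (fun i => D5.mrg a b (sc (fun a => RJ (ℓ a)) i)))
      (_ : y.1 = permG F (bperm RJ ℓ w hw)),
      SW RJ ℓ (Equiv.swap a b) (swap_letter ℓ hl) (D5.mrg a b) (StrD_pairB a b).swap τ hτ f =
        TensorProduct.map (Aw RJ ℓ w hw : _ →ₗ[ℂ] _) (ren w) (f.1 y) := by
    rintro w hw rfl y hy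
    have h5 : permG F (bperm RJ ℓ (Equiv.swap a b) hw) *
        permG F (bperm RJ ℓ (Equiv.swap a b) hw) = 1 := by
      have h6 : ∀ z : Equiv.Perm (Fin n), z = 1 → ∀ hz : ∀ a, ℓ (z a) = ℓ a,
          permG F (bperm RJ ℓ z hz) = 1 := by
        rintro z rfl hz
        rw [bperm_one, permG_one]
      rw [← permG_mul, ← bperm_mul RJ ℓ _ _ hw hw (fun x => by
        rw [Equiv.Perm.mul_apply, hw, hw])]
      exact h6 _ (Equiv.swap_mul_self a b) _
    have h7 : y = ⟨(permG F (bperm RJ ℓ (Equiv.swap a b) (swap_letter ℓ hl)))⁻¹,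
        bperm_lev RJ ℓ _ (swap_letter ℓ hl) (D5.mrg a b) (StrD_pairB a b).swap⟩ := by
      refine Subtype.ext ?_
      rw [hy]
      exact eq_inv_of_mul_eq_one_left h5
    rw [h7]
    rfl
  exact key t (fun a => congrFun t.2 a) ht x hx

theorem strands_exist (P : TwoD D RJ e) (ℓ : Fin n → D.J) :
    Nonempty (D5.Strands D ℓ (sc fun a => RJ (ℓ a)) (tenRep fun a => RJ (ℓ a))) := by
  have hR : ∀ a, (RJ (ℓ a)).Cusp := fun a => P.hR _
  refine ⟨⟨sc_surj _ hR, ten_smooth _ fun a => (hR a).1, ten_irr _ hR, ten_cusp _ hR, strRk P ℓ,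
    strSy RJ ℓ, ?_, ?_, ?_, ?_, ?_, ?_⟩⟩
  · intro w a b hab
    show PowerSeries.subst _ (e (ℓ (w.1 a)) (ℓ (w.1 b))) = MvPowerSeries.rename _ (PowerSeries.subst _ (e (ℓ a) (ℓ b)))
    rw [show ℓ (w.1 a) = ℓ a from congrFun w.2 a, show ℓ (w.1 b) = ℓ b from congrFun w.2 b]
    exact (PA.rename_subst (w.1 : Equiv.Perm (Fin n)).toEmbedding _).symm
  · intro a b hab
    exact q1_subst D _ _ a b
  · intro a b hab hl t ht
    exact strSame P ℓ a b hab hl t ht
  · intro w ω hω hl A hA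
    rw [D5.mem_stab]
    funext a
    by_contra hne
    exact P.hne _ _ (fun h => hne h.symm) (ten_conj_isom _ hR w ω (fun i => hω i) hl ⟨A, hA⟩ a)
  · intro a b hab hl
    exact StrD_unit a b _ (P.hu _ _ hl)
  · intro a b hab hl
    obtain ⟨u, hu, h1⟩ := P.hu' (ℓ b)
    refine ⟨_, StrD_unit a b _ hu, ?_⟩
    show PowerSeries.subst _ (e (ℓ a) (ℓ b)) = _
    rw [hl, h1, StrD_mul, StrD_X]

end

end Pool.Agent.Lib.MP_ca1492_al.P
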