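import Mathlib
import Pool.Agent.Lib.MP_ca1492_al.Cmp.Fam
import Pool.Agent.Lib.MP_ca1492_al.Cmp.StrD
import Pool.Agent.Lib.MP_ca1492_al.D5.TwoD
import Pool.Agent.Lib.MP_ca1492_al.D5.TwoG
import Pool.Agent.Lib.MP_ca1492_al.D5.TwoH

/-!
# MP_ca1492_al, comparison, module Pair2: the functionals for two strands, all pairs of letters

`pair2`: letters `RJ j`, `j : D.J`, cuspidal, pairwise not isomorphic, `(RJ j).mul (RJ j)` irreducible, the two products of
two different letters are both irreducible iff there is no arrow between them. Then `TwoD D RJ e` for some `e`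
(input: `diff_main`, `same_main` of the folder `D5`).
-/

set_option autoImplicit false
set_option linter.unusedSectionVars false

namespace Pool.Agent.Lib.MP_ca1492_al.P

open Topology Matrix ValuativeRel TensorProduct
open Pool.Agent.Lib.MP_ca1492_al.Q (GLRep)
open Pool.Agent.Lib.MP_ca1492_al.D5 (dd sb Opp2)
open CA1492

noncomputable section

variable {F : Type} [Field F] [ValuativeRel F] [TopologicalSpace F]
  [IsNonarchimedeanLocalField F]

/-- the two orders of `Bool` -/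
theorem Pair2_opp : Opp2 (fun _ : Bool => ()) oP oM :=
  ⟨rfl, oP_inj, oM_inj, by decide⟩

theorem Pair2_dd (f : PowerSeries ℂ) :
    f.subst (MvPowerSeries.X true - MvPowerSeries.X false : MvPowerSeries Bool ℂ) =
      MvPowerSeries.rename sb (f.subst dd) := by
  have h := PA.rename_subst (a := false) (b := true) (sb : Equiv.Perm Bool).toEmbedding f
  have h1 : (MvPowerSeries.X ((sb : Equiv.Perm Bool).toEmbedding false) -
      MvPowerSeries.X ((sb : Equiv.Perm Bool).toEmbedding true) : MvPowerSeries Bool ℂ) =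
      MvPowerSeries.X true - MvPowerSeries.X false := by
    show (MvPowerSeries.X (sb false) - MvPowerSeries.X (sb true) : MvPowerSeries Bool ℂ) = _
    rw [Equiv.swap_apply_left, Equiv.swap_apply_right]
  rw [h1] at h
  exact h.symm

section

variable {κ V : Type} [Fintype κ] [DecidableEq κ] [AddCommGroup V] [Module ℂ V] {c : κ → Bool}
  {ρ : Representation ℂ (lev F c) V}

/-- operators give pairs of functionals -/
theorem Pair2_PSG {τ₁ τ₂ : Bool → ℤ} (H : Opp2 (fun _ : Bool => ()) τ₁ τ₂)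
    (Φ : ISp c (fun _ => ()) τ₁ H.h₁ (hat c ρ) →ₗ[ℂ] ISp c (fun _ => ()) τ₂ H.h₂ (hat c ρ))
    (Φ' : ISp c (fun _ => ()) τ₂ H.h₂ (hat c ρ) →ₗ[ℂ] ISp c (fun _ => ()) τ₁ H.h₁ (hat c ρ))
    (h₁ : Φ ∈ D5.XI c (fun _ => ()) τ₁ H.h₁ τ₂ H.h₂ ρ)
    (h₂ : Φ' ∈ D5.XI c (fun _ => ()) τ₂ H.h₂ τ₁ H.h₁ ρ) (ℓ ℓ' qq : MvPowerSeries Bool ℂ)
    (h₃ : D5.LeadI c (fun _ => ()) τ₁ H.h₁ τ₂ H.h₂ ρ Φ ℓ)
    (h₄ : D5.LeadI c (fun _ => ()) τ₂ H.h₂ τ₁ H.h₁ ρ Φ' ℓ')
    (h₅ : ∀ f, Φ' (Φ f) = opI c (fun _ => ()) τ₁ H.h₁ ρ qq f)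
    (z : MvPowerSeries Bool ℂ)
    (Sf : ISp c (fun _ => ()) τ₁ H.h₁ (hat c ρ) →ₗ[ℂ] V ⊗[ℂ] MvPolynomial Bool ℂ) (Q : Prop)
    (h₆ : Q → ∀ f, opI c (fun _ => ()) τ₁ H.h₁ ρ z f = 0 → (Φ f).1 1 = Sf f) :
    PSG c ρ (fun _ => ()) τ₁ τ₂ H.h₁ H.h₂ ℓ ℓ' qq z Sf Q := by
  refine ⟨ev1 c (fun _ => ()) τ₂ H.h₂ (hat c ρ) ∘ₗ Φ, D5.XI_X1 c (fun _ => ()) τ₁ H.h₁ τ₂ H.h₂ ρ Φ h₁,
    ev1 c (fun _ => ()) τ₁ H.h₁ (hat c ρ) ∘ₗ Φ',
    D5.XI_X1 c (fun _ => ()) τ₂ H.h₂ τ₁ H.h₁ ρ Φ' h₂, h₃, h₄,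
    fun f f' hf => ?_, h₆⟩
  have h7 : f' = Φ f := by
    refine Subtype.ext (funext fun g => ?_)
    rw [hf g]
    show (Φ (IRp c (fun _ => ()) τ₁ H.h₁ (hat c ρ) g f)).1 1 = (Φ f).1 g
    rw [h₁.1 g f]
    show (Φ f).1 (1 * g) = (Φ f).1 g
    rw [one_mul]
  rw [h7]
  show (Φ' (Φ f)).1 1 = _
  rw [h₅]
  rfl

end

variable {D : Dat} (RJ : D.J → GLRep F)

section Inv

variable {J ι : Type} [Fintype ι] [DecidableEq ι] (RJ : J → GLRep F) (l : ι → J)

/-- involutions -/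
theorem Pair2_bb (w : Equiv.Perm ι) (hw : ∀ x, l (w x) = l x) (h : w * w = 1) :
    bperm RJ l w hw * bperm RJ l w hw = 1 := by
  have h6 : ∀ z : Equiv.Perm ι, z = 1 → ∀ hz : ∀ a, l (z a) = l a, bperm RJ l z hz = 1 := by
    rintro z rfl hz
    exact bperm_one RJ l hz
  rw [← bperm_mul RJ l w w hw hw (fun x => by rw [Equiv.Perm.mul_apply, hw, hw])]
  exact h6 _ h _

theorem Pair2_AA (w : Equiv.Perm ι) (hw : ∀ x, l (w x) = l x) (h : w * w = 1)
    (t : ⨂[ℂ] a, (RJ (l a)).V) : Aw RJ l w hw (Aw RJ l w hw t) = t := by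
  have h6 : ∀ z : Equiv.Perm ι, z = 1 → ∀ hz : ∀ a, l (z a) = l a, Aw RJ l z hz t = t := by
    rintro z rfl hz
    exact Aw_one RJ l hz t
  rw [← Aw_mul RJ l w w hw hw (fun x => by rw [Equiv.Perm.mul_apply, hw, hw])]
  exact h6 _ h _

/-- a permutation matrix of an involution -/
theorem Pair2_inv (w : Equiv.Perm ι) (hw : ∀ x, l (w x) = l x) (h : w * w = 1) :
    (permG F (bperm RJ l w hw))⁻¹ = permG F (bperm RJ l w hw) := by
  have h5 : permG F (bperm RJ l w hw) * permG F (bperm RJ l w hw) = 1 := by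
    rw [← permG_mul, Pair2_bb RJ l w hw h, permG_one]
  exact inv_eq_of_mul_eq_one_left h5

theorem Pair2_isA (w : Equiv.Perm ι) (hw : ∀ x, l (w x) = l x) (h : w * w = 1) :
    IsA (sc fun a => RJ (l a)) (bperm RJ l w hw) (bperm_cls RJ l w hw)
      (tenRep fun a => RJ (l a)) (Aw RJ l w hw) := by
  obtain ⟨A, h1, h2⟩ := Aw_isA RJ l w hw
  have h3 : A = Aw RJ l w hw := LinearEquiv.ext fun t => by
    have h4 := h1 (Aw RJ l w hw t)
    rwa [Pair2_AA RJ l w hw h] at h4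
  rwa [h3] at h2

end Inv

theorem Pair2_sb : sb * sb = 1 := Equiv.swap_mul_self _ _

/-- equal letters: the involution -/
def pairSw (l₂ : Bool → D.J) (h : l₂ false = l₂ true) :
    D5.Sw2 (sc fun a => RJ (l₂ a)) (tenRep fun a => RJ (l₂ a)) where
  w := bperm RJ l₂ sb (swap_letter l₂ h)
  hw _ := rfl
  hww i := Equiv.congr_fun (Pair2_bb RJ l₂ sb (swap_letter l₂ h) Pair2_sb) i
  A := Aw RJ l₂ sb (swap_letter l₂ h)
  hA := Pair2_isA RJ l₂ sb (swap_letter l₂ h) Pair2_sb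
  hAA v := Pair2_AA RJ l₂ sb (swap_letter l₂ h) Pair2_sb v

theorem Pair2_unit (θ : PowerSeries ℂ) (h : PowerSeries.constantCoeff θ ≠ 0) : IsUnit θ :=
  PowerSeries.isUnit_iff_constantCoeff.2 (isUnit_iff_ne_zero.2 h)

/-- equal letters -/
theorem pair2_same (hR : ∀ j, (RJ j).Cusp) (j : D.J) (hirr : ((RJ j).mul (RJ j)).Irred) :
    ∃ e : PowerSeries ℂ, (∃ u : PowerSeries ℂ, IsUnit u ∧ e = u * PowerSeries.X) ∧
      PSG (sc fun _ : Bool => RJ j) (tenRep fun _ => RJ j) (fun _ => ()) oP oM oP_inj oM_inj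
        (e.subst dd) (MvPowerSeries.rename sb (e.subst dd)) 1 dd
        (SW RJ (fun _ => j) sb (fun _ => rfl) (fun _ => ()) (fun _ => rfl) oP oP_inj) True := by
  have hcs := sc_surj (fun _ : Bool => RJ j) (fun _ => hR j)
  have hρ := ten_smooth (fun _ : Bool => RJ j) (fun _ => (hR j).1)
  have hi := ten_irr (fun _ : Bool => RJ j) (fun _ => hR j)
  have hc := ten_cusp (fun _ : Bool => RJ j) (fun _ => hR j)
  have hirr' : Irr (IRp (sc fun _ : Bool => RJ j) (fun _ => ()) oP oP_inj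
      (tenRep fun _ => RJ j)) :=
    (mul_bool_irr (fun _ : Bool => RJ j) (fun _ => (hR j).1) oP_inj false true (by decide)).1 hirr
  obtain ⟨θ, Φ, Φ', h0, h1, h2, h3, h4, h5, h6, -, h8, -⟩ :=
    D5.same_main Pair2_opp hcs (pairSw RJ (fun _ => j) rfl) hρ hi hc hirr'
  have e1 : (θ * PowerSeries.X : PowerSeries ℂ).subst dd = dd * θ.subst dd := by
    have h9 := StrD_mul false true θ PowerSeries.X
    rw [StrD_X, mul_comm (PowerSeries.subst _ θ)] at h9
    exact h9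
  refine ⟨θ * PowerSeries.X, ⟨θ, Pair2_unit θ h0, rfl⟩, ?_⟩
  refine Pair2_PSG Pair2_opp Φ Φ' h2 h3 _ _ _ ?_ ?_ ?_ _ _ _ ?_
  · rw [e1]
    exact h4
  · rw [e1, map_mul, D5.rename_dd, h1, neg_mul]
    exact h5
  · intro f
    rw [opI_one, h6]
  · intro _ f hf
    rw [h8 f hf]
    show TensorProduct.map _ _ (f.1 _) = _
    have h9 : D5.wdot Pair2_opp (sc fun _ : Bool => RJ j) (pairSw RJ (fun _ => j) rfl).w * 1 =
        ⟨(permG F (bperm RJ (fun _ : Bool => j) sb (fun _ => rfl)))⁻¹,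
          bperm_lev RJ (fun _ : Bool => j) sb (fun _ => rfl) (fun _ => ()) (fun _ => rfl)⟩ := by
      refine Subtype.ext ?_
      rw [mul_one]
      exact (Pair2_inv RJ (fun _ : Bool => j) sb (fun _ => rfl) Pair2_sb).symm
    rw [h9]
    rfl

/-- different letters -/
theorem pair2_diff (hR : ∀ j, (RJ j).Cusp) (hne : ∀ i j, i ≠ j → ¬ (RJ i).Isom (RJ j))
    (hred : ∀ i j, i ≠ j → ((D.arr i j = true ∨ D.arr j i = true) ↔
      ¬ (((RJ i).mul (RJ j)).Irred ∧ ((RJ j).mul (RJ i)).Irred))) (l₂ : Bool → D.J)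
    (hl : l₂ false ≠ l₂ true) :
    ∃ θ : PowerSeries ℂ, IsUnit θ ∧
      PSG (sc fun x => RJ (l₂ x)) (tenRep fun x => RJ (l₂ x)) (fun _ => ()) oP oM oP_inj oM_inj
        (θ.subst dd) 1 ((q1 D (l₂ false) (l₂ true)).subst dd) dd 0 False ∧
      PSG (sc fun x => RJ (l₂ x)) (tenRep fun x => RJ (l₂ x)) (fun _ => ()) oM oP oM_inj oP_inj
        1 (θ.subst dd) ((q1 D (l₂ false) (l₂ true)).subst dd) dd 0 False := by
  have hcs := sc_surj (fun x => RJ (l₂ x)) (fun _ => hR _)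
  have hρ := ten_smooth (fun x => RJ (l₂ x)) (fun _ => (hR _).1)
  have hi := ten_irr (fun x => RJ (l₂ x)) (fun _ => hR _)
  have hc := ten_cusp (fun x => RJ (l₂ x)) (fun _ => hR _)
  have hno : D5.NoIso (sc fun x => RJ (l₂ x)) (tenRep fun x => RJ (l₂ x)) := by
    intro w hw A hA
    have h1 := ten_conj_isom (fun x => RJ (l₂ x)) (fun _ => hR _) w sb (fun i => hw i)
      (D5.hl_sb _ w hw) ⟨A, hA⟩ false
    exact hne _ _ hl h1
  obtain ⟨k, θ, Φ, Φ', hk, hθ, h1, h2, h3, h4, h5, h6, h7, h8⟩ :=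
    D5.diff_main Pair2_opp hcs hρ hi hc (D5.hypIrr F) (D5.hypIb F) hno
  rw [← mul_bool_irr (fun x => RJ (l₂ x)) (fun _ => (hR _).1) oP_inj false true (by decide)] at h7
  rw [← mul_bool_irr (fun x => RJ (l₂ x)) (fun _ => (hR _).1) oM_inj true false (by decide)] at h8
  have h9 := hred _ _ hl
  have hk1 : (D.arr (l₂ false) (l₂ true) = true ∨ D.arr (l₂ true) (l₂ false) = true) → k = 1 := by
    intro h
    have h10 := h9.1 h
    have h11 : k ≠ 0 := fun h0 => h10 ⟨h7.1 h0, h8.1 h0⟩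
    omega
  have hk0 : ¬ (D.arr (l₂ false) (l₂ true) = true ∨ D.arr (l₂ true) (l₂ false) = true) →
      k = 0 := by
    intro h
    have h10 : ((RJ (l₂ false)).mul (RJ (l₂ true))).Irred ∧
        ((RJ (l₂ true)).mul (RJ (l₂ false))).Irred := by
      by_contra h11
      exact h (h9.2 h11)
    exact h7.2 h10.1
  have hz : ∃ z : ℂ, z ≠ 0 ∧ (q1 D (l₂ false) (l₂ true)).subst dd =
      MvPowerSeries.C z * dd ^ k := by
    unfold q1
    rw [if_neg hl]
    split_ifs with h10 h11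
    · refine ⟨1, one_ne_zero, ?_⟩
      rw [hk1 (Or.inl h10), map_one, one_mul, pow_one]
      exact StrD_X false true
    · refine ⟨-1, neg_ne_zero.2 one_ne_zero, ?_⟩
      rw [hk1 (Or.inr h11), map_neg, map_one, pow_one, neg_one_mul]
      have h12 := StrD_neg false true PowerSeries.X
      rw [StrD_X] at h12
      exact h12
    · refine ⟨1, one_ne_zero, ?_⟩
      rw [hk0 (fun h => h.elim h10 h11), map_one, one_mul, pow_zero]
      exact StrD_one false true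
  obtain ⟨z, hz0, hz⟩ := hz
  have e1 : (z • θ : PowerSeries ℂ).subst dd = MvPowerSeries.C z * θ.subst dd := by
    have h10 : ((z • θ : PowerSeries ℂ).subst
        (MvPowerSeries.X false - MvPowerSeries.X true : MvPowerSeries Bool ℂ)) = z •
        (θ.subst (MvPowerSeries.X false - MvPowerSeries.X true : MvPowerSeries Bool ℂ)) := by
      rw [← PowerSeries.coe_substAlgHom (StrD_hasSubst false true), map_smul]
    rw [← MvPowerSeries.smul_eq_C_mul]
    exact h10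
  have hΦ : opI (sc fun x => RJ (l₂ x)) (fun _ => ()) oM oM_inj (tenRep fun x => RJ (l₂ x))
      (MvPowerSeries.C z) ∘ₗ Φ ∈ D5.XI (sc fun x => RJ (l₂ x)) (fun _ => ()) oP oP_inj oM oM_inj
        (tenRep fun x => RJ (l₂ x)) :=
    D5.XI_op (sc fun x => RJ (l₂ x)) (fun _ => ()) oP oM oP_inj oM_inj
      (tenRep fun x => RJ (l₂ x)) Φ h1 _
  have hL := D5.LeadI_op (sc fun x => RJ (l₂ x)) (fun _ => ()) oP oM oP_inj oM_inj
    (tenRep fun x => RJ (l₂ x)) Φ _ (MvPowerSeries.C z) h3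
  refine ⟨z • θ, ?_, ?_, ?_⟩
  · refine Pair2_unit _ ?_
    rw [PowerSeries.smul_eq_C_mul, map_mul, PowerSeries.constantCoeff_C]
    exact mul_ne_zero hz0 hθ
  · refine Pair2_PSG Pair2_opp _ Φ' hΦ h2 _ _ _ ?_ h4 ?_ _ _ _ ?_
    · rw [e1]
      exact hL
    · intro f
      rw [LinearMap.comp_apply, h2.2, h5, ← opI_mul, hz]
    · exact fun h => h.elim
  · refine Pair2_PSG Pair2_opp.symm Φ' _ h2 hΦ _ _ _ h4 ?_ ?_ _ _ _ ?_
    · rw [e1]
      exact hL
    · intro f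
      rw [LinearMap.comp_apply, h6, ← opI_mul, hz]
    · exact fun h => h.elim

theorem pair2_diff' (hR : ∀ j, (RJ j).Cusp) (hne : ∀ i j, i ≠ j → ¬ (RJ i).Isom (RJ j))
    (hred : ∀ i j, i ≠ j → ((D.arr i j = true ∨ D.arr j i = true) ↔
      ¬ (((RJ i).mul (RJ j)).Irred ∧ ((RJ j).mul (RJ i)).Irred))) (i j : D.J) (hij : i ≠ j) :
    ∃ θ : PowerSeries ℂ, IsUnit θ ∧ ∀ l₂ : Bool → D.J, l₂ false = i → l₂ true = j →
      PSG (sc fun x => RJ (l₂ x)) (tenRep fun x => RJ (l₂ x)) (fun _ => ()) oP oM oP_inj oM_inj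
        (θ.subst dd) 1 ((q1 D i j).subst dd) dd 0 False ∧
      PSG (sc fun x => RJ (l₂ x)) (tenRep fun x => RJ (l₂ x)) (fun _ => ()) oM oP oM_inj oP_inj
        1 (θ.subst dd) ((q1 D i j).subst dd) dd 0 False := by
  obtain ⟨θ, h1, h2⟩ := pair2_diff RJ hR hne hred (fun x => cond x j i) hij
  refine ⟨θ, h1, fun l₂ h3 h4 => ?_⟩
  obtain rfl : l₂ = fun x => cond x j i := funext fun x => by
    cases x
    · exact h3
    · exact h4
  exact h2

theorem PSG_false {κ ι ι' V : Type} [Fintype κ] [DecidableEq κ] [Fintype ι] [DecidableEq ι]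
    [AddCommGroup V] [Module ℂ V] {c : κ → ι} {ρ : Representation ℂ (lev F c) V}
    {β : ι → ι'} {τ τ' : ι → ℤ} {hτ : Function.Injective τ} {hτ' : Function.Injective τ'}
    {ℓ ℓ' qq z : MvPowerSeries ι ℂ}
    {Sf : ISp c β τ hτ (hat c ρ) →ₗ[ℂ] V ⊗[ℂ] MvPolynomial ι ℂ}
    (h : PSG c ρ β τ τ' hτ hτ' ℓ ℓ' qq z Sf False) (z' : MvPowerSeries ι ℂ)
    (Sf' : ISp c β τ hτ (hat c ρ) →ₗ[ℂ] V ⊗[ℂ] MvPolynomial ι ℂ) :
    PSG c ρ β τ τ' hτ hτ' ℓ ℓ' qq z' Sf' False := by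
  obtain ⟨t, ht, t', ht', h1, h2, h3, -⟩ := h
  exact ⟨t, ht, t', ht', h1, h2, h3, fun h => h.elim⟩

/-- exchange of the strands -/
theorem pair2_swap (l₂ : Bool → D.J) (ℓ ℓ' qq : MvPowerSeries Bool ℂ)
    (h : PSG (sc fun x => RJ (l₂ (sb x))) (tenRep fun x => RJ (l₂ (sb x))) (fun _ => ()) oM oP
      oM_inj oP_inj ℓ ℓ' qq dd 0 False) :
    PSG (sc fun x => RJ (l₂ x)) (tenRep fun x => RJ (l₂ x)) (fun _ => ()) oP oM oP_inj oM_inj
      (MvPowerSeries.rename sb ℓ) (MvPowerSeries.rename sb ℓ') (MvPowerSeries.rename sb qq) dd 0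
      False := by
  obtain ⟨s, hs, -⟩ := reindex_exists (fun x => RJ (l₂ x)) sb
  have h1 := PSG_tr s (β := fun _ => ()) (β' := fun _ => ())
    (fun _ _ => ⟨fun _ => rfl, fun _ => rfl⟩) oM_inj oP_inj oP_inj oM_inj
    (fun x y _ => by rw [hs]; revert x y; decide) (fun x y _ => by rw [hs]; revert x y; decide)
    ℓ ℓ' qq dd 0 False h
  have h2 : ∀ y : MvPowerSeries Bool ℂ, MvPowerSeries.rename s.ε y = MvPowerSeries.rename sb y :=
    fun y => by rw [hs]
  rw [h2, h2, h2] at h1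
  exact PSG_false h1 _ _

theorem pair2 (hR : ∀ j, (RJ j).Cusp) (hne : ∀ i j, i ≠ j → ¬ (RJ i).Isom (RJ j))
    (hself : ∀ j, ((RJ j).mul (RJ j)).Irred)
    (hred : ∀ i j, i ≠ j → ((D.arr i j = true ∨ D.arr j i = true) ↔
      ¬ (((RJ i).mul (RJ j)).Irred ∧ ((RJ j).mul (RJ i)).Irred))) :
    ∃ e : D.J → D.J → PowerSeries ℂ, TwoD D RJ e := by
  classical
  choose eS heS hS using fun j => pair2_same RJ hR j (hself j)
  have hD : ∀ i j, ∃ θ : PowerSeries ℂ, i ≠ j → IsUnit θ ∧ ∀ l₂ : Bool → D.J,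
      l₂ false = i → l₂ true = j →
      PSG (sc fun x => RJ (l₂ x)) (tenRep fun x => RJ (l₂ x)) (fun _ => ()) oP oM oP_inj oM_inj
        (θ.subst dd) 1 ((q1 D i j).subst dd) dd 0 False ∧
      PSG (sc fun x => RJ (l₂ x)) (tenRep fun x => RJ (l₂ x)) (fun _ => ()) oM oP oM_inj oP_inj
        1 (θ.subst dd) ((q1 D i j).subst dd) dd 0 False := by
    intro i j
    by_cases hij : i = j
    · exact ⟨0, fun h => absurd hij h⟩
    · obtain ⟨θ, h1⟩ := pair2_diff' RJ hR hne hred i j hij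
      exact ⟨θ, fun _ => h1⟩
  choose θ hθ using hD
  obtain ⟨r, hr⟩ : ∃ r : D.J → D.J → Prop, ∀ i j, i ≠ j → (r i j ↔ ¬ r j i) := by
    refine ⟨fun i j => Fintype.equivFin D.J i < Fintype.equivFin D.J j, fun i j hij => ?_⟩
    have h1 : Fintype.equivFin D.J i ≠ Fintype.equivFin D.J j := fun h =>
      hij ((Fintype.equivFin D.J).injective h)
    exact ⟨fun h => lt_asymm h, fun h => lt_of_le_of_ne (not_lt.1 h) h1⟩
  have hdd : ∀ f : PowerSeries ℂ, f.subst (MvPowerSeries.X false - MvPowerSeries.X true :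
      MvPowerSeries Bool ℂ) = f.subst dd := fun _ => rfl
  have hq : ∀ i j : D.J, i ≠ j → MvPowerSeries.rename sb ((q1 D j i).subst dd) =
      (q1 D i j).subst dd := by
    intro i j hij
    rw [← Pair2_dd]
    unfold q1
    rw [if_neg hij, if_neg hij.symm]
    by_cases h1 : D.arr i j = true
    · have h2 : D.arr j i ≠ true := by
        rw [D.asym i j h1]
        exact Bool.false_ne_true
      simp only [h1, h2, if_true, if_false, Bool.false_eq_true]
      rw [StrD_neg, StrD_X, neg_sub]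
      exact (StrD_X false true).symm
    · by_cases h2 : D.arr j i = true
      · simp only [h1, h2, if_true, if_false, Bool.false_eq_true]
        rw [StrD_X]
        have h3 := StrD_neg false true PowerSeries.X
        rw [StrD_X, neg_sub] at h3
        exact h3.symm
      · simp only [h1, h2, if_false, Bool.false_eq_true]
        rw [StrD_one]
        exact (StrD_one false true).symm
  obtain ⟨e, he1, he2, he3⟩ : ∃ e : D.J → D.J → PowerSeries ℂ, (∀ i, e i i = eS i) ∧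
      (∀ i j, i ≠ j → r i j → e i j = θ i j) ∧ ∀ i j, i ≠ j → ¬ r i j → e i j = 1 :=
    ⟨fun i j => if i = j then eS i else if r i j then θ i j else 1, fun i => if_pos rfl,
      fun i j hij h => by
        show (if i = j then eS i else if r i j then θ i j else 1) = _
        rw [if_neg hij, if_pos h],
      fun i j hij h => by
        show (if i = j then eS i else if r i j then θ i j else 1) = _
        rw [if_neg hij, if_neg h]⟩
  refine ⟨e, hR, hne, fun l₂ => ?_, fun i j hij => ?_, fun i => ?_⟩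
  · by_cases hl : l₂ false = l₂ true
    · obtain ⟨j, rfl⟩ : ∃ j, l₂ = fun _ => j := ⟨l₂ false, funext fun x => by
        cases x
        · rfl
        · exact hl.symm⟩
      obtain ⟨t, ht, t', ht', h1, h2, h3, h4⟩ := hS j
      rw [← he1 j] at h1 h2
      refine ⟨t, ht, t', ht', h1, ?_, ?_, fun _ => h4 trivial⟩
      · rw [Pair2_dd]
        exact h2
      · intro f f' hf
        rw [h3 f f' hf]
        unfold q1
        rw [if_pos rfl, StrD_one]
    · by_cases h5 : r (l₂ false) (l₂ true)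
      · obtain ⟨t, ht, t', ht', h1, h2, h3, -⟩ := ((hθ _ _ hl).2 l₂ rfl rfl).1
        refine ⟨t, ht, t', ht', ?_, ?_, h3, fun h => absurd h hl⟩
        · rw [he2 _ _ hl h5]
          exact h1
        · rw [he3 _ _ (fun h => hl h.symm) ((hr _ _ hl).1 h5), StrD_one]
          exact h2
      · have h6 : r (l₂ true) (l₂ false) := by
          by_contra h7
          exact h5 ((hr _ _ hl).2 h7)
        have h7 := ((hθ _ _ (fun h => hl h.symm)).2 (fun x => l₂ (sb x))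
          (congrArg l₂ (Equiv.swap_apply_left _ _)) (congrArg l₂ (Equiv.swap_apply_right _ _))).2
        obtain ⟨t, ht, t', ht', h1, h2, h3, -⟩ := pair2_swap RJ l₂ _ _ _ h7
        refine ⟨t, ht, t', ht', ?_, ?_, ?_, fun h => absurd h hl⟩
        · rw [he3 _ _ hl h5, StrD_one]
          rw [map_one] at h1
          exact h1
        · rw [he2 _ _ (fun h => hl h.symm) h6, Pair2_dd]
          exact h2
        · rw [hq _ _ hl] at h3
          exact h3
  · by_cases h5 : r i j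
    · rw [he2 i j hij h5]
      exact (hθ i j hij).1
    · rw [he3 i j hij h5]
      exact isUnit_one
  · rw [he1]
    exact heS i

/-- the form `PairT` of `Fn/LinkOf.lean` -/
theorem pair2T (D : Dat) (RJ : D.J → GLRep F) (hR : ∀ j, (RJ j).Cusp)
    (hne : ∀ i j, i ≠ j → ¬ (RJ i).Isom (RJ j)) (hself : ∀ i, ((RJ i).mul (RJ i)).Irred)
    (hfree : ∀ i j, i ≠ j → D.arr i j = false → D.arr j i = false →
      ((RJ i).mul (RJ j)).Irred ∧ ((RJ j).mul (RJ i)).Irred)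
    (hnb : ∀ i j, D.arr i j = true →
      ¬ (((RJ i).mul (RJ j)).Irred ∧ ((RJ j).mul (RJ i)).Irred)) :
    ∃ e : D.J → D.J → PowerSeries ℂ, TwoD D RJ e := by
  refine pair2 RJ hR hne hself fun i j hij => ⟨fun h => ?_, fun h => ?_⟩
  · rcases h with h | h
    · exact hnb i j h
    · exact fun h' => hnb j i h h'.symm
  · by_contra h1
    rw [not_or, Bool.not_eq_true, Bool.not_eq_true] at h1
    exact h (hfree i j hij h1.1 h1.2)

end

end Pool.Agent.Lib.MP_ca1492_al.P
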