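import Mathlib
import Pool.Agent.Lib.MP_ca1492_al.Cmp.ProdI
import Pool.Agent.Lib.MP_ca1492_al.Cmp.SumK

/-!
# MP_ca1492_al, comparison, module ProdX: intertwining functionals and products

`Φ_i : I_{τ_i}(hat ρ_i) → I_{τ_i'}(hat ρ_i)` homomorphisms with functionals `L_i = ev1 ∘ Φ_i`. The functional of
`Φ₁ × Φ₂` on `I_τ(hat (ρ₁ ⊠ ρ₂))` is `pfn L₁ L₂ : Θ f ↦ hE ((L₁ ⊗ L₂)(f 1))`.

* `pfn_X1`: `FS`: invariance under the unipotent group for `τ'` and equivariance for `lev (Sum.map c₁ c₂)`: the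
  elements are `blk g₁ g₂ u` with `g_i = m_i n_i`; `(R_g f)(1) = f(blk g₁ g₂ u) = sqmod • (R_{g₁} ⊗ R_{g₂}) f(1)`, the
  conditions of `L₁`, `L₂`, `dh_prod`, `hE_equi`. Power series: `comm_of_X`, `hE_op`, `opI` is pointwise.
* `pfn_lead`: let `f₀ = Θ f` be a test function of level `r` for `τ`. Then `f 1 ∈ I₁ ⊗ I₂` corresponds under `sumH` for
  the constant `β₁`, `β₂` to the restriction of `f₀` to the block diagonal group, a test function of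
  level `r` (`sqmod = 1` on the compact elements; the support: `h = p k` with `h` block diagonal: the blocks of
  `p`, `k` give `h ∈ P_{τ₁} K_r × P_{τ₂} K_r`), so by `KS_sum` `f 1 = Σ x_j ⊗ y_j` with test functions `x_j`, `y_j`.
  `Cr` is multiplicative: `npair` for `τ`, `τ'` and the constant `β`: both orders put `ι₁` before `ι₂`.
* `pfn_nat`: `prodH_apply`, `prodH_equi`.
-/

set_option autoImplicit false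

namespace Pool.Agent.Lib.MP_ca1492_al.P

open Topology Matrix ValuativeRel TensorProduct
open Pool.Agent.Lib.MP_ca1492_al.Q (GLRep)

noncomputable section

variable {F : Type} [Field F] [ValuativeRel F] [TopologicalSpace F]
  [IsNonarchimedeanLocalField F]

/-! ### block matrices -/

def ProdX_det {κ : Type} [Fintype κ] [DecidableEq κ] (g : GL κ F) :
    ordF F (g : Matrix κ κ F).det = vl (fun _ : κ => ()) g () := by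
  unfold vl bdet
  let e : κ ≃ {i : κ // (fun _ : κ => ()) i = ()} :=
    ⟨fun i => ⟨i, rfl⟩, fun x => x.1, fun _ => rfl, fun _ => rfl⟩
  rw [← Matrix.det_submatrix_equiv_self e]
  rfl

section

variable {κ₁ κ₂ : Type} [Fintype κ₁] [DecidableEq κ₁] [Fintype κ₂] [DecidableEq κ₂]

def ProdX_sqmod (g₁ : GL κ₁ F) (g₂ : GL κ₂ F) (h₁ : vl (fun _ : κ₁ => ()) g₁ () = 0)
    (h₂ : vl (fun _ : κ₂ => ()) g₂ () = 0) : Q.GLRep.sqmod g₁ g₂ = 1 := by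
  have hd₁ : (g₁ : Matrix κ₁ κ₁ F).det ≠ 0 := (Matrix.isUnits_det_units g₁).ne_zero
  have hd₂ : (g₂ : Matrix κ₂ κ₂ F).det ≠ 0 := (Matrix.isUnits_det_units g₂).ne_zero
  unfold Q.GLRep.sqmod
  rw [absF_eq _ hd₁, absF_eq _ hd₂, ProdX_det, ProdX_det, h₁, h₂]
  simp

def ProdX_blk (g : GL (κ₁ ⊕ κ₂) F)
    (h : ∀ i j, (g : Matrix (κ₁ ⊕ κ₂) (κ₁ ⊕ κ₂) F) (Sum.inr i) (Sum.inl j) = 0)
    (h' : ∀ i j, ((g⁻¹ : GL (κ₁ ⊕ κ₂) F) : Matrix (κ₁ ⊕ κ₂) (κ₁ ⊕ κ₂) F)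
      (Sum.inr i) (Sum.inl j) = 0) :
    ∃ (g₁ : GL κ₁ F) (g₂ : GL κ₂ F) (u : Matrix κ₁ κ₂ F), g = Q.blk F g₁ g₂ u ∧
      (∀ i j, (g₁ : Matrix κ₁ κ₁ F) i j =
        (g : Matrix (κ₁ ⊕ κ₂) (κ₁ ⊕ κ₂) F) (Sum.inl i) (Sum.inl j)) ∧
      (∀ i j, ((g₁⁻¹ : GL κ₁ F) : Matrix κ₁ κ₁ F) i j =
        ((g⁻¹ : GL (κ₁ ⊕ κ₂) F) : Matrix (κ₁ ⊕ κ₂) (κ₁ ⊕ κ₂) F) (Sum.inl i) (Sum.inl j)) ∧
      (∀ i j, (g₂ : Matrix κ₂ κ₂ F) i j =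
        (g : Matrix (κ₁ ⊕ κ₂) (κ₁ ⊕ κ₂) F) (Sum.inr i) (Sum.inr j)) ∧
      (∀ i j, ((g₂⁻¹ : GL κ₂ F) : Matrix κ₂ κ₂ F) i j =
        ((g⁻¹ : GL (κ₁ ⊕ κ₂) F) : Matrix (κ₁ ⊕ κ₂) (κ₁ ⊕ κ₂) F) (Sum.inr i) (Sum.inr j)) := by
  have e1 : (g : Matrix (κ₁ ⊕ κ₂) (κ₁ ⊕ κ₂) F) = Matrix.fromBlocks
      (g : Matrix (κ₁ ⊕ κ₂) (κ₁ ⊕ κ₂) F).toBlocks₁₁ (g : Matrix (κ₁ ⊕ κ₂) (κ₁ ⊕ κ₂) F).toBlocks₁₂
      0 (g : Matrix (κ₁ ⊕ κ₂) (κ₁ ⊕ κ₂) F).toBlocks₂₂ := by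
    ext (i | i) (j | j)
    · rfl
    · rfl
    · exact h i j
    · rfl
  have e2 : ((g⁻¹ : GL (κ₁ ⊕ κ₂) F) : Matrix (κ₁ ⊕ κ₂) (κ₁ ⊕ κ₂) F) = Matrix.fromBlocks
      ((g⁻¹ : GL (κ₁ ⊕ κ₂) F) : Matrix (κ₁ ⊕ κ₂) (κ₁ ⊕ κ₂) F).toBlocks₁₁
      ((g⁻¹ : GL (κ₁ ⊕ κ₂) F) : Matrix (κ₁ ⊕ κ₂) (κ₁ ⊕ κ₂) F).toBlocks₁₂
      0 ((g⁻¹ : GL (κ₁ ⊕ κ₂) F) : Matrix (κ₁ ⊕ κ₂) (κ₁ ⊕ κ₂) F).toBlocks₂₂ := by
    ext (i | i) (j | j)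
    · rfl
    · rfl
    · exact h' i j
    · rfl
  have m1 : (g : Matrix (κ₁ ⊕ κ₂) (κ₁ ⊕ κ₂) F) *
      ((g⁻¹ : GL (κ₁ ⊕ κ₂) F) : Matrix (κ₁ ⊕ κ₂) (κ₁ ⊕ κ₂) F) = 1 := by
    rw [← Units.val_mul, mul_inv_cancel, Units.val_one]
  have m2 : ((g⁻¹ : GL (κ₁ ⊕ κ₂) F) : Matrix (κ₁ ⊕ κ₂) (κ₁ ⊕ κ₂) F) *
      (g : Matrix (κ₁ ⊕ κ₂) (κ₁ ⊕ κ₂) F) = 1 := by
    rw [← Units.val_mul, inv_mul_cancel, Units.val_one]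
  rw [e1, e2, Matrix.fromBlocks_multiply, ← Matrix.fromBlocks_one, Matrix.fromBlocks_inj] at m1 m2
  simp only [Matrix.mul_zero, add_zero, Matrix.zero_mul, zero_add] at m1 m2
  refine ⟨⟨_, _, m1.1, m2.1⟩, ⟨_, _, m1.2.2.2, m2.2.2.2⟩,
    (g : Matrix (κ₁ ⊕ κ₂) (κ₁ ⊕ κ₂) F).toBlocks₁₂, Units.ext e1, fun _ _ => rfl, fun _ _ => rfl,
    fun _ _ => rfl, fun _ _ => rfl⟩

end

variable {κ₁ κ₂ ι₁ ι₂ V₁ V₂ : Type} [Fintype κ₁] [DecidableEq κ₁] [Fintype κ₂] [DecidableEq κ₂]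
  [Fintype ι₁] [DecidableEq ι₁] [Fintype ι₂] [DecidableEq ι₂]
  [AddCommGroup V₁] [Module ℂ V₁] [AddCommGroup V₂] [Module ℂ V₂]
  {c₁ : κ₁ → ι₁} {c₂ : κ₂ → ι₂}
variable {τ₁ : ι₁ → ℤ} (hτ₁ : Function.Injective τ₁) {τ₂ : ι₂ → ℤ} (hτ₂ : Function.Injective τ₂)
  {τ : ι₁ ⊕ ι₂ → ℤ} (hτ : Function.Injective τ) (h : BOrd τ₁ τ₂ τ)
  {τ₁' : ι₁ → ℤ} (hτ₁' : Function.Injective τ₁') {τ₂' : ι₂ → ℤ}
  (hτ₂' : Function.Injective τ₂') {τ' : ι₁ ⊕ ι₂ → ℤ} (hτ' : Function.Injective τ')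
  (h' : BOrd τ₁' τ₂' τ')
  (ρ₁ : Representation ℂ (lev F c₁) V₁) (ρ₂ : Representation ℂ (lev F c₂) V₂)
  (L₁ : ISp c₁ (fun _ => ()) τ₁ hτ₁ (hat c₁ ρ₁) →ₗ[ℂ] V₁ ⊗[ℂ] MvPolynomial ι₁ ℂ)
  (L₂ : ISp c₂ (fun _ => ()) τ₂ hτ₂ (hat c₂ ρ₂) →ₗ[ℂ] V₂ ⊗[ℂ] MvPolynomial ι₂ ℂ)

/-- evaluation at `1` in the product -/
def evP : Q.GLRep.indSp (indG c₁ τ₁ hτ₁ (hat c₁ ρ₁)) (indG c₂ τ₂ hτ₂ (hat c₂ ρ₂)) →ₗ[ℂ]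
    ISp c₁ (fun _ => ()) τ₁ hτ₁ (hat c₁ ρ₁) ⊗[ℂ] ISp c₂ (fun _ => ()) τ₂ hτ₂ (hat c₂ ρ₂) where
  toFun f := f.1 1
  map_add' _ _ := rfl
  map_smul' _ _ := rfl

/-- the functional of a product of homomorphisms -/
def pfn : ISp (Sum.map c₁ c₂) (fun _ => ()) τ hτ (hat (Sum.map c₁ c₂) (ext ρ₁ ρ₂)) →ₗ[ℂ]
    (V₁ ⊗[ℂ] V₂) ⊗[ℂ] MvPolynomial (ι₁ ⊕ ι₂) ℂ :=
  (hE V₁ V₂ ι₁ ι₂ : _ →ₗ[ℂ] _) ∘ₗ TensorProduct.map L₁ L₂ ∘ₗ evP hτ₁ hτ₂ ρ₁ ρ₂ ∘ₗ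
    ((prodH hτ₁ hτ₂ hτ h ρ₁ ρ₂).symm : _ →ₗ[ℂ] _)

def ProdX_pfn (f : Q.GLRep.indSp (indG c₁ τ₁ hτ₁ (hat c₁ ρ₁)) (indG c₂ τ₂ hτ₂ (hat c₂ ρ₂))) :
    pfn hτ₁ hτ₂ hτ h ρ₁ ρ₂ L₁ L₂ (prodH hτ₁ hτ₂ hτ h ρ₁ ρ₂ f) =
      hE V₁ V₂ ι₁ ι₂ (TensorProduct.map L₁ L₂ (f.1 1)) := by
  show hE V₁ V₂ ι₁ ι₂ (TensorProduct.map L₁ L₂ (evP hτ₁ hτ₂ ρ₁ ρ₂
    ((prodH hτ₁ hτ₂ hτ h ρ₁ ρ₂).symm (prodH hτ₁ hτ₂ hτ h ρ₁ ρ₂ f)))) = _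
  rw [LinearEquiv.symm_apply_apply]
  rfl

def ProdX_pfn_g (g : GL (κ₁ ⊕ κ₂) F)
    (f : Q.GLRep.indSp (indG c₁ τ₁ hτ₁ (hat c₁ ρ₁)) (indG c₂ τ₂ hτ₂ (hat c₂ ρ₂))) :
    pfn hτ₁ hτ₂ hτ h ρ₁ ρ₂ L₁ L₂
      (IRp (Sum.map c₁ c₂) (fun _ => ()) τ hτ (hat (Sum.map c₁ c₂) (ext ρ₁ ρ₂))
        (levC F (κ₁ ⊕ κ₂) g) (prodH hτ₁ hτ₂ hτ h ρ₁ ρ₂ f)) =
      hE V₁ V₂ ι₁ ι₂ (TensorProduct.map L₁ L₂ (f.1 g)) := by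
  rw [← prodH_equi, ProdX_pfn]
  have h1 : (Q.GLRep.indRep (indG c₁ τ₁ hτ₁ (hat c₁ ρ₁)) (indG c₂ τ₂ hτ₂ (hat c₂ ρ₂)) g f).1 1 =
      f.1 (1 * g) := rfl
  rw [h1, one_mul]

/-- power series -/
def ProdX_op (y₁ : MvPowerSeries ι₁ ℂ) (y₂ : MvPowerSeries ι₂ ℂ)
    (f : Q.GLRep.indSp (indG c₁ τ₁ hτ₁ (hat c₁ ρ₁)) (indG c₂ τ₂ hτ₂ (hat c₂ ρ₂))) :
    opI (Sum.map c₁ c₂) (fun _ => ()) τ hτ (ext ρ₁ ρ₂)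
        (MvPowerSeries.rename Sum.inl y₁ * MvPowerSeries.rename Sum.inr y₂)
        (prodH hτ₁ hτ₂ hτ h ρ₁ ρ₂ f) =
      prodH hτ₁ hτ₂ hτ h ρ₁ ρ₂ (prMap
        (pull (levC F κ₁) (IRp c₁ (fun _ => ()) τ₁ hτ₁ (hat c₁ ρ₁)))
        (pull (levC F κ₂) (IRp c₂ (fun _ => ()) τ₂ hτ₂ (hat c₂ ρ₂)))
        (pull (levC F κ₁) (IRp c₁ (fun _ => ()) τ₁ hτ₁ (hat c₁ ρ₁)))
        (pull (levC F κ₂) (IRp c₂ (fun _ => ()) τ₂ hτ₂ (hat c₂ ρ₂))) (opI c₁ (fun _ => ()) τ₁ hτ₁ ρ₁ y₁)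
        (opI c₂ (fun _ => ()) τ₂ hτ₂ ρ₂ y₂) (fun g v => rfl) (fun g v => rfl) f) := by
  refine Subtype.ext (funext fun x => ?_)
  have hx : x = levC F (κ₁ ⊕ κ₂) x.1 := rfl
  rw [hx, prodH_apply]
  have h1 : (opI (Sum.map c₁ c₂) (fun _ => ()) τ hτ (ext ρ₁ ρ₂)
        (MvPowerSeries.rename Sum.inl y₁ * MvPowerSeries.rename Sum.inr y₂)
        (prodH hτ₁ hτ₂ hτ h ρ₁ ρ₂ f)).1 (levC F (κ₁ ⊕ κ₂) x.1) =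
      opE (V₁ ⊗[ℂ] V₂) (MvPowerSeries.rename Sum.inl y₁ * MvPowerSeries.rename Sum.inr y₂)
        ((prodH hτ₁ hτ₂ hτ h ρ₁ ρ₂ f).1 (levC F (κ₁ ⊕ κ₂) x.1)) := rfl
  rw [h1, prodH_apply, ← hE_op]
  congr 1
  have h2 : (prMap
        (pull (levC F κ₁) (IRp c₁ (fun _ => ()) τ₁ hτ₁ (hat c₁ ρ₁)))
        (pull (levC F κ₂) (IRp c₂ (fun _ => ()) τ₂ hτ₂ (hat c₂ ρ₂)))
        (pull (levC F κ₁) (IRp c₁ (fun _ => ()) τ₁ hτ₁ (hat c₁ ρ₁)))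
        (pull (levC F κ₂) (IRp c₂ (fun _ => ()) τ₂ hτ₂ (hat c₂ ρ₂))) (opI c₁ (fun _ => ()) τ₁ hτ₁ ρ₁ y₁)
        (opI c₂ (fun _ => ()) τ₂ hτ₂ ρ₂ y₂) (fun g v => rfl) (fun g v => rfl) f).1 x.1 =
      TensorProduct.map (opI c₁ (fun _ => ()) τ₁ hτ₁ ρ₁ y₁)
        (opI c₂ (fun _ => ()) τ₂ hτ₂ ρ₂ y₂) (f.1 x.1) := rfl
  rw [h2]
  generalize (f.1 x.1 : (ISp c₁ (fun _ => ()) τ₁ hτ₁ (hat c₁ ρ₁)) ⊗[ℂ]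
    (ISp c₂ (fun _ => ()) τ₂ hτ₂ (hat c₂ ρ₂))) = t
  induction t using TensorProduct.induction_on with
  | zero => simp only [map_zero]
  | add a b ha hb => simp only [map_add, ha, hb]
  | tmul a b => rfl

/-- tensor products of equivariant maps -/
def ProdX_map {A₁ A₂ B₁ B₂ : Type} [AddCommGroup A₁] [Module ℂ A₁] [AddCommGroup A₂]
    [Module ℂ A₂] [AddCommGroup B₁] [Module ℂ B₁] [AddCommGroup B₂] [Module ℂ B₂]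
    (L₁ : A₁ →ₗ[ℂ] B₁) (L₂ : A₂ →ₗ[ℂ] B₂) (R₁ : A₁ →ₗ[ℂ] A₁) (R₂ : A₂ →ₗ[ℂ] A₂)
    (S₁ : B₁ →ₗ[ℂ] B₁) (S₂ : B₂ →ₗ[ℂ] B₂) (a b : ℂ) (h₁ : ∀ x, L₁ (R₁ x) = a • S₁ (L₁ x))
    (h₂ : ∀ x, L₂ (R₂ x) = b • S₂ (L₂ x)) (t : A₁ ⊗[ℂ] A₂) :
    TensorProduct.map L₁ L₂ (TensorProduct.map R₁ R₂ t) =
      (a * b) • TensorProduct.map S₁ S₂ (TensorProduct.map L₁ L₂ t) := by
  induction t using TensorProduct.induction_on with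
  | zero => simp only [map_zero, smul_zero]
  | add a b ha hb => simp only [map_add, ha, hb, smul_add]
  | tmul x y =>
    rw [TensorProduct.map_tmul, TensorProduct.map_tmul, TensorProduct.map_tmul,
      TensorProduct.map_tmul, h₁, h₂, TensorProduct.smul_tmul, TensorProduct.tmul_smul,
      TensorProduct.tmul_smul, smul_smul]

/-- the value of a function of the product at a block triangular element -/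
def ProdX_blk_val (f : Q.GLRep.indSp (indG c₁ τ₁ hτ₁ (hat c₁ ρ₁))
      (indG c₂ τ₂ hτ₂ (hat c₂ ρ₂))) (g₁ : GL κ₁ F) (g₂ : GL κ₂ F) (u : Matrix κ₁ κ₂ F) :
    f.1 (Q.blk F g₁ g₂ u) = (Q.GLRep.sqmod g₁ g₂ : ℂ) • TensorProduct.map
      (IRp c₁ (fun _ => ()) τ₁ hτ₁ (hat c₁ ρ₁) (levC F κ₁ g₁))
      (IRp c₂ (fun _ => ()) τ₂ hτ₂ (hat c₂ ρ₂) (levC F κ₂ g₂)) (f.1 1) := by
  have h1 := f.2.1 g₁ g₂ u 1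
  rw [mul_one] at h1
  exact h1

def ProdX_eq {ι₀ : Type} {a : ι₀ → ℤ} {b : ι₀ → ℤ} (h : ∀ x y, a x < a y ↔ b x < b y)
    (x y : ι₀) (hxy : a x = a y) : b x = b y := by
  refine le_antisymm (not_lt.1 fun h1 => ?_) (not_lt.1 fun h1 => ?_)
  · exact absurd ((h y x).2 h1) (by rw [hxy]; exact lt_irrefl _)
  · exact absurd ((h x y).2 h1) (by rw [hxy]; exact lt_irrefl _)

include h' in
def pfn_X1 (hL₁ : L₁ ∈ X1 c₁ (fun _ => ()) τ₁ hτ₁ τ₁' ρ₁)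
    (hL₂ : L₂ ∈ X1 c₂ (fun _ => ()) τ₂ hτ₂ τ₂' ρ₂) :
    pfn hτ₁ hτ₂ hτ h ρ₁ ρ₂ L₁ L₂ ∈ X1 (Sum.map c₁ c₂) (fun _ => ()) τ hτ τ' (ext ρ₁ ρ₂) := by
  refine comm_of_X _ _ _ _ _ _ _ ⟨?_, ?_⟩ ?_
  · intro n hn F'
    obtain ⟨f, rfl⟩ := (prodH hτ₁ hτ₂ hτ h ρ₁ ρ₂).surjective F'
    have hni := (uni F _ _).inv_mem hn
    obtain ⟨n₁, n₂, u, e, hn1, hn1', hn2, hn2'⟩ := ProdX_blk n.1
      (fun i j => hn.1.2 _ _ (h'.2.2 (c₁ j) (c₂ i))) (fun i j => hni.1.2 _ _ (h'.2.2 (c₁ j) (c₂ i)))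
    have hu₁ : n₁ ∈ uni F (fun _ : κ₁ => ()) (fun i => τ₁' (c₁ i)) := by
      refine ⟨⟨fun i j hij => absurd rfl hij, fun i j hij => ?_⟩, fun i j hij => ?_⟩
      · rw [hn1]
        exact hn.1.2 _ _ ((h'.1 _ _).1 hij)
      · rw [hn1, hn.2 (Sum.inl i) (Sum.inl j) (ProdX_eq h'.1 _ _ hij), Matrix.one_apply,
          Matrix.one_apply]
        simp only [Sum.inl.injEq]
    have hu₂ : n₂ ∈ uni F (fun _ : κ₂ => ()) (fun i => τ₂' (c₂ i)) := by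
      refine ⟨⟨fun i j hij => absurd rfl hij, fun i j hij => ?_⟩, fun i j hij => ?_⟩
      · rw [hn2]
        exact hn.1.2 _ _ ((h'.2.1 _ _).1 hij)
      · rw [hn2, hn.2 (Sum.inr i) (Sum.inr j) (ProdX_eq h'.2.1 _ _ hij), Matrix.one_apply,
          Matrix.one_apply]
        simp only [Sum.inr.injEq]
    have e1 := ProdX_pfn_g hτ₁ hτ₂ hτ h ρ₁ ρ₂ L₁ L₂ n.1 f
    have e2 : levC F (κ₁ ⊕ κ₂) n.1 = n := rfl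
    rw [e2] at e1
    rw [e1, ProdX_pfn, e, ProdX_blk_val, ProdX_sqmod n₁ n₂ (vl_uni _ _ n₁ hu₁ ())
      (vl_uni _ _ n₂ hu₂ ()), Complex.ofReal_one, one_smul,
      ProdX_map L₁ L₂ _ _ LinearMap.id LinearMap.id 1 1, mul_one, one_smul, TensorProduct.map_id]
    · rfl
    · intro x
      rw [one_smul]
      exact hL₁.1.1 (levC F κ₁ n₁) hu₁ x
    · intro x
      rw [one_smul]
      exact hL₂.1.1 (levC F κ₂ n₂) hu₂ x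
  · intro m hm hm' F'
    obtain ⟨f, rfl⟩ := (prodH hτ₁ hτ₂ hτ h ρ₁ ρ₂).surjective F'
    have e1 := ProdX_pfn_g hτ₁ hτ₂ hτ h ρ₁ ρ₂ L₁ L₂ m f
    have e2 : levC F (κ₁ ⊕ κ₂) m = ⟨m, hm'⟩ := rfl
    rw [e2] at e1
    have e3 : m = Q.blk F (pr₁ F c₁ c₂ ⟨m, hm⟩).1 (pr₂ F c₁ c₂ ⟨m, hm⟩).1 0 := by
      have h1 := congrArg Subtype.val (lsum_pr c₁ c₂ ⟨m, hm⟩)
      exact h1.symm.trans (Units.ext rfl)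
    have e4 : f.1 m = (Q.GLRep.sqmod (pr₁ F c₁ c₂ ⟨m, hm⟩).1 (pr₂ F c₁ c₂ ⟨m, hm⟩).1 : ℂ) •
        TensorProduct.map
          (IRp c₁ (fun _ => ()) τ₁ hτ₁ (hat c₁ ρ₁) (levC F κ₁ (pr₁ F c₁ c₂ ⟨m, hm⟩).1))
          (IRp c₂ (fun _ => ()) τ₂ hτ₂ (hat c₂ ρ₂) (levC F κ₂ (pr₂ F c₁ c₂ ⟨m, hm⟩).1))
          (f.1 1) := (congrArg f.1 e3).trans (ProdX_blk_val hτ₁ hτ₂ ρ₁ ρ₂ f _ _ 0)
    rw [e1, ProdX_pfn, e4, map_smul,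
      ProdX_map L₁ L₂ _ _ (hat c₁ ρ₁ (pr₁ F c₁ c₂ ⟨m, hm⟩)) (hat c₂ ρ₂ (pr₂ F c₁ c₂ ⟨m, hm⟩))
        (dh c₁ (fun _ => ()) τ₁' (pr₁ F c₁ c₂ ⟨m, hm⟩) : ℂ)
        (dh c₂ (fun _ => ()) τ₂' (pr₂ F c₁ c₂ ⟨m, hm⟩) : ℂ), smul_smul, ← dh_prod c₁ c₂ h', map_smul]
    · congr 1
      exact hE_equi ρ₁ ρ₂ ⟨m, hm⟩ _
    · intro x
      exact hL₁.1.2 (pr₁ F c₁ c₂ ⟨m, hm⟩).1 (pr₁ F c₁ c₂ ⟨m, hm⟩).2 _ x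
    · intro x
      exact hL₂.1.2 (pr₂ F c₁ c₂ ⟨m, hm⟩).1 (pr₂ F c₁ c₂ ⟨m, hm⟩).2 _ x
  · have key : ∀ (y₁ : MvPowerSeries ι₁ ℂ) (y₂ : MvPowerSeries ι₂ ℂ) F',
        pfn hτ₁ hτ₂ hτ h ρ₁ ρ₂ L₁ L₂ (opI (Sum.map c₁ c₂) (fun _ => ()) τ hτ (ext ρ₁ ρ₂)
          (MvPowerSeries.rename Sum.inl y₁ * MvPowerSeries.rename Sum.inr y₂) F') =
        opE (V₁ ⊗[ℂ] V₂) (MvPowerSeries.rename Sum.inl y₁ * MvPowerSeries.rename Sum.inr y₂)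
          (pfn hτ₁ hτ₂ hτ h ρ₁ ρ₂ L₁ L₂ F') := by
      intro y₁ y₂ F'
      obtain ⟨f, rfl⟩ := (prodH hτ₁ hτ₂ hτ h ρ₁ ρ₂).surjective F'
      rw [ProdX_op, ProdX_pfn, ProdX_pfn, ← hE_op]
      congr 1
      have h1 := ProdX_map L₁ L₂ (opI c₁ (fun _ => ()) τ₁ hτ₁ ρ₁ y₁)
        (opI c₂ (fun _ => ()) τ₂ hτ₂ ρ₂ y₂) (opE V₁ y₁) (opE V₂ y₂) 1 1
        (fun x => by rw [one_smul]; exact hL₁.2 y₁ x) (fun x => by rw [one_smul]; exact hL₂.2 y₂ x)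
        (f.1 1)
      rw [mul_one, one_smul] at h1
      exact h1
    rintro (x | x) F'
    · have h1 := key (MvPowerSeries.X x) 1 F'
      rw [map_one, mul_one, MvPowerSeries.rename_X] at h1
      exact h1
    · have h1 := key 1 (MvPowerSeries.X x) F'
      rw [map_one, one_mul, MvPowerSeries.rename_X] at h1
      exact h1

include h h' in
def ProdX_npair : npair (Sum.map c₁ c₂) (fun _ => ()) τ τ' =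
    npair c₁ (fun _ => ()) τ₁ τ₁' + npair c₂ (fun _ => ()) τ₂ τ₂' := by
  classical
  rw [← npair_sum h.sord h'.sord]
  unfold npair
  refine congrArg Finset.card (Finset.ext fun q => ?_)
  simp only [Finset.mem_filter, Finset.mem_univ, true_and]
  obtain ⟨i | i, j | j⟩ := q
  · simp
  · have h1 := h.2.2 (c₁ i) (c₂ j)
    simp only [Sum.map_inl, Sum.map_inr, reduceCtorEq, false_and, iff_false, not_and,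
      not_lt]
    intro _
    exact h1.le
  · have h1 := h'.2.2 (c₁ j) (c₂ i)
    simp only [Sum.map_inl, Sum.map_inr, reduceCtorEq, false_and, iff_false, not_and,
      not_lt]
    intro h2
    exact absurd h2 (not_lt.2 h1.le)
  · simp

include h h' in
def ProdX_Cr (r : ℕ) : Cr F (Sum.map c₁ c₂) (fun _ => ()) τ τ' r =
    Cr F c₁ (fun _ => ()) τ₁ τ₁' r * Cr F c₂ (fun _ => ()) τ₂ τ₂' r := by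
  unfold Cr
  rw [ProdX_npair h h', mul_add, pow_add, mul_inv]

def ProdX_sqmod_ne (g₁ : GL κ₁ F) (g₂ : GL κ₂ F) : Q.GLRep.sqmod g₁ g₂ ≠ 0 := by
  have hd₁ : (g₁ : Matrix κ₁ κ₁ F).det ≠ 0 := (Matrix.isUnits_det_units g₁).ne_zero
  have hd₂ : (g₂ : Matrix κ₂ κ₂ F).det ≠ 0 := (Matrix.isUnits_det_units g₂).ne_zero
  have hq : (0 : ℝ) < (qF F : ℝ) := by
    have := one_lt_qF (F := F)
    exact_mod_cast (by omega : 0 < qF F)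
  unfold Q.GLRep.sqmod
  rw [absF_eq _ hd₁, absF_eq _ hd₂]
  have h1 := zpow_pos hq (- ordF F (g₁ : Matrix κ₁ κ₁ F).det)
  have h2 := zpow_pos hq (- ordF F (g₂ : Matrix κ₂ κ₂ F).det)
  exact (mul_pos (Real.rpow_pos_of_pos h1 _) (Real.rpow_pos_of_pos h2 _)).ne'

/-- the values of `sumH t` -/
def ProdX_sumH (hs : SOrd (fun _ => ()) (fun _ => ()) τ₁ τ₂ τ)
    (t : ISp c₁ (fun _ => ()) τ₁ hτ₁ (hat c₁ ρ₁) ⊗[ℂ] ISp c₂ (fun _ => ()) τ₂ hτ₂ (hat c₂ ρ₂))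
    (g : lev F (fun i => Sum.map (fun _ : ι₁ => ()) (fun _ : ι₂ => ()) (Sum.map c₁ c₂ i))) :
    (sumH hτ₁ hτ₂ hτ hs ρ₁ ρ₂ t).1 g = hE V₁ V₂ ι₁ ι₂
      (TensorProduct.map (ev1 c₁ (fun _ => ()) τ₁ hτ₁ (hat c₁ ρ₁))
        (ev1 c₂ (fun _ => ()) τ₂ hτ₂ (hat c₂ ρ₂)) (TensorProduct.map
      (IRp c₁ (fun _ => ()) τ₁ hτ₁ (hat c₁ ρ₁) (p₁ F c₁ c₂ (fun _ => ()) (fun _ => ()) g))
      (IRp c₂ (fun _ => ()) τ₂ hτ₂ (hat c₂ ρ₂) (p₂ F c₁ c₂ (fun _ => ()) (fun _ => ()) g)) t)) := by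
  induction t using TensorProduct.induction_on with
  | zero =>
    simp only [map_zero]
    rfl
  | add a b ha hb =>
    simp only [map_add, ← ha, ← hb]
    rfl
  | tmul x y =>
    rw [sumH_tmul, TensorProduct.map_tmul, TensorProduct.map_tmul]
    have h1 : ev1 c₁ (fun _ => ()) τ₁ hτ₁ (hat c₁ ρ₁) (IRp c₁ (fun _ => ()) τ₁ hτ₁ (hat c₁ ρ₁)
        (p₁ F c₁ c₂ (fun _ => ()) (fun _ => ()) g) x) =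
          x.1 (1 * p₁ F c₁ c₂ (fun _ => ()) (fun _ => ()) g) := rfl
    have h2 : ev1 c₂ (fun _ => ()) τ₂ hτ₂ (hat c₂ ρ₂) (IRp c₂ (fun _ => ()) τ₂ hτ₂ (hat c₂ ρ₂)
        (p₂ F c₁ c₂ (fun _ => ()) (fun _ => ()) g) y) =
          y.1 (1 * p₂ F c₁ c₂ (fun _ => ()) (fun _ => ()) g) := rfl
    rw [h1, h2, one_mul, one_mul]

/-- block diagonal elements -/
def ProdX_diag (g : lev F (fun i => Sum.map (fun _ : ι₁ => ()) (fun _ : ι₂ => ())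
    (Sum.map c₁ c₂ i))) : g.1 = Q.blk F (p₁ F c₁ c₂ (fun _ => ()) (fun _ => ()) g).1
      (p₂ F c₁ c₂ (fun _ => ()) (fun _ => ()) g).1 0 := by
  refine Units.ext ?_
  ext (i | i) (j | j)
  · rfl
  · exact g.2 (Sum.inl i) (Sum.inr j) (by simp)
  · exact g.2 (Sum.inr i) (Sum.inl j) (by simp)
  · rfl

/-- restriction of a function of the product to the block diagonal group -/
def ProdX_res (f : Q.GLRep.indSp (indG c₁ τ₁ hτ₁ (hat c₁ ρ₁)) (indG c₂ τ₂ hτ₂ (hat c₂ ρ₂)))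
    (g : lev F (fun i => Sum.map (fun _ : ι₁ => ()) (fun _ : ι₂ => ()) (Sum.map c₁ c₂ i))) :
    (prodH hτ₁ hτ₂ hτ h ρ₁ ρ₂ f).1 (levC F (κ₁ ⊕ κ₂) g.1) =
      (Q.GLRep.sqmod (p₁ F c₁ c₂ (fun _ => ()) (fun _ => ()) g).1
        (p₂ F c₁ c₂ (fun _ => ()) (fun _ => ()) g).1 : ℂ) •
        (sumH hτ₁ hτ₂ hτ h.sord ρ₁ ρ₂ (f.1 1)).1 g := by
  rw [prodH_apply, ProdX_sumH, (congrArg f.1 (ProdX_diag g)).trans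
    (ProdX_blk_val hτ₁ hτ₂ ρ₁ ρ₂ f _ _ 0), map_smul, map_smul]
  rfl

def ProdX_Kc₁ (k₁ : GL κ₁ F) (k₂ : GL κ₂ F) (u : Matrix κ₁ κ₂ F) (r : ℕ)
    (hk : Q.blk F k₁ k₂ u ∈ Kc F (κ₁ ⊕ κ₂) r) : k₁ ∈ Kc F κ₁ r := by
  rw [Cong_mem'] at hk ⊢
  refine ⟨fun i j => ?_, fun i j => ?_⟩
  · have h1 := hk.1 (Sum.inl i) (Sum.inl j)
    rw [Matrix.one_apply] at h1 ⊢
    simp only [Sum.inl.injEq] at h1
    exact h1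
  · have h1 := hk.2 (Sum.inl i) (Sum.inl j)
    rw [Matrix.one_apply] at h1 ⊢
    simp only [Sum.inl.injEq] at h1
    exact h1

def ProdX_Kc₂ (k₁ : GL κ₁ F) (k₂ : GL κ₂ F) (u : Matrix κ₁ κ₂ F) (r : ℕ)
    (hk : Q.blk F k₁ k₂ u ∈ Kc F (κ₁ ⊕ κ₂) r) : k₂ ∈ Kc F κ₂ r := by
  rw [Cong_mem'] at hk ⊢
  refine ⟨fun i j => ?_, fun i j => ?_⟩
  · have h1 := hk.1 (Sum.inr i) (Sum.inr j)
    rw [Matrix.one_apply] at h1 ⊢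
    simp only [Sum.inr.injEq] at h1
    exact h1
  · have h1 := hk.2 (Sum.inr i) (Sum.inr j)
    rw [Matrix.one_apply] at h1 ⊢
    simp only [Sum.inr.injEq] at h1
    exact h1

def ProdX_Kc (k₁ : GL κ₁ F) (k₂ : GL κ₂ F) (r : ℕ) (h₁ : k₁ ∈ Kc F κ₁ r)
    (h₂ : k₂ ∈ Kc F κ₂ r) : Q.blk F k₁ k₂ 0 ∈ Kc F (κ₁ ⊕ κ₂) r := by
  rw [Cong_mem'] at h₁ h₂ ⊢
  refine ⟨?_, ?_⟩
  · rintro (i | i) (j | j)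
    · have h1 := h₁.1 i j
      rw [Matrix.one_apply] at h1 ⊢
      simp only [Sum.inl.injEq]
      exact h1
    · have h1 : (Q.blk F k₁ k₂ 0 : Matrix (κ₁ ⊕ κ₂) (κ₁ ⊕ κ₂) F) (Sum.inl i) (Sum.inr j) = 0 := rfl
      rw [h1, Matrix.one_apply_ne (by simp), sub_zero]
      exact (lat F r).zero_mem
    · have h1 : (Q.blk F k₁ k₂ 0 : Matrix (κ₁ ⊕ κ₂) (κ₁ ⊕ κ₂) F) (Sum.inr i) (Sum.inl j) = 0 := rfl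
      rw [h1, Matrix.one_apply_ne (by simp), sub_zero]
      exact (lat F r).zero_mem
    · have h1 := h₂.1 i j
      rw [Matrix.one_apply] at h1 ⊢
      simp only [Sum.inr.injEq]
      exact h1
  · rintro (i | i) (j | j)
    · have h1 := h₁.2 i j
      rw [Matrix.one_apply] at h1 ⊢
      simp only [Sum.inl.injEq]
      exact h1
    · have h1 : (((Q.blk F k₁ k₂ 0)⁻¹ : GL (κ₁ ⊕ κ₂) F) : Matrix (κ₁ ⊕ κ₂) (κ₁ ⊕ κ₂) F)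
          (Sum.inl i) (Sum.inr j) = 0 := by
        show (-(((k₁⁻¹ : GL κ₁ F) : Matrix κ₁ κ₁ F) * (0 : Matrix κ₁ κ₂ F) *
          ((k₂⁻¹ : GL κ₂ F) : Matrix κ₂ κ₂ F))) i j = 0
        simp
      rw [h1, Matrix.one_apply_ne (by simp), sub_zero]
      exact (lat F r).zero_mem
    · have h1 : (((Q.blk F k₁ k₂ 0)⁻¹ : GL (κ₁ ⊕ κ₂) F) : Matrix (κ₁ ⊕ κ₂) (κ₁ ⊕ κ₂) F)
          (Sum.inr i) (Sum.inl j) = 0 := rfl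
      rw [h1, Matrix.one_apply_ne (by simp), sub_zero]
      exact (lat F r).zero_mem
    · have h1 := h₂.2 i j
      rw [Matrix.one_apply] at h1 ⊢
      simp only [Sum.inr.injEq]
      exact h1

def ProdX_KS (r : ℕ)
    (f : Q.GLRep.indSp (indG c₁ τ₁ hτ₁ (hat c₁ ρ₁)) (indG c₂ τ₂ hτ₂ (hat c₂ ρ₂)))
    (hF : KS (Sum.map c₁ c₂) (fun _ => ()) τ r (prodH hτ₁ hτ₂ hτ h ρ₁ ρ₂ f).1) :
    KS (Sum.map c₁ c₂) (Sum.map (fun _ : ι₁ => ()) (fun _ : ι₂ => ())) τ r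
      (sumH hτ₁ hτ₂ hτ h.sord ρ₁ ρ₂ (f.1 1)).1 := by
  refine ⟨fun g k hk => ?_, fun g hg => ?_⟩
  · -- `f.1 k = f.1 1`
    have h1 : IRp (Sum.map c₁ c₂) (fun _ => ()) τ hτ (hat (Sum.map c₁ c₂) (ext ρ₁ ρ₂))
        (levC F (κ₁ ⊕ κ₂) k.1) (prodH hτ₁ hτ₂ hτ h ρ₁ ρ₂ f) = prodH hτ₁ hτ₂ hτ h ρ₁ ρ₂ f := by
      refine Subtype.ext (funext fun x => ?_)
      exact hF.1 x (levC F (κ₁ ⊕ κ₂) k.1) hk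
    rw [← prodH_equi] at h1
    have h2 := (prodH hτ₁ hτ₂ hτ h ρ₁ ρ₂).injective h1
    have h3 : f.1 (1 * k.1) = f.1 1 := congrFun (congrArg Subtype.val h2) 1
    rw [one_mul] at h3
    have hk0 : k.1 ∈ Kc F (κ₁ ⊕ κ₂) 0 := Kc_anti (Nat.zero_le r) hk
    have hk1 := hk0
    rw [ProdX_diag k] at hk1
    have h4 : f.1 k.1 = _ := (congrArg f.1 (ProdX_diag k)).trans
      (ProdX_blk_val hτ₁ hτ₂ ρ₁ ρ₂ f _ _ 0)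
    rw [ProdX_sqmod _ _ (vl_Kc _ _ (fun _ _ h => absurd rfl h) (ProdX_Kc₁ _ _ 0 0 hk1) ())
      (vl_Kc _ _ (fun _ _ h => absurd rfl h) (ProdX_Kc₂ _ _ 0 0 hk1) ()), Complex.ofReal_one,
      one_smul, h3] at h4
    have h5 := h4.symm
    rw [ProdX_sumH, ProdX_sumH]
    conv_rhs => rw [← h5]
    congr 2
    rw [map_mul, map_mul, map_mul, map_mul]
    exact LinearMap.congr_fun (TensorProduct.map_comp _ _ _ _) (f.1 1)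
  · have h1 := ProdX_res hτ₁ hτ₂ hτ h ρ₁ ρ₂ f g
    have h2 : (prodH hτ₁ hτ₂ hτ h ρ₁ ρ₂ f).1 (levC F (κ₁ ⊕ κ₂) g.1) ≠ 0 := by
      rw [h1]
      exact smul_ne_zero (Complex.ofReal_ne_zero.2 (ProdX_sqmod_ne _ _)) hg
    obtain ⟨q, hq, k, hk, e⟩ := hF.2 _ h2
    have e' : g.1 = q * k := e
    have hqi := (upp F _ _).inv_mem hq
    have hkq : k = q⁻¹ * g.1 := by rw [e']; group
    have hkq' : k⁻¹ = (g.1)⁻¹ * q := by rw [e']; group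
    have z1 : ∀ i j, (q : Matrix (κ₁ ⊕ κ₂) (κ₁ ⊕ κ₂) F) (Sum.inr i) (Sum.inl j) = 0 :=
      fun i j => hq.2 _ _ (h.2.2 (c₁ j) (c₂ i))
    have z2 : ∀ i j, ((q⁻¹ : GL (κ₁ ⊕ κ₂) F) : Matrix (κ₁ ⊕ κ₂) (κ₁ ⊕ κ₂) F)
        (Sum.inr i) (Sum.inl j) = 0 := fun i j => hqi.2 _ _ (h.2.2 (c₁ j) (c₂ i))
    have z3 : ∀ i j, (g.1 : Matrix (κ₁ ⊕ κ₂) (κ₁ ⊕ κ₂) F) (Sum.inr i) (Sum.inl j) = 0 :=
      fun i j => g.2 _ _ (by simp)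
    have z4 : ∀ i j, (((g.1)⁻¹ : GL (κ₁ ⊕ κ₂) F) : Matrix (κ₁ ⊕ κ₂) (κ₁ ⊕ κ₂) F)
        (Sum.inr i) (Sum.inl j) = 0 := fun i j => (g⁻¹).2 _ _ (by simp)
    obtain ⟨q₁, q₂, u, eq, hq1, hq1', hq2, hq2'⟩ := ProdX_blk q z1 z2
    obtain ⟨k₁, k₂, v, ek, hk1, hk1', hk2, hk2'⟩ := ProdX_blk k
      (fun i j => by
        rw [hkq, Units.val_mul, Matrix.mul_apply, Fintype.sum_sum_type]
        simp only [z2, z3, zero_mul, mul_zero, Finset.sum_const_zero, add_zero])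
      (fun i j => by
        rw [hkq', Units.val_mul, Matrix.mul_apply, Fintype.sum_sum_type]
        simp only [z1, z4, zero_mul, mul_zero, Finset.sum_const_zero, add_zero])
    rw [ek] at hk
    refine ⟨Q.blk F q₁ q₂ 0, ⟨?_, ?_⟩, Q.blk F k₁ k₂ 0,
      ProdX_Kc k₁ k₂ r (ProdX_Kc₁ _ _ _ r hk) (ProdX_Kc₂ _ _ _ r hk), ?_⟩
    · rintro (i | i) (j | j) hij
      · exact absurd rfl hij
      · rfl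
      · rfl
      · exact absurd rfl hij
    · rintro (i | i) (j | j) hij
      · exact (hq1 i j).trans (hq.2 _ _ hij)
      · rfl
      · rfl
      · exact (hq2 i j).trans (hq.2 _ _ hij)
    · have e3 : (g.1 : Matrix (κ₁ ⊕ κ₂) (κ₁ ⊕ κ₂) F) = Matrix.fromBlocks
          ((q₁ : Matrix κ₁ κ₁ F) * (k₁ : Matrix κ₁ κ₁ F))
          ((q₁ : Matrix κ₁ κ₁ F) * v + u * (k₂ : Matrix κ₂ κ₂ F)) 0
          ((q₂ : Matrix κ₂ κ₂ F) * (k₂ : Matrix κ₂ κ₂ F)) := by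
        rw [e', eq, ek, Units.val_mul, blk_val, blk_val, Matrix.fromBlocks_multiply]
        simp
      refine Units.ext ?_
      rw [Units.val_mul, blk_val, blk_val, Matrix.fromBlocks_multiply]
      simp only [Matrix.zero_mul, Matrix.mul_zero, add_zero, zero_add]
      ext (i | i) (j | j)
      · rw [e3]
        rfl
      · exact g.2 _ _ (by simp)
      · exact z3 i j
      · rw [e3]
        rfl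

include h' in
def pfn_lead (ℓ₁ : MvPowerSeries ι₁ ℂ) (ℓ₂ : MvPowerSeries ι₂ ℂ)
    (hL₁ : IsLead c₁ (fun _ => ()) τ₁ hτ₁ τ₁' ρ₁ L₁ ℓ₁)
    (hL₂ : IsLead c₂ (fun _ => ()) τ₂ hτ₂ τ₂' ρ₂ L₂ ℓ₂) :
    IsLead (Sum.map c₁ c₂) (fun _ => ()) τ hτ τ' (ext ρ₁ ρ₂)
      (pfn hτ₁ hτ₂ hτ h ρ₁ ρ₂ L₁ L₂)
      (MvPowerSeries.rename Sum.inl ℓ₁ * MvPowerSeries.rename Sum.inr ℓ₂) := by
  obtain ⟨r₁, hr₁⟩ := hL₁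
  obtain ⟨r₂, hr₂⟩ := hL₂
  refine ⟨max r₁ r₂, fun r hr F' hF => ?_⟩
  obtain ⟨f, rfl⟩ := (prodH hτ₁ hτ₂ hτ h ρ₁ ρ₂).surjective F'
  obtain ⟨N, x, y, hx, hy, hf⟩ := KS_sum hτ₁ hτ₂ hτ h.sord ρ₁ ρ₂ r _
    (ProdX_KS hτ₁ hτ₂ hτ h ρ₁ ρ₂ r f hF)
  have hf1 : f.1 1 = ∑ j, x j ⊗ₜ[ℂ] y j := by
    apply (sumH hτ₁ hτ₂ hτ h.sord ρ₁ ρ₂).injective
    rw [hf, map_sum]
  have hv : (prodH hτ₁ hτ₂ hτ h ρ₁ ρ₂ f).1 1 = hE V₁ V₂ ι₁ ι₂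
      (TensorProduct.map (ev1 c₁ (fun _ => ()) τ₁ hτ₁ (hat c₁ ρ₁))
        (ev1 c₂ (fun _ => ()) τ₂ hτ₂ (hat c₂ ρ₂)) (f.1 1)) := prodH_apply hτ₁ hτ₂ hτ h ρ₁ ρ₂ f 1
  rw [ProdX_pfn, hv, hf1, map_sum, map_sum, map_sum, map_sum, map_sum, Finset.smul_sum]
  refine Finset.sum_congr rfl fun j _ => ?_
  rw [TensorProduct.map_tmul, TensorProduct.map_tmul,
    hr₁ r ((le_max_left _ _).trans hr) (x j) (hx j),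
    hr₂ r ((le_max_right _ _).trans hr) (y j) (hy j), ← hE_op, TensorProduct.map_tmul,
    TensorProduct.smul_tmul, TensorProduct.tmul_smul, TensorProduct.tmul_smul, smul_smul,
    map_smul, ProdX_Cr h h' r]
  rfl

/-- the homomorphism `Φ₁ × Φ₂` is the homomorphism of the functional `pfn L₁ L₂` -/
def pfn_nat (Φ₁ : ISp c₁ (fun _ => ()) τ₁ hτ₁ (hat c₁ ρ₁) →ₗ[ℂ]
      ISp c₁ (fun _ => ()) τ₁' hτ₁' (hat c₁ ρ₁))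
    (Φ₂ : ISp c₂ (fun _ => ()) τ₂ hτ₂ (hat c₂ ρ₂) →ₗ[ℂ]
      ISp c₂ (fun _ => ()) τ₂' hτ₂' (hat c₂ ρ₂))
    (hΦ₁ : Equi (pull (levC F κ₁) (IRp c₁ (fun _ => ()) τ₁ hτ₁ (hat c₁ ρ₁)))
      (pull (levC F κ₁) (IRp c₁ (fun _ => ()) τ₁' hτ₁' (hat c₁ ρ₁))) Φ₁)
    (hΦ₂ : Equi (pull (levC F κ₂) (IRp c₂ (fun _ => ()) τ₂ hτ₂ (hat c₂ ρ₂)))
      (pull (levC F κ₂) (IRp c₂ (fun _ => ()) τ₂' hτ₂' (hat c₂ ρ₂))) Φ₂)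
    (f : Q.GLRep.indSp (indG c₁ τ₁ hτ₁ (hat c₁ ρ₁)) (indG c₂ τ₂ hτ₂ (hat c₂ ρ₂)))
    (g : GL (κ₁ ⊕ κ₂) F) :
    (prodH hτ₁' hτ₂' hτ' h' ρ₁ ρ₂ (prMap _ _ _ _ Φ₁ Φ₂ hΦ₁ hΦ₂ f)).1
        (levC F (κ₁ ⊕ κ₂) g) =
      pfn hτ₁ hτ₂ hτ h ρ₁ ρ₂ (ev1 c₁ (fun _ => ()) τ₁' hτ₁' (hat c₁ ρ₁) ∘ₗ Φ₁)
        (ev1 c₂ (fun _ => ()) τ₂' hτ₂' (hat c₂ ρ₂) ∘ₗ Φ₂)
        (IRp (Sum.map c₁ c₂) (fun _ => ()) τ hτ (hat (Sum.map c₁ c₂) (ext ρ₁ ρ₂))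
          (levC F (κ₁ ⊕ κ₂) g) (prodH hτ₁ hτ₂ hτ h ρ₁ ρ₂ f)) := by
  rw [prodH_apply, ProdX_pfn_g]
  congr 1
  have h2 : (prMap _ _ _ _ Φ₁ Φ₂ hΦ₁ hΦ₂ f).1 g = TensorProduct.map Φ₁ Φ₂ (f.1 g) := rfl
  rw [h2, TensorProduct.map_comp]
  rfl

end

end Pool.Agent.Lib.MP_ca1492_al.P
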