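import Mathlib
import Pool.Agent.Lib.MP_ca1492_al.D4.DPair
import Pool.Agent.Lib.MP_ca1492_al.P.TenIrr

/-!
# MP_ca1492_al, comparison, module RelA: the pairing of two external tensor products
-/

set_option autoImplicit false

namespace Pool.Agent.Lib.MP_ca1492_al.P

open Topology Matrix ValuativeRel TensorProduct
open Pool.Agent.Lib.MP_ca1492_al.Q (GLRep)

noncomputable section

variable {F : Type} [Field F] [ValuativeRel F] [TopologicalSpace F]
  [IsNonarchimedeanLocalField F]
variable {ι : Type} [Fintype ι] [DecidableEq ι] (R : ι → GLRep F)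

/-- the product of linear forms -/
def pf (l : ∀ a, Module.Dual ℂ (R a).V) : Module.Dual ℂ (⨂[ℂ] a, (R a).V) :=
  PiTensorProduct.dualDistrib (PiTensorProduct.tprod ℂ l)

theorem pf_tprod (l : ∀ a, Module.Dual ℂ (R a).V) (v : ∀ a, (R a).V) :
    pf R l (PiTensorProduct.tprod ℂ v) = ∏ a, l a (v a) :=
  PiTensorProduct.dualDistrib_apply l v

/-- a product form which does not vanish -/
theorem pf_ex (t : ⨂[ℂ] a, (R a).V) (ht : t ≠ 0) : ∃ l : ∀ a, Module.Dual ℂ (R a).V,
    pf R l t ≠ 0 := by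
  obtain ⟨p, hp⟩ := TenIrr_coord R t ht
  refine ⟨fun a => (TenIrr_b R a).coord (p a), ?_⟩
  have h1 : pf R (fun a => (TenIrr_b R a).coord (p a)) =
      (Basis.piTensorProduct (TenIrr_b R)).coord p := by
    apply PiTensorProduct.ext
    ext v
    rw [LinearMap.compMultilinearMap_apply, LinearMap.compMultilinearMap_apply, pf_tprod,
      Module.Basis.coord_apply, Basis.piTensorProduct_repr_tprod_apply]
    rfl
  rw [h1]
  exact hp

/-- replacement of one of the forms -/
theorem pf_repl (t : ⨂[ℂ] a, (R a).V) (l : ∀ a, Module.Dual ℂ (R a).V) (hl : pf R l t ≠ 0)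
    (a₀ : ι) (P : Module.Dual ℂ (R a₀).V → Prop)
    (hP : ∀ x : (R a₀).V, x ≠ 0 → ∃ s, P s ∧ s x ≠ 0) :
    ∃ s, P s ∧ pf R (Function.update l a₀ s) t ≠ 0 := by
  obtain ⟨C, hC⟩ := exists_ctr R a₀ l
  have h1 : ∀ s : Module.Dual ℂ (R a₀).V, pf R (Function.update l a₀ s) = s ∘ₗ C := by
    intro s
    apply PiTensorProduct.ext
    ext v
    rw [LinearMap.compMultilinearMap_apply, LinearMap.compMultilinearMap_apply, pf_tprod,
      LinearMap.comp_apply, hC, map_smul, smul_eq_mul,
      ← Finset.prod_erase_mul _ _ (Finset.mem_univ a₀), Function.update_self]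
    congr 1
    refine Finset.prod_congr rfl fun b hb => ?_
    rw [Function.update_of_ne (Finset.ne_of_mem_erase hb)]
  have h2 : C t ≠ 0 := by
    intro h0
    have h3 := h1 (l a₀)
    rw [Function.update_eq_self] at h3
    rw [h3, LinearMap.comp_apply, h0, map_zero] at hl
    exact hl rfl
  obtain ⟨s, hs, hs2⟩ := hP _ h2
  exact ⟨s, hs, by rw [h1]; exact hs2⟩

/-- product forms from separating families -/
theorem pf_sep (t : ⨂[ℂ] a, (R a).V) (ht : t ≠ 0) (P : ∀ a, Module.Dual ℂ (R a).V → Prop)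
    (hP : ∀ a, ∀ x : (R a).V, x ≠ 0 → ∃ s, P a s ∧ s x ≠ 0) :
    ∃ l : ∀ a, Module.Dual ℂ (R a).V, (∀ a, P a (l a)) ∧ pf R l t ≠ 0 := by
  have key : ∀ S : Finset ι, ∃ l : ∀ a, Module.Dual ℂ (R a).V, (∀ a ∈ S, P a (l a)) ∧
      pf R l t ≠ 0 := by
    intro S
    induction S using Finset.induction_on with
    | empty =>
      obtain ⟨l, hl⟩ := pf_ex R t ht
      exact ⟨l, fun a ha => absurd ha (Finset.notMem_empty a), hl⟩
    | insert a S ha ih =>
      obtain ⟨l, h1, h2⟩ := ih
      obtain ⟨s, h3, h4⟩ := pf_repl R t l h2 a (P a) (hP a)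
      refine ⟨Function.update l a s, fun b hb => ?_, h4⟩
      by_cases hab : b = a
      · subst hab
        rw [Function.update_self]
        exact h3
      · rw [Function.update_of_ne hab]
        exact h1 b ((Finset.mem_insert.1 hb).resolve_left hab)
  obtain ⟨l, h1, h2⟩ := key Finset.univ
  exact ⟨l, fun a => h1 a (Finset.mem_univ a), h2⟩

/-- the contragredient representation -/
def dR (A : GLRep F) : GLRep F := ⟨A.κ, dualSp A.π, dual A.π⟩

/-- the underlying linear form -/
def vD (A : GLRep F) : (dR A).V →ₗ[ℂ] Module.Dual ℂ A.V := (dualSp A.π).subtype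

theorem vD_apply (A : GLRep F) (l : (dR A).V) : vD A l = l.1 := rfl

/-- the pairing of the external tensor products -/
def pairT : (⨂[ℂ] a, (R a).V) →ₗ[ℂ] (⨂[ℂ] a, (dR (R a)).V) →ₗ[ℂ] ℂ :=
  LinearMap.flip (PiTensorProduct.dualDistrib ∘ₗ
    PiTensorProduct.map (fun a => vD (R a)))

theorem pairT_tprod (v : ∀ a, (R a).V) (l : ∀ a, (dR (R a)).V) :
    pairT R (PiTensorProduct.tprod ℂ v) (PiTensorProduct.tprod ℂ l) =
      ∏ a, (l a).1 (v a) := by
  show PiTensorProduct.dualDistrib (PiTensorProduct.map (fun a => vD (R a))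
    (PiTensorProduct.tprod ℂ l)) (PiTensorProduct.tprod ℂ v) = _
  rw [PiTensorProduct.map_tprod]
  exact PiTensorProduct.dualDistrib_apply _ v

theorem pairT_pf (t : ⨂[ℂ] a, (R a).V) (l : ∀ a, (dR (R a)).V) :
    pairT R t (PiTensorProduct.tprod ℂ l) = pf R (fun a => (l a).1) t := by
  show PiTensorProduct.dualDistrib (PiTensorProduct.map (fun a => vD (R a))
    (PiTensorProduct.tprod ℂ l)) t = _
  rw [PiTensorProduct.map_tprod]
  rfl

/-- evaluation at a vector -/
def evV (A : GLRep F) (v : A.V) : Module.Dual ℂ (dR A).V :=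
  (Module.Dual.eval ℂ A.V v).comp (dualSp A.π).subtype

theorem evV_apply (A : GLRep F) (v : A.V) (l : (dR A).V) : evV A v l = l.1 v := rfl

theorem pairT_pf' (v : ∀ a, (R a).V) (t : ⨂[ℂ] a, (dR (R a)).V) :
    pairT R (PiTensorProduct.tprod ℂ v) t = pf (fun a => dR (R a)) (fun a => evV (R a) (v a)) t := by
  have h : pairT R (PiTensorProduct.tprod ℂ v) =
      pf (fun a => dR (R a)) (fun a => evV (R a) (v a)) := by
    apply PiTensorProduct.ext
    ext l
    rw [LinearMap.compMultilinearMap_apply, LinearMap.compMultilinearMap_apply, pf_tprod,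
      pairT_tprod]
    rfl
  rw [h]

theorem glHasCO (κ : Type) [Fintype κ] [DecidableEq κ] : HasCO (GL κ F) :=
  (pull_hasCO (levC F κ)).2 (CGLa_lev_hasCO _)

/-- the external tensor product of the contragredients -/
def tD : Representation ℂ (lev F (sc R)) (⨂[ℂ] a, (dR (R a)).V) := tenRep fun a => dR (R a)

theorem tD_tprod (m : lev F (sc R)) (l : ∀ a, (dR (R a)).V) :
    tD R m (PiTensorProduct.tprod ℂ l) =
      PiTensorProduct.tprod ℂ fun a => (dR (R a)).π (blkM F (fun a => (R a).κ) a m) (l a) :=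
  tenRep_tprod (fun a => dR (R a)) m l

theorem pairT_inv1 (m : lev F (sc R)) (v : ∀ a, (R a).V) (l : ∀ a, (dR (R a)).V) :
    pairT R (tenRep R m (PiTensorProduct.tprod ℂ v)) (tD R m (PiTensorProduct.tprod ℂ l)) =
      pairT R (PiTensorProduct.tprod ℂ v) (PiTensorProduct.tprod ℂ l) := by
  rw [tenRep_tprod, tD_tprod, pairT_tprod, pairT_tprod]
  refine Finset.prod_congr rfl fun a _ => ?_
  show (l a).1 ((R a).π (blkM F (fun a => (R a).κ) a m)⁻¹
    ((R a).π (blkM F (fun a => (R a).κ) a m) (v a))) = (l a).1 (v a)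
  rw [← Module.End.mul_apply, ← map_mul, inv_mul_cancel, map_one, Module.End.one_apply]

theorem pairT_inv (m : lev F (sc R)) (t : ⨂[ℂ] a, (R a).V) (t' : ⨂[ℂ] a, (dR (R a)).V) :
    pairT R (tenRep R m t) (tD R m t') = pairT R t t' := by
  have h : (pairT R).compl₂ (tD R m) ∘ₗ tenRep R m = pairT R := by
    apply PiTensorProduct.ext
    ext1 v
    rw [LinearMap.compMultilinearMap_apply, LinearMap.compMultilinearMap_apply]
    apply PiTensorProduct.ext
    ext1 l
    rw [LinearMap.compMultilinearMap_apply, LinearMap.compMultilinearMap_apply]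
    exact pairT_inv1 R m v l
  exact LinearMap.congr_fun (LinearMap.congr_fun h t) t'

/-- the pairing is invariant and not degenerate -/
theorem pairT_pai (hR : ∀ a, IsSm (R a).π) : PC.D4.Pai (tenRep R) (tD R) (pairT R) where
  inv m t t' := pairT_inv R m t t'
  left t h := by
    by_contra h0
    obtain ⟨l, h1, h2⟩ := pf_sep R t h0 (fun a s => s ∈ dualSp (R a).π) (fun a x hx => by
      obtain ⟨s, hs⟩ := dual_sep (glHasCO (R a).κ) (R a).π (hR a) x hx
      exact ⟨s.1, s.2, hs⟩)
    apply h2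
    let l' : ∀ a, (dR (R a)).V := fun a => (⟨l a, h1 a⟩ : dualSp (R a).π)
    exact (pairT_pf R t l').symm.trans (h (PiTensorProduct.tprod ℂ l'))
  right t h := by
    by_contra h0
    obtain ⟨l, h1, h2⟩ := pf_sep (fun a => dR (R a)) t h0
      (fun a s => ∃ v, s = evV (R a) v) (fun a x hx => by
        by_contra h3
        push Not at h3
        apply hx
        apply Subtype.ext
        apply LinearMap.ext
        intro v
        exact h3 _ ⟨v, rfl⟩)
    choose v hv using h1
    apply h2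
    have h3 : l = fun a => evV (R a) (v a) := funext hv
    rw [h3, ← pairT_pf']
    exact h _

end

end Pool.Agent.Lib.MP_ca1492_al.P
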