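import Mathlib
import Pool.Agent.Lib.MP_ca1492_al.Cmp.RelA
import Pool.Agent.Lib.MP_ca1492_al.P.Dual2
import Pool.Agent.Lib.MP_ca1492_al.P.GLRepB

/-!
# MP_ca1492_al, comparison, module RelB: from a form on A × (dual of B) to an isomorphism of A and B ν^(-1)
-/

set_option autoImplicit false

namespace Pool.Agent.Lib.MP_ca1492_al.P

open Topology Matrix ValuativeRel TensorProduct
open Pool.Agent.Lib.MP_ca1492_al.Q (GLRep)
open Pool.Agent.Lib.MP_ca1492_al.Q.GLRep

noncomputable section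

variable {F : Type} [Field F] [ValuativeRel F] [TopologicalSpace F]
  [IsNonarchimedeanLocalField F]

theorem rel_core (A B : GLRep F) (hA : A.Cusp) (hB : B.Cusp) (ε : A.κ ≃ B.κ)
    (γ : A.V →ₗ[ℂ] dualSp B.π →ₗ[ℂ] ℂ) (h0 : γ ≠ 0)
    (hγ : ∀ (g : GL A.κ F) (x : A.V) (η : dualSp B.π),
      GLRepB_c 1 g * γ (A.π g x) (dual B.π (glRe ε g) η) = γ x η) : A.Isom (B.tw (-1)) := by
  have hadm := glcusp_adm B hB
  obtain ⟨bi, hbi1, hbi2⟩ := biDual_bij (glHasCO B.κ) B.π hB.1 hadm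
  -- smoothness of the forms
  have hsm : ∀ x : A.V, γ x ∈ dualSp (dual B.π) := by
    intro x
    obtain ⟨U, hU, hx⟩ := (isSm_iff A.π).1 hA.1 x
    refine ⟨(U ⊓ GLRepB_W F A.κ).comap (glRe ε.symm).toMonoidHom, ?_, ?_⟩
    · exact (hU.inter (GLRepB_W_open A.κ)).preimage (glRe_cont ε.symm)
    · intro u hu η
      have hu1 : A.π (glRe ε.symm u) x = x := hx _ hu.1
      have hu2 : GLRepB_c 1 (glRe ε.symm u) = (1 : ℂ) := GLRepB_W_c 1 hu.2
      have h1 := hγ (glRe ε.symm u) x η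
      rw [hu1, hu2, one_mul, GLRepB_symm'] at h1
      exact h1
  let T : A.V →ₗ[ℂ] B.V := bi.symm.toLinearMap ∘ₗ γ.codRestrict (dualSp (dual B.π)) hsm
  have hT : ∀ (x : A.V) (η : dualSp B.π), η.1 (T x) = γ x η := by
    intro x η
    rw [← hbi2]
    show (bi (bi.symm (γ.codRestrict (dualSp (dual B.π)) hsm x))).1 η = _
    rw [LinearEquiv.apply_symm_apply]
    rfl
  have hsep : ∀ y y' : B.V, (∀ η : dualSp B.π, η.1 y = η.1 y') → y = y' := by
    intro y y' h
    by_contra hne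
    obtain ⟨l, hl⟩ := dual_sep (glHasCO B.κ) B.π hB.1 (y - y') (sub_ne_zero.2 hne)
    apply hl
    rw [map_sub, sub_eq_zero]
    exact h l
  have hTe : ∀ (g : GL A.κ F) (x : A.V), T (A.π g x) = GLRepB_c (-1) g • B.π (glRe ε g) (T x) := by
    intro g x
    apply hsep
    intro η
    have h1 := hγ g x (dual B.π (glRe ε g)⁻¹ η)
    have h2 : dual B.π (glRe ε g) (dual B.π (glRe ε g)⁻¹ η) = η := by
      rw [← Module.End.mul_apply, ← map_mul, mul_inv_cancel, map_one, Module.End.one_apply]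
    rw [h2, ← hT, ← hT] at h1
    have h3 : (dual B.π (glRe ε g)⁻¹ η).1 (T x) = η.1 (B.π (glRe ε g) (T x)) := by
      show η.1 (B.π (glRe ε g)⁻¹⁻¹ (T x)) = _
      rw [inv_inv]
    rw [h3] at h1
    rw [map_smul, smul_eq_mul, ← h1, ← mul_assoc]
    have h4 : GLRepB_c (-1) g * GLRepB_c 1 g = (1 : ℂ) := by
      unfold GLRepB_c
      rw [← Complex.ofReal_mul, ← Real.rpow_add (GLRepB_dpos g), neg_add_cancel, Real.rpow_zero,
        Complex.ofReal_one]
    rw [h4, one_mul]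
  have hker : LinearMap.ker T = ⊥ := by
    rcases hA.2.1.2 (LinearMap.ker T) (by
      intro g x hx
      rw [LinearMap.mem_ker] at hx ⊢
      rw [hTe, hx, map_zero, smul_zero]) with h | h
    · exact h
    · exfalso
      apply h0
      apply LinearMap.ext
      intro x
      apply LinearMap.ext
      intro η
      rw [← hT, LinearMap.ker_eq_top.1 h, LinearMap.zero_apply, map_zero]
      rfl
  have hran : LinearMap.range T = ⊤ := by
    rcases hB.2.1.2 (LinearMap.range T) (by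
      rintro g _ ⟨x, rfl⟩
      have h1 := hTe (glRe ε.symm g) x
      rw [GLRepB_symm'] at h1
      refine ⟨(GLRepB_c (-1) (glRe ε.symm g))⁻¹ • A.π (glRe ε.symm g) x, ?_⟩
      rw [map_smul, h1, smul_smul, inv_mul_cancel₀ (GLRepB_c_ne _ _), one_smul]) with h | h
    · exfalso
      obtain ⟨x, hx⟩ := hA.2.1.1
      apply hx
      have h1 : T x = 0 := by
        rw [LinearMap.range_eq_bot.1 h, LinearMap.zero_apply]
      exact (Submodule.mem_bot ℂ).1 (hker ▸ LinearMap.mem_ker.2 h1)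
    · exact h
  refine ⟨ε, LinearEquiv.ofBijective T ⟨LinearMap.ker_eq_bot.1 hker, LinearMap.range_eq_top.1 hran⟩,
    fun g x => ?_⟩
  show T (A.π g x) = (B.tw (-1)).π (glRe ε g) (T x)
  rw [hTe, GLRepB_tw_apply, GLRepB_c_re]

/-- exchange of the twist -/
theorem rel_tw (A B : GLRep F) (h : A.Isom (B.tw (-1))) : B.Isom (A.tw 1) := by
  have h1 := h.tw 1
  have h2 := tw_tw B (-1) 1
  rw [neg_add_cancel] at h2
  exact ((h1.trans h2).trans (tw_zero B)).symm

end

end Pool.Agent.Lib.MP_ca1492_al.P
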