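import Mathlib
import Pool.Agent.Lib.MP_ca1492_al.Cmp.RelB
import Pool.Agent.Lib.MP_ca1492_al.P.TenIso

/-!
# MP_ca1492_al, comparison, module RelC: forms on external tensor products
-/

set_option autoImplicit false

namespace Pool.Agent.Lib.MP_ca1492_al.P

open Topology Matrix ValuativeRel TensorProduct
open Pool.Agent.Lib.MP_ca1492_al.Q (GLRep)
open Pool.Agent.Lib.MP_ca1492_al.Q.GLRep

noncomputable section

variable {F : Type} [Field F] [ValuativeRel F] [TopologicalSpace F]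
  [IsNonarchimedeanLocalField F]
variable {ι : Type} [Fintype ι] [DecidableEq ι] (R : ι → GLRep F)

theorem rel_ten (hR : ∀ a, (R a).Cusp) (a b : ι) (ε : (R a).κ ≃ (R b).κ)
    (β : (⨂[ℂ] a, (R a).V) →ₗ[ℂ] (⨂[ℂ] a, (dR (R a)).V) →ₗ[ℂ] ℂ) (h0 : β ≠ 0)
    (hβ : ∀ (h : GL (R a).κ F) v v', GLRepB_c 1 h *
      β (tenRep R (inM F (fun a => (R a).κ) a h) v)
        (tD R (inM F (fun a => (R a).κ) b (glRe ε h)) v') = β v v') :
    (R a).Isom ((R b).tw (-1)) := by
  obtain ⟨v, ξ, hvξ⟩ : ∃ (v : ∀ a, (R a).V) (ξ : ∀ a, (dR (R a)).V),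
      β (PiTensorProduct.tprod ℂ v) (PiTensorProduct.tprod ℂ ξ) ≠ 0 := by
    by_contra hcon
    push Not at hcon
    apply h0
    apply PiTensorProduct.ext
    ext1 v
    rw [LinearMap.compMultilinearMap_apply, LinearMap.compMultilinearMap_apply]
    apply PiTensorProduct.ext
    ext1 ξ
    rw [LinearMap.compMultilinearMap_apply, LinearMap.compMultilinearMap_apply]
    exact hcon v ξ
  let Sa : (R a).V →ₗ[ℂ] (⨂[ℂ] a, (R a).V) :=
    (PiTensorProduct.tprod ℂ (s := fun a => (R a).V)).toLinearMap v a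
  let Sb : (dR (R b)).V →ₗ[ℂ] (⨂[ℂ] a, (dR (R a)).V) :=
    (PiTensorProduct.tprod ℂ (s := fun a => (dR (R a)).V)).toLinearMap ξ b
  have hSa : ∀ x, Sa x = PiTensorProduct.tprod ℂ (Function.update v a x) := fun x => rfl
  have hSb : ∀ x, Sb x = PiTensorProduct.tprod ℂ (Function.update ξ b x) := fun x => rfl
  let γ : (R a).V →ₗ[ℂ] (dR (R b)).V →ₗ[ℂ] ℂ := (β.compl₂ Sb) ∘ₗ Sa
  have hγ : ∀ x η, γ x η = β (Sa x) (Sb η) := fun x η => rfl
  have key : ∀ (g : GL (R a).κ F) (x : (R a).V) (η : (dR (R b)).V),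
      GLRepB_c 1 g * β (Sa ((R a).π g x)) (Sb ((dR (R b)).π (glRe ε g) η)) =
        β (Sa x) (Sb η) := by
    intro g x η
    have h1 := hβ g (Sa x) (Sb η)
    have h2 := TenIso_act R a g (Function.update v a x)
    have h3 : tD R (inM F (fun a => (R a).κ) b (glRe ε g))
        (PiTensorProduct.tprod ℂ (Function.update ξ b η)) =
        PiTensorProduct.tprod ℂ (Function.update (Function.update ξ b η) b
          ((dR (R b)).π (glRe ε g) (Function.update ξ b η b))) :=
      TenIso_act (fun a => dR (R a)) b (glRe ε g) (Function.update ξ b η)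
    rw [Function.update_self, Function.update_idem] at h2 h3
    rw [hSa, hSb, h2, h3] at h1
    exact h1
  refine rel_core (R a) (R b) (hR a) (hR b) ε γ ?_ fun g x η => key g x η
  intro h
  apply hvξ
  have h1 : γ (v a) (ξ b) = 0 := by rw [h]; rfl
  rw [hγ, hSa, hSb, Function.update_eq_self, Function.update_eq_self] at h1
  exact h1

end

end Pool.Agent.Lib.MP_ca1492_al.P
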