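import Mathlib
import Pool.Agent.Lib.MP_ca1492_al.Cmp.Fam
import Pool.Agent.Lib.MP_ca1492_al.Cmp.PairD
import Pool.Agent.Lib.MP_ca1492_al.Cmp.RelC
import Pool.Agent.Lib.MP_ca1492_al.D5.TwoL

/-!
# MP_ca1492_al, comparison, module RelN: two cuspidal representations with a reducible product

`far_irr`: the products of two cuspidal representations A, B are irreducible if A is not isomorphic to B, B ν, B ν⁻¹
(`PC.D4.rank_one`).
-/

set_option autoImplicit false
set_option linter.unusedSectionVars false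

namespace Pool.Agent.Lib.MP_ca1492_al.P

open Topology Matrix ValuativeRel TensorProduct
open Pool.Agent.Lib.MP_ca1492_al.Q (GLRep)
open Pool.Agent.Lib.MP_ca1492_al.Q.GLRep
open Pool.Agent.Lib.MP_ca1492_al.D5

noncomputable section

variable {F : Type} [Field F] [ValuativeRel F] [TopologicalSpace F]
  [IsNonarchimedeanLocalField F]

theorem noIso_ten (R : Bool → GLRep F) (hR : ∀ a, (R a).Cusp)
    (hne : ¬ (R false).Isom (R true)) : NoIso (sc R) (tenRep R) := by
  intro w hw A hA
  exact hne (ten_conj_isom R hR w sb (fun i => hw i) (hl_sb (sc R) w hw) ⟨A, hA⟩ false)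

section

variable {R : Bool → GLRep F} {n d : ℕ} (e : Fin n ≃ sk R)
  (he : ∀ i, sc R (e i) = PC.D4.blk n d i)

theorem RelN_pai (hR : ∀ a, (R a).Cusp) :
    PC.D4.Pai (plR e he (tenRep R)) (plR e he (tD R)) (pairT R) :=
  ⟨fun m t t' => pairT_inv R (levT F e (he_iff e he) m) t t',
    (pairT_pai R fun a => (hR a).1).left, (pairT_pai R fun a => (hR a).1).right⟩

theorem RelN_smD (hR : ∀ a, (R a).Cusp) : IsSm (plR e he (tD R)) :=
  plR_sm e he (tD R) (ten_smooth (fun a => dR (R a)) fun a => dual_smooth (R a).π)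

/-- the pairing as a map to the contragredient -/
theorem RelN_j (hR : ∀ a, (R a).Cusp) :
    ∃ j : (⨂[ℂ] a, (dR (R a)).V) →ₗ[ℂ] dualSp (plR e he (tenRep R)),
      Function.Surjective j ∧ ∀ m t', dual (plR e he (tenRep R)) m (j t') =
        j (plR e he (tD R) m t') := by
  have hP := RelN_pai e he hR
  have hmem : ∀ t', (pairT R).flip t' ∈ dualSp (plR e he (tenRep R)) := by
    intro t'
    obtain ⟨U, hU, ht⟩ := (isSm_iff _).1 (RelN_smD e he hR) t'
    refine ⟨U, hU, fun u hu v => ?_⟩
    show pairT R (plR e he (tenRep R) u v) t' = pairT R v t'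
    have h1 := hP.inv u v t'
    rwa [ht u hu] at h1
  refine ⟨(pairT R).flip.codRestrict _ hmem, fun l => ?_, fun m t' => ?_⟩
  · obtain ⟨t', ht'⟩ := PC.D4.pai_surj (CGLa_lev_hasCO (PC.D4.blk n d)) (plR e he (tenRep R))
      (plR e he (tD R)) (plR_sm e he _ (ten_smooth R fun a => (hR a).1)) (RelN_smD e he hR)
      (cusp_adm (PC.D4.blk n d) _ (plR_sm e he _ (ten_smooth R fun a => (hR a).1))
        (plR_irr e he _ (ten_irr R hR)) (plR_cusp e he _ (ten_cusp R hR))) (pairT R) hP l
    refine ⟨t', Subtype.ext (LinearMap.ext fun v => ?_)⟩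
    exact (ht' v).symm
  · apply Subtype.ext
    apply LinearMap.ext
    intro v
    show pairT R (plR e he (tenRep R) m⁻¹ v) t' = pairT R v (plR e he (tD R) m t')
    rw [← hP.inv m, ← Module.End.mul_apply, ← map_mul, mul_inv_cancel, map_one,
      Module.End.one_apply]

/-- the determinant of a block diagonal matrix -/
theorem RelN_detP (P : lev F (sc R)) : ((P.1 : GL (sk R) F) : Matrix (sk R) (sk R) F).det =
    ∏ a, (blkM F (fun a => (R a).κ) a P : Matrix (R a).κ (R a).κ F).det := by
  have hbt : ((P.1 : GL (sk R) F) : Matrix (sk R) (sk R) F).BlockTriangular (sc R) :=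
    fun i j hij => P.2 i j (ne_of_gt hij)
  rw [hbt.det_fintype]
  refine Finset.prod_congr rfl fun a _ => ?_
  let E : (R a).κ ≃ {i : sk R // sc R i = a} :=
    { toFun := fun x => ⟨⟨a, x⟩, rfl⟩
      invFun := fun i => cast (congrArg (fun a => (R a).κ) i.2) i.1.2
      left_inv := fun x => rfl
      right_inv := by
        rintro ⟨⟨b, x⟩, hb⟩
        have hb' : b = a := hb
        subst hb'
        rfl }
  exact (Matrix.det_submatrix_equiv_self E
    (((P.1 : GL (sk R) F) : Matrix (sk R) (sk R) F).toSquareBlock (sc R) a)).symm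

/-- determinants -/
theorem RelN_det (h : GL (R true).κ F) :
    ((PC.DP.nrm F ((levT F e (he_iff e he)).symm (inM F (fun a => (R a).κ) true h)).1.val.det :
      ℝ) : ℂ) = GLRepB_c 1 h := by
  have h1 : ((levT F e (he_iff e he)).symm (inM F (fun a => (R a).κ) true h)).1.val =
      ((inM F (fun a => (R a).κ) true h).1 : Matrix (sk R) (sk R) F).submatrix e e := by
    have h3 : levT F e (he_iff e he) ((levT F e (he_iff e he)).symm
        (inM F (fun a => (R a).κ) true h)) = inM F (fun a => (R a).κ) true h :=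
      (levT F e (he_iff e he)).apply_symm_apply _
    ext i k
    rw [Matrix.submatrix_apply]
    conv_rhs => rw [← h3, levT_val, glT_apply]
  have h2 : ((inM F (fun a => (R a).κ) true h).1 : Matrix (sk R) (sk R) F).det =
      (h : Matrix (R true).κ (R true).κ F).det := by
    rw [RelN_detP, Fintype.prod_bool, blkM_inM, blkM_inM_ne (fun a => (R a).κ) true false
      (by decide), Units.val_one, Matrix.det_one, mul_one]
  rw [h1, Matrix.det_submatrix_equiv_self, h2]
  unfold GLRepB_c PC.DP.nrm
  rw [if_neg (GLRepB_detne h), Real.rpow_one, absF_eq _ (GLRepB_detne h)]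

theorem rel_main (hR : ∀ a, (R a).Cusp) (hne : ¬ (R false).Isom (R true)) (h1 : 1 ≤ d)
    (hd : d < n) (s : Bool) (A : PC.D4.XnS s (plR e he (tenRep R)) →ₗ[ℂ]
      PC.D4.XnS (!s) (plR e he (tenRep R)))
    (B : PC.D4.XnS (!s) (plR e he (tenRep R)) →ₗ[ℂ] PC.D4.XnS s (plR e he (tenRep R)))
    (eA : Equi (PC.D4.InS s (plR e he (tenRep R))) (PC.D4.InS (!s) (plR e he (tenRep R))) A)
    (eB : Equi (PC.D4.InS (!s) (plR e he (tenRep R))) (PC.D4.InS s (plR e he (tenRep R))) B)
    (A0 : A ≠ 0) (B0 : B ≠ 0) (AB : ∀ x, A (B x) = 0) (BA : ∀ x, B (A x) = 0) :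
    (R true).Isom ((R false).tw (-1)) ∨ (R false).Isom ((R true).tw (-1)) := by
  have hsm := plR_sm e he _ (ten_smooth R fun a => (hR a).1)
  have hirr := plR_irr e he _ (ten_irr R hR)
  have hcus := plR_cusp e he _ (ten_cusp R hR)
  have hni : n = d + d → PC.D4.NIso hd.le (plR e he (tenRep R)) := fun hn =>
    pl_nIso e he (tenRep R) (ten_irr R hR) (noIso_ten R hR hne) h1 hd.le hn
  obtain ⟨hn, t, β₀, hβ0, hβ⟩ := PC.D4.rank_one h1 hd s (plR e he (tenRep R))
    (dual (plR e he (tenRep R))) (PC.D4.evB (plR e he (tenRep R)))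
    (PC.D4.dual2_dual hd.le _ hsm hirr hcus hni) A B eA eB A0 B0 AB BA
  obtain ⟨j, hjs, hje⟩ := RelN_j e he hR
  let β₁ : (⨂[ℂ] a, (R a).V) →ₗ[ℂ] (⨂[ℂ] a, (dR (R a)).V) →ₗ[ℂ] ℂ := β₀.compl₂ j
  have hβ1 : β₁ ≠ 0 := by
    intro h
    apply hβ0
    apply LinearMap.ext
    intro v
    apply LinearMap.ext
    intro l
    obtain ⟨t', rfl⟩ := hjs l
    exact LinearMap.congr_fun (LinearMap.congr_fun h v) t'
  -- the exchange of the blocks
  let W : Equiv.Perm (sk R) := e.symm.trans ((PC.D4.wsw n d hd.le).trans e)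
  have hWe : ∀ i, W (e i) = e (PC.D4.wsw n d hd.le i) := fun i => by
    show e (PC.D4.wsw n d hd.le (e.symm (e i))) = _
    rw [e.symm_apply_apply]
  have hW : ∀ i, sc R (W i) = sb (sc R i) := by
    intro i
    obtain ⟨i, rfl⟩ := e.surjective i
    rw [hWe, he, he]
    subst hn
    simp only [PC.D4.wsw, PC.D4.blk, Equiv.coe_fn_mk, Nat.add_sub_cancel]
    by_cases hi : i.1 < d
    · simp [hi]
    · have h3 : i.1 - d < d := by omega
      simp [hi, h3]
  obtain ⟨ε, hε⟩ : ∃ ε : (R true).κ ≃ (R false).κ, ∀ x, W ⟨true, x⟩ = ⟨false, ε x⟩ :=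
    TenIso_equiv R W sb hW true
  have hl := hl_sb (sc R) W hW
  have hin : ∀ h : GL (R true).κ F,
      (⟨permG F W * (inM F (fun a => (R a).κ) true h).1 * (permG F W)⁻¹,
        permG_conj_mem (sc R) (sc R) W hl (inM F (fun a => (R a).κ) true h).1
          (inM F (fun a => (R a).κ) true h).2⟩ : lev F (sc R)) =
      inM F (fun a => (R a).κ) false (glRe ε h) :=
    fun h => TenIso_inM R W sb hW hl true ε hε h
  let Q : GL (R true).κ F → Bool → lev F (sc R) := fun h b =>
    if b = true then inM F (fun a => (R a).κ) true h else inM F (fun a => (R a).κ) false (glRe ε h)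
  let p : GL (R true).κ F → lev F (PC.D4.blk n d) := fun h =>
    (levT F e (he_iff e he)).symm (inM F (fun a => (R a).κ) true h)
  let M : GL (R true).κ F → Bool → lev F (PC.D4.blk n d) := fun h b =>
    ⟨(PC.D4.gS F n d hd.le b)⁻¹ * (p h).1 * PC.D4.gS F n d hd.le b,
      PC.D4.gS_conj_lev hd.le hn b (p h).2⟩
  have hpe : ∀ (h : GL (R true).κ F) (i k : Fin n), ((p h).1 : Matrix (Fin n) (Fin n) F) i k =
      ((inM F (fun a => (R a).κ) true h).1 : Matrix (sk R) (sk R) F) (e i) (e k) := by
    intro h i k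
    have h3 : levT F e (he_iff e he) (p h) = inM F (fun a => (R a).κ) true h :=
      (levT F e (he_iff e he)).apply_symm_apply _
    rw [← h3, levT_val, glT_apply]
  have hMQ : ∀ h b, levT F e (he_iff e he) (M h b) = Q h b := by
    intro h b
    cases b
    · show levT F e (he_iff e he) (M h false) = inM F (fun a => (R a).κ) false (glRe ε h)
      rw [← hin]
      apply Subtype.ext
      apply Units.ext
      ext i k
      obtain ⟨i, rfl⟩ := e.surjective i
      obtain ⟨k, rfl⟩ := e.surjective k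
      obtain ⟨i, rfl⟩ := (PC.D4.wsw n d hd.le).surjective i
      obtain ⟨k, rfl⟩ := (PC.D4.wsw n d hd.le).surjective k
      rw [levT_val, glT_apply]
      have h4 : (M h false).1 = permG F (PC.D4.wsw n d hd.le) * (p h).1 *
          (permG F (PC.D4.wsw n d hd.le))⁻¹ := by
        show (permG F (PC.D4.wsw n d hd.le)⁻¹)⁻¹ * (p h).1 * permG F (PC.D4.wsw n d hd.le)⁻¹ = _
        have h5 : permG F (PC.D4.wsw n d hd.le)⁻¹ = (permG F (PC.D4.wsw n d hd.le))⁻¹ := by
          refine eq_inv_of_mul_eq_one_right ?_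
          rw [← permG_mul, mul_inv_cancel, permG_one]
        rw [h5, inv_inv]
      rw [h4, permG_conj, ← hWe, ← hWe]
      show _ = ((permG F W * (inM F (fun a => (R a).κ) true h).1 * (permG F W)⁻¹ : GL (sk R) F) :
        Matrix (sk R) (sk R) F) (W (e i)) (W (e k))
      rw [permG_conj]
      exact hpe h i k
    · show levT F e (he_iff e he) (M h true) = inM F (fun a => (R a).κ) true h
      have h4 : M h true = p h := by
        apply Subtype.ext
        show (1 : GL (Fin n) F)⁻¹ * (p h).1 * 1 = (p h).1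
        rw [inv_one, one_mul, mul_one]
      rw [h4]
      exact (levT F e (he_iff e he)).apply_symm_apply _
  have hGG : ∀ h, (p h).1 ∈ PC.DP.GG F n d := by
    intro h i k hik
    rw [hpe]
    by_cases hb : sc R (e i) = sc R (e k)
    · have hf : sc R (e i) = false := by
        rw [he, he] at hb
        rw [he]
        rcases hik with hik | hik
        · simp [PC.D4.blk, hik]
        · rw [hb]
          simp [PC.D4.blk, hik]
      have hf' : sc R (e k) = false := hb.symm.trans hf
      have e1 : ∀ x y : sk R, x.1 = false → y.1 = false →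
          ((inM F (fun a => (R a).κ) true h).1 : Matrix (sk R) (sk R) F) x y =
            (1 : Matrix (sk R) (sk R) F) x y := by
        rintro ⟨a, x⟩ ⟨b, y⟩ rfl rfl
        have h5 := blkM_inM_ne (F := F) (fun a => (R a).κ) true false (by decide) h
        have h6 : (blkM F (fun a => (R a).κ) false (inM F (fun a => (R a).κ) true h) :
          Matrix (R false).κ (R false).κ F) x y = (1 : Matrix (R false).κ (R false).κ F) x y := by
          rw [h5, Units.val_one]
        rw [blkM_apply] at h6
        rw [h6, Matrix.one_apply, Matrix.one_apply]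
        simp
      rw [e1 _ _ hf hf', Matrix.one_apply, Matrix.one_apply]
      simp
    · rw [(inM F (fun a => (R a).κ) true h).2 _ _ hb, Matrix.one_apply_ne]
      rintro rfl
      exact hb rfl
  have key : ∀ h v t', GLRepB_c 1 h * β₁ (tenRep R (Q h t) v) (tD R (Q h (!t)) t') = β₁ v t' := by
    intro h v t'
    have h3 := hβ (p h).1 (hGG h) (M h t) (M h (!t)) rfl rfl v (j t')
    rw [hje, RelN_det e he h] at h3
    have h4 : plR e he (tenRep R) (M h t) v = tenRep R (Q h t) v := by
      rw [plR_apply, hMQ]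
    have h5 : plR e he (tD R) (M h (!t)) t' = tD R (Q h (!t)) t' := by
      rw [plR_apply, hMQ]
    rw [h4, h5] at h3
    exact h3
  cases t
  · right
    refine rel_ten R hR false true ε.symm β₁ hβ1 fun h v t' => ?_
    have h3 := key (glRe ε.symm h) v t'
    have h4 : Q (glRe ε.symm h) false = inM F (fun a => (R a).κ) false h := by
      show inM F (fun a => (R a).κ) false (glRe ε (glRe ε.symm h)) = _
      rw [GLRepB_symm']
    have h5 : Q (glRe ε.symm h) (!false) = inM F (fun a => (R a).κ) true (glRe ε.symm h) := rfl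
    rw [h4, h5, GLRepB_c_re] at h3
    exact h3
  · left
    exact rel_ten R hR true false ε β₁ hβ1 fun h v t' => key h v t'

end

theorem far_one (R : Bool → GLRep F) (hR : ∀ a, (R a).Cusp) (hne : ¬ (R false).Isom (R true))
    (h1 : ¬ (R true).Isom ((R false).tw (-1))) (h2 : ¬ (R false).Isom ((R true).tw (-1)))
    {τ₁ τ₂ : Bool → ℤ} (H : Opp2 (fun _ : Bool => ()) τ₁ τ₂) :
    Irr (IRp (sc R) (fun _ => ()) τ₁ H.h₁ (tenRep R)) := by
  by_contra hni
  obtain ⟨n, d, hd1, hd, e, he, s, A, B, eA, eB, A0, B0, AB, BA⟩ :=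
    tw_r1 H (sc_surj R hR) (ten_smooth R fun a => (hR a).1) (ten_irr R hR) (ten_cusp R hR)
      (noIso_ten R hR hne) hni
  rcases rel_main e he hR hne hd1 hd s A B eA eB A0 B0 AB BA with h | h
  · exact h1 h
  · exact h2 h

theorem RelN_opp : Opp2 (fun _ : Bool => ()) oP oM := ⟨rfl, oP_inj, oM_inj, by decide⟩

/-- the products of two cuspidal representations which are not related -/
theorem far_irr (A B : GLRep F) (hA : A.Cusp) (hB : B.Cusp) (hne : ¬ A.Isom B)
    (h1 : ¬ A.Isom (B.tw 1)) (h2 : ¬ B.Isom (A.tw 1)) :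
    (A.mul B).Irred ∧ (B.mul A).Irred := by
  let R : Bool → GLRep F := fun b => if b = true then B else A
  have hR : ∀ b, (R b).Cusp := by
    intro b
    cases b
    · exact hA
    · exact hB
  have hs : ∀ b, IsSm (R b).π := fun b => (hR b).1
  have k1 : ¬ (R true).Isom ((R false).tw (-1)) := fun h => h1 (rel_tw B A h)
  have k2 : ¬ (R false).Isom ((R true).tw (-1)) := fun h => h2 (rel_tw A B h)
  constructor
  · exact (mul_bool_irr R hs oP_inj false true (by decide)).2 (far_one R hR hne k1 k2 RelN_opp)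
  · exact (mul_bool_irr R hs oM_inj true false (by decide)).2
      (far_one R hR hne k1 k2 RelN_opp.symm)

end

end Pool.Agent.Lib.MP_ca1492_al.P
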