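import Mathlib
import Pool.Agent.Lib.MP_ca1492_al.Cmp.Fam
import Pool.Agent.Lib.MP_ca1492_al.D4.SelfD
import Pool.Agent.Lib.MP_ca1492_al.D5.TwoR

/-!
# MP_ca1492_al, comparison, module SelfN: products of two isomorphic cuspidal representations
-/

set_option autoImplicit false

namespace Pool.Agent.Lib.MP_ca1492_al.P

open Topology Matrix ValuativeRel TensorProduct
open Pool.Agent.Lib.MP_ca1492_al.Q (GLRep)

noncomputable section

variable {F : Type} [Field F] [ValuativeRel F] [TopologicalSpace F]
  [IsNonarchimedeanLocalField F]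

/-- two isomorphic strands, `true` before `false` -/
theorem self_pairT {ι' : Type} {β : Bool → ι'} (hβ : ∀ x y : Bool, β x = β y) (τ : Bool → ℤ)
    (hτ : Function.Injective τ) (hlt : τ true < τ false) (R : Bool → GLRep F)
    (hR : ∀ a, (R a).Cusp) (hiso : (R true).Isom (R false)) :
    Irr (IRp (sc R) β τ hτ (tenRep R)) := by
  obtain ⟨n, d, h1, hd, e, he⟩ := D5.exists_e (sc R) (sc_surj R hR)
  have hs : ∀ x y, τ x < τ y ↔ D5.tS true x < D5.tS true y := by
    intro x y
    cases x <;> cases y <;> simp [D5.tS] <;> omega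
  obtain ⟨Θ, -, hΘ⟩ := D5.trX_ex e he hβ τ hτ true hs (tenRep R)
  have h3 : Irr (PC.D4.InS true (D5.plR e he (tenRep R))) :=
    PC.D4.self_irr_ten R e he (D5.he_iff e he) h1 hd.le hR hiso
  exact D5.TwoR_irr _ _ Θ (D5.gT e hβ) hΘ h3

/-- two isomorphic strands -/
theorem self_pair (τ : Bool → ℤ) (hτ : Function.Injective τ) (R : Bool → GLRep F)
    (hR : ∀ a, (R a).Cusp) (hiso : (R true).Isom (R false)) :
    Irr (IRp (sc R) (fun _ => ()) τ hτ (tenRep R)) := by
  rcases lt_or_gt_of_ne (fun h => Bool.noConfusion (hτ h) : τ true ≠ τ false) with h | h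
  · exact self_pairT (fun _ _ => rfl) τ hτ h R hR hiso
  · have hs : ∀ a, IsSm (R a).π := fun a => (hR a).1
    rw [← mul_bool_irr R hs hτ false true h]
    have hM : Function.Injective (fun x : Bool => cond x (0 : ℤ) 1) := by decide
    have h1 : ((R true).mul (R false)).Irred :=
      (mul_bool_irr R hs hM true false (by decide)).2
        (self_pairT (fun _ _ => rfl) _ hM (by decide) R hR hiso)
    exact (isom_irr (hiso.mul hiso.symm)).1 h1

theorem self_mul (A : GLRep F) (hA : A.Cusp) : (A.mul A).Irred := by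
  have hM : Function.Injective (fun x : Bool => cond x (0 : ℤ) 1) := by decide
  exact (mul_bool_irr (fun _ => A) (fun _ => hA.1) hM true false (by decide)).2
    (self_pairT (fun _ _ => rfl) _ hM (by decide) (fun _ => A) (fun _ => hA)
      (GLRep.Isom.refl A))

end

end Pool.Agent.Lib.MP_ca1492_al.P
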